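import Mathlib

/-!
Shared definitions for MP_281388_al (parity pairs of complete mappings).

See scratch blueprint. Everything here is auxiliary: nothing occurs in the final statement.
-/

set_option autoImplicit false

open scoped BigOperators

namespace Pool.Agent.Lib.MP_281388_al

/-! ### Real sequences for the coefficient bound -/

/-- `τ(j) = e^j j! / j^j` (so `τ(0) = 1`). -/
noncomputable def tau (j : ℕ) : ℝ := Real.exp j * (j.factorial : ℝ) / (j : ℝ) ^ j

/-- `w(j) = j! τ(j) = e^j (j!)^2 / j^j`. -/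
noncomputable def wt (j : ℕ) : ℝ := (j.factorial : ℝ) * tau j

/-- `TT m D = ∑_{κ : [m] → [D]} ∏_q w(#κ⁻¹(q))`. -/
noncomputable def TT (m D : ℕ) : ℝ :=
  ∑ κ : Fin m → Fin D, ∏ q : Fin D, wt (Finset.univ.filter (fun i => κ i = q)).card

/-- `GG j d = TT(j,d²)^{3/2} d^{-j/2} / j!`. -/
noncomputable def GG (j d : ℕ) : ℝ :=
  (TT j (d ^ 2)) ^ (3 / 2 : ℝ) * (d : ℝ) ^ (-(j : ℝ) / 2) / (j.factorial : ℝ)

/-! ### Orbits of permutations -/

/-- Number of cycles of `π` (fixed points included). -/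
noncomputable def orb {α : Type*} (π : Equiv.Perm α) : ℕ :=
  Nat.card (Quotient (Equiv.Perm.SameCycle.setoid π))

/-- Number of orbits of the group generated by `π` and `σ`. -/
noncomputable def orb2 {α : Type*} (π σ : Equiv.Perm α) : ℕ :=
  Nat.card (Quotient (Equiv.Perm.SameCycle.setoid π ⊔ Equiv.Perm.SameCycle.setoid σ))

/-- The fixed point free permutations of `[k]`. -/
def Der (k : ℕ) : Finset (Equiv.Perm (Fin k)) :=
  Finset.univ.filter (fun π => ∀ i, π i ≠ i)

/-- `S_π(n) = ∑_{σ ∈ Der k} n^{-(k - p(σ))/2 - (p(π) - o(π,σ))/2}`. -/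
noncomputable def Spi (n : ℕ) {k : ℕ} (π : Equiv.Perm (Fin k)) : ℝ :=
  ∑ σ ∈ Der k, (n : ℝ) ^ ((((orb σ : ℝ) - k) + ((orb2 π σ : ℝ) - orb π)) / 2)

/-- multiplicity of the label `σ` in `s` -/
def mult {ι S : Type*} [Fintype ι] [DecidableEq S] (s : ι → S) (σ : S) : ℕ :=
  (Finset.univ.filter (fun i => s i = σ)).card

/-- `c_k = n^k / (n)_k`. -/
noncomputable def ck (n k : ℕ) : ℝ := (n : ℝ) ^ k / (n.descFactorial k : ℝ)

end Pool.Agent.Lib.MP_281388_al
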