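import Mathlib
import Pool.Agent.Lib.MP_281388_al.Defs

set_option autoImplicit false

open scoped BigOperators ComplexConjugate
open Finset Matrix

namespace Pool.Agent.Lib.MP_281388_al

section unitarise
open scoped MatrixOrder ComplexOrder

theorem unitarise {G : Type*} [Group G] [Fintype G] {d : ℕ}
    (ρ : G → Matrix (Fin d) (Fin d) ℂ) (h1 : ρ 1 = 1) (hmul : ∀ g h, ρ (g * h) = ρ g * ρ h) :
    ∃ B : Matrix (Fin d) (Fin d) ℂ, IsUnit B ∧
      ∀ g, (B * ρ g * B⁻¹)ᴴ * (B * ρ g * B⁻¹) = 1 := by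
  classical
  set H : Matrix (Fin d) (Fin d) ℂ := ∑ g, (ρ g)ᴴ * ρ g with hH
  have hinj : ∀ g, Function.Injective (ρ g).mulVec := by
    intro g v w hvw
    have h2 : ρ g⁻¹ * ρ g = 1 := by rw [← hmul, inv_mul_cancel, h1]
    have h3 := congrArg (fun u => (ρ g⁻¹).mulVec u) hvw
    simpa [Matrix.mulVec_mulVec, h2] using h3
  have hpos : H.PosDef := by
    apply Matrix.posDef_sum ⟨1, Finset.mem_univ _⟩
    intro g _
    exact Matrix.PosDef.conjTranspose_mul_self _ (hinj g)
  have hHinv : ∀ g, (ρ g)ᴴ * H * ρ g = H := by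
    intro g
    rw [hH, Finset.mul_sum, Finset.sum_mul]
    rw [← Equiv.sum_comp (Equiv.mulRight g) (fun x => (ρ x)ᴴ * ρ x)]
    refine Finset.sum_congr rfl fun x _ => ?_
    rw [Equiv.coe_mulRight, hmul, Matrix.conjTranspose_mul]
    simp only [Matrix.mul_assoc]
  obtain ⟨B, hB⟩ := (CStarAlgebra.nonneg_iff_eq_star_mul_self (a := H)).1 hpos.posSemidef.nonneg
  have hBu : IsUnit B := by
    have := hpos.isUnit
    rw [hB] at this
    rw [Matrix.isUnit_iff_isUnit_det] at this ⊢
    rw [Matrix.det_mul] at this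
    exact isUnit_of_mul_isUnit_right this
  refine ⟨B, hBu, fun g => ?_⟩
  have hBd : IsUnit B.det := (Matrix.isUnit_iff_isUnit_det B).1 hBu
  have e1 : (B⁻¹)ᴴ * Bᴴ = 1 := by
    rw [← Matrix.conjTranspose_mul, Matrix.mul_nonsing_inv _ hBd, Matrix.conjTranspose_one]
  have hB' : Bᴴ * B = H := by rw [hB]; rfl
  calc (B * ρ g * B⁻¹)ᴴ * (B * ρ g * B⁻¹)
      = (B⁻¹)ᴴ * ((ρ g)ᴴ * (Bᴴ * B) * ρ g) * B⁻¹ := by
        simp only [Matrix.conjTranspose_mul, Matrix.mul_assoc]
    _ = (B⁻¹)ᴴ * (Bᴴ * B) * B⁻¹ := by rw [hB', hHinv]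
    _ = ((B⁻¹)ᴴ * Bᴴ) * (B * B⁻¹) := by simp only [Matrix.mul_assoc]
    _ = 1 := by rw [e1, Matrix.mul_nonsing_inv _ hBd, one_mul]

end unitarise

/-- A Fourier system on a finite group: a complete list of unitary matrix representations
with the orthogonality relations. -/
structure FS (G : Type*) [Group G] [Fintype G] where
  S : Type
  fS : Fintype S
  dS : DecidableEq S
  d : S → ℕ
  dpos : ∀ s, 1 ≤ d s
  U : (s : S) → G → Matrix (Fin (d s)) (Fin (d s)) ℂ
  U_one : ∀ s, U s 1 = 1
  U_mul : ∀ s g h, U s (g * h) = U s g * U s h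
  orth_ne : ∀ s t, s ≠ t → ∀ a b c e, ∑ g, U s g a b * conj (U t g c e) = 0
  orth_eq : ∀ s a b c e, ∑ g, U s g a b * conj (U s g c e) =
    if a = c ∧ b = e then (Fintype.card G : ℂ) / d s else 0
  dim : ∑ s, d s ^ 2 = Fintype.card G

attribute [instance] FS.fS FS.dS

theorem exists_FS (G : Type) [Group G] [Fintype G] : Nonempty (FS G) := by
  classical
  have : NeZero (Nat.card G : ℂ) := ⟨by
    rw [Nat.card_eq_fintype_card]; exact_mod_cast Fintype.card_ne_zero⟩
  have : IsSemisimpleRing (MonoidAlgebra ℂ G) := by infer_instance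
  have : FiniteDimensional ℂ (MonoidAlgebra ℂ G) := by infer_instance
  obtain ⟨n, d, hd, ⟨e⟩⟩ :=
    IsSemisimpleRing.exists_algEquiv_pi_matrix_of_isAlgClosed (F := ℂ) (R := MonoidAlgebra ℂ G)
  -- the representations
  let ρ : (i : Fin n) → G → Matrix (Fin (d i)) (Fin (d i)) ℂ :=
    fun i g => e (MonoidAlgebra.single g 1) i
  have ρ1 : ∀ i, ρ i 1 = 1 := by
    intro i
    have : (MonoidAlgebra.single (1 : G) (1 : ℂ)) = 1 := rfl
    simp only [ρ, this, map_one, Pi.one_apply]
  have ρm : ∀ i g h, ρ i (g * h) = ρ i g * ρ i h := by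
    intro i g h
    have : (MonoidAlgebra.single (g * h) (1 : ℂ)) =
        MonoidAlgebra.single g 1 * MonoidAlgebra.single h 1 := by
      rw [MonoidAlgebra.single_mul_single, one_mul]
    simp only [ρ, this, map_mul, Pi.mul_apply]
  choose B hB hU using fun i => unitarise (ρ i) (ρ1 i) (ρm i)
  have hBd : ∀ i, IsUnit (B i).det := fun i => (Matrix.isUnit_iff_isUnit_det (B i)).1 (hB i)
  let U : (i : Fin n) → G → Matrix (Fin (d i)) (Fin (d i)) ℂ := fun i g => B i * ρ i g * (B i)⁻¹
  have U1 : ∀ i, U i 1 = 1 := by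
    intro i
    simp only [U, ρ1, mul_one, Matrix.mul_nonsing_inv _ (hBd i)]
  have Um : ∀ i g h, U i (g * h) = U i g * U i h := by
    intro i g h
    simp only [U, ρm]
    calc B i * (ρ i g * ρ i h) * (B i)⁻¹
        = B i * ρ i g * 1 * (ρ i h * (B i)⁻¹) := by simp only [Matrix.mul_assoc, one_mul]
      _ = B i * ρ i g * ((B i)⁻¹ * B i) * (ρ i h * (B i)⁻¹) := by
          rw [Matrix.nonsing_inv_mul _ (hBd i)]
      _ = _ := by simp only [Matrix.mul_assoc]
  -- joint surjectivity
  have hsurj : ∀ M : (i : Fin n) → Matrix (Fin (d i)) (Fin (d i)) ℂ,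
      ∃ c : G → ℂ, ∀ i, ∑ g, c g • U i g = M i := by
    intro M
    let x : MonoidAlgebra ℂ G := e.symm (fun i => (B i)⁻¹ * M i * B i)
    refine ⟨fun g => x.coeff g, fun i => ?_⟩
    have h1 : ∑ g, x.coeff g • ρ i g = (B i)⁻¹ * M i * B i := by
      have hx : x = ∑ g, x.coeff g • MonoidAlgebra.single g (1 : ℂ) := by
        ext g
        rw [MonoidAlgebra.coeff_sum, Finsupp.finsetSum_apply]
        simp [Finsupp.single_apply]
      have h2 : e x i = (B i)⁻¹ * M i * B i := by simp [x]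
      rw [← h2]
      conv_rhs => rw [hx]
      rw [map_sum, Finset.sum_apply]
      refine Finset.sum_congr rfl fun g _ => ?_
      rw [map_smul, Pi.smul_apply]
    have h3 : ∑ g, x.coeff g • U i g = B i * (∑ g, x.coeff g • ρ i g) * (B i)⁻¹ := by
      rw [Finset.mul_sum, Finset.sum_mul]
      refine Finset.sum_congr rfl fun g _ => ?_
      simp [U]
    rw [h3, h1]
    calc B i * ((B i)⁻¹ * M i * B i) * (B i)⁻¹
        = (B i * (B i)⁻¹) * M i * (B i * (B i)⁻¹) := by simp only [Matrix.mul_assoc]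
      _ = M i := by rw [Matrix.mul_nonsing_inv _ (hBd i), one_mul, mul_one]
  have Uinv : ∀ i g, U i g⁻¹ = (U i g)ᴴ := by
    intro i g
    have h1 : U i g⁻¹ * U i g = 1 := by rw [← Um, inv_mul_cancel, U1]
    have h2 : (U i g)ᴴ * U i g = 1 := hU i g
    have h3 : U i g * U i g⁻¹ = 1 := by rw [← Um, mul_inv_cancel, U1]
    calc U i g⁻¹ = ((U i g)ᴴ * U i g) * U i g⁻¹ := by rw [h2, one_mul]
      _ = (U i g)ᴴ * (U i g * U i g⁻¹) := by rw [Matrix.mul_assoc]
      _ = (U i g)ᴴ := by rw [h3, mul_one]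
  -- the intertwiner
  let Y : (i j : Fin n) → Matrix (Fin (d i)) (Fin (d j)) ℂ → Matrix (Fin (d i)) (Fin (d j)) ℂ :=
    fun i j X => ∑ g, U i g * X * U j g⁻¹
  have hY : ∀ i j X h, U i h * Y i j X = Y i j X * U j h := by
    intro i j X h
    simp only [Y, Matrix.mul_sum, Matrix.sum_mul]
    rw [← Equiv.sum_comp (Equiv.mulLeft h) (fun g => U i g * X * U j g⁻¹ * U j h)]
    refine Finset.sum_congr rfl fun g _ => ?_
    rw [Equiv.coe_mulLeft, _root_.mul_inv_rev, Um, Um]
    have : U j h⁻¹ * U j h = 1 := by rw [← Um, inv_mul_cancel, U1]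
    simp only [Matrix.mul_assoc, this, mul_one]
  have hY2 : ∀ i j X (M : (i : Fin n) → Matrix (Fin (d i)) (Fin (d i)) ℂ),
      M i * Y i j X = Y i j X * M j := by
    intro i j X M
    obtain ⟨c, hc⟩ := hsurj M
    rw [← hc i, ← hc j, Matrix.sum_mul, Matrix.mul_sum]
    refine Finset.sum_congr rfl fun g _ => ?_
    rw [Matrix.smul_mul, Matrix.mul_smul, hY]
  have hYne : ∀ i j, i ≠ j → ∀ X, Y i j X = 0 := by
    intro i j hij X
    have := hY2 i j X (Function.update (fun _ => 0) i 1)
    rw [Function.update_self, Function.update_of_ne (Ne.symm hij)] at this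
    simpa using this
  have hYeq : ∀ i X, Y i i X = ((Fintype.card G : ℂ) * X.trace / d i) • (1 : Matrix _ _ ℂ) := by
    intro i X
    have hcomm : ∀ M : Matrix (Fin (d i)) (Fin (d i)) ℂ, M * Y i i X = Y i i X * M := by
      intro M
      have := hY2 i i X (Function.update (fun _ => 0) i M)
      simpa using this
    obtain ⟨c, hc⟩ := Matrix.mem_range_scalar_of_commute_single (M := Y i i X)
      (fun a b _ => hcomm _)
    have htr : (Y i i X).trace = (Fintype.card G : ℂ) * X.trace := by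
      simp only [Y, Matrix.trace_sum]
      have : ∀ g, (U i g * X * U i g⁻¹).trace = X.trace := by
        intro g
        rw [Matrix.trace_mul_comm, ← Matrix.mul_assoc, ← Um, inv_mul_cancel, U1, one_mul]
      simp [this]
    have hdi : (d i : ℂ) ≠ 0 := by exact_mod_cast (hd i).out
    have hc2 : (d i : ℂ) * c = (Fintype.card G : ℂ) * X.trace := by
      rw [← htr, ← hc]
      simp [Matrix.trace, Matrix.scalar_apply]
    rw [← hc, ← hc2]
    ext a b
    simp [Matrix.scalar_apply, Matrix.diagonal_apply, Matrix.one_apply, hdi]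
  have hent : ∀ i j (a b : Fin (d i)) (c e' : Fin (d j)),
      ∑ g, U i g a b * conj (U j g c e') = Y i j (Matrix.single b e' 1) a c := by
    intro i j a b c e'
    simp only [Y, Matrix.sum_apply]
    refine Finset.sum_congr rfl fun g _ => ?_
    rw [Uinv, Matrix.mul_apply]
    simp only [Matrix.mul_apply, Matrix.conjTranspose_apply, Matrix.single_apply]
    rw [Finset.sum_eq_single e']
    · rw [Finset.sum_eq_single b]
      · simp
      · intro b' _ hb'
        simp [hb'.symm]
      · simp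
    · intro e'' _ he''
      rw [Finset.sum_eq_zero, zero_mul]
      intro b' _
      simp [he''.symm]
    · simp
  refine ⟨{ S := Fin n, fS := inferInstance, dS := inferInstance, d := d,
            dpos := fun i => Nat.one_le_iff_ne_zero.2 (hd i).out, U := U, U_one := U1,
            U_mul := Um, orth_ne := ?_, orth_eq := ?_, dim := ?_ }⟩
  · intro i j hij a b c e'
    rw [hent, hYne i j hij]
    rfl
  · intro i a b c e'
    rw [hent, hYeq]
    by_cases hbe : b = e'
    · subst hbe
      by_cases hac : a = c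
      · subst hac
        simp
      · simp [hac]
    · simp [hbe]
  · have h1 := e.toLinearEquiv.finrank_eq
    have h2 : Module.finrank ℂ (MonoidAlgebra ℂ G) = Fintype.card G := by
      rw [(MonoidAlgebra.coeffLinearEquiv ℂ (S := ℂ) (M := G)).finrank_eq]
      exact Module.finrank_finsupp_self ℂ
    rw [h2, Module.finrank_pi_fintype] at h1
    rw [h1]
    refine Finset.sum_congr rfl fun i _ => ?_
    rw [Module.finrank_matrix]
    simp [sq]

end Pool.Agent.Lib.MP_281388_al
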