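import Mathlib
import Pool.Agent.Lib.MP_281388_al.Defs

set_option autoImplicit false

open scoped BigOperators ComplexConjugate
open Finset Matrix

namespace Pool.Agent.Lib.MP_281388_al

section abstractFourier

variable {Γ S : Type*} [Group Γ] [Fintype Γ] [DecidableEq Γ] [Fintype S] {K : S → Type*}
  [∀ s, Fintype (K s)] (U : (s : S) → Γ → Matrix (K s) (K s) ℂ)

/-- Fourier coefficient matrices -/
noncomputable def Aco (s : S) (f : Γ → ℂ) : Matrix (K s) (K s) ℂ :=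
  fun a b => (Fintype.card Γ : ℂ)⁻¹ * ∑ x, f x * U s x a b

/-- energies -/
noncomputable def Een (s : S) (f : Γ → ℂ) : ℝ :=
  (Fintype.card (K s) : ℝ) * ∑ a, ∑ b, ‖Aco U s f a b‖ ^ 2

/-- the contribution of `s` to the trilinear form -/
noncomputable def Lam (s : S) (f g h : Γ → ℂ) : ℂ :=
  (Fintype.card (K s) : ℂ) * ∑ a, ∑ b, (Aco U s f * Aco U s g) a b * conj (Aco U s h a b)

/-- column orthogonality -/
def ColOrth : Prop :=
  ∀ x y : Γ, ∑ s, (Fintype.card (K s) : ℂ) * ∑ a, ∑ b, U s x a b * conj (U s y a b) =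
    if x = y then (Fintype.card Γ : ℂ) else 0

omit [Group Γ] [DecidableEq Γ] [Fintype S] in
theorem Een_nonneg (s : S) (f : Γ → ℂ) : 0 ≤ Een U s f := by
  unfold Een
  positivity

omit [Group Γ] [DecidableEq Γ] in
theorem card_ne_zero' [Nonempty Γ] : (Fintype.card Γ : ℂ) ≠ 0 := by
  exact_mod_cast Fintype.card_ne_zero

omit [Fintype S] [DecidableEq Γ] in
theorem Aco_mul (hmul : ∀ s x y, U s (x * y) = U s x * U s y) (s : S) (f g : Γ → ℂ) (a b : K s) :
    (Aco U s f * Aco U s g) a b =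
      ((Fintype.card Γ : ℂ)⁻¹) ^ 2 * ∑ x, ∑ y, f x * g y * U s (x * y) a b := by
  rw [Matrix.mul_apply]
  have h1 : ∀ c, Aco U s f a c * Aco U s g c b =
      ∑ x, ∑ y, ((Fintype.card Γ : ℂ)⁻¹) ^ 2 * (f x * g y * (U s x a c * U s y c b)) := by
    intro c
    have : Aco U s f a c * Aco U s g c b = ((Fintype.card Γ : ℂ)⁻¹) ^ 2 *
        ((∑ x, f x * U s x a c) * (∑ y, g y * U s y c b)) := by
      simp only [Aco]; ring
    rw [this, Finset.sum_mul_sum, Finset.mul_sum]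
    refine Finset.sum_congr rfl fun x _ => ?_
    rw [Finset.mul_sum]
    refine Finset.sum_congr rfl fun y _ => ?_
    ring
  rw [Finset.sum_congr rfl fun c _ => h1 c]
  rw [Finset.sum_comm, Finset.mul_sum]
  refine Finset.sum_congr rfl fun x _ => ?_
  rw [Finset.sum_comm, Finset.mul_sum]
  refine Finset.sum_congr rfl fun y _ => ?_
  rw [hmul, Matrix.mul_apply, ← Finset.mul_sum, ← Finset.mul_sum]

theorem trilinear (hcol : ColOrth U) (hmul : ∀ s x y, U s (x * y) = U s x * U s y)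
    (f g h : Γ → ℂ) :
    ∑ s, Lam U s f g h =
      ((Fintype.card Γ : ℂ)⁻¹) ^ 2 * ∑ x, ∑ y, f x * g y * conj (h (x * y)) := by
  have hN : (Fintype.card Γ : ℂ) ≠ 0 := card_ne_zero'
  have key : ∀ s, Lam U s f g h = ∑ x, ∑ y, ∑ z,
      ((Fintype.card Γ : ℂ)⁻¹) ^ 3 * (f x * g y * conj (h z)) *
        ((Fintype.card (K s) : ℂ) * ∑ a, ∑ b, U s (x * y) a b * conj (U s z a b)) := by
    intro s
    unfold Lam
    have h1 : ∀ a b, (Aco U s f * Aco U s g) a b * conj (Aco U s h a b) =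
        ∑ x, ∑ y, ∑ z, ((Fintype.card Γ : ℂ)⁻¹) ^ 3 * (f x * g y * conj (h z)) *
          (U s (x * y) a b * conj (U s z a b)) := by
      intro a b
      rw [Aco_mul U hmul]
      simp only [Aco, map_mul, map_inv₀, map_sum, Complex.conj_natCast]
      rw [mul_assoc, Finset.sum_mul, Finset.mul_sum]
      refine Finset.sum_congr rfl fun x _ => ?_
      rw [Finset.sum_mul, Finset.mul_sum]
      refine Finset.sum_congr rfl fun y _ => ?_
      rw [Finset.mul_sum, Finset.mul_sum, Finset.mul_sum]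
      refine Finset.sum_congr rfl fun z _ => ?_
      ring
    simp only [h1]
    simp only [Finset.mul_sum]
    -- move the sums over a b inside
    rw [Finset.sum_congr rfl fun a _ => Finset.sum_comm]
    rw [Finset.sum_comm]
    refine Finset.sum_congr rfl fun x _ => ?_
    rw [Finset.sum_congr rfl fun a _ => Finset.sum_comm]
    rw [Finset.sum_comm]
    refine Finset.sum_congr rfl fun y _ => ?_
    rw [Finset.sum_congr rfl fun a _ => Finset.sum_comm]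
    rw [Finset.sum_comm]
    refine Finset.sum_congr rfl fun z _ => ?_
    refine Finset.sum_congr rfl fun a _ => ?_
    refine Finset.sum_congr rfl fun b _ => ?_
    ring
  rw [Finset.sum_congr rfl fun s _ => key s]
  rw [Finset.sum_comm, Finset.mul_sum]
  refine Finset.sum_congr rfl fun x _ => ?_
  rw [Finset.sum_comm, Finset.mul_sum]
  refine Finset.sum_congr rfl fun y _ => ?_
  rw [Finset.sum_comm]
  have h2 : ∀ z, ∑ s, ((Fintype.card Γ : ℂ)⁻¹) ^ 3 * (f x * g y * conj (h z)) *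
        ((Fintype.card (K s) : ℂ) * ∑ a, ∑ b, U s (x * y) a b * conj (U s z a b)) =
      ((Fintype.card Γ : ℂ)⁻¹) ^ 3 * (f x * g y * conj (h z)) *
        (if x * y = z then (Fintype.card Γ : ℂ) else 0) := by
    intro z
    rw [← Finset.mul_sum, hcol]
  rw [Finset.sum_congr rfl fun z _ => h2 z]
  rw [Finset.sum_eq_single (x * y)]
  · rw [if_pos rfl]
    field_simp
  · intro z _ hz
    rw [if_neg hz.symm, mul_zero]
  · simp

theorem parseval (hcol : ColOrth U) (f : Γ → ℂ) :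
    ∑ s, Een U s f = (Fintype.card Γ : ℝ)⁻¹ * ∑ x, ‖f x‖ ^ 2 := by
  have hN : (Fintype.card Γ : ℂ) ≠ 0 := card_ne_zero'
  have key : ∀ s, ((Een U s f : ℝ) : ℂ) = ∑ x, ∑ z,
      ((Fintype.card Γ : ℂ)⁻¹) ^ 2 * (f x * conj (f z)) *
        ((Fintype.card (K s) : ℂ) * ∑ a, ∑ b, U s x a b * conj (U s z a b)) := by
    intro s
    unfold Een
    have h1 : ∀ a b, ((‖Aco U s f a b‖ ^ 2 : ℝ) : ℂ) =
        ∑ x, ∑ z, ((Fintype.card Γ : ℂ)⁻¹) ^ 2 * (f x * conj (f z)) *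
          (U s x a b * conj (U s z a b)) := by
      intro a b
      have : ((‖Aco U s f a b‖ ^ 2 : ℝ) : ℂ) = Aco U s f a b * conj (Aco U s f a b) := by
        rw [Complex.mul_conj, Complex.normSq_eq_norm_sq]
      rw [this]
      simp only [Aco, map_mul, map_inv₀, map_sum, Complex.conj_natCast]
      simp only [Finset.mul_sum, Finset.sum_mul]
      rw [Finset.sum_comm]
      refine Finset.sum_congr rfl fun x _ => ?_
      refine Finset.sum_congr rfl fun z _ => ?_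
      ring
    rw [Complex.ofReal_mul, Complex.ofReal_sum]
    simp only [Complex.ofReal_sum, h1, Complex.ofReal_natCast]
    simp only [Finset.mul_sum]
    rw [Finset.sum_congr rfl fun a _ => Finset.sum_comm]
    rw [Finset.sum_comm]
    refine Finset.sum_congr rfl fun x _ => ?_
    rw [Finset.sum_congr rfl fun a _ => Finset.sum_comm]
    rw [Finset.sum_comm]
    refine Finset.sum_congr rfl fun z _ => ?_
    refine Finset.sum_congr rfl fun a _ => ?_
    refine Finset.sum_congr rfl fun b _ => ?_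
    ring
  have main : ((∑ s, Een U s f : ℝ) : ℂ) =
      (((Fintype.card Γ : ℝ)⁻¹ * ∑ x, ‖f x‖ ^ 2 : ℝ) : ℂ) := by
    rw [Complex.ofReal_sum, Finset.sum_congr rfl fun s _ => key s]
    rw [Finset.sum_comm, Complex.ofReal_mul, Complex.ofReal_sum, Finset.mul_sum]
    refine Finset.sum_congr rfl fun x _ => ?_
    rw [Finset.sum_comm]
    have h2 : ∀ z, ∑ s, ((Fintype.card Γ : ℂ)⁻¹) ^ 2 * (f x * conj (f z)) *
          ((Fintype.card (K s) : ℂ) * ∑ a, ∑ b, U s x a b * conj (U s z a b)) =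
        ((Fintype.card Γ : ℂ)⁻¹) ^ 2 * (f x * conj (f z)) *
          (if x = z then (Fintype.card Γ : ℂ) else 0) := by
      intro z
      rw [← Finset.mul_sum, hcol]
    rw [Finset.sum_congr rfl fun z _ => h2 z]
    rw [Finset.sum_eq_single x]
    · rw [if_pos rfl, Complex.mul_conj, Complex.normSq_eq_norm_sq]
      push_cast
      field_simp
    · intro z _ hz
      rw [if_neg hz.symm, mul_zero]
    · simp
  exact_mod_cast main

omit [Group Γ] [Fintype S] [DecidableEq Γ] in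
theorem hs_mul_le (s : S) (A B : Matrix (K s) (K s) ℂ) :
    ∑ a, ∑ b, ‖(A * B) a b‖ ^ 2 ≤ (∑ a, ∑ b, ‖A a b‖ ^ 2) * (∑ a, ∑ b, ‖B a b‖ ^ 2) := by
  have h1 : ∀ a b, ‖(A * B) a b‖ ^ 2 ≤ (∑ c, ‖A a c‖ ^ 2) * (∑ c, ‖B c b‖ ^ 2) := by
    intro a b
    have h2 : ‖(A * B) a b‖ ≤ ∑ c, ‖A a c‖ * ‖B c b‖ := by
      rw [Matrix.mul_apply]
      refine (norm_sum_le _ _).trans (Finset.sum_le_sum fun c _ => ?_)
      rw [norm_mul]
    calc ‖(A * B) a b‖ ^ 2 ≤ (∑ c, ‖A a c‖ * ‖B c b‖) ^ 2 := by gcongr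
      _ ≤ _ := Finset.sum_mul_sq_le_sq_mul_sq _ _ _
  calc ∑ a, ∑ b, ‖(A * B) a b‖ ^ 2
      ≤ ∑ a, ∑ b, (∑ c, ‖A a c‖ ^ 2) * (∑ c, ‖B c b‖ ^ 2) :=
        Finset.sum_le_sum fun a _ => Finset.sum_le_sum fun b _ => h1 a b
    _ = (∑ a, ∑ b, ‖A a b‖ ^ 2) * (∑ b, ∑ c, ‖B c b‖ ^ 2) := by
        rw [Finset.sum_mul]
        refine Finset.sum_congr rfl fun a _ => ?_
        rw [Finset.mul_sum]
    _ = _ := by rw [Finset.sum_comm (f := fun b c => ‖B c b‖ ^ 2)]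

omit [Group Γ] [Fintype S] [DecidableEq Γ] in
theorem hs_inner_le (s : S) (A B : Matrix (K s) (K s) ℂ) :
    ‖∑ a, ∑ b, A a b * conj (B a b)‖ ^ 2 ≤
      (∑ a, ∑ b, ‖A a b‖ ^ 2) * (∑ a, ∑ b, ‖B a b‖ ^ 2) := by
  have h1 : ‖∑ a, ∑ b, A a b * conj (B a b)‖ ≤ ∑ p : K s × K s, ‖A p.1 p.2‖ * ‖B p.1 p.2‖ := by
    rw [Fintype.sum_prod_type]
    refine (norm_sum_le _ _).trans (Finset.sum_le_sum fun a _ => ?_)
    refine (norm_sum_le _ _).trans (Finset.sum_le_sum fun b _ => ?_)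
    rw [norm_mul, RCLike.norm_conj]
  calc ‖∑ a, ∑ b, A a b * conj (B a b)‖ ^ 2
      ≤ (∑ p : K s × K s, ‖A p.1 p.2‖ * ‖B p.1 p.2‖) ^ 2 := by gcongr
    _ ≤ (∑ p : K s × K s, ‖A p.1 p.2‖ ^ 2) * (∑ p : K s × K s, ‖B p.1 p.2‖ ^ 2) :=
        Finset.sum_mul_sq_le_sq_mul_sq _ _ _
    _ = _ := by rw [Fintype.sum_prod_type, Fintype.sum_prod_type]

omit [Group Γ] [DecidableEq Γ] [Fintype S] in
theorem Lam_norm_sq_le (s : S) (f g h : Γ → ℂ) :
    (Fintype.card (K s) : ℝ) * ‖Lam U s f g h‖ ^ 2 ≤ Een U s f * Een U s g * Een U s h := by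
  unfold Lam Een
  rw [norm_mul, mul_pow, Complex.norm_natCast]
  have h1 := hs_inner_le s (Aco U s f * Aco U s g) (Aco U s h)
  have h2 := hs_mul_le s (Aco U s f) (Aco U s g)
  set X := ∑ a, ∑ b, ‖(Aco U s f * Aco U s g) a b‖ ^ 2
  set Hh := ∑ a, ∑ b, ‖Aco U s h a b‖ ^ 2
  set Ff := ∑ a, ∑ b, ‖Aco U s f a b‖ ^ 2
  set Gg := ∑ a, ∑ b, ‖Aco U s g a b‖ ^ 2
  set L := ‖∑ a, ∑ b, (Aco U s f * Aco U s g) a b * conj (Aco U s h a b)‖
  set c := (Fintype.card (K s) : ℝ)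
  have hH : 0 ≤ Hh := by positivity
  have hc : 0 ≤ c := by positivity
  calc c * (c ^ 2 * L ^ 2) ≤ c * (c ^ 2 * (X * Hh)) := by gcongr
    _ ≤ c * (c ^ 2 * ((Ff * Gg) * Hh)) := by gcongr
    _ = c * Ff * (c * Gg) * (c * Hh) := by ring

omit [Group Γ] [DecidableEq Γ] [Fintype S] in
theorem Lam_norm_le (s : S) (hK : 0 < Fintype.card (K s)) (f : Γ → ℂ) :
    ‖Lam U s f f f‖ ≤
      (Fintype.card (K s) : ℝ) ^ (-(1 / 2) : ℝ) * (Een U s f) ^ (3 / 2 : ℝ) := by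
  have h1 := Lam_norm_sq_le U s f f f
  have hc : (0 : ℝ) < Fintype.card (K s) := by exact_mod_cast hK
  have hE := Een_nonneg U s f
  set c := (Fintype.card (K s) : ℝ)
  set E := Een U s f
  have h2 : ‖Lam U s f f f‖ ^ 2 ≤ (c ^ (-(1 / 2) : ℝ) * E ^ (3 / 2 : ℝ)) ^ 2 := by
    rw [mul_pow, ← Real.rpow_natCast (c ^ (-(1 / 2) : ℝ)), ← Real.rpow_natCast (E ^ (3 / 2 : ℝ)),
      ← Real.rpow_mul hc.le, ← Real.rpow_mul hE]
    have e1 : (-(1 / 2) : ℝ) * ((2 : ℕ) : ℝ) = -1 := by norm_num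
    have e2 : (3 / 2 : ℝ) * ((2 : ℕ) : ℝ) = ((3 : ℕ) : ℝ) := by norm_num
    rw [e1, e2, Real.rpow_natCast, Real.rpow_neg_one]
    rw [← div_eq_inv_mul, le_div_iff₀ hc]
    calc ‖Lam U s f f f‖ ^ 2 * c = c * ‖Lam U s f f f‖ ^ 2 := by ring
      _ ≤ E * E * E := h1
      _ = E ^ 3 := by ring
  have h3 : 0 ≤ c ^ (-(1 / 2) : ℝ) * E ^ (3 / 2 : ℝ) := by positivity
  exact (pow_le_pow_iff_left₀ (norm_nonneg _) h3 two_ne_zero).1 h2

end abstractFourier

end Pool.Agent.Lib.MP_281388_al
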