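import Mathlib
import Pool.Agent.Lib.MP_281388_al.FS
import Pool.Agent.Lib.MP_281388_al.Fourier

set_option autoImplicit false

open scoped BigOperators ComplexConjugate
open Finset Matrix

namespace Pool.Agent.Lib.MP_281388_al

namespace FS

variable {G : Type} [Group G] [Fintype G] (F : FS G)

/-- index of matrix coefficients -/
abbrev Idx := (s : F.S) × (Fin (F.d s) × Fin (F.d s))

/-- matrix coefficient functions -/
def u (p : F.Idx) (g : G) : ℂ := F.U p.1 g p.2.1 p.2.2

theorem card_Idx : Fintype.card F.Idx = Fintype.card G := by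
  rw [Fintype.card_sigma, ← F.dim]
  refine Finset.sum_congr rfl fun s _ => ?_
  simp [sq]

theorem dC_ne (s : F.S) : (F.d s : ℂ) ≠ 0 := by
  have := F.dpos s
  exact_mod_cast (by omega : F.d s ≠ 0)

theorem row_orth (p q : F.Idx) :
    ∑ g, F.u p g * conj (F.u q g) = if p = q then (Fintype.card G : ℂ) / F.d p.1 else 0 := by
  obtain ⟨s, a, b⟩ := p
  obtain ⟨t, c, e⟩ := q
  by_cases hst : s = t
  · subst hst
    simp only [u]
    rw [F.orth_eq]
    by_cases h : a = c ∧ b = e
    · obtain ⟨rfl, rfl⟩ := h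
      simp
    · rw [if_neg h, if_neg]
      intro h2
      apply h
      simpa using h2
  · simp only [u]
    rw [F.orth_ne s t hst, if_neg]
    intro h2
    exact hst (congrArg Sigma.fst h2)

theorem col_orth [DecidableEq G] (x y : G) :
    ∑ p : F.Idx, (F.d p.1 : ℂ) * (F.u p x * conj (F.u p y)) =
      if x = y then (Fintype.card G : ℂ) else 0 := by
  have hN : (Fintype.card G : ℂ) ≠ 0 := card_ne_zero'
  let M : Matrix F.Idx G ℂ := fun p g => (F.d p.1 : ℂ) / (Fintype.card G) * F.u p g
  let N : Matrix G F.Idx ℂ := fun g p => conj (F.u p g)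
  have h1 : M * N = 1 := by
    ext p q
    rw [Matrix.mul_apply]
    have : ∀ g, M p g * N g q = (F.d p.1 : ℂ) / (Fintype.card G) * (F.u p g * conj (F.u q g)) := by
      intro g; simp only [M, N]; ring
    rw [Finset.sum_congr rfl fun g _ => this g, ← Finset.mul_sum, F.row_orth]
    by_cases h : p = q
    · subst h
      rw [if_pos rfl, Matrix.one_apply_eq]
      have := F.dC_ne p.1
      field_simp
    · rw [if_neg h, Matrix.one_apply_ne h, mul_zero]
  have h2 : N * M = 1 := by
    exact (Matrix.mul_eq_one_comm_of_card_eq _ _ _ F.card_Idx).1 h1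
  have h3 := congrFun (congrFun h2 y) x
  rw [Matrix.mul_apply] at h3
  have h4 : ∀ p, N y p * M p x =
      (Fintype.card G : ℂ)⁻¹ * ((F.d p.1 : ℂ) * (F.u p x * conj (F.u p y))) := by
    intro p
    simp only [M, N]
    field_simp
  rw [Finset.sum_congr rfl fun p _ => h4 p, ← Finset.mul_sum] at h3
  rw [inv_mul_eq_iff_eq_mul₀ hN] at h3
  rw [h3]
  by_cases h : x = y
  · subst h; simp
  · rw [if_neg h, Matrix.one_apply_ne (Ne.symm h), mul_zero]

/-- a label whose representation is trivial -/
def IsTriv (s : F.S) : Prop := F.d s = 1 ∧ ∀ g a b, F.U s g a b = 1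

theorem exists_triv : ∃ s, F.IsTriv s := by
  classical
  have hN : (Fintype.card G : ℂ) ≠ 0 := card_ne_zero'
  -- some coefficient has non zero sum
  have h1 : ∃ p : F.Idx, ∑ g, F.u p g ≠ 0 := by
    by_contra hcon
    push Not at hcon
    have h2 : ∑ x : G, ∑ y : G, ∑ p : F.Idx, (F.d p.1 : ℂ) * (F.u p x * conj (F.u p y)) =
        ∑ x : G, ∑ y : G, if x = y then (Fintype.card G : ℂ) else 0 :=
      Finset.sum_congr rfl fun x _ => Finset.sum_congr rfl fun y _ => F.col_orth x y
    have h3 : ∑ x : G, ∑ y : G, ∑ p : F.Idx, (F.d p.1 : ℂ) * (F.u p x * conj (F.u p y)) = 0 := by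
      rw [Finset.sum_comm]
      refine Finset.sum_eq_zero fun y _ => ?_
      rw [Finset.sum_comm]
      refine Finset.sum_eq_zero fun p _ => ?_
      rw [← Finset.mul_sum, ← Finset.sum_mul, hcon p]
      simp
    rw [h3] at h2
    simp only [Finset.sum_ite_eq, Finset.mem_univ, if_true, Finset.sum_const, nsmul_eq_mul,
      Finset.card_univ] at h2
    exact hN (by simpa using h2.symm)
  obtain ⟨⟨s, a0, b⟩, hp⟩ := h1
  -- the invariant vector
  let v : Fin (F.d s) → ℂ := fun a => ∑ g, F.U s g a b
  have hv0 : v a0 ≠ 0 := hp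
  have hinv : ∀ h a, ∑ c, F.U s h a c * v c = v a := by
    intro h a
    have : ∑ c, F.U s h a c * v c = ∑ g, F.U s (h * g) a b := by
      simp only [v, Finset.mul_sum]
      rw [Finset.sum_comm]
      refine Finset.sum_congr rfl fun g _ => ?_
      rw [F.U_mul, Matrix.mul_apply]
    rw [this]
    exact Equiv.sum_comp (Equiv.mulLeft h) (fun g => F.U s g a b)
  have key : ∀ a a', (Fintype.card G : ℂ) * (v a * conj (v a')) =
      if a = a' then (Fintype.card G : ℂ) / F.d s * ∑ c, v c * conj (v c) else 0 := by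
    intro a a'
    have e1 : (Fintype.card G : ℂ) * (v a * conj (v a')) =
        ∑ h : G, (∑ c, F.U s h a c * v c) * conj (∑ c, F.U s h a' c * v c) := by
      simp only [hinv]
      simp
    rw [e1]
    have e2 : ∀ h : G, (∑ c, F.U s h a c * v c) * conj (∑ c, F.U s h a' c * v c) =
        ∑ c, ∑ c', (v c * conj (v c')) * (F.U s h a c * conj (F.U s h a' c')) := by
      intro h
      rw [map_sum, Finset.sum_mul_sum]
      refine Finset.sum_congr rfl fun c _ => Finset.sum_congr rfl fun c' _ => ?_
      rw [map_mul]; ring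
    rw [Finset.sum_congr rfl fun h _ => e2 h, Finset.sum_comm]
    have e3 : ∀ c, ∑ h : G, ∑ c', (v c * conj (v c')) * (F.U s h a c * conj (F.U s h a' c')) =
        if a = a' then (v c * conj (v c)) * ((Fintype.card G : ℂ) / F.d s) else 0 := by
      intro c
      rw [Finset.sum_comm]
      have : ∀ c', ∑ h : G, (v c * conj (v c')) * (F.U s h a c * conj (F.U s h a' c')) =
          (v c * conj (v c')) * (if a = a' ∧ c = c' then (Fintype.card G : ℂ) / F.d s else 0) := by
        intro c'
        rw [← Finset.mul_sum, F.orth_eq]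
      rw [Finset.sum_congr rfl fun c' _ => this c']
      by_cases haa : a = a'
      · simp [haa]
      · simp [haa]
    rw [Finset.sum_congr rfl fun c _ => e3 c]
    by_cases haa : a = a'
    · simp only [if_pos haa]
      rw [← Finset.sum_mul, mul_comm]
    · simp [haa]
  -- dimension one
  have hW : ∑ c, v c * conj (v c) ≠ 0 := by
    intro hW
    have := key a0 a0
    rw [if_pos rfl, hW, mul_zero] at this
    have h2 : v a0 * conj (v a0) ≠ 0 := mul_ne_zero hv0 ((map_ne_zero _).2 hv0)
    exact (mul_ne_zero hN h2) this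
  have hne : ∀ a, v a ≠ 0 := by
    intro a ha
    have := key a a
    rw [if_pos rfl, ha, zero_mul, mul_zero] at this
    exact (mul_ne_zero (div_ne_zero hN (F.dC_ne s)) hW) this.symm
  have hsub : ∀ a a' : Fin (F.d s), a = a' := by
    intro a a'
    by_contra haa
    have := key a a'
    rw [if_neg haa] at this
    have h2 : v a * conj (v a') ≠ 0 := mul_ne_zero (hne a) ((map_ne_zero _).2 (hne a'))
    exact (mul_ne_zero hN h2) this
  have hd : F.d s = 1 := by
    have h1 : F.d s ≤ 1 := by
      by_contra hcon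
      push Not at hcon
      have := hsub ⟨0, by omega⟩ ⟨1, hcon⟩
      simp at this
    have := F.dpos s
    omega
  refine ⟨s, hd, fun g a c => ?_⟩
  have h1 := hinv g a
  rw [Finset.sum_eq_single c] at h1
  · rw [hsub a c] at h1 ⊢
    exact mul_right_cancel₀ (hne c) (by rw [h1, one_mul])
  · intro c' _ hc'
    exact absurd (hsub c' c) hc'
  · simp

/-- The scalar of a one dimensional label. -/
noncomputable def ch (χ : F.S) (g : G) : ℂ := (F.U χ g).trace

theorem U_eq_ch {χ : F.S} (hχ : F.d χ = 1) (g : G) (a b : Fin (F.d χ)) :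
    F.U χ g a b = F.ch χ g := by
  have hsub : ∀ a a' : Fin (F.d χ), a = a' := by
    intro a a'
    apply Fin.ext
    have := a.2
    have := a'.2
    omega
  unfold ch
  rw [Matrix.trace, Finset.sum_eq_single a]
  · rw [Matrix.diag_apply, hsub b a]
  · intro c _ hc
    exact absurd (hsub c a) hc
  · simp

theorem ch_one {χ : F.S} (hχ : F.d χ = 1) : F.ch χ 1 = 1 := by
  have a : Fin (F.d χ) := ⟨0, by omega⟩
  rw [← F.U_eq_ch hχ 1 a a, F.U_one, Matrix.one_apply_eq]

theorem ch_mul {χ : F.S} (hχ : F.d χ = 1) (g h : G) : F.ch χ (g * h) = F.ch χ g * F.ch χ h := by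
  have a : Fin (F.d χ) := ⟨0, by omega⟩
  have hsub : ∀ a a' : Fin (F.d χ), a = a' := by
    intro a a'
    apply Fin.ext
    have := a.2
    have := a'.2
    omega
  rw [← F.U_eq_ch hχ (g * h) a a, F.U_mul, Matrix.mul_apply, Finset.sum_eq_single a]
  · rw [F.U_eq_ch hχ, F.U_eq_ch hχ]
  · intro c _ hc
    exact absurd (hsub c a) hc
  · simp

/-- the character as a homomorphism -/
noncomputable def chHom {χ : F.S} (hχ : F.d χ = 1) : G →* ℂ where
  toFun := F.ch χ
  map_one' := F.ch_one hχ
  map_mul' := F.ch_mul hχ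

theorem ch_norm {χ : F.S} (hχ : F.d χ = 1) (g : G) : ‖F.ch χ g‖ = 1 := by
  have h1 : (F.ch χ g) ^ Fintype.card G = 1 := by
    have := map_pow (F.chHom hχ) g (Fintype.card G)
    rw [pow_card_eq_one, map_one] at this
    exact this.symm
  exact Complex.norm_eq_one_of_pow_eq_one h1 Fintype.card_ne_zero

theorem ch_conj_mul {χ : F.S} (hχ : F.d χ = 1) (g : G) : conj (F.ch χ g) * F.ch χ g = 1 := by
  rw [mul_comm, Complex.mul_conj, Complex.normSq_eq_norm_sq, F.ch_norm hχ]
  simp

/-- twisting a Fourier system by the conjugate of a one dimensional label -/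
noncomputable def twist {χ : F.S} (hχ : F.d χ = 1) : FS G where
  S := F.S
  fS := F.fS
  dS := F.dS
  d := F.d
  dpos := F.dpos
  U := fun s g => conj (F.ch χ g) • F.U s g
  U_one := by
    intro s
    rw [F.ch_one hχ, map_one, one_smul, F.U_one]
  U_mul := by
    intro s g h
    rw [F.ch_mul hχ, F.U_mul, map_mul, Matrix.smul_mul, Matrix.mul_smul, smul_smul]
  orth_ne := by
    intro s t hst a b c e
    rw [← F.orth_ne s t hst a b c e]
    refine Finset.sum_congr rfl fun g _ => ?_
    simp only [Matrix.smul_apply, smul_eq_mul, map_mul, Complex.conj_conj]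
    linear_combination (F.U s g a b * conj (F.U t g c e)) * F.ch_conj_mul hχ g
  orth_eq := by
    intro s a b c e
    rw [← F.orth_eq s a b c e]
    refine Finset.sum_congr rfl fun g _ => ?_
    simp only [Matrix.smul_apply, smul_eq_mul, map_mul, Complex.conj_conj]
    linear_combination (F.U s g a b * conj (F.U s g c e)) * F.ch_conj_mul hχ g
  dim := F.dim

theorem twist_triv {χ : F.S} (hχ : F.d χ = 1) : (F.twist hχ).IsTriv χ := by
  have key : ∀ (g : G) (a b : Fin (F.d χ)), conj (F.ch χ g) * F.U χ g a b = 1 := by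
    intro g a b
    rw [F.U_eq_ch hχ, F.ch_conj_mul hχ]
  exact ⟨hχ, fun g a b => key g a b⟩

end FS

end Pool.Agent.Lib.MP_281388_al
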