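import Mathlib
import Pool.Agent.Lib.MP_281388_al.FSBasic

set_option autoImplicit false

open scoped BigOperators ComplexConjugate
open Finset Matrix

namespace Pool.Agent.Lib.MP_281388_al

namespace FS

variable {G : Type} [Group G] [Fintype G] (F : FS G) {ι : Type} [Fintype ι] [DecidableEq ι]

/-- index type of the product representation -/
abbrev KK (s : ι → F.S) := (i : ι) → Fin (F.d (s i))

/-- product representation -/
noncomputable def UU (s : ι → F.S) (x : ι → G) : Matrix (F.KK s) (F.KK s) ℂ :=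
  fun a b => ∏ i, F.U (s i) (x i) (a i) (b i)

theorem card_KK (s : ι → F.S) : Fintype.card (F.KK s) = ∏ i, F.d (s i) := by
  rw [Fintype.card_pi]
  simp

theorem card_KK_pos (s : ι → F.S) : 0 < Fintype.card (F.KK s) := by
  rw [card_KK]
  exact Finset.prod_pos fun i _ => F.dpos (s i)

theorem UU_mul (s : ι → F.S) (x y : ι → G) : F.UU s (x * y) = F.UU s x * F.UU s y := by
  ext a b
  rw [Matrix.mul_apply]
  simp only [UU, Pi.mul_apply, F.U_mul, Matrix.mul_apply]
  rw [Finset.prod_univ_sum]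
  rw [Fintype.piFinset_univ]
  refine Finset.sum_congr rfl fun c _ => ?_
  rw [Finset.prod_mul_distrib]

theorem sum_sum_prod {κ : ι → Type} [∀ i, Fintype (κ i)]
    (f : (i : ι) → κ i → κ i → ℂ) :
    ∑ a : (i : ι) → κ i, ∑ b : (i : ι) → κ i, ∏ i, f i (a i) (b i) =
      ∏ i, ∑ a, ∑ b, f i a b := by
  rw [Finset.prod_univ_sum, Fintype.piFinset_univ]
  refine Finset.sum_congr rfl fun a _ => ?_
  rw [Finset.prod_univ_sum, Fintype.piFinset_univ]

theorem colOrth [DecidableEq G] : ColOrth (F.UU (ι := ι)) := by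
  intro x y
  have h1 : ∀ s : ι → F.S, (Fintype.card (F.KK s) : ℂ) *
      ∑ a, ∑ b, F.UU s x a b * conj (F.UU s y a b) =
      ∏ i, ((F.d (s i) : ℂ) * ∑ a, ∑ b, F.U (s i) (x i) a b * conj (F.U (s i) (y i) a b)) := by
    intro s
    rw [card_KK, Finset.prod_mul_distrib, Nat.cast_prod]
    congr 1
    rw [← sum_sum_prod
      (fun i a b => F.U (s i) (x i) a b * conj (F.U (s i) (y i) a b))]
    refine Finset.sum_congr rfl fun a _ => Finset.sum_congr rfl fun b _ => ?_
    simp only [UU]
    rw [map_prod, Finset.prod_mul_distrib]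
  rw [Finset.sum_congr rfl fun s _ => h1 s]
  have h2 := (Finset.prod_univ_sum (fun _ : ι => (Finset.univ : Finset F.S))
    (fun i σ => (F.d σ : ℂ) * ∑ a, ∑ b, F.U σ (x i) a b * conj (F.U σ (y i) a b)))
  rw [Fintype.piFinset_univ] at h2
  rw [← h2]
  have h3 : ∀ i, ∑ σ : F.S, (F.d σ : ℂ) * ∑ a, ∑ b, F.U σ (x i) a b * conj (F.U σ (y i) a b) =
      if x i = y i then (Fintype.card G : ℂ) else 0 := by
    intro i
    rw [← F.col_orth (x i) (y i), Fintype.sum_sigma]
    refine Finset.sum_congr rfl fun σ _ => ?_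
    rw [Finset.mul_sum, Fintype.sum_prod_type]
    refine Finset.sum_congr rfl fun a _ => ?_
    rw [Finset.mul_sum]
    rfl
  rw [Finset.prod_congr rfl fun i _ => h3 i]
  by_cases hxy : x = y
  · subst hxy
    simp
  · rw [if_neg hxy]
    obtain ⟨i, hi⟩ := Function.ne_iff.1 hxy
    exact Finset.prod_eq_zero (Finset.mem_univ i) (if_neg hi)

end FS

end Pool.Agent.Lib.MP_281388_al
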