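import Mathlib
import Pool.Agent.Lib.MP_281388_al.Power

set_option autoImplicit false

open scoped BigOperators ComplexConjugate
open Finset Matrix

namespace Pool.Agent.Lib.MP_281388_al

/-! ### Combinatorics of alternating sums over subsets -/

theorem sum_powerset_alt {ι : Type*} [DecidableEq ι] (A B : Finset ι) :
    ∑ T ∈ A.powerset, (-1 : ℂ) ^ (A.card - T.card) * (if B ⊆ T then 1 else 0) =
      if B = A then 1 else 0 := by
  by_cases hBA : B ⊆ A
  · have h1 : ∑ T ∈ A.powerset, (-1 : ℂ) ^ (A.card - T.card) * (if B ⊆ T then 1 else 0) =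
        ∑ T ∈ (A \ B).powerset, (-1 : ℂ) ^ ((A \ B).card - T.card) := by
      simp only [mul_ite, mul_one, mul_zero]
      rw [← Finset.sum_filter]
      refine Finset.sum_bij' (fun T _ => T \ B) (fun T _ => T ∪ B) ?_ ?_ ?_ ?_ ?_
      · intro T hT
        rw [Finset.mem_filter, Finset.mem_powerset] at hT
        rw [Finset.mem_powerset]
        exact Finset.sdiff_subset_sdiff hT.1 (subset_refl _)
      · intro T hT
        rw [Finset.mem_powerset] at hT
        rw [Finset.mem_filter, Finset.mem_powerset]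
        refine ⟨Finset.union_subset (hT.trans Finset.sdiff_subset) hBA,
          Finset.subset_union_right⟩
      · intro T hT
        rw [Finset.mem_filter] at hT
        exact Finset.sdiff_union_of_subset hT.2
      · intro T hT
        rw [Finset.mem_powerset] at hT
        rw [Finset.union_sdiff_right]
        exact Finset.sdiff_eq_self_of_disjoint
          (Finset.disjoint_of_subset_left hT Finset.sdiff_disjoint)
      · intro T hT
        rw [Finset.mem_filter, Finset.mem_powerset] at hT
        rw [Finset.card_sdiff_of_subset hBA, Finset.card_sdiff_of_subset hT.2]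
        congr 1
        have h3 := Finset.card_le_card hT.1
        have h4 := Finset.card_le_card hT.2
        omega
    rw [h1]
    have h2 : ∑ T ∈ (A \ B).powerset, (-1 : ℂ) ^ ((A \ B).card - T.card) =
        (-1 : ℂ) ^ (A \ B).card * ∑ T ∈ (A \ B).powerset, (-1 : ℂ) ^ T.card := by
      rw [Finset.mul_sum]
      refine Finset.sum_congr rfl fun T hT => ?_
      rw [Finset.mem_powerset] at hT
      have h3 := Finset.card_le_card hT
      rw [← pow_add]
      have : (A \ B).card + T.card = ((A \ B).card - T.card) + 2 * T.card := by omega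
      rw [this, pow_add, pow_mul]
      simp
    rw [h2]
    have h5 : ∑ T ∈ (A \ B).powerset, (-1 : ℂ) ^ T.card = if A \ B = ∅ then 1 else 0 := by
      have h6 := Finset.sum_powerset_neg_one_pow_card (x := A \ B)
      have h7 := congrArg (fun z : ℤ => (z : ℂ)) h6
      simpa using h7
    rw [h5]
    by_cases hAB : A \ B = ∅
    · have hAB' : B = A := by
        apply Finset.Subset.antisymm hBA
        exact Finset.sdiff_eq_empty_iff_subset.1 hAB
      simp [hAB']
    · rw [if_neg hAB, mul_zero, if_neg]
      rintro rfl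
      simp at hAB
  · rw [if_neg (by rintro rfl; exact hBA (subset_refl _))]
    refine Finset.sum_eq_zero fun T hT => ?_
    rw [Finset.mem_powerset] at hT
    rw [if_neg (fun h => hBA (h.trans hT)), mul_zero]

/-! ### The functions `Finj` and `lev` -/

section funcs

variable {G : Type} [Fintype G] {ι : Type} [Fintype ι] [DecidableEq ι]

open Classical in
/-- normalised indicator of injectivity on `T` -/
noncomputable def Finj (T : Finset ι) (x : ι → G) : ℂ :=
  (ck (Fintype.card G) T.card : ℂ) * (if Set.InjOn x (T : Set ι) then 1 else 0)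

/-- Efron Stein component -/
noncomputable def lev (A : Finset ι) (x : ι → G) : ℂ :=
  ∑ T ∈ A.powerset, (-1 : ℂ) ^ (A.card - T.card) * Finj T x

theorem sum_update (j : ι) (h : (ι → G) → ℂ) :
    ∑ x : ι → G, ∑ g : G, h (Function.update x j g) = (Fintype.card G : ℂ) * ∑ x, h x := by
  rw [← Fintype.sum_prod_type' (fun x g => h (Function.update x j g))]
  let e : (ι → G) × G ≃ (ι → G) × G :=
    { toFun := fun p => (Function.update p.1 j p.2, p.1 j)
      invFun := fun p => (Function.update p.1 j p.2, p.1 j)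
      left_inv := by intro p; simp
      right_inv := by intro p; simp }
  have h1 := Equiv.sum_comp e (fun p => h p.1)
  have h2 : ∑ p : (ι → G) × G, h (Function.update p.1 j p.2) = ∑ p : (ι → G) × G, h p.1 := h1
  rw [h2, Fintype.sum_prod_type]
  simp [Finset.mul_sum]

theorem ck_zero (n : ℕ) : ck n 0 = 1 := by simp [ck]

theorem ck_succ {n t : ℕ} (ht : t < n) : ck n (t + 1) * ((n : ℝ) - t) = n * ck n t := by
  unfold ck
  rw [Nat.descFactorial_succ]
  have h1 : ((n - t : ℕ) : ℝ) = (n : ℝ) - t := by
    rw [Nat.cast_sub ht.le]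
  have h2 : (n : ℝ) - t ≠ 0 := by
    have : (t : ℝ) < n := by exact_mod_cast ht
    linarith
  have h3 : (n.descFactorial t : ℝ) ≠ 0 := by
    exact_mod_cast (Nat.descFactorial_pos.2 ht.le).ne'
  push_cast
  rw [h1]
  field_simp
  ring

theorem ck_pos {n k : ℕ} (h : k ≤ n) (hn : 0 < n) : 0 < ck n k := by
  unfold ck
  have h1 : 0 < (n.descFactorial k : ℝ) := by exact_mod_cast Nat.descFactorial_pos.2 h
  have h2 : 0 < (n : ℝ) := by exact_mod_cast hn
  positivity

theorem Finj_avg (T : Finset ι) (j : ι) (hj : j ∉ T) (hT : T.card < Fintype.card G)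
    (x : ι → G) :
    ∑ g : G, Finj (insert j T) (Function.update x j g) = (Fintype.card G : ℂ) * Finj T x := by
  classical
  have hinj : ∀ g : G, Set.InjOn (Function.update x j g) ((insert j T : Finset ι) : Set ι) ↔
      Set.InjOn x (T : Set ι) ∧ g ∉ T.image x := by
    intro g
    have e1 : Set.EqOn (Function.update x j g) x (T : Set ι) := by
      intro i hi
      rw [Function.update_of_ne]
      rintro rfl
      exact hj hi
    rw [Finset.coe_insert, Set.injOn_insert (by simpa using hj), e1.injOn_iff,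
      Function.update_self, e1.image_eq]
    simp
  simp only [Finj, hinj]
  rw [← Finset.mul_sum, Finset.card_insert_of_notMem hj]
  by_cases hx : Set.InjOn x (T : Set ι)
  · simp only [hx, true_and, if_true, mul_one]
    rw [Finset.sum_ite, Finset.sum_const_zero, add_zero, Finset.sum_const, nsmul_eq_mul, mul_one]
    have h1 : (Finset.univ.filter (fun g : G => g ∉ T.image x)).card =
        Fintype.card G - T.card := by
      have h2 : (Finset.univ.filter (fun g : G => g ∉ T.image x)) = (T.image x)ᶜ := by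
        ext g; simp
      rw [h2, Finset.card_compl, Finset.card_image_of_injOn hx]
    rw [h1, Nat.cast_sub hT.le]
    have := ck_succ hT
    have h3 := congrArg (fun z : ℝ => (z : ℂ)) this
    push_cast at h3
    exact h3
  · simp [hx]

omit [Fintype ι] in
theorem Finj_update (T : Finset ι) (j : ι) (hj : j ∉ T) (x : ι → G) (g : G) :
    Finj T (Function.update x j g) = Finj T x := by
  classical
  have e1 : Set.EqOn (Function.update x j g) x (T : Set ι) := by
    intro i hi
    rw [Function.update_of_ne]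
    rintro rfl
    exact hj hi
  simp only [Finj, e1.injOn_iff]

omit [Fintype ι] [DecidableEq ι] in
theorem Finj_empty (x : ι → G) : Finj ∅ x = 1 := by
  simp [Finj, ck_zero]

end funcs

namespace FS

variable {G : Type} [Group G] [Fintype G] (F : FS G) {ι : Type} [Fintype ι] [DecidableEq ι]

/-- support of a label with respect to `σ₀` -/
def supp (σ₀ : F.S) (s : ι → F.S) : Finset ι := Finset.univ.filter (fun i => s i ≠ σ₀)

theorem sum_U_eq_zero {σ₀ : F.S} (h0 : F.IsTriv σ₀) {σ : F.S} (hσ : σ ≠ σ₀)
    (a b : Fin (F.d σ)) : ∑ g, F.U σ g a b = 0 := by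
  have c : Fin (F.d σ₀) := ⟨0, by rw [h0.1]; exact one_pos⟩
  have := F.orth_ne σ σ₀ hσ a b c c
  simpa [h0.2] using this

theorem UU_update_triv {σ₀ : F.S} (h0 : F.IsTriv σ₀) (s : ι → F.S) (j : ι) (hj : s j = σ₀)
    (x : ι → G) (g : G) (a b : F.KK s) : F.UU s (Function.update x j g) a b = F.UU s x a b := by
  simp only [UU]
  refine Finset.prod_congr rfl fun i _ => ?_
  by_cases hij : i = j
  · subst hij
    have h1 : F.IsTriv (s i) := by rw [hj]; exact h0
    rw [h1.2, h1.2]
  · rw [Function.update_of_ne hij]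

theorem UU_update_sum {σ₀ : F.S} (h0 : F.IsTriv σ₀) (s : ι → F.S) (j : ι) (hj : s j ≠ σ₀)
    (x : ι → G) (a b : F.KK s) : ∑ g, F.UU s (Function.update x j g) a b = 0 := by
  have h1 : ∀ g, F.UU s (Function.update x j g) a b =
      F.U (s j) g (a j) (b j) * ∏ i ∈ Finset.univ.erase j, F.U (s i) (x i) (a i) (b i) := by
    intro g
    simp only [UU]
    rw [← Finset.mul_prod_erase _ _ (Finset.mem_univ j), Function.update_self]
    congr 1
    refine Finset.prod_congr rfl fun i hi => ?_
    rw [Function.update_of_ne (Finset.ne_of_mem_erase hi)]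
  rw [Finset.sum_congr rfl fun g _ => h1 g, ← Finset.sum_mul, F.sum_U_eq_zero h0 hj, zero_mul]

/-- If `f` does not depend on coordinate `j` and `s j` is non trivial, the coefficient is `0`. -/
theorem Aco_eq_zero {σ₀ : F.S} (h0 : F.IsTriv σ₀) (s : ι → F.S) (j : ι) (hj : s j ≠ σ₀)
    (f : (ι → G) → ℂ) (hf : ∀ x g, f (Function.update x j g) = f x) :
    Aco F.UU s f = 0 := by
  ext a b
  have hN : (Fintype.card G : ℂ) ≠ 0 := card_ne_zero'
  have h1 : (Fintype.card G : ℂ) * ∑ x, f x * F.UU s x a b = 0 := by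
    rw [← sum_update j (fun x => f x * F.UU s x a b)]
    refine Finset.sum_eq_zero fun x _ => ?_
    simp only [hf]
    rw [← Finset.mul_sum, F.UU_update_sum h0 s j hj, mul_zero]
  have h2 := (mul_eq_zero.1 h1).resolve_left hN
  simp only [Aco]
  rw [h2, mul_zero]
  rfl

theorem Aco_Finj_insert {σ₀ : F.S} (h0 : F.IsTriv σ₀) (s : ι → F.S) (j : ι) (hj : s j = σ₀)
    (T : Finset ι) (hjT : j ∉ T) (hT : T.card < Fintype.card G) :
    Aco F.UU s (Finj T) = Aco F.UU s (Finj (insert j T)) := by
  ext a b
  have hN : (Fintype.card G : ℂ) ≠ 0 := card_ne_zero'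
  simp only [Aco]
  congr 1
  have h1 := sum_update j (fun x => Finj (insert j T) x * F.UU s x a b)
  simp only [F.UU_update_triv h0 s j hj] at h1
  simp only [← Finset.sum_mul, Finj_avg T j hjT hT] at h1
  have h2 : ∑ x : ι → G, (Fintype.card G : ℂ) * Finj T x * F.UU s x a b =
      (Fintype.card G : ℂ) * ∑ x : ι → G, Finj T x * F.UU s x a b := by
    rw [Finset.mul_sum]
    exact Finset.sum_congr rfl fun x _ => by ring
  rw [h2] at h1
  exact mul_left_cancel₀ hN h1

theorem Aco_Finj {σ₀ : F.S} (h0 : F.IsTriv σ₀) (hι : Fintype.card ι ≤ Fintype.card G)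
    (s : ι → F.S) (T : Finset ι) (hs : F.supp σ₀ s ⊆ T) :
    Aco F.UU s (Finj T) = Aco F.UU s (Finj (Finset.univ : Finset ι)) := by
  induction hm : (Finset.univ \ T).card generalizing T with
  | zero =>
    have : T = Finset.univ := by
      rw [Finset.card_eq_zero, Finset.sdiff_eq_empty_iff_subset] at hm
      exact Finset.eq_univ_iff_forall.2 fun x => hm (Finset.mem_univ x)
    rw [this]
  | succ m ih =>
    have hne : (Finset.univ \ T).Nonempty := by
      rw [← Finset.card_pos, hm]; omega
    obtain ⟨j, hj⟩ := hne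
    have hjT : j ∉ T := (Finset.mem_sdiff.1 hj).2
    have hsj : s j = σ₀ := by
      by_contra hcon
      exact hjT (hs (Finset.mem_filter.2 ⟨Finset.mem_univ _, hcon⟩))
    have hTc : T.card < Fintype.card G := by
      refine lt_of_lt_of_le ?_ hι
      exact Finset.card_lt_univ_of_notMem hjT
    rw [F.Aco_Finj_insert h0 s j hsj T hjT hTc]
    apply ih
    · exact hs.trans (Finset.subset_insert _ _)
    · rw [← Finset.compl_eq_univ_sdiff, Finset.card_compl, Finset.card_insert_of_notMem hjT]
      rw [← Finset.compl_eq_univ_sdiff, Finset.card_compl] at hm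
      omega

theorem Aco_Finj_zero {σ₀ : F.S} (h0 : F.IsTriv σ₀)
    (s : ι → F.S) (T : Finset ι) (hs : ¬ F.supp σ₀ s ⊆ T) :
    Aco F.UU s (Finj T) = 0 := by
  rw [Finset.not_subset] at hs
  obtain ⟨j, hj, hjT⟩ := hs
  exact F.Aco_eq_zero h0 s j (Finset.mem_filter.1 hj).2 _ (Finj_update T j hjT)

theorem Aco_lev {σ₀ : F.S} (h0 : F.IsTriv σ₀) (hι : Fintype.card ι ≤ Fintype.card G)
    (s : ι → F.S) (A : Finset ι) :
    Aco F.UU s (lev A) =
      if F.supp σ₀ s = A then Aco F.UU s (Finj (Finset.univ : Finset ι)) else 0 := by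
  have h1 : ∀ a b, Aco F.UU s (lev A) a b =
      ∑ T ∈ A.powerset, (-1 : ℂ) ^ (A.card - T.card) * Aco F.UU s (Finj T) a b := by
    intro a b
    simp only [Aco, lev]
    simp only [Finset.sum_mul, Finset.mul_sum]
    rw [Finset.sum_comm]
    refine Finset.sum_congr rfl fun T _ => Finset.sum_congr rfl fun x _ => ?_
    ring
  have h2 : ∀ T, Aco F.UU s (Finj T) = (if F.supp σ₀ s ⊆ T then (1 : ℂ) else 0) •
      Aco F.UU s (Finj (Finset.univ : Finset ι)) := by
    intro T
    by_cases h : F.supp σ₀ s ⊆ T
    · rw [if_pos h, one_smul, F.Aco_Finj h0 hι s T h]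
    · rw [if_neg h, zero_smul, F.Aco_Finj_zero h0 s T h]
  ext a b
  rw [h1]
  have h3 : ∀ T, (-1 : ℂ) ^ (A.card - T.card) * Aco F.UU s (Finj T) a b =
      (-1 : ℂ) ^ (A.card - T.card) * (if F.supp σ₀ s ⊆ T then (1 : ℂ) else 0) *
      Aco F.UU s (Finj (Finset.univ : Finset ι)) a b := by
    intro T
    rw [h2 T, Matrix.smul_apply, smul_eq_mul]
    ring
  rw [Finset.sum_congr rfl fun T _ => h3 T, ← Finset.sum_mul, sum_powerset_alt]
  by_cases h : F.supp σ₀ s = A
  · simp [h]
  · simp [h]

end FS

end Pool.Agent.Lib.MP_281388_al
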