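import Mathlib
import Pool.Agent.Lib.MP_281388_al.Levels

set_option autoImplicit false

open scoped BigOperators ComplexConjugate
open Finset Matrix

namespace Pool.Agent.Lib.MP_281388_al

section general

variable {Γ S : Type*} [Group Γ] [Fintype Γ] [DecidableEq Γ] [Fintype S] {K : S → Type*}
  [∀ s, Fintype (K s)] (U : (s : S) → Γ → Matrix (K s) (K s) ℂ)

/-- normalised trilinear form -/
noncomputable def Tri (f g h : Γ → ℂ) : ℂ :=
  ((Fintype.card Γ : ℂ)⁻¹) ^ 2 * ∑ x, ∑ y, f x * g y * conj (h (x * y))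

/-- normalised square norm -/
noncomputable def nsq (f : Γ → ℂ) : ℝ := (Fintype.card Γ : ℝ)⁻¹ * ∑ x, ‖f x‖ ^ 2

omit [Group Γ] [DecidableEq Γ] [Fintype S] in
theorem Lam_congr (s : S) (f g h f' g' h' : Γ → ℂ) (hf : Aco U s f = Aco U s f')
    (hg : Aco U s g = Aco U s g') (hh : Aco U s h = Aco U s h') :
    Lam U s f g h = Lam U s f' g' h' := by
  unfold Lam
  rw [hf, hg, hh]

omit [Group Γ] [DecidableEq Γ] [Fintype S] in
theorem Lam_zero (s : S) (f g h : Γ → ℂ) (hf : Aco U s f = 0) : Lam U s f g h = 0 := by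
  unfold Lam
  rw [hf]
  simp

omit [Group Γ] [DecidableEq Γ] [Fintype S] in
theorem Een_congr (s : S) (f f' : Γ → ℂ) (hf : Aco U s f = Aco U s f') :
    Een U s f = Een U s f' := by
  unfold Een
  rw [hf]

omit [Group Γ] [DecidableEq Γ] [Fintype S] in
theorem Een_zero (s : S) (f : Γ → ℂ) (hf : Aco U s f = 0) : Een U s f = 0 := by
  unfold Een
  rw [hf]
  simp

end general

section funcs

variable {G : Type} [Group G] [Fintype G] [DecidableEq G]

/-- The level weights `λ_k`. -/
noncomputable def lamk (G : Type) [Group G] [Fintype G] [DecidableEq G] (k : ℕ) : ℂ :=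
  Tri (Γ := Fin k → G) (lev Finset.univ) (lev Finset.univ) (lev Finset.univ)

/-- The level energies `w_k`. -/
noncomputable def wk (n k : ℕ) : ℝ :=
  ∑ j ∈ Finset.range (k + 1), (-1 : ℝ) ^ (k - j) * (k.choose j : ℝ) * ck n j

end funcs

namespace FS

variable {G : Type} [Group G] [Fintype G] [DecidableEq G] (F : FS G) {ι : Type} [Fintype ι]
  [DecidableEq ι]

theorem level_Lam {σ₀ : F.S} (h0 : F.IsTriv σ₀) (hι : Fintype.card ι ≤ Fintype.card G)
    (A : Finset ι) :
    ∑ s ∈ Finset.univ.filter (fun s : ι → F.S => F.supp σ₀ s = A),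
      Lam F.UU s (Finj Finset.univ) (Finj Finset.univ) (Finj Finset.univ) =
    Tri (lev (G := G) A) (lev A) (lev A) := by
  unfold Tri
  rw [← trilinear F.UU F.colOrth F.UU_mul, Finset.sum_filter]
  refine Finset.sum_congr rfl fun s _ => ?_
  have h1 := F.Aco_lev h0 hι s A
  by_cases h : F.supp σ₀ s = A
  · rw [if_pos h] at h1 ⊢
    exact Lam_congr _ _ _ _ _ _ _ _ h1.symm h1.symm h1.symm
  · rw [if_neg h] at h1 ⊢
    exact (Lam_zero _ _ _ _ _ h1).symm

theorem level_Een {σ₀ : F.S} (h0 : F.IsTriv σ₀) (hι : Fintype.card ι ≤ Fintype.card G)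
    (A : Finset ι) :
    ∑ s ∈ Finset.univ.filter (fun s : ι → F.S => F.supp σ₀ s = A),
      Een F.UU s (Finj Finset.univ) = nsq (lev (G := G) A) := by
  unfold nsq
  rw [← parseval F.UU F.colOrth, Finset.sum_filter]
  refine Finset.sum_congr rfl fun s _ => ?_
  have h1 := F.Aco_lev h0 hι s A
  by_cases h : F.supp σ₀ s = A
  · rw [if_pos h] at h1 ⊢
    exact Een_congr _ _ _ _ h1.symm
  · rw [if_neg h] at h1 ⊢
    exact (Een_zero _ _ _ h1).symm

theorem sum_Een_subset {σ₀ : F.S} (h0 : F.IsTriv σ₀) (hι : Fintype.card ι ≤ Fintype.card G)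
    (B : Finset ι) :
    ∑ s ∈ Finset.univ.filter (fun s : ι → F.S => F.supp σ₀ s ⊆ B),
      Een F.UU s (Finj Finset.univ) = nsq (Finj (G := G) B) := by
  unfold nsq
  rw [← parseval F.UU F.colOrth, Finset.sum_filter]
  refine Finset.sum_congr rfl fun s _ => ?_
  by_cases h : F.supp σ₀ s ⊆ B
  · rw [if_pos h]
    exact Een_congr _ _ _ _ (F.Aco_Finj h0 hι s B h).symm
  · rw [if_neg h]
    exact (Een_zero _ _ _ (F.Aco_Finj_zero h0 s B h)).symm

omit [DecidableEq G] in
/-- the mean of `Finj B` is one -/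
theorem sum_Finj {σ₀ : F.S} (h0 : F.IsTriv σ₀) (hι : Fintype.card ι ≤ Fintype.card G)
    (B : Finset ι) : ∑ x : ι → G, Finj B x = (Fintype.card (ι → G) : ℂ) := by
  have h1 := F.Aco_Finj h0 hι (fun _ => σ₀) B (by simp [supp])
  have h2 := F.Aco_Finj h0 hι (fun _ => σ₀) (∅ : Finset ι) (by simp [supp])
  rw [← h2] at h1
  have a : F.KK (fun _ : ι => σ₀) := fun _ => ⟨0, by rw [h0.1]; exact one_pos⟩
  have h3 := congrFun (congrFun h1 a) a
  have hN : (Fintype.card (ι → G) : ℂ) ≠ 0 := card_ne_zero'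
  have hU : ∀ x : ι → G, F.UU (fun _ : ι => σ₀) x a a = 1 := by
    intro x
    simp only [UU, h0.2, Finset.prod_const_one]
  simp only [Aco, hU, mul_one, Finj_empty] at h3
  have h4 := mul_left_cancel₀ (inv_ne_zero hN) h3
  rw [h4]
  simp

theorem nsq_Finj {σ₀ : F.S} (h0 : F.IsTriv σ₀) (hι : Fintype.card ι ≤ Fintype.card G)
    (B : Finset ι) : nsq (Finj (G := G) B) = ck (Fintype.card G) B.card := by
  classical
  have hB : B.card ≤ Fintype.card G := (Finset.card_le_univ B).trans hι
  have hck := ck_pos hB Fintype.card_pos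
  have h1 : ∀ x : ι → G, ((‖Finj B x‖ ^ 2 : ℝ) : ℂ) =
      (ck (Fintype.card G) B.card : ℂ) * Finj B x := by
    intro x
    unfold Finj
    by_cases hx : Set.InjOn x (B : Set ι)
    · rw [if_pos hx, mul_one, Complex.norm_real, Real.norm_of_nonneg hck.le]
      push_cast
      ring
    · rw [if_neg hx]
      simp
  have h2 : ((nsq (Finj (G := G) B) : ℝ) : ℂ) = ((ck (Fintype.card G) B.card : ℝ) : ℂ) := by
    unfold nsq
    rw [Complex.ofReal_mul, Complex.ofReal_sum, Finset.sum_congr rfl fun x _ => h1 x,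
      ← Finset.mul_sum, F.sum_Finj h0 hι B]
    have hN : (Fintype.card (ι → G) : ℂ) ≠ 0 := card_ne_zero'
    push_cast
    field_simp
  exact_mod_cast h2

theorem nsq_lev {σ₀ : F.S} (h0 : F.IsTriv σ₀) (hι : Fintype.card ι ≤ Fintype.card G)
    (A : Finset ι) : nsq (lev (G := G) A) = wk (Fintype.card G) A.card := by
  have h1 : ∀ s : ι → F.S, (if F.supp σ₀ s = A then (1 : ℂ) else 0) =
      ∑ T ∈ A.powerset, (-1 : ℂ) ^ (A.card - T.card) * (if F.supp σ₀ s ⊆ T then 1 else 0) :=
    fun s => (sum_powerset_alt A _).symm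
  have h2 : ((nsq (lev (G := G) A) : ℝ) : ℂ) =
      ∑ T ∈ A.powerset, (-1 : ℂ) ^ (A.card - T.card) * (ck (Fintype.card G) T.card : ℂ) := by
    rw [← F.level_Een h0 hι A, Finset.sum_filter, Complex.ofReal_sum]
    have h3 : ∀ s : ι → F.S, (((if F.supp σ₀ s = A then Een F.UU s (Finj Finset.univ) else 0) : ℝ) : ℂ) =
        ∑ T ∈ A.powerset, (-1 : ℂ) ^ (A.card - T.card) *
          ((if F.supp σ₀ s ⊆ T then Een F.UU s (Finj Finset.univ) else 0 : ℝ) : ℂ) := by
      intro s
      have : (((if F.supp σ₀ s = A then Een F.UU s (Finj Finset.univ) else 0) : ℝ) : ℂ) =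
          (if F.supp σ₀ s = A then (1 : ℂ) else 0) * ((Een F.UU s (Finj Finset.univ) : ℝ) : ℂ) := by
        by_cases h : F.supp σ₀ s = A <;> simp [h]
      rw [this, h1, Finset.sum_mul]
      refine Finset.sum_congr rfl fun T _ => ?_
      by_cases h : F.supp σ₀ s ⊆ T <;> simp [h]
    rw [Finset.sum_congr rfl fun s _ => h3 s, Finset.sum_comm]
    refine Finset.sum_congr rfl fun T _ => ?_
    rw [← Finset.mul_sum, ← Complex.ofReal_sum, ← Finset.sum_filter,
      F.sum_Een_subset h0 hι T, F.nsq_Finj h0 hι T]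
  have h3 : ∑ T ∈ A.powerset, (-1 : ℂ) ^ (A.card - T.card) * (ck (Fintype.card G) T.card : ℂ) =
      ((wk (Fintype.card G) A.card : ℝ) : ℂ) := by
    rw [Finset.sum_powerset_apply_card
      (fun j => (-1 : ℂ) ^ (A.card - j) * (ck (Fintype.card G) j : ℂ))]
    unfold wk
    push_cast
    refine Finset.sum_congr rfl fun j _ => ?_
    rw [nsmul_eq_mul]
    ring
  rw [h3] at h2
  exact_mod_cast h2

end FS

/-! ### Marginals -/

section marginal

variable {G : Type} [Group G] [Fintype G] [DecidableEq G] {ι κ : Type} [Fintype ι]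
  [DecidableEq ι] [Fintype κ] [DecidableEq κ]

omit [Group G] [DecidableEq G] in
theorem marginal [Nonempty G] (e : κ → ι) (he : Function.Injective e) (h : (κ → G) → ℂ) :
    (Fintype.card (ι → G) : ℂ)⁻¹ * ∑ x : ι → G, h (x ∘ e) =
      (Fintype.card (κ → G) : ℂ)⁻¹ * ∑ y, h y := by
  classical
  let p : ι → Prop := fun i => i ∈ Set.range e
  let E1 : (ι → G) ≃ ({i // p i} → G) × ({i // ¬ p i} → G) :=
    Equiv.piEquivPiSubtypeProd p (fun _ => G)
  let E2 : κ ≃ {i // p i} := Equiv.ofInjective e he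
  let E3 : ({i // p i} → G) ≃ (κ → G) := Equiv.arrowCongr E2.symm (Equiv.refl G)
  let E : (ι → G) ≃ (κ → G) × ({i // ¬ p i} → G) := E1.trans (Equiv.prodCongr E3 (Equiv.refl _))
  have hE : ∀ x : ι → G, (E x).1 = x ∘ e := by
    intro x
    funext k
    rfl
  have h1 : ∑ x : ι → G, h (x ∘ e) = ∑ p : (κ → G) × ({i // ¬ p i} → G), h p.1 := by
    rw [← Equiv.sum_comp E]
    exact Finset.sum_congr rfl fun x _ => by rw [hE]
  have hc : Fintype.card (ι → G) = Fintype.card (κ → G) * Fintype.card ({i // ¬ p i} → G) := by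
    rw [Fintype.card_congr E, Fintype.card_prod]
  rw [h1, Fintype.sum_prod_type, hc]
  simp only [Finset.sum_const, Finset.card_univ, nsmul_eq_mul]
  rw [← Finset.mul_sum]
  have hN1 : (Fintype.card (κ → G) : ℂ) ≠ 0 := by exact_mod_cast Fintype.card_ne_zero
  have hN2 : (Fintype.card ({i // ¬ p i} → G) : ℂ) ≠ 0 := by exact_mod_cast Fintype.card_ne_zero
  push_cast
  field_simp

omit [Group G] [DecidableEq G] [Fintype ι] [Fintype κ] [DecidableEq ι] [DecidableEq κ] in
theorem Finj_comp (e : κ ↪ ι) (T : Finset κ) (x : ι → G) :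
    Finj (T.map e) x = Finj T (x ∘ e) := by
  classical
  unfold Finj
  rw [Finset.card_map]
  congr 1
  have : Set.InjOn x ((T.map e : Finset ι) : Set ι) ↔ Set.InjOn (x ∘ e) (T : Set κ) := by
    rw [Finset.coe_map]
    constructor
    · intro h
      exact h.comp e.injective.injOn (Set.mapsTo_image _ _)
    · intro h a ha b hb hab
      obtain ⟨a', ha', rfl⟩ := ha
      obtain ⟨b', hb', rfl⟩ := hb
      rw [h ha' hb' hab]
  simp only [this]

omit [Group G] [DecidableEq G] [Fintype ι] [DecidableEq ι] [DecidableEq κ] in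
theorem lev_comp (e : κ ↪ ι) (x : ι → G) :
    lev (Finset.univ.map e) x = lev Finset.univ (x ∘ e) := by
  unfold lev
  rw [Finset.card_map]
  symm
  refine Finset.sum_bij' (fun T _ => T.map e)
    (fun T _ => T.preimage e e.injective.injOn) ?_ ?_ ?_ ?_ ?_
  · intro T hT
    rw [Finset.mem_powerset] at hT ⊢
    exact Finset.map_subset_map.2 hT
  · intro T _
    rw [Finset.mem_powerset]
    exact Finset.subset_univ _
  · intro T _
    ext k
    simp
  · intro T hT
    rw [Finset.mem_powerset] at hT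
    ext i
    simp only [Finset.mem_map, Finset.mem_preimage]
    constructor
    · rintro ⟨k, hk, rfl⟩
      exact hk
    · intro hi
      obtain ⟨k, _, rfl⟩ := Finset.mem_map.1 (hT hi)
      exact ⟨k, hi, rfl⟩
  · intro T _
    rw [Finset.card_map, Finj_comp]

theorem Tri_lev (A : Finset ι) {k : ℕ} (hk : A.card = k) :
    Tri (lev (G := G) A) (lev A) (lev A) = lamk G k := by
  -- an embedding with image `A`
  have : ∃ e : Fin k ↪ ι, Finset.univ.map e = A := by
    obtain ⟨f⟩ : Nonempty (Fin k ≃ A) := ⟨(A.equivFinOfCardEq hk).symm⟩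
    have hf : Function.Injective (fun i => (f i : ι)) :=
      Subtype.val_injective.comp f.injective
    refine ⟨⟨fun i => (f i : ι), hf⟩, ?_⟩
    ext i
    rw [Finset.mem_map]
    constructor
    · rintro ⟨a, _, rfl⟩
      exact (f a).2
    · intro hi
      refine ⟨f.symm ⟨i, hi⟩, Finset.mem_univ _, ?_⟩
      have h3 : f (f.symm ⟨i, hi⟩) = ⟨i, hi⟩ := f.apply_symm_apply _
      exact congrArg Subtype.val h3
  obtain ⟨e, rfl⟩ := this
  unfold lamk Tri
  simp only [lev_comp]
  have h1 : ∀ x y : ι → G, (x * y) ∘ e = (x ∘ e) * (y ∘ e) := fun x y => rfl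
  simp only [h1]
  have m1 : ∀ x : ι → G, (Fintype.card (ι → G) : ℂ)⁻¹ *
      ∑ y : ι → G, lev Finset.univ (x ∘ e) * lev Finset.univ (y ∘ e) *
        conj (lev Finset.univ ((x ∘ e) * (y ∘ e))) = (Fintype.card (Fin k → G) : ℂ)⁻¹ *
      ∑ y : Fin k → G, lev Finset.univ (x ∘ e) * lev Finset.univ y *
        conj (lev Finset.univ ((x ∘ e) * y)) := fun x =>
    marginal e e.injective (fun y => lev Finset.univ (x ∘ e) * lev Finset.univ y *
        conj (lev Finset.univ ((x ∘ e) * y)))
  have m2 := marginal (G := G) e e.injective (fun x' => (Fintype.card (Fin k → G) : ℂ)⁻¹ *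
      ∑ y : Fin k → G, lev Finset.univ x' * lev Finset.univ y *
        conj (lev Finset.univ (x' * y)))
  rw [pow_two, mul_assoc, Finset.mul_sum, Finset.sum_congr rfl fun x _ => m1 x, m2,
    ← Finset.mul_sum, pow_two, mul_assoc]

end marginal

namespace FS

variable {G : Type} [Group G] [Fintype G] [DecidableEq G] (F : FS G) {ι : Type} [Fintype ι]
  [DecidableEq ι]

omit [DecidableEq G] [DecidableEq ι] in
theorem supp_card (σ₀ : F.S) (s : ι → F.S) : (F.supp σ₀ s).card + mult s σ₀ = Fintype.card ι := by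
  unfold supp mult
  rw [add_comm, Finset.card_filter_add_card_filter_not]
  rfl

theorem level_sum_Lam {σ₀ : F.S} (h0 : F.IsTriv σ₀) (hι : Fintype.card ι ≤ Fintype.card G)
    (k : ℕ) :
    ∑ s ∈ Finset.univ.filter (fun s : ι → F.S => mult s σ₀ + k = Fintype.card ι),
      Lam F.UU s (Finj Finset.univ) (Finj Finset.univ) (Finj Finset.univ) =
    ((Fintype.card ι).choose k : ℂ) * lamk G k := by
  have h1 : ∀ s : ι → F.S, mult s σ₀ + k = Fintype.card ι ↔
      F.supp σ₀ s ∈ Finset.powersetCard k Finset.univ := by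
    intro s
    rw [Finset.mem_powersetCard, ← F.supp_card σ₀ s]
    constructor
    · intro h; exact ⟨Finset.subset_univ _, by omega⟩
    · rintro ⟨_, h⟩; omega
  have h2 := Finset.sum_fiberwise_of_maps_to
    (s := Finset.univ.filter (fun s : ι → F.S => mult s σ₀ + k = Fintype.card ι))
    (t := Finset.powersetCard k (Finset.univ : Finset ι)) (g := fun s => F.supp σ₀ s)
    (fun s hs => (h1 s).1 (Finset.mem_filter.1 hs).2)
    (fun s => Lam F.UU s (Finj Finset.univ) (Finj Finset.univ) (Finj Finset.univ))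
  rw [← h2]
  have h3 : ∀ A ∈ Finset.powersetCard k (Finset.univ : Finset ι),
      ∑ s ∈ (Finset.univ.filter (fun s : ι → F.S => mult s σ₀ + k = Fintype.card ι)).filter
        (fun s => F.supp σ₀ s = A),
        Lam F.UU s (Finj Finset.univ) (Finj Finset.univ) (Finj Finset.univ) = lamk G k := by
    intro A hA
    rw [← Tri_lev A (Finset.mem_powersetCard.1 hA).2, ← F.level_Lam h0 hι A]
    refine Finset.sum_congr ?_ fun _ _ => rfl
    ext s
    simp only [Finset.mem_filter, Finset.mem_univ, true_and, h1]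
    constructor
    · rintro ⟨_, h⟩; exact h
    · intro h; exact ⟨h ▸ hA, h⟩
  rw [Finset.sum_congr rfl h3, Finset.sum_const, Finset.card_powersetCard, nsmul_eq_mul,
    Finset.card_univ]

theorem level_sum_Een {σ₀ : F.S} (h0 : F.IsTriv σ₀) (hι : Fintype.card ι ≤ Fintype.card G)
    (k : ℕ) :
    ∑ s ∈ Finset.univ.filter (fun s : ι → F.S => mult s σ₀ + k = Fintype.card ι),
      Een F.UU s (Finj Finset.univ) =
    ((Fintype.card ι).choose k : ℝ) * wk (Fintype.card G) k := by
  have h1 : ∀ s : ι → F.S, mult s σ₀ + k = Fintype.card ι ↔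
      F.supp σ₀ s ∈ Finset.powersetCard k Finset.univ := by
    intro s
    rw [Finset.mem_powersetCard, ← F.supp_card σ₀ s]
    constructor
    · intro h; exact ⟨Finset.subset_univ _, by omega⟩
    · rintro ⟨_, h⟩; omega
  have h2 := Finset.sum_fiberwise_of_maps_to
    (s := Finset.univ.filter (fun s : ι → F.S => mult s σ₀ + k = Fintype.card ι))
    (t := Finset.powersetCard k (Finset.univ : Finset ι)) (g := fun s => F.supp σ₀ s)
    (fun s hs => (h1 s).1 (Finset.mem_filter.1 hs).2)
    (fun s => Een F.UU s (Finj Finset.univ))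
  rw [← h2]
  have h3 : ∀ A ∈ Finset.powersetCard k (Finset.univ : Finset ι),
      ∑ s ∈ (Finset.univ.filter (fun s : ι → F.S => mult s σ₀ + k = Fintype.card ι)).filter
        (fun s => F.supp σ₀ s = A),
        Een F.UU s (Finj Finset.univ) = wk (Fintype.card G) k := by
    intro A hA
    have hAk := (Finset.mem_powersetCard.1 hA).2
    rw [← hAk, ← F.nsq_lev h0 hι A, ← F.level_Een h0 hι A]
    refine Finset.sum_congr ?_ fun _ _ => rfl
    ext s
    simp only [Finset.mem_filter, Finset.mem_univ, true_and]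
    constructor
    · rintro ⟨_, h⟩; exact h
    · intro h
      refine ⟨?_, h⟩
      have := F.supp_card σ₀ s
      rw [h] at this
      omega
  rw [Finset.sum_congr rfl h3, Finset.sum_const, Finset.card_powersetCard, nsmul_eq_mul,
    Finset.card_univ]

end FS

end Pool.Agent.Lib.MP_281388_al
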