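import Mathlib
import Pool.Agent.Lib.MP_281388_al.LevelSums

set_option autoImplicit false

open scoped BigOperators ComplexConjugate
open Finset Matrix

namespace Pool.Agent.Lib.MP_281388_al

section avg

variable {Γ : Type*} [Group Γ] [Fintype Γ] [DecidableEq Γ] (H : Subgroup Γ) [Fintype H]

/-- average of `f` over the left multiplication by `H` -/
noncomputable def avg (f : Γ → ℂ) : Γ → ℂ :=
  fun y => (Fintype.card H : ℂ)⁻¹ * ∑ h : H, f ((h : Γ) * y)

omit [DecidableEq Γ] [Fintype Γ] in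
theorem cardH_ne : (Fintype.card H : ℂ) ≠ 0 := by exact_mod_cast Fintype.card_ne_zero

omit [DecidableEq Γ] in
theorem avg_sq (f : Γ → ℂ) :
    ((nsq (avg H f) : ℝ) : ℂ) = (Fintype.card Γ : ℂ)⁻¹ * ((Fintype.card H : ℂ)⁻¹ *
      ∑ h : H, ∑ y, f ((h : Γ) * y) * conj (f y)) := by
  have hH := cardH_ne H
  unfold nsq
  rw [Complex.ofReal_mul, Complex.ofReal_inv, Complex.ofReal_natCast, Complex.ofReal_sum]
  congr 1
  have h1 : ∀ y, ((‖avg H f y‖ ^ 2 : ℝ) : ℂ) = ((Fintype.card H : ℂ)⁻¹) ^ 2 *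
      ∑ h : H, ∑ h' : H, f ((h : Γ) * y) * conj (f ((h' : Γ) * y)) := by
    intro y
    have : ((‖avg H f y‖ ^ 2 : ℝ) : ℂ) = avg H f y * conj (avg H f y) := by
      rw [Complex.mul_conj, Complex.normSq_eq_norm_sq]
    rw [this]
    simp only [avg, map_mul, map_inv₀, Complex.conj_natCast, map_sum]
    have e1 : ∀ (a X Y : ℂ), a * X * (a * Y) = a ^ 2 * (X * Y) := fun a X Y => by ring
    rw [e1, Finset.sum_mul_sum]
  rw [Finset.sum_congr rfl fun y _ => h1 y, ← Finset.mul_sum, Finset.sum_comm]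
  have h2 : ∀ h : H, ∑ y, ∑ h' : H, f ((h : Γ) * y) * conj (f ((h' : Γ) * y)) =
      ∑ h' : H, ∑ y, f (((h * h'⁻¹ : H) : Γ) * y) * conj (f y) := by
    intro h
    rw [Finset.sum_comm]
    refine Finset.sum_congr rfl fun h' _ => ?_
    rw [← Equiv.sum_comp (Equiv.mulLeft ((h' : Γ))) (fun y => f (((h * h'⁻¹ : H) : Γ) * y) *
      conj (f y))]
    refine Finset.sum_congr rfl fun y _ => ?_
    rw [Equiv.coe_mulLeft]
    congr 2
    rw [Subgroup.coe_mul, Subgroup.coe_inv]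
    group
  rw [Finset.sum_congr rfl fun h _ => h2 h, Finset.sum_comm]
  have h3 : ∀ h' : H, ∑ h : H, ∑ y, f (((h * h'⁻¹ : H) : Γ) * y) * conj (f y) =
      ∑ h : H, ∑ y, f ((h : Γ) * y) * conj (f y) := by
    intro h'
    exact Equiv.sum_comp (Equiv.mulRight (h'⁻¹ : H)) (fun h : H => ∑ y, f ((h : Γ) * y) *
      conj (f y))
  rw [Finset.sum_congr rfl fun h' _ => h3 h', Finset.sum_const, Finset.card_univ, nsmul_eq_mul]
  field_simp

omit [DecidableEq Γ] in
theorem nsq_avg_le (f : Γ → ℂ) : nsq (avg H f) ≤ nsq f := by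
  have hH : (0 : ℝ) < Fintype.card H := by exact_mod_cast Fintype.card_pos
  unfold nsq
  refine mul_le_mul_of_nonneg_left ?_ (by positivity)
  have h1 : ∀ y, ‖avg H f y‖ ^ 2 ≤ (Fintype.card H : ℝ)⁻¹ * ∑ h : H, ‖f ((h : Γ) * y)‖ ^ 2 := by
    intro y
    have e1 : ‖avg H f y‖ ≤ (Fintype.card H : ℝ)⁻¹ * ∑ h : H, ‖f ((h : Γ) * y)‖ := by
      unfold avg
      rw [norm_mul, norm_inv, Complex.norm_natCast]
      refine mul_le_mul_of_nonneg_left (norm_sum_le _ _) (by positivity)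
    have e2 : (∑ h : H, ‖f ((h : Γ) * y)‖) ^ 2 ≤
        (Fintype.card H : ℝ) * ∑ h : H, ‖f ((h : Γ) * y)‖ ^ 2 := by
      have := sq_sum_le_card_mul_sum_sq (s := (Finset.univ : Finset H))
        (f := fun h : H => ‖f ((h : Γ) * y)‖)
      simpa using this
    calc ‖avg H f y‖ ^ 2 ≤ ((Fintype.card H : ℝ)⁻¹ * ∑ h : H, ‖f ((h : Γ) * y)‖) ^ 2 := by
          gcongr
      _ = ((Fintype.card H : ℝ)⁻¹) ^ 2 * (∑ h : H, ‖f ((h : Γ) * y)‖) ^ 2 := by ring
      _ ≤ ((Fintype.card H : ℝ)⁻¹) ^ 2 * ((Fintype.card H : ℝ) *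
          ∑ h : H, ‖f ((h : Γ) * y)‖ ^ 2) := by gcongr
      _ = _ := by field_simp
  calc ∑ y, ‖avg H f y‖ ^ 2 ≤ ∑ y, (Fintype.card H : ℝ)⁻¹ * ∑ h : H, ‖f ((h : Γ) * y)‖ ^ 2 :=
        Finset.sum_le_sum fun y _ => h1 y
    _ = (Fintype.card H : ℝ)⁻¹ * ∑ h : H, ∑ y, ‖f ((h : Γ) * y)‖ ^ 2 := by
        rw [← Finset.mul_sum, Finset.sum_comm]
    _ = (Fintype.card H : ℝ)⁻¹ * ∑ h : H, ∑ y, ‖f y‖ ^ 2 := by
        congr 1
        refine Finset.sum_congr rfl fun h _ => ?_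
        exact Equiv.sum_comp (Equiv.mulLeft ((h : Γ))) (fun y => ‖f y‖ ^ 2)
    _ = ∑ y, ‖f y‖ ^ 2 := by
        rw [Finset.sum_const, Finset.card_univ, nsmul_eq_mul]
        field_simp

open Classical in
/-- indicator function of a subgroup -/
noncomputable def indf (H : Subgroup Γ) : Γ → ℂ := fun x => if x ∈ H then 1 else 0

omit [DecidableEq Γ] in
theorem sum_coset (f : Γ → ℂ) (y : Γ) :
    ∑ x, f x * indf H (x * y⁻¹) = ∑ h : H, f ((h : Γ) * y) := by
  classical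
  rw [← Equiv.sum_comp (Equiv.mulRight y)]
  have h1 : ∀ x, f ((Equiv.mulRight y) x) * indf H ((Equiv.mulRight y) x * y⁻¹) =
      if x ∈ H then f (x * y) else 0 := by
    intro x
    rw [Equiv.coe_mulRight, mul_inv_cancel_right]
    unfold indf
    split_ifs <;> simp
  rw [Finset.sum_congr rfl fun x _ => h1 x, ← Finset.sum_filter]
  refine Finset.sum_subtype _ (fun x => ?_) (fun x => f (x * y))
  simp

omit [DecidableEq Γ] in
theorem Tri_ind (f : Γ → ℂ) (hreal : ∀ x, conj (f x) = f x) (hinv : ∀ x, f x⁻¹ = f x) :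
    Tri f f (indf H) = ((Fintype.card H : ℂ) / (Fintype.card Γ : ℂ)) * (nsq (avg H f) : ℝ) := by
  classical
  have hH := cardH_ne H
  have hN : (Fintype.card Γ : ℂ) ≠ 0 := card_ne_zero'
  rw [avg_sq]
  unfold Tri
  have h1 : ∑ x, ∑ y, f x * f y * conj (indf H (x * y)) =
      ∑ h : H, ∑ y, f ((h : Γ) * y) * conj (f y) := by
    rw [Finset.sum_comm]
    rw [← Equiv.sum_comp (Equiv.inv Γ)]
    have h2 : ∀ y : Γ, ∑ x, f x * f ((Equiv.inv Γ) y) * conj (indf H (x * (Equiv.inv Γ) y)) =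
        (∑ h : H, f ((h : Γ) * y)) * conj (f y) := by
      intro y
      rw [← sum_coset, Finset.sum_mul]
      refine Finset.sum_congr rfl fun x _ => ?_
      rw [Equiv.inv_apply, hinv, hreal]
      have h3 : conj (indf H (x * y⁻¹)) = indf H (x * y⁻¹) := by
        unfold indf
        split_ifs <;> simp
      rw [h3]
      ring
    rw [Finset.sum_congr rfl fun y _ => h2 y]
    simp only [Finset.sum_mul]
    rw [Finset.sum_comm]
  rw [h1]
  field_simp

omit [DecidableEq Γ] in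
/-- averages of indicators of subgroups -/
theorem nsq_avg_ind (H' : Subgroup Γ) [Fintype H'] :
    nsq (avg H (indf H')) = (Fintype.card Γ : ℝ)⁻¹ * ((Fintype.card H : ℝ)⁻¹ *
      ((Fintype.card H' : ℝ) * (Nat.card (H ⊓ H' : Subgroup Γ) : ℝ))) := by
  classical
  rw [Nat.card_eq_fintype_card]
  have h0 := avg_sq H (indf H')
  have h1 : ∑ h : H, ∑ y, indf H' ((h : Γ) * y) * conj (indf H' y) =
      (Fintype.card H' : ℂ) * (Fintype.card (H ⊓ H' : Subgroup Γ) : ℂ) := by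
    have h2 : ∀ h : H, ∑ y, indf H' ((h : Γ) * y) * conj (indf H' y) =
        (if (h : Γ) ∈ H' then (1 : ℂ) else 0) * (Fintype.card H' : ℂ) := by
      intro h
      have h3 : ∀ y, indf H' ((h : Γ) * y) * conj (indf H' y) =
          (if (h : Γ) ∈ H' then (1 : ℂ) else 0) * (if y ∈ H' then 1 else 0) := by
        intro y
        unfold indf
        by_cases hy : y ∈ H'
        · simp only [hy, if_true, map_one, mul_one]
          have : (h : Γ) * y ∈ H' ↔ (h : Γ) ∈ H' := H'.mul_mem_cancel_right hy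
          by_cases hh : (h : Γ) ∈ H'
          · rw [if_pos hh, if_pos (this.2 hh)]
          · rw [if_neg hh, if_neg (fun h' => hh (this.1 h'))]
        · simp [hy]
      rw [Finset.sum_congr rfl fun y _ => h3 y, ← Finset.mul_sum]
      congr 1
      rw [← Finset.sum_filter, Finset.sum_const, nsmul_eq_mul, mul_one]
      congr 1
      rw [← Fintype.card_subtype]
    rw [Finset.sum_congr rfl fun h _ => h2 h, ← Finset.sum_mul, mul_comm]
    congr 1
    rw [← Finset.sum_filter, Finset.sum_const, nsmul_eq_mul, mul_one]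
    congr 1
    rw [← Fintype.card_subtype]
    refine Fintype.card_congr ?_
    refine { toFun := fun x => ⟨x.1.1, ⟨x.1.2, x.2⟩⟩
             invFun := fun x => ⟨⟨x.1, x.2.1⟩, x.2.2⟩
             left_inv := fun x => rfl
             right_inv := fun x => rfl }
  rw [h1] at h0
  have h4 : ((nsq (avg H (indf H')) : ℝ) : ℂ) = (((Fintype.card Γ : ℝ)⁻¹ *
      ((Fintype.card H : ℝ)⁻¹ *
      ((Fintype.card H' : ℝ) * (Fintype.card (H ⊓ H' : Subgroup Γ) : ℝ))) : ℝ) : ℂ) := by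
    rw [h0]
    push_cast
    rfl
  exact_mod_cast h4

end avg

section seminorm

variable {Γ S : Type*} [Group Γ] [Fintype Γ] [DecidableEq Γ] [Fintype S] {K : S → Type*}
  [∀ s, Fintype (K s)] (U : (s : S) → Γ → Matrix (K s) (K s) ℂ)

omit [DecidableEq Γ] [Fintype S] in
/-- Fourier coefficients of averages -/
theorem Aco_avg (hmul : ∀ s x y, U s (x * y) = U s x * U s y) (H : Subgroup Γ) [Fintype H]
    (s : S) (f : Γ → ℂ) :
    Aco U s (avg H f) = ((Fintype.card H : ℂ)⁻¹ • ∑ h : H, U s ((h : Γ)⁻¹)) * Aco U s f := by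
  ext a b
  have h1 : (((Fintype.card H : ℂ)⁻¹ • ∑ h : H, U s ((h : Γ)⁻¹)) * Aco U s f) a b =
      (Fintype.card H : ℂ)⁻¹ * ∑ h : H, (U s ((h : Γ)⁻¹) * Aco U s f) a b := by
    rw [Matrix.smul_mul, Matrix.smul_apply, Matrix.sum_mul, Matrix.sum_apply, smul_eq_mul]
  have h2 : ∀ h : H, (U s ((h : Γ)⁻¹) * Aco U s f) a b =
      (Fintype.card Γ : ℂ)⁻¹ * ∑ y, f ((h : Γ) * y) * U s y a b := by
    intro h
    rw [Matrix.mul_apply]
    unfold Aco
    have h3 : ∀ c, U s ((h : Γ)⁻¹) a c * ((Fintype.card Γ : ℂ)⁻¹ * ∑ x, f x * U s x c b) =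
        (Fintype.card Γ : ℂ)⁻¹ * ∑ x, f x * (U s ((h : Γ)⁻¹) a c * U s x c b) := by
      intro c
      rw [Finset.mul_sum, Finset.mul_sum, Finset.mul_sum]
      exact Finset.sum_congr rfl fun x _ => by ring
    rw [Finset.sum_congr rfl fun c _ => h3 c, ← Finset.mul_sum, Finset.sum_comm]
    congr 1
    rw [← Equiv.sum_comp (Equiv.mulLeft ((h : Γ)⁻¹)) (fun y => f ((h : Γ) * y) * U s y a b)]
    refine Finset.sum_congr rfl fun x _ => ?_
    rw [← Finset.mul_sum, Equiv.coe_mulLeft, mul_inv_cancel_left, hmul, Matrix.mul_apply]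
  rw [h1, Finset.sum_congr rfl fun h _ => h2 h]
  unfold Aco avg
  rw [← Finset.mul_sum, Finset.sum_comm, ← mul_assoc, mul_comm ((Fintype.card H : ℂ)⁻¹),
    mul_assoc]
  congr 1
  rw [Finset.mul_sum]
  refine Finset.sum_congr rfl fun y _ => ?_
  rw [mul_assoc, Finset.sum_mul]

/-- weighted vector of Fourier coefficients -/
noncomputable def Tvec (L : Finset S) (f : Γ → ℂ) :
    EuclideanSpace ℂ ((s : S) × (K s × K s)) := by
  classical
  exact WithLp.toLp 2 (fun i => if i.1 ∈ L then (√(Fintype.card (K i.1) : ℝ) : ℂ) *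
    Aco U i.1 f i.2.1 i.2.2 else 0)

omit [Group Γ] [DecidableEq Γ] [Fintype S] in
theorem Tvec_sum {α : Type*} (L : Finset S) (t : Finset α) (c : α → ℂ) (f : α → Γ → ℂ) :
    Tvec U L (fun x => ∑ i ∈ t, c i * f i x) = ∑ i ∈ t, c i • Tvec U L (f i) := by
  classical
  have h1 : ∀ s a b, Aco U s (fun x => ∑ i ∈ t, c i * f i x) a b =
      ∑ i ∈ t, c i * Aco U s (f i) a b := by
    intro s a b
    unfold Aco
    simp only [Finset.sum_mul, Finset.mul_sum]
    rw [Finset.sum_comm]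
    refine Finset.sum_congr rfl fun i _ => Finset.sum_congr rfl fun x _ => ?_
    ring
  ext i
  rw [WithLp.ofLp_sum, Finset.sum_apply]
  simp only [Tvec, WithLp.ofLp_smul, Pi.smul_apply, smul_eq_mul]
  split_ifs with h
  · rw [h1, Finset.mul_sum]
    exact Finset.sum_congr rfl fun j _ => by ring
  · simp

omit [Group Γ] [DecidableEq Γ] in
theorem Tvec_norm_sq (L : Finset S) (f : Γ → ℂ) :
    ‖Tvec U L f‖ ^ 2 = ∑ s ∈ L, Een U s f := by
  classical
  rw [EuclideanSpace.norm_sq_eq, Fintype.sum_sigma]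
  have h1 : ∀ s, ∑ p : K s × K s, ‖Tvec U L f ⟨s, p⟩‖ ^ 2 = if s ∈ L then Een U s f else 0 := by
    intro s
    by_cases h : s ∈ L
    · rw [if_pos h]
      have h2 : ∀ p : K s × K s, ‖Tvec U L f ⟨s, p⟩‖ ^ 2 =
          (Fintype.card (K s) : ℝ) * ‖Aco U s f p.1 p.2‖ ^ 2 := by
        intro p
        simp only [Tvec, h, if_true]
        rw [norm_mul, mul_pow, Complex.norm_real, Real.norm_of_nonneg (Real.sqrt_nonneg _),
          Real.sq_sqrt (by positivity)]
      rw [Finset.sum_congr rfl fun p _ => h2 p, ← Finset.mul_sum, Fintype.sum_prod_type]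
      rfl
    · rw [if_neg h]
      refine Finset.sum_eq_zero fun p _ => ?_
      simp only [Tvec, h, if_false]
      simp
  rw [Finset.sum_congr rfl fun s _ => h1 s, ← Finset.sum_filter]
  exact Finset.sum_congr (by ext; simp) fun _ _ => rfl

end seminorm

end Pool.Agent.Lib.MP_281388_al
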