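import Mathlib
import Pool.Agent.Lib.MP_281388_al.Defs

set_option autoImplicit false

open scoped BigOperators ComplexConjugate
open Finset

namespace Pool.Agent.Lib.MP_281388_al

section counting

variable {ι G T : Type} [Fintype ι] [Fintype G] [Fintype T] [DecidableEq ι] [DecidableEq G]
  [DecidableEq T]

/-- number of bijections carrying the colouring `τ` to the colouring `φ` -/
theorem card_color (τ : ι → T) (φ : G → T) :
    (Finset.univ.filter (fun e : ι ≃ G => τ ∘ e.symm = φ)).card =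
      if (∀ p, mult φ p = mult τ p) then ∏ p, (mult τ p).factorial else 0 := by
  split_ifs with h
  · -- a first bijection
    have hcard : ∀ p, Fintype.card {i // τ i = p} = Fintype.card {g // φ g = p} := by
      intro p
      rw [Fintype.card_subtype, Fintype.card_subtype]
      exact (h p).symm
    let e0 : ι ≃ G := Equiv.ofFiberEquiv (f := τ) (g := φ)
      (fun p => Fintype.equivOfCardEq (hcard p))
    have he0 : ∀ i, φ (e0 i) = τ i := fun i => Equiv.ofFiberEquiv_map _ i
    rw [← Fintype.card_subtype]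
    have key : Fintype.card {g : Equiv.Perm ι // τ ∘ g = τ} = ∏ p, (mult τ p).factorial := by
      rw [DomMulAct.stabilizer_card]
      refine Finset.prod_congr rfl fun p _ => ?_
      rw [Fintype.card_subtype]
      rfl
    rw [← key]
    refine Fintype.card_congr ?_
    refine Equiv.subtypeEquiv (e := { toFun := fun e => e.trans e0.symm
                                      invFun := fun g => g.trans e0
                                      left_inv := ?_
                                      right_inv := ?_ }) ?_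
    · intro e; ext i; simp
    · intro g; ext i; simp
    · intro e
      constructor
      · intro he
        funext i
        have h1 := congrFun he (e i)
        have h2 := he0 (e0.symm (e i))
        simp only [Function.comp_apply, Equiv.symm_apply_apply, Equiv.apply_symm_apply] at h1 h2
        simp only [Function.comp_apply, Equiv.coe_fn_mk, Equiv.trans_apply]
        rw [← h2, ← h1]
      · intro he
        funext g
        have h1 := congrFun he (e.symm g)
        have h2 := he0 (e0.symm g)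
        simp only [Function.comp_apply, Equiv.coe_fn_mk, Equiv.trans_apply,
          Equiv.apply_symm_apply] at h1 h2
        simp only [Function.comp_apply]
        rw [h2, ← h1]
  · rw [Finset.card_eq_zero, Finset.filter_eq_empty_iff]
    intro e _ he
    apply h
    intro p
    unfold mult
    rw [← Fintype.card_subtype, ← Fintype.card_subtype]
    refine Fintype.card_congr (Equiv.subtypeEquiv e.symm fun g => ?_)
    rw [← he]
    rfl

theorem sum_bij_color (τ : ι → T) (h : (G → T) → ℂ) :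
    ∑ e : ι ≃ G, h (τ ∘ e.symm) =
      (∏ p, ((mult τ p).factorial : ℂ)) *
        ∑ φ ∈ Finset.univ.filter (fun φ : G → T => ∀ p, mult φ p = mult τ p), h φ := by
  have h1 := Finset.sum_fiberwise (Finset.univ : Finset (ι ≃ G)) (fun e => τ ∘ e.symm)
    (fun e => h (τ ∘ e.symm))
  rw [← h1, Finset.sum_filter, Finset.mul_sum]
  refine Finset.sum_congr rfl fun φ _ => ?_
  have h2 : ∑ e ∈ Finset.univ.filter (fun e : ι ≃ G => τ ∘ e.symm = φ), h (τ ∘ e.symm) =
      ∑ e ∈ Finset.univ.filter (fun e : ι ≃ G => τ ∘ e.symm = φ), h φ :=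
    Finset.sum_congr rfl fun e he => by rw [(Finset.mem_filter.1 he).2]
  rw [h2, Finset.sum_const, card_color, nsmul_eq_mul]
  split_ifs
  · push_cast; rfl
  · simp

omit [Fintype T] [DecidableEq ι] in
theorem prod_fiber {M : Type*} [CommMonoid M] [Fintype T] (τ : ι → T) (f : T → M) :
    ∏ i, f (τ i) = ∏ p, f p ^ mult τ p := by
  rw [← Finset.prod_fiberwise (Finset.univ : Finset ι) τ (fun i => f (τ i))]
  refine Finset.prod_congr rfl fun p _ => ?_
  rw [Finset.prod_congr rfl fun i hi => by rw [(Finset.mem_filter.1 hi).2], Finset.prod_const]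
  rfl

end counting

section phases

variable {ι G T : Type} [Fintype ι] [Fintype G] [Fintype T] [DecidableEq ι] [DecidableEq G]
  [DecidableEq T]

theorem sum_phase (N : ℕ) [NeZero N] (a b : ℕ) (ha : a < N) (hb : b < N) :
    ∑ t : ZMod N, (ZMod.stdAddChar t) ^ a * (ZMod.stdAddChar (-t)) ^ b =
      if a = b then (N : ℂ) else 0 := by
  have h1 : ∀ t : ZMod N, (ZMod.stdAddChar t) ^ a * (ZMod.stdAddChar (-t)) ^ b =
      ZMod.stdAddChar (t * ((a : ZMod N) - (b : ZMod N))) := by
    intro t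
    rw [← AddChar.map_nsmul_eq_pow, ← AddChar.map_nsmul_eq_pow, ← AddChar.map_add_eq_mul]
    congr 1
    simp only [nsmul_eq_mul]
    ring
  rw [Finset.sum_congr rfl fun t _ => h1 t,
    AddChar.sum_mulShift _ (ZMod.isPrimitive_stdAddChar N), ZMod.card]
  have h2 : ((a : ZMod N) - (b : ZMod N) = 0) ↔ a = b := by
    rw [sub_eq_zero, ZMod.natCast_eq_natCast_iff]
    constructor
    · intro h
      have := h.eq_of_lt_of_lt ha hb
      exact this
    · rintro rfl; rfl
  by_cases h : a = b
  · rw [if_pos (h2.2 h), if_pos h]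
  · rw [if_neg (fun h' => h (h2.1 h')), if_neg h]
    simp

omit [DecidableEq ι] [DecidableEq G] in
theorem sum_phase_color (τ : ι → T) (φ : G → T) (N : ℕ) [NeZero N]
    (h1 : Fintype.card ι < N) (h2 : Fintype.card G < N) :
    ∑ θ : T → ZMod N, (∏ g, (ZMod.stdAddChar (θ (φ g)) : ℂ)) *
        (∏ i, (ZMod.stdAddChar (-θ (τ i)) : ℂ)) =
      if (∀ p, mult φ p = mult τ p) then (N : ℂ) ^ Fintype.card T else 0 := by
  classical
  have e1 : ∀ θ : T → ZMod N, (∏ g, (ZMod.stdAddChar (θ (φ g)) : ℂ)) *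
        (∏ i, (ZMod.stdAddChar (-θ (τ i)) : ℂ)) =
      ∏ p, ((ZMod.stdAddChar (θ p) : ℂ) ^ mult φ p * (ZMod.stdAddChar (-θ p)) ^ mult τ p) := by
    intro θ
    rw [prod_fiber φ (fun p => (ZMod.stdAddChar (θ p) : ℂ)),
      prod_fiber τ (fun p => (ZMod.stdAddChar (-θ p) : ℂ)), Finset.prod_mul_distrib]
  rw [Finset.sum_congr rfl fun θ _ => e1 θ]
  have e2 := (Finset.prod_univ_sum (fun _ : T => (Finset.univ : Finset (ZMod N)))
    (fun p t => (ZMod.stdAddChar t : ℂ) ^ mult φ p * (ZMod.stdAddChar (-t)) ^ mult τ p))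
  rw [Fintype.piFinset_univ] at e2
  rw [← e2]
  have hm1 : ∀ p, mult φ p < N := fun p =>
    lt_of_le_of_lt (Finset.card_le_univ _) h2
  have hm2 : ∀ p, mult τ p < N := fun p =>
    lt_of_le_of_lt (Finset.card_le_univ _) h1
  rw [Finset.prod_congr rfl fun p _ => sum_phase N _ _ (hm1 p) (hm2 p)]
  by_cases h : ∀ p, mult φ p = mult τ p
  · rw [if_pos h, Finset.prod_congr rfl fun p _ => if_pos (h p), Finset.prod_const,
      Finset.card_univ]
  · rw [if_neg h]
    push Not at h
    obtain ⟨p, hp⟩ := h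
    exact Finset.prod_eq_zero (Finset.mem_univ p) (if_neg hp)

omit [DecidableEq G] [DecidableEq T] in
/-- AM-GM step -/
theorem prod_norm_le_one (z : G → ℝ) (hz : ∀ g, 0 ≤ z g) (hsum : ∑ g, z g = Fintype.card G) :
    ∏ g, z g ≤ 1 := by
  have h1 : ∏ g, z g ≤ ∏ g, Real.exp (z g - 1) := by
    refine Finset.prod_le_prod (fun g _ => hz g) fun g _ => ?_
    have := Real.add_one_le_exp (z g - 1)
    linarith
  rw [← Real.exp_sum, Finset.sum_sub_distrib, hsum] at h1
  simpa using h1

/-- The coefficient bound. -/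
theorem J_generic (v : T → G → ℂ)
    (hv : ∀ p q, ∑ g, v p g * conj (v q g) = if p = q then (Fintype.card G : ℂ) else 0)
    (τ : ι → T) (hc : Fintype.card ι = Fintype.card G) (hn : 0 < Fintype.card G) :
    ‖∑ e : ι ≃ G, ∏ i, v (τ i) (e i)‖ ^ 2 ≤
      ∏ p, (((mult τ p).factorial : ℝ) ^ 2 *
        ((Fintype.card G : ℝ) / mult τ p) ^ mult τ p) := by
  classical
  set n := Fintype.card G with hnd
  have hnR : (0 : ℝ) < n := by exact_mod_cast hn
  have hnC : (n : ℂ) ≠ 0 := by exact_mod_cast hn.ne'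
  let N := n + 1
  have : NeZero N := ⟨by omega⟩
  have hNC : (N : ℂ) ≠ 0 := by
    have : (N : ℕ) ≠ 0 := by omega
    exact_mod_cast this
  let r : T → ℝ := fun p => √((mult τ p : ℝ) / n)
  have hr0 : ∀ p, 0 ≤ r p := fun p => Real.sqrt_nonneg _
  have hr2 : ∀ p, r p ^ 2 = (mult τ p : ℝ) / n := fun p => Real.sq_sqrt (by positivity)
  have hmsum : ∑ p, (mult τ p : ℝ) = n := by
    have h1 : ∑ p, mult τ p = Fintype.card ι := by
      have := Finset.card_eq_sum_card_fiberwise (f := τ) (s := (Finset.univ : Finset ι))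
        (t := Finset.univ) (fun _ _ => by simp)
      rw [← Finset.card_univ, this]
      rfl
    rw [← Nat.cast_sum, h1, hc]
  have hrsum : ∑ p, r p ^ 2 = 1 := by
    rw [Finset.sum_congr rfl fun p _ => hr2 p, ← Finset.sum_div, hmsum]
    field_simp
  -- the polynomial evaluated at phases
  let L : (T → ZMod N) → G → ℂ := fun θ g => ∑ p, (r p : ℂ) * ZMod.stdAddChar (θ p) * v p g
  let S : (T → ZMod N) → ℂ := fun θ => (∏ g, L θ g) * ∏ i, (ZMod.stdAddChar (-θ (τ i)) : ℂ)
  have hψ : ∀ t : ZMod N, ‖(ZMod.stdAddChar t : ℂ)‖ = 1 := fun t => AddChar.norm_apply _ _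
  -- bound
  have hL : ∀ θ, ∑ g, ‖L θ g‖ ^ 2 = n := by
    intro θ
    have h1 : ((∑ g, ‖L θ g‖ ^ 2 : ℝ) : ℂ) = ∑ g, L θ g * conj (L θ g) := by
      rw [Complex.ofReal_sum]
      refine Finset.sum_congr rfl fun g _ => ?_
      rw [Complex.mul_conj, Complex.normSq_eq_norm_sq]
    have h2 : ∀ g, L θ g * conj (L θ g) = ∑ p, ∑ q,
        ((r p : ℂ) * ZMod.stdAddChar (θ p) * (r q * conj (ZMod.stdAddChar (θ q) : ℂ))) *
          (v p g * conj (v q g)) := by
      intro g
      simp only [L]
      rw [map_sum, Finset.sum_mul_sum]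
      refine Finset.sum_congr rfl fun p _ => Finset.sum_congr rfl fun q _ => ?_
      rw [map_mul, map_mul, Complex.conj_ofReal]
      ring
    have h3 : ∑ g, L θ g * conj (L θ g) = (n : ℂ) := by
      rw [Finset.sum_congr rfl fun g _ => h2 g, Finset.sum_comm]
      have h4 : ∀ p, ∑ g, ∑ q,
          ((r p : ℂ) * ZMod.stdAddChar (θ p) * (r q * conj (ZMod.stdAddChar (θ q) : ℂ))) *
          (v p g * conj (v q g)) = ((r p ^ 2 : ℝ) : ℂ) * n := by
        intro p
        rw [Finset.sum_comm]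
        have h5 : ∀ q, ∑ g, ((r p : ℂ) * ZMod.stdAddChar (θ p) *
            (r q * conj (ZMod.stdAddChar (θ q) : ℂ))) * (v p g * conj (v q g)) =
            ((r p : ℂ) * ZMod.stdAddChar (θ p) * (r q * conj (ZMod.stdAddChar (θ q) : ℂ))) *
              (if p = q then (n : ℂ) else 0) := by
          intro q
          rw [← Finset.mul_sum, hv]
        rw [Finset.sum_congr rfl fun q _ => h5 q, Finset.sum_eq_single p]
        · rw [if_pos rfl]
          have h6 : (ZMod.stdAddChar (θ p) : ℂ) * conj (ZMod.stdAddChar (θ p) : ℂ) = 1 := by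
            rw [Complex.mul_conj, Complex.normSq_eq_norm_sq, hψ]
            simp
          push_cast
          linear_combination ((r p : ℂ) ^ 2 * n) * h6
        · intro q _ hq
          rw [if_neg (Ne.symm hq), mul_zero]
        · simp
      rw [Finset.sum_congr rfl fun p _ => h4 p, ← Finset.sum_mul, ← Complex.ofReal_sum, hrsum]
      simp
    rw [h3] at h1
    exact_mod_cast h1
  have hS : ∀ θ, ‖S θ‖ ≤ 1 := by
    intro θ
    have h1 : ‖S θ‖ = ∏ g, ‖L θ g‖ := by
      simp only [S]
      rw [norm_mul, norm_prod, norm_prod, Finset.prod_congr rfl fun i _ => hψ _]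
      simp
    have h2 : (∏ g, ‖L θ g‖) ^ 2 ≤ 1 := by
      rw [← Finset.prod_pow]
      exact prod_norm_le_one _ (fun g => by positivity) (hL θ)
    rw [h1]
    have h3 : 0 ≤ ∏ g, ‖L θ g‖ := Finset.prod_nonneg fun g _ => norm_nonneg _
    nlinarith
  -- expansion
  have hexp : ∑ θ, S θ = (N : ℂ) ^ Fintype.card T *
      ∑ φ ∈ Finset.univ.filter (fun φ : G → T => ∀ p, mult φ p = mult τ p),
        ∏ g, ((r (φ g) : ℂ) * v (φ g) g) := by
    have h1 : ∀ θ, S θ = ∑ φ : G → T, (∏ g, ((r (φ g) : ℂ) * v (φ g) g)) *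
        ((∏ g, (ZMod.stdAddChar (θ (φ g)) : ℂ)) * ∏ i, (ZMod.stdAddChar (-θ (τ i)) : ℂ)) := by
      intro θ
      simp only [S, L]
      rw [Finset.prod_univ_sum, Fintype.piFinset_univ, Finset.sum_mul]
      refine Finset.sum_congr rfl fun φ _ => ?_
      rw [← mul_assoc, ← Finset.prod_mul_distrib]
      congr 1
      refine Finset.prod_congr rfl fun g _ => ?_
      ring
    rw [Finset.sum_congr rfl fun θ _ => h1 θ, Finset.sum_comm, Finset.sum_filter, Finset.mul_sum]
    refine Finset.sum_congr rfl fun φ _ => ?_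
    rw [← Finset.mul_sum, sum_phase_color τ φ N (by omega) (by omega)]
    split_ifs
    · ring
    · simp
  -- value of the radii product
  let R : ℝ := ∏ p, r p ^ mult τ p
  let M : ℝ := ∏ p, ((mult τ p).factorial : ℝ)
  have hM0 : 0 < M := Finset.prod_pos fun p _ => by positivity
  have hP : (R : ℂ) * ∑ e : ι ≃ G, ∏ i, v (τ i) (e i) =
      (M : ℂ) * ∑ φ ∈ Finset.univ.filter (fun φ : G → T => ∀ p, mult φ p = mult τ p),
        ∏ g, ((r (φ g) : ℂ) * v (φ g) g) := by
    have h1 : ∀ e : ι ≃ G, ∏ i, v (τ i) (e i) = ∏ g, v ((τ ∘ e.symm) g) g := by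
      intro e
      rw [← Equiv.prod_comp e (fun g => v ((τ ∘ e.symm) g) g)]
      simp
    rw [Finset.sum_congr rfl fun e _ => h1 e, sum_bij_color τ (fun φ => ∏ g, v (φ g) g)]
    have h2 : ∀ φ ∈ Finset.univ.filter (fun φ : G → T => ∀ p, mult φ p = mult τ p),
        ∏ g, ((r (φ g) : ℂ) * v (φ g) g) = (R : ℂ) * ∏ g, v (φ g) g := by
      intro φ hφ
      rw [Finset.prod_mul_distrib, prod_fiber φ (fun p => (r p : ℂ))]
      congr 1
      simp only [R]
      push_cast
      refine Finset.prod_congr rfl fun p _ => ?_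
      rw [(Finset.mem_filter.1 hφ).2 p]
    rw [Finset.sum_congr rfl h2, ← Finset.mul_sum]
    simp only [M]
    push_cast
    ring
  have hfin : R * ‖∑ e : ι ≃ G, ∏ i, v (τ i) (e i)‖ ≤ M := by
    have hR0 : 0 ≤ R := Finset.prod_nonneg fun p _ => pow_nonneg (hr0 p) _
    have h1 : R * ‖∑ e : ι ≃ G, ∏ i, v (τ i) (e i)‖ =
        M * ‖∑ φ ∈ Finset.univ.filter (fun φ : G → T => ∀ p, mult φ p = mult τ p),
        ∏ g, ((r (φ g) : ℂ) * v (φ g) g)‖ := by
      have := congrArg norm hP
      rw [norm_mul, norm_mul, Complex.norm_real, Complex.norm_real, Real.norm_of_nonneg hR0,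
        Real.norm_of_nonneg hM0.le] at this
      exact this
    have h2 : (N : ℝ) ^ Fintype.card T *
        ‖∑ φ ∈ Finset.univ.filter (fun φ : G → T => ∀ p, mult φ p = mult τ p),
        ∏ g, ((r (φ g) : ℂ) * v (φ g) g)‖ ≤ (N : ℝ) ^ Fintype.card T := by
      have h3 := congrArg norm hexp
      rw [norm_mul, norm_pow, Complex.norm_natCast] at h3
      rw [← h3]
      calc ‖∑ θ, S θ‖ ≤ ∑ θ, ‖S θ‖ := norm_sum_le _ _
        _ ≤ ∑ θ : T → ZMod N, (1 : ℝ) := Finset.sum_le_sum fun θ _ => hS θ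
        _ = (N : ℝ) ^ Fintype.card T := by
          simp [Finset.card_univ, ZMod.card]
    have hN0 : (0 : ℝ) < (N : ℝ) ^ Fintype.card T := by positivity
    have h4 : ‖∑ φ ∈ Finset.univ.filter (fun φ : G → T => ∀ p, mult φ p = mult τ p),
        ∏ g, ((r (φ g) : ℂ) * v (φ g) g)‖ ≤ 1 := by
      have : (N : ℝ) ^ Fintype.card T *
        ‖∑ φ ∈ Finset.univ.filter (fun φ : G → T => ∀ p, mult φ p = mult τ p),
        ∏ g, ((r (φ g) : ℂ) * v (φ g) g)‖ ≤ (N : ℝ) ^ Fintype.card T * 1 := by
          rw [mul_one]; exact h2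
      exact le_of_mul_le_mul_left this hN0
    rw [h1]
    calc M * _ ≤ M * 1 := mul_le_mul_of_nonneg_left h4 hM0.le
      _ = M := mul_one M
  -- conclusion
  have hR2 : R ^ 2 = ∏ p, ((mult τ p : ℝ) / n) ^ mult τ p := by
    simp only [R]
    rw [← Finset.prod_pow]
    refine Finset.prod_congr rfl fun p _ => ?_
    rw [← pow_mul, mul_comm, pow_mul, hr2]
  have hR2pos : 0 < R ^ 2 := by
    rw [hR2]
    refine Finset.prod_pos fun p _ => ?_
    rcases Nat.eq_zero_or_pos (mult τ p) with h | h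
    · rw [h]; simp
    · have : (0 : ℝ) < mult τ p := by exact_mod_cast h
      positivity
  have hgoal : ∏ p, (((mult τ p).factorial : ℝ) ^ 2 *
        ((n : ℝ) / mult τ p) ^ mult τ p) = M ^ 2 / R ^ 2 := by
    rw [hR2, Finset.prod_mul_distrib, Finset.prod_pow]
    rw [div_eq_mul_inv]
    congr 1
    rw [← Finset.prod_inv_distrib]
    refine Finset.prod_congr rfl fun p _ => ?_
    rw [← inv_pow, inv_div]
  rw [hgoal, le_div_iff₀ hR2pos]
  have h9 : (R * ‖∑ e : ι ≃ G, ∏ i, v (τ i) (e i)‖) ^ 2 ≤ M ^ 2 := by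
    have hR0 : 0 ≤ R := Finset.prod_nonneg fun p _ => pow_nonneg (hr0 p) _
    gcongr
  calc _ = (R * ‖∑ e : ι ≃ G, ∏ i, v (τ i) (e i)‖) ^ 2 := by ring
    _ ≤ M ^ 2 := h9

end phases

end Pool.Agent.Lib.MP_281388_al
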