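import Mathlib
import Pool.Agent.Lib.MP_281388_al.Levels
import Pool.Agent.Lib.MP_281388_al.JBound

set_option autoImplicit false

open scoped BigOperators ComplexConjugate
open Finset

namespace Pool.Agent.Lib.MP_281388_al

section relabel

/-- distribute a dependent family over the fibres of `s` -/
def fiberEquiv {ι S : Type} (s : ι → S) (P : S → Type) :
    ((i : ι) → P (s i)) ≃ ((σ : S) → {i // s i = σ} → P σ) where
  toFun c := fun σ i => i.2 ▸ c i.1
  invFun f := fun i => f (s i) ⟨i, rfl⟩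
  left_inv := fun c => rfl
  right_inv := fun f => by
    funext σ i
    obtain ⟨i, rfl⟩ := i
    rfl

theorem fiberEquiv_card {ι S : Type} [Fintype ι] [DecidableEq S] (s : ι → S) (P : S → Type)
    [∀ σ, DecidableEq (P σ)] (c : (i : ι) → P (s i)) (σ : S) (q : P σ) :
    mult (fun i => (⟨s i, c i⟩ : (σ : S) × P σ)) ⟨σ, q⟩ = mult (fiberEquiv s P c σ) q := by
  unfold mult
  symm
  refine Finset.card_bij (fun i _ => i.1) ?_ ?_ ?_
  · rintro ⟨i, rfl⟩ hi
    rw [Finset.mem_filter] at hi ⊢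
    refine ⟨Finset.mem_univ _, ?_⟩
    have h2 : c i = q := hi.2
    subst h2
    rfl
  · intro i _ j _ hij
    exact Subtype.ext hij
  · intro i hi
    rw [Finset.mem_filter] at hi
    have h1 : s i = σ := congrArg Sigma.fst hi.2
    subst h1
    refine ⟨⟨i, rfl⟩, ?_, rfl⟩
    rw [Finset.mem_filter]
    refine ⟨Finset.mem_univ _, ?_⟩
    have h3 := hi.2
    exact eq_of_heq (Sigma.mk.inj h3).2

theorem sum_fiber_prod {ι S : Type} [Fintype ι] [DecidableEq ι] [Fintype S] [DecidableEq S]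
    (s : ι → S) (P : S → Type) [∀ σ, Fintype (P σ)] [∀ σ, DecidableEq (P σ)] (W : ℕ → ℝ) :
    ∑ c : (i : ι) → P (s i), ∏ p : (σ : S) × P σ,
        W (mult (fun i => (⟨s i, c i⟩ : (σ : S) × P σ)) p) =
      ∏ σ, ∑ g : {i // s i = σ} → P σ, ∏ q, W (mult g q) := by
  rw [Finset.prod_univ_sum, Fintype.piFinset_univ, ← Equiv.sum_comp (fiberEquiv s P)]
  refine Finset.sum_congr rfl fun c _ => ?_
  rw [Fintype.prod_sigma]
  refine Finset.prod_congr rfl fun σ _ => Finset.prod_congr rfl fun q _ => ?_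
  rw [fiberEquiv_card]

theorem mult_equiv {α β γ : Type} [Fintype α] [Fintype β] [DecidableEq γ]
    (e : α ≃ β) (g : β → γ) (q : γ) : mult (g ∘ e) q = mult g q := by
  unfold mult
  rw [← Fintype.card_subtype, ← Fintype.card_subtype]
  exact Fintype.card_congr (Equiv.subtypeEquiv e fun _ => Iff.rfl)

theorem mult_equiv' {α γ δ : Type} [Fintype α] [DecidableEq γ] [DecidableEq δ]
    (e : γ ≃ δ) (g : α → γ) (q : γ) : mult (e ∘ g) (e q) = mult g q := by
  unfold mult
  congr 1
  ext i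
  simp

theorem sum_eq_TT {α β : Type} [Fintype α] [DecidableEq α] [Fintype β] [DecidableEq β]
    (m D : ℕ) (hα : Fintype.card α = m) (hβ : Fintype.card β = D) :
    ∑ g : α → β, ∏ q, wt (mult g q) = TT m D := by
  let e1 : α ≃ Fin m := Fintype.equivFinOfCardEq hα
  let e2 : β ≃ Fin D := Fintype.equivFinOfCardEq hβ
  unfold TT
  rw [← Equiv.sum_comp (Equiv.arrowCongr e1 e2)]
  refine Finset.sum_congr rfl fun g _ => ?_
  rw [← Equiv.prod_comp e2]
  refine Finset.prod_congr rfl fun q _ => ?_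
  have h1 : mult g q = mult (e2 ∘ (g ∘ e1.symm)) (e2 q) := by
    rw [mult_equiv', mult_equiv]
  rw [h1]
  rfl

end relabel

section energy

theorem sum_inj_eq {ι G : Type} [Fintype ι] [DecidableEq ι] [Fintype G] [DecidableEq G]
    (hc : Fintype.card ι = Fintype.card G) (h : (ι → G) → ℂ) [∀ x : ι → G,
      Decidable (Set.InjOn x ((Finset.univ : Finset ι) : Set ι))] :
    ∑ x : ι → G, (if Set.InjOn x ((Finset.univ : Finset ι) : Set ι) then h x else 0) =
      ∑ e : ι ≃ G, h e := by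
  rw [← Finset.sum_filter]
  symm
  refine Finset.sum_bij (fun e _ => (e : ι → G)) ?_ ?_ ?_ ?_
  · intro e _
    rw [Finset.mem_filter]
    exact ⟨Finset.mem_univ _, e.injective.injOn⟩
  · intro e _ e' _ hee
    exact Equiv.coe_fn_injective hee
  · intro x hx
    rw [Finset.mem_filter, Finset.coe_univ, Set.injOn_univ] at hx
    exact ⟨Equiv.ofBijective x ((Fintype.bijective_iff_injective_and_card x).2 ⟨hx.2, hc⟩),
      Finset.mem_univ _, rfl⟩
  · intro e _
    rfl

namespace FS

variable {G : Type} [Group G] [Fintype G] (F : FS G) {ι : Type} [Fintype ι] [DecidableEq ι]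

theorem Aco_FF [DecidableEq G] (hc : Fintype.card ι = Fintype.card G) (s : ι → F.S)
    (a b : F.KK s) :
    Aco F.UU s (Finj (G := G) (Finset.univ : Finset ι)) a b =
      ((Fintype.card G).factorial : ℂ)⁻¹ * ∑ e : ι ≃ G, ∏ i, F.U (s i) (e i) (a i) (b i) := by
  classical
  have h1 : ∀ x : ι → G, Finj (G := G) (Finset.univ : Finset ι) x * F.UU s x a b =
      (ck (Fintype.card G) (Finset.univ : Finset ι).card : ℂ) *
      (if Set.InjOn x ((Finset.univ : Finset ι) : Set ι) then F.UU s x a b else 0) := by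
    intro x
    unfold Finj
    by_cases hx : Set.InjOn x ((Finset.univ : Finset ι) : Set ι)
    · rw [if_pos hx, if_pos hx]; ring
    · rw [if_neg hx, if_neg hx]; ring
  unfold Aco
  rw [Finset.sum_congr rfl fun x _ => h1 x, ← Finset.mul_sum,
    sum_inj_eq hc (fun x => F.UU s x a b), ← mul_assoc]
  congr 1
  have hN : (Fintype.card G : ℂ) ≠ 0 := card_ne_zero'
  rw [Finset.card_univ, hc, ck, Nat.descFactorial_self, Fintype.card_fun, hc]
  push_cast
  field_simp

/-- type of a row -/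
def row (s : ι → F.S) (c : (i : ι) → Fin (F.d (s i)) × Fin (F.d (s i))) (i : ι) : F.Idx :=
  ⟨s i, c i⟩

/-- normalised matrix coefficients -/
noncomputable def vv (p : F.Idx) (g : G) : ℂ := (√(F.d p.1 : ℝ) : ℂ) * F.u p g

theorem vv_orth (p q : F.Idx) :
    ∑ g, F.vv p g * conj (F.vv q g) = if p = q then (Fintype.card G : ℂ) else 0 := by
  have h1 : ∀ g, F.vv p g * conj (F.vv q g) =
      ((√(F.d p.1 : ℝ) : ℂ) * (√(F.d q.1 : ℝ) : ℂ)) * (F.u p g * conj (F.u q g)) := by
    intro g
    unfold vv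
    rw [map_mul, Complex.conj_ofReal]
    ring
  rw [Finset.sum_congr rfl fun g _ => h1 g, ← Finset.mul_sum, F.row_orth]
  by_cases h : p = q
  · subst h
    rw [if_pos rfl, if_pos rfl, ← Complex.ofReal_mul, Real.mul_self_sqrt (by positivity)]
    have := F.dC_ne p.1
    push_cast
    field_simp
  · rw [if_neg h, if_neg h, mul_zero]

theorem Een_le [DecidableEq G] (hc : Fintype.card ι = Fintype.card G) (s : ι → F.S) :
    Een F.UU s (Finj (G := G) (Finset.univ : Finset ι)) ≤
      ((Fintype.card G).factorial : ℝ)⁻¹ * ∏ σ, TT (mult s σ) (F.d σ ^ 2) := by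
  classical
  set n := Fintype.card G with hn
  have hn0 : 0 < n := Fintype.card_pos
  have hnR : (0 : ℝ) < n := by exact_mod_cast hn0
  have hf0 : (0 : ℝ) < (n.factorial : ℝ) := by positivity
  -- termwise bound
  have hterm : ∀ c : (i : ι) → Fin (F.d (s i)) × Fin (F.d (s i)),
      (Fintype.card (F.KK s) : ℝ) * ‖Aco F.UU s (Finj (G := G) (Finset.univ : Finset ι))
        (fun i => (c i).1) (fun i => (c i).2)‖ ^ 2 ≤
      ((n.factorial : ℝ)⁻¹) ^ 2 * ∏ p : F.Idx, (((mult (F.row s c) p).factorial : ℝ) ^ 2 *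
        ((n : ℝ) / mult (F.row s c) p) ^ mult (F.row s c) p) := by
    intro c
    have h1 := J_generic F.vv F.vv_orth (F.row s c) hc hn0
    have h2 : ∀ e : ι ≃ G, ∏ i, F.vv (F.row s c i) (e i) =
        ((√((∏ i, F.d (s i) : ℕ) : ℝ) : ℝ) : ℂ) *
          ∏ i, F.U (s i) (e i) ((c i).1) ((c i).2) := by
      intro e
      have e1 : √((∏ i, F.d (s i) : ℕ) : ℝ) = ∏ i, √(F.d (s i) : ℝ) := by
        rw [Nat.cast_prod, Real.sqrt_eq_rpow, ← Real.finsetProd_rpow _ _ (fun i _ => by positivity)]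
        refine Finset.prod_congr rfl fun i _ => ?_
        rw [Real.sqrt_eq_rpow]
      rw [e1]
      push_cast
      rw [← Finset.prod_mul_distrib]
      rfl
    rw [Finset.sum_congr rfl fun e _ => h2 e, ← Finset.mul_sum, norm_mul, mul_pow,
      Complex.norm_real, Real.norm_of_nonneg (Real.sqrt_nonneg _),
      Real.sq_sqrt (by positivity)] at h1
    rw [F.Aco_FF hc, norm_mul, mul_pow, norm_inv, Complex.norm_natCast, card_KK]
    calc ((∏ i, F.d (s i) : ℕ) : ℝ) * (((n.factorial : ℝ)⁻¹) ^ 2 *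
          ‖∑ e : ι ≃ G, ∏ i, F.U (s i) (e i) ((c i).1) ((c i).2)‖ ^ 2)
        = ((n.factorial : ℝ)⁻¹) ^ 2 * (((∏ i, F.d (s i) : ℕ) : ℝ) *
          ‖∑ e : ι ≃ G, ∏ i, F.U (s i) (e i) ((c i).1) ((c i).2)‖ ^ 2) := by ring
      _ ≤ _ := mul_le_mul_of_nonneg_left h1 (by positivity)
  -- rewrite the weights
  have hmsum : ∀ c, ∑ p, mult (F.row s c) p = n := by
    intro c
    have := Finset.card_eq_sum_card_fiberwise (f := F.row s c) (s := (Finset.univ : Finset ι))
        (t := Finset.univ) (fun _ _ => by simp)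
    rw [← hc, ← Finset.card_univ, this]
    rfl
  have hwt : ∀ c, ∏ p : F.Idx, (((mult (F.row s c) p).factorial : ℝ) ^ 2 *
        ((n : ℝ) / mult (F.row s c) p) ^ mult (F.row s c) p) =
      ((n : ℝ) ^ n * Real.exp (-(n : ℝ))) * ∏ p : F.Idx, wt (mult (F.row s c) p) := by
    intro c
    have h1 : ∀ j : ℕ, ((j.factorial : ℝ) ^ 2 * ((n : ℝ) / j) ^ j) =
        ((n : ℝ) ^ j * Real.exp (-(j : ℝ))) * wt j := by
      intro j
      unfold wt tau
      rw [div_pow, Real.exp_neg]
      have := Real.exp_pos (j : ℝ)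
      have hj : (j : ℝ) ^ j ≠ 0 := by
        rcases Nat.eq_zero_or_pos j with h | h
        · rw [h]; simp
        · have : (0 : ℝ) < j := by exact_mod_cast h
          positivity
      field_simp
    rw [Finset.prod_congr rfl fun p _ => h1 _, Finset.prod_mul_distrib, Finset.prod_mul_distrib,
      Finset.prod_pow_eq_pow_sum, hmsum, ← Real.exp_sum, Finset.sum_neg_distrib, ← Nat.cast_sum,
      hmsum]
  have hexp : (n : ℝ) ^ n * Real.exp (-(n : ℝ)) ≤ (n.factorial : ℝ) := by
    have h1 := Real.pow_div_factorial_le_exp (n : ℝ) hnR.le n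
    rw [div_le_iff₀ hf0] at h1
    rw [Real.exp_neg, mul_inv_le_iff₀ (Real.exp_pos _)]
    linarith
  have hwt0 : ∀ j, 0 ≤ wt j := by
    intro j
    unfold wt tau
    positivity
  -- sum over `c`
  have hsum : Een F.UU s (Finj (G := G) (Finset.univ : Finset ι)) =
      ∑ c : (i : ι) → Fin (F.d (s i)) × Fin (F.d (s i)),
      (Fintype.card (F.KK s) : ℝ) * ‖Aco F.UU s (Finj (G := G) (Finset.univ : Finset ι))
        (fun i => (c i).1) (fun i => (c i).2)‖ ^ 2 := by
    unfold Een
    rw [← Fintype.sum_prod_type' (fun a b => ‖Aco F.UU s (Finj (G := G) Finset.univ) a b‖ ^ 2),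
      Finset.mul_sum]
    let E : (F.KK s × F.KK s) ≃ ((i : ι) → Fin (F.d (s i)) × Fin (F.d (s i))) :=
      { toFun := fun p i => (p.1 i, p.2 i)
        invFun := fun c => (fun i => (c i).1, fun i => (c i).2)
        left_inv := fun p => rfl
        right_inv := fun c => rfl }
    rw [← Equiv.sum_comp E]
    rfl
  rw [hsum]
  calc ∑ c : (i : ι) → Fin (F.d (s i)) × Fin (F.d (s i)),
        (Fintype.card (F.KK s) : ℝ) * ‖Aco F.UU s (Finj (G := G) (Finset.univ : Finset ι))
          (fun i => (c i).1) (fun i => (c i).2)‖ ^ 2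
      ≤ ∑ c : (i : ι) → Fin (F.d (s i)) × Fin (F.d (s i)),
        ((n.factorial : ℝ)⁻¹) ^ 2 * (((n : ℝ) ^ n * Real.exp (-(n : ℝ))) *
          ∏ p : F.Idx, wt (mult (F.row s c) p)) := by
        refine Finset.sum_le_sum fun c _ => ?_
        rw [← hwt c]
        exact hterm c
    _ ≤ ∑ c : (i : ι) → Fin (F.d (s i)) × Fin (F.d (s i)),
        ((n.factorial : ℝ)⁻¹) ^ 2 * ((n.factorial : ℝ) *
          ∏ p : F.Idx, wt (mult (F.row s c) p)) := by
        refine Finset.sum_le_sum fun c _ => ?_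
        have h0 : 0 ≤ ∏ p : F.Idx, wt (mult (F.row s c) p) :=
          Finset.prod_nonneg fun p _ => hwt0 _
        gcongr
    _ = ((n.factorial : ℝ)⁻¹) * ∑ c : (i : ι) → Fin (F.d (s i)) × Fin (F.d (s i)),
          ∏ p : F.Idx, wt (mult (F.row s c) p) := by
        rw [Finset.mul_sum]
        refine Finset.sum_congr rfl fun c _ => ?_
        field_simp
    _ = ((n.factorial : ℝ)⁻¹) * ∏ σ, TT (mult s σ) (F.d σ ^ 2) := by
        congr 1
        have h1 := sum_fiber_prod s (fun σ => Fin (F.d σ) × Fin (F.d σ)) wt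
        refine Eq.trans ?_ (h1.trans ?_)
        · rfl
        · refine Finset.prod_congr rfl fun σ _ => ?_
          refine sum_eq_TT _ _ ?_ ?_
          · rw [Fintype.card_subtype]; rfl
          · simp [sq]

end FS

end energy

end Pool.Agent.Lib.MP_281388_al
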