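import Mathlib

set_option autoImplicit false

open scoped BigOperators
open Finset

namespace Pool.Agent.Lib.MP_281388_al

theorem perm_apply_inv {α : Type*} (f : Equiv.Perm α) (x : α) : f (f⁻¹ x) = x :=
  f.apply_symm_apply x

theorem perm_inv_apply {α : Type*} (f : Equiv.Perm α) (x : α) : f⁻¹ (f x) = x :=
  f.symm_apply_apply x

section hadamard

variable {n : Type*} [Fintype n] [DecidableEq n]

omit [DecidableEq n] in
theorem prod_le_one_of_sum (z : n → ℝ) (hz : ∀ g, 0 ≤ z g) (hsum : ∑ g, z g = Fintype.card n) :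
    ∏ g, z g ≤ 1 := by
  have h1 : ∏ g, z g ≤ ∏ g, Real.exp (z g - 1) := by
    refine Finset.prod_le_prod (fun g _ => hz g) fun g _ => ?_
    have := Real.add_one_le_exp (z g - 1)
    linarith
  rw [← Real.exp_sum, Finset.sum_sub_distrib, hsum] at h1
  simpa using h1

/-- Hadamard's inequality for matrices with entries `±1`. -/
theorem hadamard_sq (M : Matrix n n ℝ) (hM : ∀ i j, M i j ^ 2 = 1) :
    M.det ^ 2 ≤ (Fintype.card n : ℝ) ^ Fintype.card n := by
  rcases isEmpty_or_nonempty n with h | h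
  · simp
  have hn : (0 : ℝ) < Fintype.card n := by exact_mod_cast Fintype.card_pos
  set A : Matrix n n ℝ := M * M.conjTranspose with hA
  have hpos : A.PosSemidef := Matrix.posSemidef_self_mul_conjTranspose M
  have hdet : A.det = M.det ^ 2 := by
    rw [hA, Matrix.det_mul, Matrix.det_conjTranspose]
    simp [sq]
  have htr : A.trace = (Fintype.card n : ℝ) ^ 2 := by
    rw [hA, Matrix.trace]
    have : ∀ i, (M * M.conjTranspose).diag i = (Fintype.card n : ℝ) := by
      intro i
      rw [Matrix.diag_apply, Matrix.mul_apply]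
      have h2 : ∀ j, M i j * M.conjTranspose j i = 1 := by
        intro j
        rw [Matrix.conjTranspose_apply, star_trivial, ← sq, hM]
      rw [Finset.sum_congr rfl fun j _ => h2 j]
      simp
    rw [Finset.sum_congr rfl fun i _ => this i]
    simp [sq]
  have h1 := hpos.1.det_eq_prod_eigenvalues
  have h2 := hpos.1.trace_eq_sum_eigenvalues
  have h3 : ∏ i, (hpos.1.eigenvalues i / Fintype.card n) ≤ 1 := by
    apply prod_le_one_of_sum
    · intro g
      exact div_nonneg (hpos.eigenvalues_nonneg g) hn.le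
    · rw [← Finset.sum_div]
      have : ∑ i, hpos.1.eigenvalues i = (Fintype.card n : ℝ) ^ 2 := by
        rw [← htr, h2]
        simp
      rw [this]
      field_simp
  rw [Finset.prod_div_distrib, Finset.prod_const, Finset.card_univ, div_le_one (by positivity)] at h3
  rw [← hdet, h1]
  simpa using h3

end hadamard

section signs

variable {G : Type*} [Fintype G] [DecidableEq G]

/-- `±1` valued sign vectors -/
theorem sum_signs (φ : G → G) :
    ∑ z : G → ℤˣ, (∏ i, ((z (φ i) : ℤ) : ℝ)) * ∏ g, ((z g : ℤ) : ℝ) =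
      if Function.Bijective φ then (2 : ℝ) ^ Fintype.card G else 0 := by
  classical
  have hsq : ∀ u : ℤˣ, ((u : ℤ) : ℝ) * ((u : ℤ) : ℝ) = 1 := by
    intro u
    rcases Int.units_eq_one_or u with h | h <;> rw [h] <;> simp
  split_ifs with hφ
  · have h1 : ∀ z : G → ℤˣ, (∏ i, ((z (φ i) : ℤ) : ℝ)) * ∏ g, ((z g : ℤ) : ℝ) = 1 := by
      intro z
      rw [Function.Bijective.prod_comp hφ (fun g => ((z g : ℤ) : ℝ)), ← Finset.prod_mul_distrib]
      exact Finset.prod_eq_one fun g _ => hsq _
    rw [Finset.sum_congr rfl fun z _ => h1 z]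
    simp
  · have hsurj : ¬ Function.Surjective φ := fun h => hφ (Finite.surjective_iff_bijective.1 h)
    rw [Function.Surjective] at hsurj
    push Not at hsurj
    obtain ⟨g0, hg0⟩ := hsurj
    let E : (G → ℤˣ) ≃ (G → ℤˣ) :=
      { toFun := fun z => Function.update z g0 (-z g0)
        invFun := fun z => Function.update z g0 (-z g0)
        left_inv := by intro z; simp
        right_inv := by intro z; simp }
    have h1 : ∀ z : G → ℤˣ, (∏ i, ((E z (φ i) : ℤ) : ℝ)) * ∏ g, ((E z g : ℤ) : ℝ) =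
        -((∏ i, ((z (φ i) : ℤ) : ℝ)) * ∏ g, ((z g : ℤ) : ℝ)) := by
      intro z
      have e1 : ∏ i, ((E z (φ i) : ℤ) : ℝ) = ∏ i, ((z (φ i) : ℤ) : ℝ) := by
        refine Finset.prod_congr rfl fun i _ => ?_
        change (((Function.update z g0 (-z g0)) (φ i) : ℤ) : ℝ) = _
        rw [Function.update_of_ne (hg0 i)]
      have e2 : ∏ g, ((E z g : ℤ) : ℝ) = - ∏ g, ((z g : ℤ) : ℝ) := by
        rw [← Finset.mul_prod_erase _ _ (Finset.mem_univ g0),
          ← Finset.mul_prod_erase _ (fun g => ((z g : ℤ) : ℝ)) (Finset.mem_univ g0)]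
        have e3 : ∏ x ∈ Finset.univ.erase g0, ((E z x : ℤ) : ℝ) =
            ∏ x ∈ Finset.univ.erase g0, ((z x : ℤ) : ℝ) := by
          refine Finset.prod_congr rfl fun x hx => ?_
          change (((Function.update z g0 (-z g0)) x : ℤ) : ℝ) = _
          rw [Function.update_of_ne (Finset.ne_of_mem_erase hx)]
        have e4 : ((E z g0 : ℤ) : ℝ) = - ((z g0 : ℤ) : ℝ) := by
          change (((Function.update z g0 (-z g0)) g0 : ℤ) : ℝ) = _
          rw [Function.update_self]
          push_cast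
          ring
        rw [e3, e4]
        ring
      rw [e1, e2]
      ring
    have h2 := Equiv.sum_comp E (fun z => (∏ i, ((z (φ i) : ℤ) : ℝ)) * ∏ g, ((z g : ℤ) : ℝ))
    rw [Finset.sum_congr rfl fun z _ => h1 z, Finset.sum_neg_distrib] at h2
    linarith

/-- the signed count of permutations `ψ` such that `g ↦ m g (ψ g)` is bijective -/
noncomputable def sgnCount (m : G → G → G) : ℝ :=
  ∑ ψ : Equiv.Perm G, ((Equiv.Perm.sign ψ : ℤ) : ℝ) *
    (if Function.Bijective (fun g => m g (ψ g)) then 1 else 0)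

theorem sgnCount_le (m : G → G → G) :
    |sgnCount m| ≤ √((Fintype.card G : ℝ) ^ Fintype.card G) := by
  classical
  set B : ℝ := √((Fintype.card G : ℝ) ^ Fintype.card G) with hB
  have h2 : (0 : ℝ) < 2 ^ Fintype.card G := by positivity
  let D : (G → ℤˣ) → ℝ := fun z => (Matrix.of fun a b => ((z (m b a) : ℤ) : ℝ)).det
  have hD : ∀ z, |D z| ≤ B := by
    intro z
    have h1 := hadamard_sq (Matrix.of fun a b => ((z (m b a) : ℤ) : ℝ)) (by
      intro i j
      rw [Matrix.of_apply]
      rcases Int.units_eq_one_or (z (m j i)) with h | h <;> rw [h] <;> simp)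
    rw [hB]
    exact Real.abs_le_sqrt h1
  have hmain : (2 : ℝ) ^ Fintype.card G * sgnCount m = ∑ z : G → ℤˣ, D z * ∏ g, ((z g : ℤ) : ℝ) := by
    have e1 : ∀ z : G → ℤˣ, D z * ∏ g, ((z g : ℤ) : ℝ) = ∑ ψ : Equiv.Perm G,
        ((Equiv.Perm.sign ψ : ℤ) : ℝ) *
          ((∏ i, ((z (m i (ψ i)) : ℤ) : ℝ)) * ∏ g, ((z g : ℤ) : ℝ)) := by
      intro z
      simp only [D]
      rw [Matrix.det_apply, Finset.sum_mul]
      refine Finset.sum_congr rfl fun ψ _ => ?_
      rw [Units.smul_def, zsmul_eq_mul, mul_assoc]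
      rfl
    rw [Finset.sum_congr rfl fun z _ => e1 z, Finset.sum_comm, sgnCount, Finset.mul_sum]
    refine Finset.sum_congr rfl fun ψ _ => ?_
    rw [← Finset.mul_sum, sum_signs (fun g => m g (ψ g))]
    split_ifs <;> ring
  have habs : |(2 : ℝ) ^ Fintype.card G * sgnCount m| ≤ 2 ^ Fintype.card G * B := by
    rw [hmain]
    refine (Finset.abs_sum_le_sum_abs _ _).trans ?_
    have e1 : ∀ z : G → ℤˣ, |D z * ∏ g, ((z g : ℤ) : ℝ)| ≤ B := by
      intro z
      rw [abs_mul, Finset.abs_prod]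
      have e2 : ∏ g, |((z g : ℤ) : ℝ)| = 1 := by
        refine Finset.prod_eq_one fun g _ => ?_
        rcases Int.units_eq_one_or (z g) with h | h <;> rw [h] <;> simp
      rw [e2, mul_one]
      exact hD z
    refine (Finset.sum_le_sum fun z _ => e1 z).trans ?_
    simp
  rw [abs_mul, abs_of_pos h2] at habs
  exact le_of_mul_le_mul_left habs h2

end signs

section criterion

variable {G : Type*} [Group G] [Fintype G] [DecidableEq G]

/-- complete mappings -/
def CM (G : Type*) [Group G] [Fintype G] [DecidableEq G] : Finset (Equiv.Perm G) :=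
  Finset.univ.filter (fun f => Function.Bijective (fun x : G => x * f x))

theorem mem_CM (f : Equiv.Perm G) : f ∈ CM G ↔ Function.Bijective (fun x : G => x * f x) := by
  simp [CM]

/-- the orthomorphism of a complete mapping (junk value `1` otherwise) -/
noncomputable def orth (f : Equiv.Perm G) : Equiv.Perm G := by
  classical
  exact if h : Function.Bijective (fun x : G => x * f x) then Equiv.ofBijective _ h else 1

theorem orth_apply {f : Equiv.Perm G} (hf : f ∈ CM G) (x : G) : orth f x = x * f x := by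
  unfold orth
  rw [dif_pos ((mem_CM f).1 hf)]
  rfl

theorem orth_eq {f : Equiv.Perm G} (hf : Function.Bijective (fun x : G => x * f x)) :
    orth f = Equiv.ofBijective _ hf := by
  unfold orth
  rw [dif_pos hf]

theorem sum_sign_f :
    ∑ f ∈ CM G, ((Equiv.Perm.sign f : ℤ) : ℝ) = sgnCount (fun g h : G => g * h) := by
  unfold sgnCount CM
  rw [Finset.sum_filter]
  refine Finset.sum_congr rfl fun f _ => ?_
  split_ifs <;> simp

theorem sum_sign_orth :
    ∑ f ∈ CM G, ((Equiv.Perm.sign (orth f) : ℤ) : ℝ) = sgnCount (fun g h : G => g⁻¹ * h) := by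
  classical
  have h0 : sgnCount (fun g h : G => g⁻¹ * h) =
      ∑ ψ ∈ Finset.univ.filter (fun ψ : Equiv.Perm G =>
        Function.Bijective (fun g : G => g⁻¹ * ψ g)), ((Equiv.Perm.sign ψ : ℤ) : ℝ) := by
    unfold sgnCount
    rw [Finset.sum_filter]
    refine Finset.sum_congr rfl fun ψ _ => ?_
    split_ifs <;> simp
  rw [h0]
  refine Finset.sum_bij (fun f _ => orth f) ?_ ?_ ?_ ?_
  · intro f hf
    rw [Finset.mem_filter]
    refine ⟨Finset.mem_univ _, ?_⟩
    have : (fun g : G => g⁻¹ * orth f g) = f := by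
      funext g
      rw [orth_apply hf]
      group
    rw [this]
    exact f.bijective
  · intro f hf f' hf' h
    ext x
    have h1 := orth_apply hf x
    have h2 := orth_apply hf' x
    rw [h, h2] at h1
    exact (mul_left_cancel h1).symm
  · intro ψ hψ
    rw [Finset.mem_filter] at hψ
    have hmem : Equiv.ofBijective _ hψ.2 ∈ CM G := by
      rw [mem_CM]
      have : (fun x : G => x * (Equiv.ofBijective _ hψ.2) x) = ψ := by
        funext x
        rw [Equiv.ofBijective_apply]
        group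
      rw [this]
      exact ψ.bijective
    refine ⟨Equiv.ofBijective _ hψ.2, hmem, ?_⟩
    ext x
    rw [orth_apply hmem, Equiv.ofBijective_apply]
    group
  · intro f _
    rfl

theorem sum_sign_both :
    ∑ f ∈ CM G, ((Equiv.Perm.sign f : ℤ) : ℝ) * ((Equiv.Perm.sign (orth f) : ℤ) : ℝ) =
      sgnCount (fun g h : G => h * g⁻¹) := by
  classical
  have h0 : sgnCount (fun g h : G => h * g⁻¹) =
      ∑ ψ ∈ Finset.univ.filter (fun ψ : Equiv.Perm G =>
        Function.Bijective (fun g : G => ψ g * g⁻¹)), ((Equiv.Perm.sign ψ : ℤ) : ℝ) := by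
    unfold sgnCount
    rw [Finset.sum_filter]
    refine Finset.sum_congr rfl fun ψ _ => ?_
    split_ifs <;> simp
  rw [h0]
  refine Finset.sum_bij (fun f _ => orth f * f⁻¹) ?_ ?_ ?_ ?_
  · intro f hf
    rw [Finset.mem_filter]
    refine ⟨Finset.mem_univ _, ?_⟩
    have : (fun g : G => (orth f * f⁻¹) g * g⁻¹) = f⁻¹ := by
      funext g
      rw [Equiv.Perm.mul_apply, orth_apply hf, perm_apply_inv]
      group
    rw [this]
    exact (f⁻¹).bijective
  · intro f hf f' hf' h
    have key : ∀ {f : Equiv.Perm G}, f ∈ CM G → ∀ g, f⁻¹ g = (orth f * f⁻¹) g * g⁻¹ := by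
      intro f hf g
      rw [Equiv.Perm.mul_apply, orth_apply hf, perm_apply_inv]
      group
    have h1 : f⁻¹ = f'⁻¹ := by
      ext g
      rw [key hf, key hf', h]
    exact inv_injective h1
  · intro ψ hψ
    rw [Finset.mem_filter] at hψ
    set χ : Equiv.Perm G := Equiv.ofBijective _ hψ.2 with hχ
    have hχa : ∀ g, χ g = ψ g * g⁻¹ := fun g => rfl
    have hx : ∀ x, x * χ⁻¹ x = ψ (χ⁻¹ x) := by
      intro x
      have h1 := hχa (χ⁻¹ x)
      rw [perm_apply_inv] at h1
      nth_rewrite 1 [h1]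
      group
    have hmem : χ⁻¹ ∈ CM G := by
      rw [mem_CM]
      have : (fun x : G => x * χ⁻¹ x) = (ψ * χ⁻¹ : Equiv.Perm G) := by
        funext x
        rw [hx, Equiv.Perm.mul_apply]
      rw [this]
      exact (ψ * χ⁻¹).bijective
    refine ⟨χ⁻¹, hmem, ?_⟩
    ext g
    rw [Equiv.Perm.mul_apply, orth_apply hmem, hx, inv_inv, perm_inv_apply]
  · intro f _
    rw [Equiv.Perm.sign_mul, Equiv.Perm.sign_inv]
    push_cast
    ring

/-- If there are more than `3 n^{n/2}` complete mappings, all four parity pairs occur. -/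
theorem four_of_count
    (hT : 3 * √((Fintype.card G : ℝ) ^ Fintype.card G) < ((CM G).card : ℝ)) (a b : ℤˣ) :
    ∃ f : Equiv.Perm G, ∃ hf : Function.Bijective (fun x : G => x * f x),
      Equiv.Perm.sign f = a ∧ Equiv.Perm.sign (Equiv.ofBijective (fun x : G => x * f x) hf) = b := by
  classical
  by_contra hcon
  push Not at hcon
  have hab : ∀ f ∈ CM G, (1 + ((a : ℤ) : ℝ) * ((Equiv.Perm.sign f : ℤ) : ℝ)) *
      (1 + ((b : ℤ) : ℝ) * ((Equiv.Perm.sign (orth f) : ℤ) : ℝ)) = 0 := by
    intro f hf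
    have hf' := (mem_CM f).1 hf
    have h1 := hcon f hf'
    by_cases h2 : Equiv.Perm.sign f = a
    · have h3 := h1 h2
      rw [← orth_eq hf'] at h3
      have h4 : ((b : ℤ) : ℝ) * ((Equiv.Perm.sign (orth f) : ℤ) : ℝ) = -1 := by
        rcases Int.units_eq_one_or b with hb | hb <;>
        rcases Int.units_eq_one_or (Equiv.Perm.sign (orth f)) with hs | hs
        · exact absurd (hs.trans hb.symm) h3
        · rw [hb, hs]; simp
        · rw [hb, hs]; simp
        · exact absurd (hs.trans hb.symm) h3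
      rw [h4]
      ring
    · have h4 : ((a : ℤ) : ℝ) * ((Equiv.Perm.sign f : ℤ) : ℝ) = -1 := by
        rcases Int.units_eq_one_or a with hb | hb <;>
        rcases Int.units_eq_one_or (Equiv.Perm.sign f) with hs | hs
        · exact absurd (hs.trans hb.symm) h2
        · rw [hb, hs]; simp
        · rw [hb, hs]; simp
        · exact absurd (hs.trans hb.symm) h2
      rw [h4]
      ring
  have hsum : ∑ f ∈ CM G, (1 + ((a : ℤ) : ℝ) * ((Equiv.Perm.sign f : ℤ) : ℝ)) *
      (1 + ((b : ℤ) : ℝ) * ((Equiv.Perm.sign (orth f) : ℤ) : ℝ)) = 0 :=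
    Finset.sum_eq_zero hab
  have hexp : ∑ f ∈ CM G, (1 + ((a : ℤ) : ℝ) * ((Equiv.Perm.sign f : ℤ) : ℝ)) *
      (1 + ((b : ℤ) : ℝ) * ((Equiv.Perm.sign (orth f) : ℤ) : ℝ)) =
      ((CM G).card : ℝ) + ((a : ℤ) : ℝ) * sgnCount (fun g h : G => g * h) +
        ((b : ℤ) : ℝ) * sgnCount (fun g h : G => g⁻¹ * h) +
        (((a : ℤ) : ℝ) * ((b : ℤ) : ℝ)) * sgnCount (fun g h : G => h * g⁻¹) := by
    rw [← sum_sign_f, ← sum_sign_orth, ← sum_sign_both, Finset.mul_sum, Finset.mul_sum,
      Finset.mul_sum, Finset.card_eq_sum_ones, Nat.cast_sum, ← Finset.sum_add_distrib,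
      ← Finset.sum_add_distrib, ← Finset.sum_add_distrib]
    refine Finset.sum_congr rfl fun f _ => ?_
    push_cast
    ring
  rw [hexp] at hsum
  have b1 := sgnCount_le (fun g h : G => g * h)
  have b2 := sgnCount_le (fun g h : G => g⁻¹ * h)
  have b3 := sgnCount_le (fun g h : G => h * g⁻¹)
  set B := √((Fintype.card G : ℝ) ^ Fintype.card G)
  have ha : |((a : ℤ) : ℝ)| = 1 := by
    rcases Int.units_eq_one_or a with h | h <;> rw [h] <;> simp
  have hb : |((b : ℤ) : ℝ)| = 1 := by
    rcases Int.units_eq_one_or b with h | h <;> rw [h] <;> simp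
  have c1 : |((a : ℤ) : ℝ) * sgnCount (fun g h : G => g * h)| ≤ B := by
    rw [abs_mul, ha, one_mul]; exact b1
  have c2 : |((b : ℤ) : ℝ) * sgnCount (fun g h : G => g⁻¹ * h)| ≤ B := by
    rw [abs_mul, hb, one_mul]; exact b2
  have c3 : |(((a : ℤ) : ℝ) * ((b : ℤ) : ℝ)) * sgnCount (fun g h : G => h * g⁻¹)| ≤ B := by
    rw [abs_mul, abs_mul, ha, hb, one_mul, one_mul]; exact b3
  have d1 := (abs_le.1 c1).1
  have d2 := (abs_le.1 c2).1
  have d3 := (abs_le.1 c3).1
  linarith

end criterion

end Pool.Agent.Lib.MP_281388_al
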