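import Mathlib
import Pool.Agent.Lib.MP_281388_al.LevelSums

set_option autoImplicit false

open scoped BigOperators ComplexConjugate
open Finset Matrix

namespace Pool.Agent.Lib.MP_281388_al

namespace FS

variable {G : Type} [Group G] [Fintype G] [DecidableEq G] (F : FS G) {ι : Type} [Fintype ι]
  [DecidableEq ι]

omit [DecidableEq G] [DecidableEq ι] in
theorem prod_ch_eq {χ : F.S} (hprod : ∏ g, F.ch χ g = 1)
    (hι : Fintype.card ι = Fintype.card G) (x : ι → G) (hx : Function.Injective x) :
    ∏ i, F.ch χ (x i) = 1 := by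
  have hb : Function.Bijective x := (Fintype.bijective_iff_injective_and_card x).2 ⟨hx, hι⟩
  rw [← hprod]
  exact Function.Bijective.prod_comp hb (F.ch χ)

omit [DecidableEq G] in
theorem Aco_twist {χ : F.S} (hχ : F.d χ = 1) (hprod : ∏ g, F.ch χ g = 1)
    (hι : Fintype.card ι = Fintype.card G) (s : ι → F.S) :
    Aco (F.twist hχ).UU s (Finj (G := G) (Finset.univ : Finset ι)) =
      Aco F.UU s (Finj (G := G) (Finset.univ : Finset ι)) := by
  classical
  have h1 : ∀ (x : ι → G) (a b : F.KK s), (F.twist hχ).UU s x a b =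
      (∏ i, conj (F.ch χ (x i))) * F.UU s x a b := by
    intro x a b
    have e1 : (F.twist hχ).UU s x a b =
        ∏ i, (conj (F.ch χ (x i)) * F.U (s i) (x i) (a i) (b i)) := rfl
    rw [e1, Finset.prod_mul_distrib]
    rfl
  have h2 : ∀ (x : ι → G) (a b : F.KK s),
      Finj (G := G) (Finset.univ : Finset ι) x * (F.twist hχ).UU s x a b =
      Finj (G := G) (Finset.univ : Finset ι) x * F.UU s x a b := by
    intro x a b
    rw [h1]
    by_cases hx : Set.InjOn x ((Finset.univ : Finset ι) : Set ι)
    · rw [Finset.coe_univ, Set.injOn_univ] at hx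
      have h3 : ∏ i, conj (F.ch χ (x i)) = 1 := by
        rw [← map_prod, F.prod_ch_eq hprod hι x hx, map_one]
      rw [h3, one_mul]
    · unfold Finj
      rw [if_neg hx]
      simp
  have h3 : ∀ (a b : F.KK s), Aco (F.twist hχ).UU s (Finj (G := G) (Finset.univ : Finset ι)) a b =
      Aco F.UU s (Finj (G := G) (Finset.univ : Finset ι)) a b := by
    intro a b
    unfold Aco
    congr 1
    exact Finset.sum_congr rfl fun x _ => h2 x a b
  funext a b
  exact h3 a b

theorem level_sum_Lam_ch {χ : F.S} (hχ : F.d χ = 1) (hprod : ∏ g, F.ch χ g = 1)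
    (hι : Fintype.card ι = Fintype.card G) (k : ℕ) :
    ∑ s ∈ Finset.univ.filter (fun s : ι → F.S => mult s χ + k = Fintype.card ι),
      Lam F.UU s (Finj Finset.univ) (Finj Finset.univ) (Finj Finset.univ) =
    ((Fintype.card ι).choose k : ℂ) * lamk G k := by
  rw [← (F.twist hχ).level_sum_Lam (F.twist_triv hχ) hι.le k]
  refine Finset.sum_congr rfl fun s _ => ?_
  have h := F.Aco_twist hχ hprod hι s
  unfold Lam
  rw [h]
  rfl

theorem level_sum_Een_ch {χ : F.S} (hχ : F.d χ = 1) (hprod : ∏ g, F.ch χ g = 1)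
    (hι : Fintype.card ι = Fintype.card G) (k : ℕ) :
    ∑ s ∈ Finset.univ.filter (fun s : ι → F.S => mult s χ + k = Fintype.card ι),
      Een F.UU s (Finj (G := G) Finset.univ) =
    ((Fintype.card ι).choose k : ℝ) * wk (Fintype.card G) k := by
  rw [← (F.twist hχ).level_sum_Een (F.twist_triv hχ) hι.le k]
  refine Finset.sum_congr rfl fun s _ => ?_
  have h := F.Aco_twist hχ hprod hι s
  unfold Een
  rw [h]
  rfl

end FS

end Pool.Agent.Lib.MP_281388_al
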