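import Mathlib
import Pool.Agent.Lib.MP_281388_al.JEnergy
import Pool.Agent.Lib.MP_281388_al.LevelSums
import Pool.Agent.Lib.MP_281388_al.Parity
import Pool.Agent.Lib.MP_281388_al.Twist

set_option autoImplicit false

open scoped BigOperators ComplexConjugate
open Finset Matrix

namespace Pool.Agent.Lib.MP_281388_al

section count

variable {G : Type} [Group G] [Fintype G] [DecidableEq G]

theorem ck_self (n : ℕ) : ck n n = (n : ℝ) ^ n / (n.factorial : ℝ) := by
  unfold ck
  rw [Nat.descFactorial_self]

theorem lamk_zero : lamk G 0 = 1 := by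
  unfold lamk Tri
  have h1 : ∀ x : Fin 0 → G, lev (Finset.univ : Finset (Fin 0)) x = 1 := by
    intro x
    unfold lev
    have : (Finset.univ : Finset (Fin 0)) = ∅ := rfl
    rw [this, Finset.powerset_empty, Finset.sum_singleton, Finj_empty]
    simp
  simp only [h1]
  simp

theorem sum_pairs :
    ∑ e : Equiv.Perm G, ∑ e' : Equiv.Perm G,
      (if Function.Injective (fun g : G => e g * e' g) then (1 : ℂ) else 0) =
    ((Fintype.card G).factorial : ℂ) * ((CM G).card : ℂ) := by
  classical
  have h1 : ∀ e : Equiv.Perm G, ∑ e' : Equiv.Perm G,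
      (if Function.Injective (fun g : G => e g * e' g) then (1 : ℂ) else 0) =
      ((CM G).card : ℂ) := by
    intro e
    rw [← Equiv.sum_comp (Equiv.mulRight e)]
    have h2 : ∀ f : Equiv.Perm G,
        (if Function.Injective (fun g : G => e g * (Equiv.mulRight e f) g) then (1 : ℂ) else 0) =
        if f ∈ CM G then 1 else 0 := by
      intro f
      have h3 : (fun g : G => e g * (Equiv.mulRight e f) g) = (fun x : G => x * f x) ∘ e := by
        funext g
        rfl
      have h4 : Function.Injective ((fun x : G => x * f x) ∘ e) ↔ f ∈ CM G := by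
        rw [mem_CM]
        constructor
        · intro h
          have h5 : Function.Injective (fun x : G => x * f x) := by
            have h6 := h.comp e.symm.injective
            have h7 : ((fun x : G => x * f x) ∘ e) ∘ e.symm = (fun x : G => x * f x) := by
              funext x
              simp
            rwa [h7] at h6
          exact Finite.injective_iff_bijective.1 h5
        · intro h
          exact h.1.comp e.injective
      rw [h3]
      simp only [h4]
    rw [Finset.sum_congr rfl fun f _ => h2 f, Finset.sum_ite_mem, Finset.univ_inter,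
      Finset.sum_const, nsmul_eq_mul, mul_one]
  rw [Finset.sum_congr rfl fun e _ => h1 e, Finset.sum_const, nsmul_eq_mul, Finset.card_univ,
    Fintype.card_perm]

theorem Tri_FF :
    Tri (Γ := G → G) (Finj (G := G) (Finset.univ : Finset G)) (Finj Finset.univ)
      (Finj Finset.univ) =
    (Fintype.card G : ℂ) ^ (Fintype.card G) * ((CM G).card : ℂ) /
      ((Fintype.card G).factorial : ℂ) ^ 2 := by
  classical
  set n := Fintype.card G with hn
  have hn0 : (n : ℂ) ≠ 0 := by
    rw [hn]; exact_mod_cast Fintype.card_ne_zero
  have hf0 : (n.factorial : ℂ) ≠ 0 := by exact_mod_cast Nat.factorial_ne_zero n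
  set c : ℂ := ((ck n n : ℝ) : ℂ) with hc
  have hcv : c = (n : ℂ) ^ n / (n.factorial : ℂ) := by
    rw [hc, ck_self]
    push_cast
    rfl
  have hFF : ∀ x : G → G, Finj (G := G) (Finset.univ : Finset G) x =
      if Set.InjOn x ((Finset.univ : Finset G) : Set G) then c else 0 := by
    intro x
    unfold Finj
    rw [Finset.card_univ, ← hn, ← hc]
    split_ifs <;> simp
  have hconj : conj c = c := by rw [hc]; exact Complex.conj_ofReal _
  have h1 : ∑ x : G → G, ∑ y : G → G, Finj (G := G) (Finset.univ : Finset G) x *
      Finj (Finset.univ : Finset G) y * conj (Finj (Finset.univ : Finset G) (x * y)) =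
      c ^ 3 * ((n.factorial : ℂ) * ((CM G).card : ℂ)) := by
    have h2 : ∀ x : G → G, ∑ y : G → G, Finj (G := G) (Finset.univ : Finset G) x *
        Finj (Finset.univ : Finset G) y * conj (Finj (Finset.univ : Finset G) (x * y)) =
        if Set.InjOn x ((Finset.univ : Finset G) : Set G) then
          ∑ e' : G ≃ G, c * c * conj (Finj (Finset.univ : Finset G) (x * (e' : G → G))) else 0 := by
      intro x
      rw [← sum_inj_eq rfl (fun y : G → G =>
        c * c * conj (Finj (Finset.univ : Finset G) (x * y)))]
      split_ifs with hx
      · refine Finset.sum_congr rfl fun y _ => ?_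
        rw [hFF x, if_pos hx, hFF y]
        split_ifs <;> simp
      · refine Finset.sum_eq_zero fun y _ => ?_
        rw [hFF x, if_neg hx]
        simp
    rw [Finset.sum_congr rfl fun x _ => h2 x]
    rw [sum_inj_eq rfl (fun x : G → G =>
          ∑ e' : G ≃ G, c * c * conj (Finj (Finset.univ : Finset G) (x * (e' : G → G))))]
    rw [← sum_pairs, Finset.mul_sum]
    refine Finset.sum_congr rfl fun e _ => ?_
    rw [Finset.mul_sum]
    refine Finset.sum_congr rfl fun e' _ => ?_
    rw [hFF]
    have h3 : Set.InjOn ((e : G → G) * (e' : G → G)) ((Finset.univ : Finset G) : Set G) ↔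
        Function.Injective (fun g : G => e g * e' g) := by
      rw [Finset.coe_univ, Set.injOn_univ]
      rfl
    simp only [h3]
    split_ifs
    · rw [hconj]; ring
    · simp
  unfold Tri
  rw [h1, hcv, Fintype.card_fun, ← hn]
  push_cast
  field_simp

end count

end Pool.Agent.Lib.MP_281388_al
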