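import Mathlib
import Pool.Agent.Lib.MP_281388_al.JBound

set_option autoImplicit false

open scoped BigOperators
open Finset

namespace Pool.Agent.Lib.MP_281388_al

section gf

variable {ι β : Type} [Fintype ι] [DecidableEq ι] [Fintype β] [DecidableEq β]

omit [DecidableEq ι] in
theorem sum_mult (τ : ι → β) : ∑ c, mult τ c = Fintype.card ι := by
  have := Finset.card_eq_sum_card_fiberwise (f := τ) (s := (Finset.univ : Finset ι))
        (t := Finset.univ) (fun _ _ => by simp)
  rw [← Finset.card_univ, this]
  rfl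

/-- number of colourings with given fibre sizes -/
theorem card_mult_eq (τ : ι → β) :
    (Finset.univ.filter (fun φ : ι → β => ∀ c, mult φ c = mult τ c)).card *
      ∏ c, (mult τ c).factorial = (Fintype.card ι).factorial := by
  have h1 : Fintype.card (Equiv.Perm ι) =
      ∑ φ : ι → β, (Finset.univ.filter (fun e : ι ≃ ι => τ ∘ e.symm = φ)).card := by
    rw [← Finset.card_univ]
    exact Finset.card_eq_sum_card_fiberwise (f := fun e : ι ≃ ι => τ ∘ e.symm)
      (s := (Finset.univ : Finset (Equiv.Perm ι))) (t := Finset.univ) (fun _ _ => by simp)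
  rw [Fintype.card_perm] at h1
  rw [h1, Finset.sum_congr rfl fun φ _ => card_color τ φ, ← Finset.sum_filter, Finset.sum_const,
    smul_eq_mul]

/-- generating function bound -/
theorem gf_bound (w : β → ℕ → ℝ) (hw : ∀ c j, 0 ≤ w c j) (t : ℝ) (ht : 0 < t) :
    ∑ κ : ι → β, ∏ c, w c (mult κ c) ≤
      ((Fintype.card ι).factorial : ℝ) * (t ^ (Fintype.card ι))⁻¹ *
        ∏ c, ∑ j ∈ range (Fintype.card ι + 1), w c j * t ^ j / (j.factorial : ℝ) := by
  classical
  set m := Fintype.card ι with hm
  rw [Finset.prod_univ_sum, Finset.mul_sum]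
  have hmaps : ∀ κ ∈ (Finset.univ : Finset (ι → β)), (fun c => mult κ c) ∈
      Fintype.piFinset (fun _ : β => range (m + 1)) := by
    intro κ _
    rw [Fintype.mem_piFinset]
    intro c
    rw [Finset.mem_range]
    have : mult κ c ≤ m := Finset.card_le_univ _
    omega
  rw [← Finset.sum_fiberwise_of_maps_to hmaps (fun κ => ∏ c, w c (mult κ c))]
  refine Finset.sum_le_sum fun J _ => ?_
  have hnn : 0 ≤ (m.factorial : ℝ) * (t ^ m)⁻¹ * ∏ c, w c (J c) * t ^ J c / ((J c).factorial : ℝ) := by
    have : 0 ≤ ∏ c, w c (J c) * t ^ J c / ((J c).factorial : ℝ) :=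
      Finset.prod_nonneg fun c _ => div_nonneg (mul_nonneg (hw _ _) (by positivity))
        (by positivity)
    positivity
  rcases (Finset.univ.filter (fun κ : ι → β => (fun c => mult κ c) = J)).eq_empty_or_nonempty with
    he | hne
  · rw [he, Finset.sum_empty]
    exact hnn
  · obtain ⟨τ, hτ⟩ := hne
    have hτ' : (fun c => mult τ c) = J := (Finset.mem_filter.1 hτ).2
    have hsum : ∑ c, J c = m := by
      rw [← hτ']
      exact sum_mult τ
    have hcard := card_mult_eq τ
    have hfil : (Finset.univ.filter (fun φ : ι → β => ∀ c, mult φ c = mult τ c)) =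
        Finset.univ.filter (fun κ : ι → β => (fun c => mult κ c) = J) := by
      ext κ
      simp only [Finset.mem_filter, Finset.mem_univ, true_and]
      rw [← hτ', funext_iff]
    have hJ : ∀ c, mult τ c = J c := fun c => congrFun hτ' c
    rw [hfil] at hcard
    simp only [hJ] at hcard
    have e1 : ∑ κ ∈ Finset.univ.filter (fun κ : ι → β => (fun c => mult κ c) = J),
        ∏ c, w c (mult κ c) =
        ((Finset.univ.filter (fun κ : ι → β => (fun c => mult κ c) = J)).card : ℝ) *
        ∏ c, w c (J c) := by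
      rw [← nsmul_eq_mul, ← Finset.sum_const]
      refine Finset.sum_congr rfl fun κ hκ => ?_
      have hκ' : (fun c => mult κ c) = J := (Finset.mem_filter.1 hκ).2
      refine Finset.prod_congr rfl fun c _ => ?_
      rw [← congrFun hκ' c]
    rw [e1]
    have e2 : ∏ c, w c (J c) * t ^ J c / ((J c).factorial : ℝ) =
        (∏ c, w c (J c)) * t ^ m / ∏ c, ((J c).factorial : ℝ) := by
      rw [Finset.prod_div_distrib, Finset.prod_mul_distrib, Finset.prod_pow_eq_pow_sum, hsum]
    rw [e2]
    have hcard' : ((Finset.univ.filter (fun κ : ι → β => (fun c => mult κ c) = J)).card : ℝ) *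
        ∏ c, ((J c).factorial : ℝ) = (m.factorial : ℝ) := by
      exact_mod_cast hcard
    rw [← hcard']
    have hpos : (0 : ℝ) < ∏ c, ((J c).factorial : ℝ) := Finset.prod_pos fun c _ => by positivity
    have htm : t ^ m ≠ 0 := by positivity
    apply le_of_eq
    have alg : ∀ N P Q T : ℝ, Q ≠ 0 → T ≠ 0 → N * P = N * Q * T⁻¹ * (P * T / Q) := by
      intro N P Q T hQ hT
      field_simp
    exact alg _ _ _ _ hpos.ne' htm

end gf

end Pool.Agent.Lib.MP_281388_al
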