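import Mathlib
import Pool.Agent.Lib.MP_281388_al.LevelSums

set_option autoImplicit false

open scoped BigOperators
open Finset

namespace Pool.Agent.Lib.MP_281388_al

/-- iterated differences of `ck n` -/
noncomputable def WW (n : ℕ) : ℕ → ℕ → ℝ
  | 0, m => ck n m
  | k + 1, m => WW n k (m + 1) - WW n k m

theorem WW_eq (n k m : ℕ) : WW n k m =
    ∑ j ∈ Finset.range (k + 1), (-1 : ℝ) ^ (k - j) * (k.choose j : ℝ) * ck n (m + j) := by
  have h1 : WW n k m = (fwdDiff 1)^[k] (ck n) m := by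
    induction k generalizing m with
    | zero => rfl
    | succ k ih =>
      rw [Function.iterate_succ_apply', fwdDiff, WW, ih, ih]
  rw [h1, fwdDiff_iter_eq_sum_shift]
  refine Finset.sum_congr rfl fun j _ => ?_
  rw [zsmul_eq_mul]
  push_cast
  simp

theorem wk_eq_WW (n k : ℕ) : wk n k = WW n k 0 := by
  rw [WW_eq, wk]
  simp

theorem WW_rec0 (n m : ℕ) (h : m < n) : ((n : ℝ) - m) * WW n 0 (m + 1) = n * WW n 0 m := by
  have := ck_succ h
  simp only [WW]
  linarith

theorem WW_rec (n k : ℕ) : ∀ m : ℕ, m + k + 1 < n →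
    ((n : ℝ) - m) * WW n (k + 1) (m + 1) - (k + 1) * WW n k (m + 2) = n * WW n (k + 1) m := by
  induction k with
  | zero =>
    intro m hm
    have h1 := WW_rec0 n m (by omega)
    have h2 := WW_rec0 n (m + 1) (by omega)
    simp only [WW] at h1 h2 ⊢
    push_cast at h1 h2 ⊢
    linarith
  | succ k ih =>
    intro m hm
    have h1 := ih m (by omega)
    have h2 := ih (m + 1) (by omega)
    have e1 : WW n (k + 1 + 1) (m + 1) = WW n (k + 1) (m + 1 + 1) - WW n (k + 1) (m + 1) := rfl
    have e2 : WW n (k + 1 + 1) m = WW n (k + 1) (m + 1) - WW n (k + 1) m := rfl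
    have e3 : WW n (k + 1) (m + 2) = WW n k (m + 1 + 2) - WW n k (m + 2) := rfl
    have e4 : m + 1 + 1 = m + 2 := rfl
    rw [e1, e2]
    rw [e4] at h2 ⊢
    push_cast at h1 h2 ⊢
    linear_combination h2 - h1 - (k + 1 : ℝ) * e3

theorem wk_zero (n : ℕ) : wk n 0 = 1 := by
  simp [wk, ck]

theorem wk_one (n : ℕ) (hn : 0 < n) : wk n 1 = 0 := by
  have : (n : ℝ) ≠ 0 := by exact_mod_cast hn.ne'
  simp [wk, ck, Finset.sum_range_succ, this]

theorem wk_rec (n k : ℕ) (h : k + 1 < n) :
    ((n : ℝ) - (k + 1)) * wk n (k + 2) = (k + 1) * (2 * wk n (k + 1) + wk n k) := by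
  have h1 := WW_rec n k 0 (by omega)
  simp only [wk_eq_WW]
  have e1 : WW n (k + 1) (0 + 1) = WW n (k + 2) 0 + WW n (k + 1) 0 := by
    simp only [WW]; ring
  have e2 : WW n k (0 + 2) = WW n (k + 2) 0 + 2 * WW n (k + 1) 0 + WW n k 0 := by
    simp only [WW]; ring
  rw [e1, e2] at h1
  push_cast at h1
  linear_combination h1

theorem wk_nonneg (n : ℕ) (hn : 0 < n) (k : ℕ) (h : k ≤ n) : 0 ≤ wk n k := by
  induction k using Nat.strong_induction_on with
  | _ k ih =>
    match k with
    | 0 => rw [wk_zero]; exact zero_le_one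
    | 1 => rw [wk_one n hn]
    | k + 2 =>
      have h1 := ih (k + 1) (by omega) (by omega)
      have h2 := ih k (by omega) (by omega)
      have h3 := wk_rec n k (by omega)
      have h4 : (0 : ℝ) < (n : ℝ) - (k + 1) := by
        have : ((k + 2 : ℕ) : ℝ) ≤ n := by exact_mod_cast h
        push_cast at this
        linarith
      have h5 : 0 ≤ ((n : ℝ) - (k + 1)) * wk n (k + 2) := by
        rw [h3]
        positivity
      exact nonneg_of_mul_nonneg_right h5 h4

theorem wk_bound_aux (n : ℕ) (hn : 0 < n) (k : ℕ) (h : (k : ℝ) ≤ n / 50000) :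
    wk n k ≤ √(k.factorial : ℝ) * (√(1.01 / n)) ^ k := by
  have hnR : (0 : ℝ) < n := by exact_mod_cast hn
  have hρ0 : 0 ≤ √(1.01 / (n : ℝ)) := Real.sqrt_nonneg _
  have hρ2 : (√(1.01 / (n : ℝ))) ^ 2 = 1.01 / n := Real.sq_sqrt (by positivity)
  set ρ := √(1.01 / (n : ℝ)) with hρ
  induction k using Nat.strong_induction_on with
  | _ k ih =>
    match k with
    | 0 => rw [wk_zero]; simp
    | 1 => rw [wk_one n hn]; positivity
    | k + 2 =>
      have hk2 : ((k : ℝ) + 2) ≤ n / 50000 := by push_cast at h; linarith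
      have h1 := ih (k + 1) (by omega) (by push_cast; linarith)
      have h2 := ih k (by omega) (by linarith)
      have hkn : k + 1 < n := by
        have : ((k + 1 : ℕ) : ℝ) < n := by push_cast; linarith
        exact_mod_cast this
      have h3 := wk_rec n k hkn
      have h4 : (0 : ℝ) < (n : ℝ) - (k + 1) := by linarith
      -- notation
      set a := √(k.factorial : ℝ) with ha
      have ha0 : 0 ≤ a := Real.sqrt_nonneg _
      have hk1 : (0 : ℝ) ≤ (k : ℝ) + 1 := by positivity
      have e1 : √((k + 1).factorial : ℝ) = a * √((k : ℝ) + 1) := by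
        rw [Nat.factorial_succ, ha]
        push_cast
        rw [mul_comm, Real.sqrt_mul (by positivity)]
      have e2 : a * ((k : ℝ) + 1) ≤ √((k + 2).factorial : ℝ) := by
        rw [Nat.factorial_succ, Nat.factorial_succ, ha]
        push_cast
        rw [← Real.sqrt_sq hk1, ← Real.sqrt_mul (by positivity)]
        apply Real.sqrt_le_sqrt
        rw [Real.sqrt_sq hk1]
        have : (0 : ℝ) ≤ (k.factorial : ℝ) := by positivity
        nlinarith
      rw [e1] at h1
      -- the numerical inequality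
      have hs : √((k : ℝ) + 1) * ρ ≤ 0.0046 := by
        rw [hρ, ← Real.sqrt_mul hk1]
        rw [show (0.0046 : ℝ) = √(0.0046 ^ 2) from (Real.sqrt_sq (by norm_num)).symm]
        apply Real.sqrt_le_sqrt
        rw [mul_div_assoc']
        rw [div_le_iff₀ hnR]
        linarith
      have hnum : 2 * (√((k : ℝ) + 1) * ρ) + 1 ≤ ((n : ℝ) - (k + 1)) * ρ ^ 2 := by
        rw [hρ2]
        have : ((n : ℝ) - (k + 1)) * (1.01 / n) = 1.01 - 1.01 * ((k + 1) / n) := by
          field_simp
        rw [this]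
        have h6 : ((k : ℝ) + 1) / n ≤ 1 / 50000 := by
          rw [div_le_iff₀ hnR]
          linarith
        linarith
      have h7 : ((n : ℝ) - (k + 1)) * wk n (k + 2) ≤
          ((n : ℝ) - (k + 1)) * (√((k + 2).factorial : ℝ) * ρ ^ (k + 2)) := by
        rw [h3]
        calc ((k : ℝ) + 1) * (2 * wk n (k + 1) + wk n k)
            ≤ ((k : ℝ) + 1) * (2 * (a * √((k : ℝ) + 1) * ρ ^ (k + 1)) + a * ρ ^ k) := by
              gcongr
          _ = (a * ((k : ℝ) + 1)) * ρ ^ k * (2 * (√((k : ℝ) + 1) * ρ) + 1) := by ring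
          _ ≤ (a * ((k : ℝ) + 1)) * ρ ^ k * (((n : ℝ) - (k + 1)) * ρ ^ 2) := by gcongr
          _ ≤ √((k + 2).factorial : ℝ) * ρ ^ k * (((n : ℝ) - (k + 1)) * ρ ^ 2) := by gcongr
          _ = _ := by ring
      exact le_of_mul_le_mul_left h7 h4

theorem wk_bound (n : ℕ) (hn : 0 < n) (k : ℕ) (h : (k : ℝ) ≤ n / 50000) :
    wk n k ≤ √(k.factorial : ℝ) * (1.01 / n) ^ ((k : ℝ) / 2) := by
  refine (wk_bound_aux n hn k h).trans_eq ?_
  congr 1
  have hnR : (0 : ℝ) < n := by exact_mod_cast hn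
  rw [Real.sqrt_eq_rpow, ← Real.rpow_natCast, ← Real.rpow_mul (by positivity)]
  congr 1
  ring

end Pool.Agent.Lib.MP_281388_al
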