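import Mathlib
import Pool.Agent.Lib.MP_281388_al.Defs

set_option autoImplicit false

open scoped BigOperators
open Finset

namespace Pool.Agent.Lib.MP_281388_al

/-- functions constant on the classes of a setoid -/
def kerEquiv {α β : Type*} (S : Setoid α) : {x : α → β // S ≤ Setoid.ker x} ≃ (Quotient S → β) where
  toFun x := Quotient.lift x.1 (fun _ _ h => x.2 h)
  invFun f := ⟨fun a => f (Quotient.mk S a), fun {a b} h => by
    rw [Setoid.ker_def]
    exact congrArg f (Quotient.sound h)⟩
  left_inv := fun x => rfl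
  right_inv := fun f => by
    funext q
    induction q using Quotient.inductionOn with
    | h a => rfl

theorem comp_eq_iff {α β : Type*} (π : Equiv.Perm α) (x : α → β) :
    x ∘ π = x ↔ Equiv.Perm.SameCycle.setoid π ≤ Setoid.ker x := by
  constructor
  · intro h a b hab
    rw [Setoid.ker_def]
    obtain ⟨i, hi⟩ := hab
    have h1 : ∀ c, x (π c) = x c := fun c => congrFun h c
    have h2 : ∀ (m : ℕ) (c : α), x ((π ^ m) c) = x c := by
      intro m
      induction m with
      | zero => intro c; rfl
      | succ m ih =>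
        intro c
        rw [pow_succ, Equiv.Perm.mul_apply, ih, h1]
    have h3 : ∀ (m : ℕ) (c : α), x ((π⁻¹ ^ m) c) = x c := by
      intro m c
      have := h2 m ((π⁻¹ ^ m) c)
      rw [← this, ← Equiv.Perm.mul_apply, inv_pow, mul_inv_cancel, Equiv.Perm.one_apply]
    rw [← hi]
    rcases i with m | m
    · rw [Int.ofNat_eq_natCast, zpow_natCast, h2]
    · rw [zpow_negSucc, ← inv_pow, h3]
  · intro h
    funext a
    have h1 : Equiv.Perm.SameCycle π a (π a) := ⟨1, by simp⟩
    have h2 : Setoid.ker x a (π a) := h h1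
    rw [Setoid.ker_def] at h2
    exact h2.symm

theorem card_inv {α β : Type*} [Fintype α] [DecidableEq α] [Fintype β] [DecidableEq β]
    (π : Equiv.Perm α) :
    Fintype.card {x : α → β // x ∘ π = x} = (Fintype.card β) ^ (orb π) := by
  classical
  have e : {x : α → β // x ∘ π = x} ≃ (Quotient (Equiv.Perm.SameCycle.setoid π) → β) :=
    (Equiv.subtypeEquivRight fun x => comp_eq_iff π x).trans (kerEquiv _)
  have : Fintype (Quotient (Equiv.Perm.SameCycle.setoid π)) := Fintype.ofFinite _
  rw [Fintype.card_congr e, Fintype.card_fun, orb, Nat.card_eq_fintype_card]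

theorem card_inv2 {α β : Type*} [Fintype α] [DecidableEq α] [Fintype β] [DecidableEq β]
    (π σ : Equiv.Perm α) :
    Fintype.card {x : α → β // x ∘ π = x ∧ x ∘ σ = x} = (Fintype.card β) ^ (orb2 π σ) := by
  classical
  have e : {x : α → β // x ∘ π = x ∧ x ∘ σ = x} ≃
      (Quotient (Equiv.Perm.SameCycle.setoid π ⊔ Equiv.Perm.SameCycle.setoid σ) → β) :=
    (Equiv.subtypeEquivRight fun x => by
      rw [comp_eq_iff, comp_eq_iff]
      exact sup_le_iff.symm).trans (kerEquiv _)
  have : Fintype (Quotient (Equiv.Perm.SameCycle.setoid π ⊔ Equiv.Perm.SameCycle.setoid σ)) :=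
    Fintype.ofFinite _
  rw [Fintype.card_congr e, Fintype.card_fun, orb2, Nat.card_eq_fintype_card]

end Pool.Agent.Lib.MP_281388_al
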