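import Mathlib
import Pool.Agent.Lib.MP_281388_al.Avg
import Pool.Agent.Lib.MP_281388_al.ZOrb
import Pool.Agent.Lib.MP_281388_al.Wk

set_option autoImplicit false

open scoped BigOperators ComplexConjugate
open Finset Matrix

namespace Pool.Agent.Lib.MP_281388_al

section star

variable {G : Type} [Group G] [Fintype G] [DecidableEq G] {k : ℕ}

/-- the subgroup of `π`-invariant tuples -/
def Hp (G : Type) [Group G] {k : ℕ} (π : Equiv.Perm (Fin k)) : Subgroup (Fin k → G) where
  carrier := {x | x ∘ π = x}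
  one_mem' := rfl
  mul_mem' := by
    intro x y hx hy
    change (x * y) ∘ π = x * y
    have h1 : (x * y) ∘ π = (x ∘ π) * (y ∘ π) := rfl
    rw [h1, hx, hy]
  inv_mem' := by
    intro x hx
    change (x⁻¹) ∘ π = x⁻¹
    have h1 : (x⁻¹) ∘ π = (x ∘ π)⁻¹ := rfl
    rw [h1, hx]

omit [Fintype G] [DecidableEq G] in
theorem mem_Hp (π : Equiv.Perm (Fin k)) (x : Fin k → G) : x ∈ Hp G π ↔ x ∘ π = x := Iff.rfl

instance (π : Equiv.Perm (Fin k)) : DecidablePred (· ∈ Hp G π) :=
  fun x => inferInstanceAs (Decidable (x ∘ π = x))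

theorem card_Hp (π : Equiv.Perm (Fin k)) :
    Fintype.card (Hp G π) = Fintype.card G ^ orb π := by
  rw [← card_inv]
  exact Fintype.card_congr (Equiv.subtypeEquivRight fun x => Iff.rfl)

theorem card_Hp2 (π σ : Equiv.Perm (Fin k)) :
    Nat.card (Hp G π ⊓ Hp G σ : Subgroup (Fin k → G)) = Fintype.card G ^ orb2 π σ := by
  rw [← card_inv2, ← Nat.card_eq_fintype_card]
  exact Nat.card_congr (Equiv.subtypeEquivRight fun x => Iff.rfl)

omit [Fintype G] in
/-- the indicator of injectivity as a signed sum -/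
theorem inj_expand (x : Fin k → G) :
    ∑ π : Equiv.Perm (Fin k), ((Equiv.Perm.sign π : ℤ) : ℂ) * indf (Hp G π) x =
      if Function.Injective x then 1 else 0 := by
  classical
  let M : Matrix (Fin k) (Fin k) ℂ := fun i j => if x i = x j then 1 else 0
  have h1 : M.det = ∑ π : Equiv.Perm (Fin k), ((Equiv.Perm.sign π : ℤ) : ℂ) *
      indf (Hp G π) x := by
    rw [Matrix.det_apply]
    refine Finset.sum_congr rfl fun π _ => ?_
    rw [Units.smul_def, zsmul_eq_mul]
    congr 1
    unfold indf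
    by_cases h : x ∈ Hp G π
    · rw [if_pos h]
      refine Finset.prod_eq_one fun i _ => ?_
      exact if_pos (congrFun ((mem_Hp π x).1 h) i)
    · rw [if_neg h]
      rw [mem_Hp] at h
      obtain ⟨i, hi⟩ := Function.ne_iff.1 h
      exact Finset.prod_eq_zero (Finset.mem_univ i) (if_neg hi)
  rw [← h1]
  split_ifs with hx
  · have : M = 1 := by
      ext i j
      by_cases hij : i = j
      · subst hij; simp [M]
      · rw [Matrix.one_apply_ne hij]
        exact if_neg (fun h => hij (hx h))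
    rw [this, Matrix.det_one]
  · rw [Function.Injective] at hx
    push Not at hx
    obtain ⟨i, j, hij, hne⟩ := hx
    refine Matrix.det_zero_of_row_eq hne ?_
    funext l
    simp only [M, hij]

omit [Group G] [DecidableEq G] in
theorem conj_Finj (T : Finset (Fin k)) (x : Fin k → G) : conj (Finj T x) = Finj T x := by
  unfold Finj
  split_ifs <;> simp

omit [Group G] [DecidableEq G] in
theorem conj_lev (A : Finset (Fin k)) (x : Fin k → G) : conj (lev A x) = lev A x := by
  unfold lev
  rw [map_sum]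
  refine Finset.sum_congr rfl fun T _ => ?_
  rw [map_mul, conj_Finj]
  simp

omit [DecidableEq G] in
theorem Finj_inv (T : Finset (Fin k)) (x : Fin k → G) : Finj T x⁻¹ = Finj T x := by
  classical
  unfold Finj
  have : Set.InjOn x⁻¹ (T : Set (Fin k)) ↔ Set.InjOn x (T : Set (Fin k)) := by
    constructor
    · intro h a ha b hb hab
      exact h ha hb (by simp [hab])
    · intro h a ha b hb hab
      exact h ha hb (by simpa using hab)
  simp only [this]

omit [DecidableEq G] in
theorem lev_inv (A : Finset (Fin k)) (x : Fin k → G) : lev A x⁻¹ = lev A x := by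
  unfold lev
  exact Finset.sum_congr rfl fun T _ => by rw [Finj_inv]

theorem Finj_expand (x : Fin k → G) :
    Finj (Finset.univ : Finset (Fin k)) x =
      ∑ π : Equiv.Perm (Fin k), ((ck (Fintype.card G) k : ℂ) *
        ((Equiv.Perm.sign π : ℤ) : ℂ)) * indf (Hp G π) x := by
  classical
  have h1 : ∀ π : Equiv.Perm (Fin k), ((ck (Fintype.card G) k : ℂ) *
        ((Equiv.Perm.sign π : ℤ) : ℂ)) * indf (Hp G π) x = (ck (Fintype.card G) k : ℂ) *
        (((Equiv.Perm.sign π : ℤ) : ℂ) * indf (Hp G π) x) := fun π => by ring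
  rw [Finset.sum_congr rfl fun π _ => h1 π, ← Finset.mul_sum, inj_expand]
  unfold Finj
  rw [Finset.card_univ, Fintype.card_fin]
  by_cases hx : Function.Injective x
  · rw [if_pos hx, if_pos (by rw [Finset.coe_univ, Set.injOn_univ]; exact hx)]
  · rw [if_neg hx, if_neg (by rw [Finset.coe_univ, Set.injOn_univ]; exact hx)]

end star

namespace FS

variable {G : Type} [Group G] [Fintype G] [DecidableEq G] (F : FS G) {k : ℕ}

/-- replace the third argument of the trilinear form by a function with the same top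
coefficients -/
theorem Tri_third {σ₀ : F.S} (h0 : F.IsTriv σ₀) (hk : k ≤ Fintype.card G)
    (h h' : (Fin k → G) → ℂ)
    (hh : ∀ s : Fin k → F.S, F.supp σ₀ s = Finset.univ → Aco F.UU s h = Aco F.UU s h') :
    Tri (lev (G := G) (Finset.univ : Finset (Fin k))) (lev Finset.univ) h =
      Tri (lev (G := G) (Finset.univ : Finset (Fin k))) (lev Finset.univ) h' := by
  unfold Tri
  rw [← trilinear F.UU F.colOrth F.UU_mul, ← trilinear F.UU F.colOrth F.UU_mul]
  refine Finset.sum_congr rfl fun s _ => ?_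
  by_cases hs : F.supp σ₀ s = Finset.univ
  · exact Lam_congr _ _ _ _ _ _ _ _ rfl rfl (hh s hs)
  · have h1 := F.Aco_lev h0 (by rw [Fintype.card_fin]; exact hk) s Finset.univ
    rw [if_neg hs] at h1
    rw [Lam_zero _ _ _ _ _ h1, Lam_zero _ _ _ _ _ h1]

theorem lamk_eq {σ₀ : F.S} (h0 : F.IsTriv σ₀) (hk : k ≤ Fintype.card G) :
    lamk G k = ∑ π : Equiv.Perm (Fin k), ((ck (Fintype.card G) k : ℂ) *
        ((Equiv.Perm.sign π : ℤ) : ℂ)) *
      Tri (lev (G := G) (Finset.univ : Finset (Fin k))) (lev Finset.univ) (indf (Hp G π)) := by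
  unfold lamk
  rw [F.Tri_third h0 hk (lev Finset.univ) (Finj Finset.univ)]
  · unfold Tri
    have h1 : ∀ x y : Fin k → G, lev Finset.univ x * lev Finset.univ y *
        conj (Finj Finset.univ (x * y)) = ∑ π : Equiv.Perm (Fin k),
        ((ck (Fintype.card G) k : ℂ) * ((Equiv.Perm.sign π : ℤ) : ℂ)) *
        (lev Finset.univ x * lev Finset.univ y * conj (indf (Hp G π) (x * y))) := by
      intro x y
      rw [Finj_expand, map_sum, Finset.mul_sum]
      refine Finset.sum_congr rfl fun π _ => ?_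
      rw [map_mul, map_mul, Complex.conj_ofReal, map_intCast]
      ring
    have h2 : ∑ x : Fin k → G, ∑ y : Fin k → G, lev Finset.univ x * lev Finset.univ y *
        conj (Finj Finset.univ (x * y)) = ∑ π : Equiv.Perm (Fin k),
        ((ck (Fintype.card G) k : ℂ) * ((Equiv.Perm.sign π : ℤ) : ℂ)) *
        ∑ x : Fin k → G, ∑ y : Fin k → G,
        (lev Finset.univ x * lev Finset.univ y * conj (indf (Hp G π) (x * y))) := by
      simp only [h1]
      rw [Finset.sum_congr rfl fun x _ => Finset.sum_comm, Finset.sum_comm]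
      refine Finset.sum_congr rfl fun π _ => ?_
      rw [Finset.mul_sum]
      refine Finset.sum_congr rfl fun x _ => ?_
      rw [Finset.mul_sum]
    rw [h2, Finset.mul_sum]
    refine Finset.sum_congr rfl fun π _ => ?_
    ring
  · intro s hs
    have h1 := F.Aco_lev h0 (by rw [Fintype.card_fin]; exact hk) s Finset.univ
    rw [if_pos hs] at h1
    exact h1

/-- permutations with a fixed point do not contribute -/
theorem Aco_ind_zero {σ₀ : F.S} (h0 : F.IsTriv σ₀) (π : Equiv.Perm (Fin k)) (hπ : π ∉ Der k)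
    (s : Fin k → F.S) (hs : F.supp σ₀ s = Finset.univ) : Aco F.UU s (indf (Hp G π)) = 0 := by
  have h1 : ∃ j, π j = j := by
    by_contra hcon
    push Not at hcon
    exact hπ (Finset.mem_filter.2 ⟨Finset.mem_univ _, hcon⟩)
  obtain ⟨j, hj⟩ := h1
  have hsj : s j ≠ σ₀ := by
    have : j ∈ F.supp σ₀ s := by rw [hs]; exact Finset.mem_univ j
    exact (Finset.mem_filter.1 this).2
  refine F.Aco_eq_zero h0 s j hsj _ fun x g => ?_
  have h2 : Function.update x j g ∈ Hp G π ↔ x ∈ Hp G π := by
    rw [mem_Hp, mem_Hp, funext_iff, funext_iff]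
    refine forall_congr' fun i => ?_
    simp only [Function.comp_apply]
    by_cases hij : i = j
    · subst hij
      rw [hj]
      simp
    · have h3 : π i ≠ j := by
        intro h
        apply hij
        apply π.injective
        rw [h, hj]
      rw [Function.update_of_ne h3, Function.update_of_ne hij]
  unfold indf
  by_cases hx : x ∈ Hp G π
  · rw [if_pos hx, if_pos (h2.2 hx)]
  · rw [if_neg hx, if_neg (fun h => hx (h2.1 h))]

theorem Tri_ind_zero {σ₀ : F.S} (h0 : F.IsTriv σ₀) (hk : k ≤ Fintype.card G)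
    (π : Equiv.Perm (Fin k)) (hπ : π ∉ Der k) :
    Tri (lev (G := G) (Finset.univ : Finset (Fin k))) (lev Finset.univ) (indf (Hp G π)) = 0 := by
  rw [F.Tri_third h0 hk (indf (Hp G π)) (fun _ => 0)]
  · unfold Tri
    simp
  · intro s hs
    rw [F.Aco_ind_zero h0 π hπ s hs]
    ext a b
    unfold Aco
    simp

/-- first bound -/
theorem nsq_avg_le_wk {σ₀ : F.S} (h0 : F.IsTriv σ₀) (hk : k ≤ Fintype.card G)
    (π : Equiv.Perm (Fin k)) :
    nsq (avg (Hp G π) (lev (G := G) (Finset.univ : Finset (Fin k)))) ≤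
      wk (Fintype.card G) k := by
  have h1 := nsq_avg_le (Hp G π) (lev (G := G) (Finset.univ : Finset (Fin k)))
  rw [F.nsq_lev h0 (by rw [Fintype.card_fin]; exact hk)] at h1
  simpa using h1

/-- value of the averages of indicators -/
theorem nsq_avg_Hp (π σ : Equiv.Perm (Fin k)) :
    nsq (avg (Hp G π) (indf (Hp G σ))) =
      (((Fintype.card G : ℝ)) ^ ((((orb σ : ℝ) - k) + ((orb2 π σ : ℝ) - orb π)) / 2)) ^ 2 := by
  have hn : (0 : ℝ) < Fintype.card G := by exact_mod_cast Fintype.card_pos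
  rw [nsq_avg_ind, card_Hp, card_Hp, card_Hp2, Fintype.card_fun, Fintype.card_fin]
  rw [← Real.rpow_natCast (_ ^ _) 2, ← Real.rpow_mul hn.le]
  have e1 : (((orb σ : ℝ) - k) + ((orb2 π σ : ℝ) - orb π)) / 2 * ((2 : ℕ) : ℝ) =
      -(k : ℝ) + (-(orb π : ℝ) + ((orb σ : ℝ) + (orb2 π σ : ℝ))) := by
    push_cast; ring
  rw [e1, Real.rpow_add hn, Real.rpow_add hn, Real.rpow_add hn, Real.rpow_neg hn.le,
    Real.rpow_neg hn.le, Real.rpow_natCast, Real.rpow_natCast, Real.rpow_natCast,
    Real.rpow_natCast]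
  push_cast
  rfl

/-- second bound -/
theorem nsq_avg_le_Spi {σ₀ : F.S} (h0 : F.IsTriv σ₀) (hk : k ≤ Fintype.card G)
    (π : Equiv.Perm (Fin k)) :
    nsq (avg (Hp G π) (lev (G := G) (Finset.univ : Finset (Fin k)))) ≤
      (ck (Fintype.card G) k * Spi (Fintype.card G) π) ^ 2 := by
  classical
  have hn0 : 0 < Fintype.card G := Fintype.card_pos
  have hck : 0 < ck (Fintype.card G) k := ck_pos hk hn0
  set L : Finset (Fin k → F.S) := Finset.univ.filter (fun s => F.supp σ₀ s = Finset.univ) with hL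
  -- reduction to the top level
  have h1 : nsq (avg (Hp G π) (lev (G := G) (Finset.univ : Finset (Fin k)))) =
      ‖Tvec F.UU L (avg (Hp G π) (Finj (G := G) (Finset.univ : Finset (Fin k))))‖ ^ 2 := by
    rw [Tvec_norm_sq]
    unfold nsq
    rw [← parseval F.UU F.colOrth, hL, Finset.sum_filter]
    refine Finset.sum_congr rfl fun s _ => ?_
    have h2 := F.Aco_lev h0 (by rw [Fintype.card_fin]; exact hk) s Finset.univ
    by_cases hs : F.supp σ₀ s = Finset.univ
    · rw [if_pos hs] at h2 ⊢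
      refine Een_congr _ _ _ _ ?_
      rw [Aco_avg F.UU F.UU_mul, Aco_avg F.UU F.UU_mul, h2]
    · rw [if_neg hs] at h2 ⊢
      refine Een_zero _ _ _ ?_
      rw [Aco_avg F.UU F.UU_mul, h2, Matrix.mul_zero]
  -- expansion
  have h3 : avg (Hp G π) (Finj (G := G) (Finset.univ : Finset (Fin k))) =
      fun y => ∑ σ : Equiv.Perm (Fin k), ((ck (Fintype.card G) k : ℂ) *
        ((Equiv.Perm.sign σ : ℤ) : ℂ)) * avg (Hp G π) (indf (Hp G σ)) y := by
    funext y
    unfold avg
    simp only [Finj_expand]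
    rw [Finset.sum_comm, Finset.mul_sum]
    refine Finset.sum_congr rfl fun σ _ => ?_
    rw [← Finset.mul_sum]
    ring
  rw [h3, Tvec_sum] at h1
  have h4 : ∀ σ : Equiv.Perm (Fin k), ‖(((ck (Fintype.card G) k : ℂ) *
        ((Equiv.Perm.sign σ : ℤ) : ℂ)) • Tvec F.UU L (avg (Hp G π) (indf (Hp G σ))))‖ ≤
      if σ ∈ Der k then ck (Fintype.card G) k *
        ((Fintype.card G : ℝ)) ^ ((((orb σ : ℝ) - k) + ((orb2 π σ : ℝ) - orb π)) / 2) else 0 := by
    intro σ
    rw [norm_smul, norm_mul, Complex.norm_real, Real.norm_of_nonneg hck.le]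
    have h5 : ‖(((Equiv.Perm.sign σ : ℤ) : ℂ))‖ = 1 := by
      rcases Int.units_eq_one_or (Equiv.Perm.sign σ) with h | h <;> rw [h] <;> simp
    rw [h5, mul_one]
    split_ifs with hσ
    · refine mul_le_mul_of_nonneg_left ?_ hck.le
      have h6 : ‖Tvec F.UU L (avg (Hp G π) (indf (Hp G σ)))‖ ^ 2 ≤
          (((Fintype.card G : ℝ)) ^ ((((orb σ : ℝ) - k) + ((orb2 π σ : ℝ) - orb π)) / 2)) ^ 2 := by
        rw [← nsq_avg_Hp, Tvec_norm_sq]
        unfold nsq
        rw [← parseval F.UU F.colOrth]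
        exact Finset.sum_le_sum_of_subset_of_nonneg (Finset.subset_univ _)
          fun s _ _ => Een_nonneg _ _ _
      have h7 : 0 ≤ ((Fintype.card G : ℝ)) ^
          ((((orb σ : ℝ) - k) + ((orb2 π σ : ℝ) - orb π)) / 2) := by positivity
      exact (pow_le_pow_iff_left₀ (norm_nonneg _) h7 two_ne_zero).1 h6
    · have h6 : ‖Tvec F.UU L (avg (Hp G π) (indf (Hp G σ)))‖ ^ 2 = 0 := by
        rw [Tvec_norm_sq]
        refine Finset.sum_eq_zero fun s hs => ?_
        refine Een_zero _ _ _ ?_
        rw [Aco_avg F.UU F.UU_mul, F.Aco_ind_zero h0 σ hσ s (Finset.mem_filter.1 hs).2,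
          Matrix.mul_zero]
      have h7 : ‖Tvec F.UU L (avg (Hp G π) (indf (Hp G σ)))‖ = 0 := by
        simpa using h6
      rw [h7, mul_zero]
  have h5 : ‖∑ σ : Equiv.Perm (Fin k), ((ck (Fintype.card G) k : ℂ) *
        ((Equiv.Perm.sign σ : ℤ) : ℂ)) • Tvec F.UU L (avg (Hp G π) (indf (Hp G σ)))‖ ≤
      ck (Fintype.card G) k * Spi (Fintype.card G) π := by
    refine (norm_sum_le _ _).trans ((Finset.sum_le_sum fun σ _ => h4 σ).trans ?_)
    rw [← Finset.sum_filter, Spi, Finset.mul_sum]
    refine le_of_eq (Finset.sum_congr ?_ fun _ _ => rfl)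
    ext σ
    simp
  rw [h1]
  gcongr

/-- The star inequality. -/
theorem lamk_le {σ₀ : F.S} (h0 : F.IsTriv σ₀) (hk : k ≤ Fintype.card G) :
    ‖lamk G k‖ ≤ ck (Fintype.card G) k * ∑ π ∈ Der k,
      (Fintype.card G : ℝ) ^ ((orb π : ℝ) - k) *
        min (wk (Fintype.card G) k) ((ck (Fintype.card G) k * Spi (Fintype.card G) π) ^ 2) := by
  classical
  have hn0 : 0 < Fintype.card G := Fintype.card_pos
  have hn : (0 : ℝ) < Fintype.card G := by exact_mod_cast Fintype.card_pos
  have hck : 0 < ck (Fintype.card G) k := ck_pos hk hn0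
  rw [F.lamk_eq h0 hk]
  refine (norm_sum_le _ _).trans ?_
  have h1 : ∀ π : Equiv.Perm (Fin k), ‖((ck (Fintype.card G) k : ℂ) *
        ((Equiv.Perm.sign π : ℤ) : ℂ)) *
      Tri (lev (G := G) (Finset.univ : Finset (Fin k))) (lev Finset.univ) (indf (Hp G π))‖ ≤
      if π ∈ Der k then ck (Fintype.card G) k * ((Fintype.card G : ℝ) ^ ((orb π : ℝ) - k) *
        min (wk (Fintype.card G) k) ((ck (Fintype.card G) k * Spi (Fintype.card G) π) ^ 2))
      else 0 := by
    intro π
    split_ifs with hπ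
    · rw [norm_mul, norm_mul, Complex.norm_real, Real.norm_of_nonneg hck.le]
      have h5 : ‖(((Equiv.Perm.sign π : ℤ) : ℂ))‖ = 1 := by
        rcases Int.units_eq_one_or (Equiv.Perm.sign π) with h | h <;> rw [h] <;> simp
      rw [h5, mul_one]
      refine mul_le_mul_of_nonneg_left ?_ hck.le
      have h8 := Tri_ind (Hp G π) (lev (G := G) (Finset.univ : Finset (Fin k)))
        (fun x => conj_lev Finset.univ x) (fun x => lev_inv Finset.univ x)
      rw [h8, norm_mul, Complex.norm_real]
      have h6 : ‖((Fintype.card (Hp G π) : ℂ) / (Fintype.card (Fin k → G) : ℂ))‖ =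
          (Fintype.card G : ℝ) ^ ((orb π : ℝ) - k) := by
        rw [norm_div, Complex.norm_natCast, Complex.norm_natCast, card_Hp, Fintype.card_fun,
          Fintype.card_fin, Real.rpow_sub hn, Real.rpow_natCast, Real.rpow_natCast]
        push_cast
        rfl
      rw [h6]
      refine mul_le_mul_of_nonneg_left ?_ (by positivity)
      have h7 : 0 ≤ nsq (avg (Hp G π) (lev (G := G) (Finset.univ : Finset (Fin k)))) := by
        unfold nsq
        positivity
      rw [Real.norm_of_nonneg h7]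
      exact le_min (F.nsq_avg_le_wk h0 hk π) (F.nsq_avg_le_Spi h0 hk π)
    · rw [F.Tri_ind_zero h0 hk π hπ, mul_zero, norm_zero]
  refine (Finset.sum_le_sum fun π _ => h1 π).trans ?_
  rw [← Finset.sum_filter, Finset.mul_sum]
  refine le_of_eq (Finset.sum_congr ?_ fun _ _ => rfl)
  ext π
  simp

end FS

end Pool.Agent.Lib.MP_281388_al
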