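import Mathlib

set_option autoImplicit false

open scoped BigOperators
open Finset

namespace Pool.Agent.Lib.MP_281388_al

section decomposition

variable {G : Type*} [Group G]

/-- coset decomposition -/
noncomputable def cosetEquiv (W : Subgroup G) : (G ⧸ W) × W ≃ G where
  toFun p := p.1.out * (p.2 : G)
  invFun g := (QuotientGroup.mk g, ⟨((QuotientGroup.mk g : G ⧸ W).out)⁻¹ * g, by
    have h : (QuotientGroup.mk ((QuotientGroup.mk g : G ⧸ W).out) : G ⧸ W) =
        QuotientGroup.mk g := Quotient.out_eq' _
    exact QuotientGroup.eq.1 h⟩)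
  left_inv := by
    rintro ⟨q, w⟩
    have h1 : (QuotientGroup.mk (q.out * (w : G)) : G ⧸ W) = q := by
      have h2 : (QuotientGroup.mk (q.out * (w : G)) : G ⧸ W) = QuotientGroup.mk q.out := by
        rw [eq_comm, QuotientGroup.eq]
        simp
      rw [h2]
      exact Quotient.out_eq' q
    ext
    · exact h1
    · change ((QuotientGroup.mk (q.out * (w : G)) : G ⧸ W).out)⁻¹ * (q.out * (w : G)) = w
      rw [h1]
      group
  right_inv := by
    intro g
    change (QuotientGroup.mk g : G ⧸ W).out * (((QuotientGroup.mk g : G ⧸ W).out)⁻¹ * g) = g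
    group

theorem prod_coset {A : Type*} [CommGroup A] [Fintype G] (χ : G →* A) (W : Subgroup G)
    [Fintype W] [Fintype (G ⧸ W)] :
    ∏ g : G, χ g = (∏ q : G ⧸ W, χ q.out) ^ Fintype.card W *
      (∏ w : W, χ (w : G)) ^ Fintype.card (G ⧸ W) := by
  rw [← Equiv.prod_comp (cosetEquiv W), Fintype.prod_prod_type]
  have h1 : ∀ q : G ⧸ W, ∏ w : W, χ ((cosetEquiv W) (q, w)) =
      χ q.out ^ Fintype.card W * ∏ w : W, χ (w : G) := by
    intro q
    have h2 : ∀ w : W, χ ((cosetEquiv W) (q, w)) = χ q.out * χ (w : G) := by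
      intro w
      change χ (q.out * (w : G)) = _
      rw [map_mul]
    rw [Finset.prod_congr rfl fun w _ => h2 w, Finset.prod_mul_distrib, Finset.prod_const,
      Finset.card_univ]
  rw [Finset.prod_congr rfl fun q _ => h1 q, Finset.prod_mul_distrib, Finset.prod_pow,
    Finset.prod_const, Finset.card_univ]

theorem prod_sq_eq_one {A : Type*} [CommGroup A] [Fintype G] (χ : G →* A) :
    (∏ g : G, χ g) ^ 2 = 1 := by
  have h1 : ∏ g : G, χ g = (∏ g : G, χ g)⁻¹ := by
    conv_lhs => rw [← Equiv.prod_comp (Equiv.inv G)]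
    rw [← Finset.prod_inv_distrib]
    exact Finset.prod_congr rfl fun g _ => by rw [Equiv.inv_apply, map_inv]
  rw [pow_two]
  nth_rewrite 2 [h1]
  rw [mul_inv_cancel]

end decomposition

section abelian

variable {B : Type*} [CommGroup B] [Fintype B] [DecidableEq B]

/-- subgroup of elements of exponent two -/
def V2 (B : Type*) [CommGroup B] : Subgroup B where
  carrier := {b | b * b = 1}
  one_mem' := by simp
  mul_mem' := by
    intro a b ha hb
    change a * b * (a * b) = 1
    have ha' : a * a = 1 := ha
    have hb' : b * b = 1 := hb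
    calc a * b * (a * b) = (a * a) * (b * b) := by
          rw [mul_mul_mul_comm]
      _ = 1 := by rw [ha', hb', one_mul]
  inv_mem' := by
    intro a ha
    change a⁻¹ * a⁻¹ = 1
    have ha' : a * a = 1 := ha
    rw [← mul_inv, ha', inv_one]

omit [Fintype B] [DecidableEq B] in
theorem mem_V2 (b : B) : b ∈ V2 B ↔ b * b = 1 := Iff.rfl

instance : DecidablePred (· ∈ V2 B) := fun b => inferInstanceAs (Decidable (b * b = 1))

theorem prod_eq_prod_V2 : ∏ b : B, b = ∏ v : V2 B, (v : B) := by
  have h1 : ∏ b : B, b = ∏ b ∈ Finset.univ.filter (fun b : B => b ∈ V2 B), b := by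
    rw [← Finset.prod_filter_mul_prod_filter_not Finset.univ (fun b : B => b ∈ V2 B)]
    have h2 : ∏ b ∈ Finset.univ.filter (fun b : B => ¬ b ∈ V2 B), b = 1 := by
      refine Finset.prod_involution (fun b _ => b⁻¹) ?_ ?_ ?_ ?_
      · intro b _
        exact mul_inv_cancel b
      · intro b hb _ h
        rw [Finset.mem_filter] at hb
        apply hb.2
        rw [mem_V2]
        nth_rewrite 1 [← h]
        rw [inv_mul_cancel]
      · intro b hb
        rw [Finset.mem_filter] at hb ⊢
        refine ⟨Finset.mem_univ _, fun h => hb.2 ?_⟩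
        have := (V2 B).inv_mem h
        rwa [inv_inv] at this
      · intro b _
        exact inv_inv b
    rw [h2, mul_one]
  rw [h1]
  exact Finset.prod_subtype _ (fun b => by simp) (fun b => b)

/-- the product over a group of exponent two with a non trivial element -/
theorem prod_V2_eq (s : B) (hs : s ∈ V2 B) (hs1 : s ≠ 1) :
    ∏ v : V2 B, (v : B) = s ^ (Fintype.card (V2 B) / 2) := by
  classical
  let s' : V2 B := ⟨s, hs⟩
  have hs's : s' * s' = 1 := Subtype.ext hs
  have hs'1 : s' ≠ 1 := fun h => hs1 (congrArg Subtype.val h)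
  have hord : orderOf s' = 2 := orderOf_eq_prime (by rw [pow_two]; exact hs's) hs'1
  have hcW : Fintype.card (Subgroup.zpowers s') = 2 := by
    rw [Fintype.card_zpowers, hord]
  have h1 := prod_coset (V2 B).subtype (Subgroup.zpowers s')
  have h2 : (∏ q : V2 B ⧸ Subgroup.zpowers s', (V2 B).subtype q.out) ^
      Fintype.card (Subgroup.zpowers s') = 1 := by
    rw [hcW, ← Finset.prod_pow]
    refine Finset.prod_eq_one fun q _ => ?_
    rw [pow_two]
    exact q.out.2
  have h3 : ∏ w : Subgroup.zpowers s', (V2 B).subtype (w : V2 B) = s := by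
    have e : (Finset.univ : Finset (Subgroup.zpowers s')) =
        {1, ⟨s', Subgroup.mem_zpowers s'⟩} := by
      symm
      apply Finset.eq_univ_of_card
      rw [hcW, Finset.card_pair]
      intro h
      exact hs'1 (congrArg Subtype.val h).symm
    rw [e, Finset.prod_pair]
    · simp [s']
    · intro h
      exact hs'1 (congrArg Subtype.val h).symm
  have h4 : Fintype.card (V2 B ⧸ Subgroup.zpowers s') = Fintype.card (V2 B) / 2 := by
    have := Subgroup.card_eq_card_quotient_mul_card_subgroup (Subgroup.zpowers s')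
    rw [Nat.card_eq_fintype_card, Nat.card_eq_fintype_card, Nat.card_eq_fintype_card, hcW] at this
    omega
  rw [h2, one_mul, h3, h4] at h1
  exact h1

theorem prod_eq_one_of_two (s t : B) (hs : s ∈ V2 B) (ht : t ∈ V2 B) (hs1 : s ≠ 1)
    (ht1 : t ≠ 1) (hst : s ≠ t) : ∏ b : B, b = 1 := by
  rw [prod_eq_prod_V2]
  have h1 := prod_V2_eq s hs hs1
  have h2 := prod_V2_eq t ht ht1
  have hpow : ∀ u : B, u ∈ V2 B → ∀ m : ℕ, u ^ m = if Even m then 1 else u := by
    intro u hu m
    have hu' : u * u = 1 := hu
    split_ifs with h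
    · obtain ⟨r, rfl⟩ := h
      rw [← two_mul, pow_mul, pow_two, hu', one_pow]
    · rw [Nat.not_even_iff_odd] at h
      obtain ⟨r, rfl⟩ := h
      rw [pow_succ, pow_mul, pow_two, hu', one_pow, one_mul]
  rw [hpow s hs] at h1
  rw [hpow t ht] at h2
  by_cases he : Even (Fintype.card (V2 B) / 2)
  · rw [if_pos he] at h1
    exact h1
  · rw [if_neg he] at h1 h2
    exact absurd (h1.symm.trans h2) hst

/-- A finite abelian 2-group with at most two elements of exponent two is cyclic. -/
theorem cyclic_of_V2 (hV : Fintype.card (V2 B) ≤ 2) (a : ℕ) (hB : Fintype.card B = 2 ^ a) :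
    IsCyclic B := by
  apply isCyclic_of_card_pow_eq_one_le
  intro n
  induction n using Nat.strong_induction_on with
  | _ n ih =>
    intro hn
    rcases Nat.even_or_odd n with he | ho
    · obtain ⟨m, rfl⟩ := he
      have hm : 0 < m := by omega
      have h1 := ih m (by omega) hm
      have h2 : (Finset.univ.filter (fun b : B => b ^ (m + m) = 1)).card ≤
          2 * ((Finset.univ.filter (fun b : B => b ^ (m + m) = 1)).image (fun b => b * b)).card := by
        apply Finset.card_le_mul_card_image
        intro c hc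
        obtain ⟨b0, _, hb0⟩ := Finset.mem_image.1 hc
        refine le_trans ?_ hV
        rw [← Finset.card_univ]
        refine Finset.card_le_card_of_injOn (fun b => if h : b * b0⁻¹ ∈ V2 B then
          (⟨b * b0⁻¹, h⟩ : V2 B) else 1) (fun _ _ => by simp) ?_
        intro b hb b' hb' hbb
        have key : ∀ {b : B}, b ∈ ((Finset.univ.filter (fun b : B => b ^ (m + m) = 1)).filter
            (fun b => b * b = c) : Finset B) → b * b0⁻¹ ∈ V2 B := by
          intro b hb
          rw [Finset.mem_filter] at hb
          rw [mem_V2, mul_mul_mul_comm, hb.2, ← hb0, ← mul_inv, mul_inv_cancel]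
        have k1 := key hb
        have k2 := key hb'
        simp only [k1, k2, dif_pos] at hbb
        have := congrArg Subtype.val hbb
        exact mul_right_cancel this
      have h3 : (Finset.univ.filter (fun b : B => b ^ (m + m) = 1)).image (fun b => b * b) ⊆
          Finset.univ.filter (fun b : B => b ^ m = 1) := by
        intro c hc
        obtain ⟨b, hb, rfl⟩ := Finset.mem_image.1 hc
        rw [Finset.mem_filter] at hb ⊢
        refine ⟨Finset.mem_univ _, ?_⟩
        rw [← pow_two, ← pow_mul, two_mul]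
        exact hb.2
      have h4 := Finset.card_le_card h3
      omega
    · have h1 : Finset.univ.filter (fun b : B => b ^ n = 1) = {1} := by
        ext b
        simp only [Finset.mem_filter, Finset.mem_univ, true_and, Finset.mem_singleton]
        constructor
        · intro hb
          have h2 : b ^ Fintype.card B = 1 := pow_card_eq_one
          rw [hB] at h2
          have h3 : orderOf b ∣ n := orderOf_dvd_of_pow_eq_one hb
          have h4 : orderOf b ∣ 2 ^ a := orderOf_dvd_of_pow_eq_one h2
          have hc : Nat.Coprime n (2 ^ a) := by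
            apply Nat.Coprime.pow_right
            exact (Nat.coprime_two_right).2 ho
          have h5 := Nat.eq_one_of_dvd_coprimes hc h3 h4
          exact orderOf_eq_one_iff.1 h5
        · rintro rfl
          exact one_pow n
      rw [h1, Finset.card_singleton]
      exact hn

/-- The product of the elements of a non cyclic abelian 2-group. -/
theorem prod_eq_one_of_not_cyclic (a : ℕ) (hB : Fintype.card B = 2 ^ a) (hc : ¬ IsCyclic B) :
    ∏ b : B, b = 1 := by
  have h1 : 2 < Fintype.card (V2 B) := by
    by_contra hcon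
    push Not at hcon
    exact hc (cyclic_of_V2 hcon a hB)
  rw [Fintype.two_lt_card_iff] at h1
  obtain ⟨x, y, z, hxy, hxz, hyz⟩ := h1
  have hval : ∀ {p q : V2 B}, p ≠ q → (p : B) ≠ (q : B) := fun h h' => h (Subtype.ext h')
  by_cases hx : (x : B) = 1
  · have hy : (y : B) ≠ 1 := fun h => hval hxy (hx.trans h.symm)
    have hz : (z : B) ≠ 1 := fun h => hval hxz (hx.trans h.symm)
    exact prod_eq_one_of_two _ _ y.2 z.2 hy hz (hval hyz)
  · by_cases hy : (y : B) = 1
    · have hz : (z : B) ≠ 1 := fun h => hval hyz (hy.trans h.symm)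
      exact prod_eq_one_of_two _ _ x.2 z.2 hx hz (hval hxz)
    · exact prod_eq_one_of_two _ _ x.2 y.2 hx hy (hval hxy)

end abelian

/-- noncyclic 2-groups -/
theorem prod_two_group {P A : Type*} [Group P] [Fintype P] [CommGroup A] (ψ : P →* A) (a : ℕ)
    (hP : Fintype.card P = 2 ^ a) (hc : ¬ IsCyclic P) : ∏ p : P, ψ p = 1 := by
  classical
  by_cases hker : ψ.ker = ⊥
  · have hinj : Function.Injective ψ := (MonoidHom.ker_eq_bot_iff ψ).1 hker
    have e : P ≃* ψ.range := MonoidHom.ofInjective hinj
    have : Fintype ψ.range := Fintype.ofFinite _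
    have h1 : ¬ IsCyclic ψ.range := by
      intro h
      exact hc (isCyclic_of_surjective e.symm e.symm.surjective)
    have h2 : Fintype.card ψ.range = 2 ^ a := by
      rw [← hP]
      exact (Fintype.card_congr e.toEquiv).symm
    have h3 := prod_eq_one_of_not_cyclic a h2 h1
    have h4 : ∏ p : P, ψ p = ((∏ b : ψ.range, b : ψ.range) : A) := by
      rw [← Equiv.prod_comp (MonoidHom.ofInjective hinj).toEquiv]
      rw [Subgroup.val_finsetProd]
      rfl
    rw [h4, h3]
    rfl
  · have : Fintype (P ⧸ ψ.ker) := Fintype.ofFinite _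
    have : Fintype ψ.ker := Fintype.ofFinite _
    have h1 := prod_coset ψ ψ.ker
    have h2 : ∏ w : ψ.ker, ψ (w : P) = 1 := Finset.prod_eq_one fun w _ => w.2
    rw [h2, one_pow, mul_one] at h1
    have h3 : (∏ q : P ⧸ ψ.ker, ψ q.out) ^ 2 = 1 := by
      have h4 := prod_sq_eq_one (QuotientGroup.kerLift ψ)
      have h5 : ∀ q : P ⧸ ψ.ker, QuotientGroup.kerLift ψ q = ψ q.out := by
        intro q
        have h6 : (QuotientGroup.mk q.out : P ⧸ ψ.ker) = q := Quotient.out_eq' q
        conv_lhs => rw [← h6]
        exact QuotientGroup.kerLift_mk ψ q.out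
      rw [Finset.prod_congr rfl fun q _ => h5 q] at h4
      exact h4
    have h4 : Even (Fintype.card ψ.ker) := by
      have h5 : Fintype.card ψ.ker ∣ 2 ^ a := by
        have := Subgroup.card_subgroup_dvd_card ψ.ker
        rw [Nat.card_eq_fintype_card, Nat.card_eq_fintype_card, hP] at this
        exact this
      obtain ⟨b, _, hb⟩ := (Nat.dvd_prime_pow Nat.prime_two).1 h5
      rcases b with _ | b
      · exfalso
        apply hker
        rw [Subgroup.eq_bot_iff_card, Nat.card_eq_fintype_card, hb, pow_zero]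
      · rw [hb, pow_succ]
        exact even_two.mul_left _
    obtain ⟨r, hr⟩ := h4
    rw [h1, hr, ← two_mul, pow_mul, h3, one_pow]

theorem prod_hom_eq_one {G A : Type*} [Group G] [Fintype G] [CommGroup A] (χ : G →* A)
    (h : ∀ P : Sylow 2 G, (P : Subgroup G) = ⊥ ∨ ¬ IsCyclic (P : Subgroup G)) :
    ∏ g : G, χ g = 1 := by
  classical
  obtain ⟨P⟩ : Nonempty (Sylow 2 G) := inferInstance
  have : Fintype (P : Subgroup G) := Fintype.ofFinite _
  have : Fintype (G ⧸ (P : Subgroup G)) := Fintype.ofFinite _
  have h1 := prod_coset χ (P : Subgroup G)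
  have hcard : ∃ a : ℕ, Fintype.card (P : Subgroup G) = 2 ^ a := by
    obtain ⟨a, ha⟩ := (IsPGroup.iff_card (p := 2) (G := (P : Subgroup G))).1 P.isPGroup'
    exact ⟨a, by rw [← Nat.card_eq_fintype_card]; exact ha⟩
  obtain ⟨a, ha⟩ := hcard
  have h2 : ∏ w : (P : Subgroup G), χ (w : G) = 1 := by
    rcases h P with hbot | hnc
    · refine Finset.prod_eq_one fun w _ => ?_
      have hle : (P : Subgroup G) ≤ ⊥ := hbot.le
      have hw : (w : G) ∈ (⊥ : Subgroup G) := hle w.2
      rw [Subgroup.mem_bot] at hw
      rw [hw, map_one]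
    · exact prod_two_group (χ.comp (P : Subgroup G).subtype) a ha hnc
  rw [h2, one_pow, mul_one] at h1
  set x := ∏ q : G ⧸ (P : Subgroup G), χ q.out with hx
  have hxr : x ∈ χ.range := Subgroup.prod_mem _ fun q _ => ⟨q.out, rfl⟩
  obtain ⟨g, hg⟩ := hxr
  have h3 : x ^ Fintype.card G = 1 := by
    rw [← hg, ← map_pow, pow_card_eq_one, map_one]
  have h4 : (∏ g : G, χ g) ^ 2 = 1 := prod_sq_eq_one χ
  -- index is odd
  have hidx : Fintype.card G = Fintype.card (P : Subgroup G) *
      Fintype.card (G ⧸ (P : Subgroup G)) := by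
    have := Subgroup.card_eq_card_quotient_mul_card_subgroup (P : Subgroup G)
    rw [Nat.card_eq_fintype_card, Nat.card_eq_fintype_card, Nat.card_eq_fintype_card] at this
    rw [this, mul_comm]
  have hodd : Odd (Fintype.card (G ⧸ (P : Subgroup G))) := by
    have h5 : ¬ 2 ∣ (P : Subgroup G).index := P.not_dvd_index
    rw [Subgroup.index, Nat.card_eq_fintype_card] at h5
    rw [← Nat.not_even_iff_odd, even_iff_two_dvd]
    exact h5
  have h5 : (∏ g : G, χ g) ^ Fintype.card (G ⧸ (P : Subgroup G)) = 1 := by
    rw [h1, ← pow_mul, ← hidx, h3]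
  obtain ⟨r, hr⟩ := hodd
  rw [hr, pow_succ, pow_mul, h4, one_pow, one_mul] at h5
  exact h5

end Pool.Agent.Lib.MP_281388_al
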