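import Mathlib
import Pool.Agent.Lib.MP_281388_al.GF

set_option autoImplicit false

open scoped BigOperators
open Finset

namespace Pool.Agent.Lib.MP_281388_al

/-! ### Bounds for `tau` -/

theorem tau_zero : tau 0 = 1 := by simp [tau]

theorem tau_pos (j : ℕ) : 0 < tau j := by
  unfold tau
  rcases Nat.eq_zero_or_pos j with h | h
  · subst h; simp
  · have : (0 : ℝ) < j := by exact_mod_cast h
    positivity

theorem fact_eq_tau (j : ℕ) : (j.factorial : ℝ) = tau j * ((j : ℝ) / Real.exp 1) ^ j := by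
  unfold tau
  have hj : (j : ℝ) ^ j ≠ 0 := by
    rcases Nat.eq_zero_or_pos j with h | h
    · subst h; simp
    · have : (0 : ℝ) < j := by exact_mod_cast h
      positivity
  have he : Real.exp (j : ℝ) = (Real.exp 1) ^ j := by
    rw [← Real.exp_nat_mul, mul_one]
  rw [he, div_pow]
  have := Real.exp_pos 1
  field_simp

theorem tau_le (j : ℕ) (hj : 1 ≤ j) : tau j ≤ Real.exp 1 * j := by
  induction j, hj using Nat.le_induction with
  | base => simp [tau]
  | succ j hj ih =>
    have hj0 : (0 : ℝ) < j := by exact_mod_cast hj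
    have h1 : tau (j + 1) = tau j * (Real.exp 1 * ((j : ℝ) / (j + 1)) ^ j) := by
      unfold tau
      rw [Nat.factorial_succ]
      push_cast
      rw [Real.exp_add, div_pow, pow_succ]
      field_simp
    have h2 : ((j : ℝ) / (j + 1)) ^ (j + 1) ≤ Real.exp (-1) := by
      have h3 : (j : ℝ) / (j + 1) ≤ Real.exp (-(1 / ((j : ℝ) + 1))) := by
        have h4 := Real.add_one_le_exp (-(1 / ((j : ℝ) + 1)))
        have h5 : (j : ℝ) / (j + 1) = -(1 / ((j : ℝ) + 1)) + 1 := by
          field_simp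
          ring
        rw [h5]
        exact h4
      have h6 : ((j : ℝ) / (j + 1)) ^ (j + 1) ≤ (Real.exp (-(1 / ((j : ℝ) + 1)))) ^ (j + 1) :=
        pow_le_pow_left₀ (by positivity) h3 _
      refine h6.trans_eq ?_
      rw [← Real.exp_nat_mul]
      congr 1
      push_cast
      field_simp
    have h7 : Real.exp 1 * ((j : ℝ) / (j + 1)) ^ j ≤ (j + 1) / j := by
      have h8 : ((j : ℝ) / (j + 1)) ^ (j + 1) = ((j : ℝ) / (j + 1)) ^ j * (j / (j + 1)) := pow_succ _ _
      rw [h8, Real.exp_neg] at h2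
      have he := Real.exp_pos 1
      rw [le_div_iff₀ hj0]
      have h9 : ((j : ℝ) / (j + 1)) ^ j * (j / (j + 1)) * (Real.exp 1 * (j + 1)) ≤
          (Real.exp 1)⁻¹ * (Real.exp 1 * (j + 1)) :=
        mul_le_mul_of_nonneg_right h2 (by positivity)
      have h10 : (Real.exp 1)⁻¹ * (Real.exp 1 * ((j : ℝ) + 1)) = j + 1 := by
        field_simp
      have h11 : ((j : ℝ) / (j + 1)) ^ j * (j / (j + 1)) * (Real.exp 1 * (j + 1)) =
          Real.exp 1 * ((j : ℝ) / (j + 1)) ^ j * j := by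
        field_simp
      rw [h10, h11] at h9
      exact h9
    rw [h1]
    calc tau j * (Real.exp 1 * ((j : ℝ) / (j + 1)) ^ j)
        ≤ (Real.exp 1 * j) * ((j + 1) / j) := by
          have := tau_pos j
          gcongr
      _ = Real.exp 1 * ((j + 1 : ℕ) : ℝ) := by
          push_cast
          field_simp

theorem tau_le3 (j : ℕ) (hj : 1 ≤ j) : tau j ≤ 3 * j := by
  have h1 := tau_le j hj
  have h2 := Real.exp_one_lt_d9
  have hj0 : (0 : ℝ) < j := by exact_mod_cast hj
  nlinarith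

/-! ### Bounds for `TT` -/

theorem wt_nonneg (j : ℕ) : 0 ≤ wt j := by
  unfold wt
  have := tau_pos j
  positivity

theorem TT_nonneg (m D : ℕ) : 0 ≤ TT m D :=
  Finset.sum_nonneg fun κ _ => Finset.prod_nonneg fun q _ => wt_nonneg _

theorem TT_zero (D : ℕ) : TT 0 D = 1 := by
  unfold TT
  have h1 : ∀ κ : Fin 0 → Fin D, ∏ q : Fin D, wt (Finset.univ.filter (fun i => κ i = q)).card = 1 := by
    intro κ
    refine Finset.prod_eq_one fun q _ => ?_
    have : (Finset.univ.filter (fun i => κ i = q)).card = 0 := by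
      rw [Finset.univ_eq_empty]; rfl
    rw [this, wt, tau_zero]
    simp
  rw [Finset.sum_congr rfl fun κ _ => h1 κ]
  simp

theorem TT_one (m : ℕ) : TT m 1 = wt m := by
  unfold TT
  have h1 : ∀ κ : Fin m → Fin 1,
      ∏ q : Fin 1, wt (Finset.univ.filter (fun i => κ i = q)).card = wt m := by
    intro κ
    rw [Finset.prod_eq_single 0]
    · have : Finset.univ.filter (fun i => κ i = 0) = Finset.univ := by
        ext i
        simp only [Finset.mem_filter, Finset.mem_univ, true_and, iff_true]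
        exact Subsingleton.elim _ _
      rw [this, Finset.card_univ, Fintype.card_fin]
    · intro q _ hq
      exact absurd (Subsingleton.elim q 0) hq
    · simp
  rw [Finset.sum_congr rfl fun κ _ => h1 κ]
  simp

theorem TT_le (m D : ℕ) (x : ℝ) (hx : 0 < x) :
    TT m D ≤ (m.factorial : ℝ) * (x ^ m)⁻¹ * (∑ j ∈ range (m + 1), tau j * x ^ j) ^ D := by
  have h1 := gf_bound (ι := Fin m) (β := Fin D) (fun _ => wt) (fun _ j => wt_nonneg j) x hx
  rw [Fintype.card_fin] at h1
  refine (le_of_eq ?_).trans (h1.trans (le_of_eq ?_))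
  · rfl
  · rw [Finset.prod_const, Finset.card_univ, Fintype.card_fin]
    congr 2
    refine Finset.sum_congr rfl fun j _ => ?_
    unfold wt
    have : (j.factorial : ℝ) ≠ 0 := by positivity
    field_simp

theorem sum_id_pow (x : ℝ) (hx : 0 < x) (hx2 : x ≤ 1 / 2) (m : ℕ) :
    ∑ j ∈ range (m + 1), (j : ℝ) * x ^ j ≤ 4 * x := by
  have key : ∀ m : ℕ, (∑ j ∈ range (m + 1), (j : ℝ) * x ^ j) + 2 * (m + 2) * x ^ (m + 1) ≤
      4 * x := by
    intro m
    induction m with
    | zero => simp; linarith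
    | succ m ih =>
      rw [Finset.sum_range_succ]
      have h1 : 0 < x ^ (m + 1) := by positivity
      have h2 : x ^ (m + 1 + 1) = x ^ (m + 1) * x := by ring
      rw [h2]
      push_cast
      have h3 : 2 * ((m : ℝ) + 1 + 2) * (x ^ (m + 1) * x) ≤ ((m : ℝ) + 3) * x ^ (m + 1) := by
        have : 2 * ((m : ℝ) + 1 + 2) * (x ^ (m + 1) * x) =
            (2 * x) * (((m : ℝ) + 3) * x ^ (m + 1)) := by ring
        rw [this]
        have h4 : 0 ≤ ((m : ℝ) + 3) * x ^ (m + 1) := by positivity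
        nlinarith
      nlinarith
  have h1 := key m
  have h2 : 0 < 2 * ((m : ℝ) + 2) * x ^ (m + 1) := by positivity
  linarith

theorem sum_tau_le (x : ℝ) (hx : 0 < x) (hx2 : x ≤ 1 / 2) (m : ℕ) :
    ∑ j ∈ range (m + 1), tau j * x ^ j ≤ Real.exp (12 * x) := by
  have h1 : ∑ j ∈ range (m + 1), tau j * x ^ j ≤ 1 + 3 * ∑ j ∈ range (m + 1), (j : ℝ) * x ^ j := by
    rw [Finset.sum_range_succ', Finset.sum_range_succ' (fun j : ℕ => (j : ℝ) * x ^ j)]
    rw [tau_zero, pow_zero, mul_one, Nat.cast_zero, zero_mul, add_zero, Finset.mul_sum]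
    have : ∑ j ∈ range m, tau (j + 1) * x ^ (j + 1) ≤
        ∑ j ∈ range m, 3 * (((j + 1 : ℕ) : ℝ) * x ^ (j + 1)) := by
      refine Finset.sum_le_sum fun j _ => ?_
      have h2 := tau_le3 (j + 1) (by omega)
      have h3 : 0 < x ^ (j + 1) := by positivity
      nlinarith
    linarith
  have h2 := sum_id_pow x hx hx2 m
  have h3 := Real.add_one_le_exp (12 * x)
  linarith

theorem TT_le_half (m D : ℕ) (x : ℝ) (hx : 0 < x) (hx2 : x ≤ 1 / 2) :
    TT m D ≤ (m.factorial : ℝ) * (x ^ m)⁻¹ * Real.exp (12 * x * D) := by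
  refine (TT_le m D x hx).trans ?_
  have h1 : (∑ j ∈ range (m + 1), tau j * x ^ j) ^ D ≤ Real.exp (12 * x * D) := by
    have h2 : (∑ j ∈ range (m + 1), tau j * x ^ j) ^ D ≤ (Real.exp (12 * x)) ^ D := by
      refine pow_le_pow_left₀ (Finset.sum_nonneg fun j _ => ?_) (sum_tau_le x hx hx2 m) D
      have := tau_pos j
      positivity
    refine h2.trans_eq ?_
    rw [← Real.exp_nat_mul]
    congr 1
    ring
  gcongr

/-- the constant `B` -/
noncomputable def BB : ℝ := 2 * Real.exp 12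

theorem BB_pos : 0 < BB := by
  unfold BB
  positivity

theorem one_le_BB : 1 ≤ BB := by
  unfold BB
  have : 1 ≤ Real.exp 12 := Real.one_le_exp (by norm_num)
  linarith

theorem TT_A (m D : ℕ) (h : D ≤ 2 * m) : TT m D ≤ (m.factorial : ℝ) * BB ^ m := by
  refine (TT_le_half m D (1 / 2) (by norm_num) le_rfl).trans ?_
  have h1 : Real.exp (12 * (1 / 2) * D) ≤ (Real.exp 12) ^ m := by
    rw [← Real.exp_nat_mul]
    apply Real.exp_le_exp.2
    have : (D : ℝ) ≤ 2 * m := by exact_mod_cast h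
    linarith
  have h2 : (((1 : ℝ) / 2) ^ m)⁻¹ = 2 ^ m := by
    rw [← inv_pow]; norm_num
  rw [h2]
  calc (m.factorial : ℝ) * 2 ^ m * Real.exp (12 * (1 / 2) * D)
      ≤ (m.factorial : ℝ) * 2 ^ m * (Real.exp 12) ^ m := by gcongr
    _ = (m.factorial : ℝ) * BB ^ m := by
      unfold BB
      rw [mul_pow]
      ring

theorem TT_B (m D : ℕ) (hm : 1 ≤ m) (h : 2 * m ≤ D) :
    TT m D ≤ (m.factorial : ℝ) * (BB * D / m) ^ m := by
  have hm0 : (0 : ℝ) < m := by exact_mod_cast hm
  have hD0 : (0 : ℝ) < D := by exact_mod_cast (by omega : 0 < D)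
  have h' : 2 * (m : ℝ) ≤ D := by exact_mod_cast h
  have hx2 : (m : ℝ) / D ≤ 1 / 2 := by
    rw [div_le_iff₀ hD0]
    linarith
  refine (TT_le_half m D ((m : ℝ) / D) (by positivity) hx2).trans ?_
  have h1 : Real.exp (12 * ((m : ℝ) / D) * D) = (Real.exp 12) ^ m := by
    rw [← Real.exp_nat_mul]
    congr 1
    field_simp
  have h2 : (((m : ℝ) / D) ^ m)⁻¹ = ((D : ℝ) / m) ^ m := by
    rw [← inv_pow, inv_div]
  rw [h1, h2, mul_assoc, ← mul_pow]
  refine mul_le_mul_of_nonneg_left ?_ (by positivity)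
  refine pow_le_pow_left₀ (by positivity) ?_ m
  unfold BB
  have h3 : 0 < (D : ℝ) / m := by positivity
  have h4 : 0 < Real.exp 12 := Real.exp_pos _
  calc (D : ℝ) / m * Real.exp 12 ≤ (D : ℝ) / m * (2 * Real.exp 12) := by
        refine mul_le_mul_of_nonneg_left ?_ h3.le
        linarith
    _ = _ := by ring

theorem TT_poly (m D : ℕ) : TT m D ≤ (m.factorial : ℝ) * (3 * ((m : ℝ) + 1) ^ 2) ^ D := by
  refine (TT_le m D 1 one_pos).trans ?_
  rw [one_pow, inv_one, mul_one]
  have h1 : ∑ j ∈ range (m + 1), tau j * 1 ^ j ≤ 3 * ((m : ℝ) + 1) ^ 2 := by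
    calc ∑ j ∈ range (m + 1), tau j * 1 ^ j ≤ ∑ _j ∈ range (m + 1), 3 * ((m : ℝ) + 1) := by
          refine Finset.sum_le_sum fun j hj => ?_
          rw [one_pow, mul_one]
          rcases Nat.eq_zero_or_pos j with h | h
          · subst h
            rw [tau_zero]
            have : (0 : ℝ) ≤ m := by positivity
            linarith
          · have h2 := tau_le3 j h
            have h3 : (j : ℝ) ≤ m := by
              rw [Finset.mem_range] at hj
              exact_mod_cast (by omega : j ≤ m)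
            linarith
      _ = 3 * ((m : ℝ) + 1) ^ 2 := by
          rw [Finset.sum_const, Finset.card_range, nsmul_eq_mul]
          push_cast
          ring
  have h0 : 0 ≤ ∑ j ∈ range (m + 1), tau j * 1 ^ j := by
    refine Finset.sum_nonneg fun j _ => ?_
    have := tau_pos j
    positivity
  gcongr

/-! ### `GG` -/

theorem GG_eq (j d : ℕ) :
    GG j d = TT j (d ^ 2) * √(TT j (d ^ 2)) * ((√(d : ℝ))⁻¹) ^ j / (j.factorial : ℝ) := by
  unfold GG
  have h0 := TT_nonneg j (d ^ 2)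
  congr 2
  · have : (3 / 2 : ℝ) = 1 + 1 / 2 := by norm_num
    rw [this, Real.rpow_add' h0 (by norm_num), Real.rpow_one, Real.sqrt_eq_rpow]
  · rw [Real.sqrt_eq_rpow, ← Real.rpow_neg (by positivity), ← Real.rpow_natCast,
      ← Real.rpow_mul (by positivity)]
    congr 1
    ring

theorem GG_nonneg (j d : ℕ) : 0 ≤ GG j d := by
  rw [GG_eq]
  have := TT_nonneg j (d ^ 2)
  positivity

theorem GG_zero (d : ℕ) : GG 0 d = 1 := by
  rw [GG_eq, TT_zero]
  simp

/-- transfer of a bound for `TT` -/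
theorem GG_le (j d : ℕ) (P t : ℝ) (hP : 0 ≤ P) (ht : 0 ≤ t)
    (h : TT j (d ^ 2) ≤ (j.factorial : ℝ) * P) :
    GG j d * t ^ j ≤ √(j.factorial : ℝ) * (P * √P) * (t / √(d : ℝ)) ^ j := by
  have h0 := TT_nonneg j (d ^ 2)
  have hf : (0 : ℝ) < (j.factorial : ℝ) := by positivity
  have h1 : TT j (d ^ 2) * √(TT j (d ^ 2)) ≤
      ((j.factorial : ℝ) * P) * √((j.factorial : ℝ) * P) := by
    have := Real.sqrt_le_sqrt h
    gcongr
  rw [Real.sqrt_mul hf.le] at h1
  rw [GG_eq]
  calc TT j (d ^ 2) * √(TT j (d ^ 2)) * ((√(d : ℝ))⁻¹) ^ j / (j.factorial : ℝ) * t ^ j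
      = (TT j (d ^ 2) * √(TT j (d ^ 2))) * (((√(d : ℝ))⁻¹) ^ j / (j.factorial : ℝ) * t ^ j) := by
        ring
    _ ≤ (((j.factorial : ℝ) * P) * (√(j.factorial : ℝ) * √P)) *
        (((√(d : ℝ))⁻¹) ^ j / (j.factorial : ℝ) * t ^ j) := by
        refine mul_le_mul_of_nonneg_right h1 (by positivity)
    _ = √(j.factorial : ℝ) * (P * √P) * (t / √(d : ℝ)) ^ j := by
        rw [div_pow, inv_pow]
        field_simp

theorem sqrt_fact_eq (j : ℕ) :
    √(j.factorial : ℝ) = √(tau j) * (√((j : ℝ) / Real.exp 1)) ^ j := by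
  rw [fact_eq_tau, Real.sqrt_mul (tau_pos j).le]
  congr 1
  rw [Real.sqrt_eq_rpow, Real.sqrt_eq_rpow, ← Real.rpow_natCast, ← Real.rpow_mul (by positivity),
    ← Real.rpow_natCast, ← Real.rpow_mul (by positivity)]
  congr 1
  ring

end Pool.Agent.Lib.MP_281388_al
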