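import Mathlib
import Pool.Agent.Lib.MP_281388_al.YTT

set_option autoImplicit false

open scoped BigOperators
open Finset Filter Topology

namespace Pool.Agent.Lib.MP_281388_al

theorem TT_one_eq (m : ℕ) : TT m 1 = tau m ^ 2 * ((m : ℝ) / Real.exp 1) ^ m := by
  rw [TT_one, wt]
  have := fact_eq_tau m
  rw [this]
  ring

theorem good_d1 (k m : ℕ) (hm : 16 * m ≤ 15 * k) :
    TT m 1 ≤ (Real.exp 1 * (k + 1)) ^ 2 * (15 / 16 * k / Real.exp 1) ^ m := by
  have he := Real.exp_pos 1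
  have he1 := Real.exp_one_gt_d9
  have hm' : 16 * (m : ℝ) ≤ 15 * k := by exact_mod_cast hm
  have hk0 : (0 : ℝ) ≤ k := by positivity
  rw [TT_one_eq]
  have h1 : tau m ≤ Real.exp 1 * (k + 1) := by
    rcases Nat.eq_zero_or_pos m with h | h
    · subst h
      rw [tau_zero]
      nlinarith
    · refine (tau_le m h).trans ?_
      have : (0 : ℝ) ≤ m := by positivity
      have : (m : ℝ) ≤ k + 1 := by linarith
      gcongr
  have h2 : (m : ℝ) / Real.exp 1 ≤ 15 / 16 * k / Real.exp 1 := by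
    gcongr
    linarith
  have := tau_pos m
  gcongr

theorem good_d1_small : ∃ K0 : ℕ, ∀ k m : ℕ, K0 ≤ k → 1 ≤ m → 100 * m ≤ k →
    TT m 1 ≤ (15 / 16 * k / Real.exp 1) ^ m := by
  refine ⟨0, fun k m _ hm hmk => ?_⟩
  have he := Real.exp_pos 1
  have hm0 : (0 : ℝ) < m := by exact_mod_cast hm
  have hmk' : 100 * (m : ℝ) ≤ k := by exact_mod_cast hmk
  rw [TT_one_eq]
  have h1 := tau_le3 m hm
  have h0 := tau_pos m
  have h2 : (3 * (m : ℝ)) ^ 2 ≤ 90 ^ m := by
    have h3 : (m : ℝ) ≤ 3 ^ m := by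
      have : m < 3 ^ m := Nat.lt_pow_self (by norm_num)
      exact_mod_cast this.le
    have h4 : (10 : ℝ) ≤ 10 ^ m := by
      calc (10 : ℝ) = 10 ^ 1 := by norm_num
        _ ≤ 10 ^ m := pow_le_pow_right₀ (by norm_num) hm
    calc (3 * (m : ℝ)) ^ 2 ≤ (3 * 3 ^ m) ^ 2 := by gcongr
      _ = 9 * 9 ^ m := by
        rw [mul_pow, ← pow_mul, mul_comm m 2, pow_mul]
        norm_num
      _ ≤ 10 ^ m * 9 ^ m := by
        have : (0 : ℝ) < 9 ^ m := by positivity
        nlinarith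
      _ = 90 ^ m := by
        rw [← mul_pow]; norm_num
  calc tau m ^ 2 * ((m : ℝ) / Real.exp 1) ^ m ≤ (3 * (m : ℝ)) ^ 2 * ((m : ℝ) / Real.exp 1) ^ m := by
        gcongr
    _ ≤ 90 ^ m * ((m : ℝ) / Real.exp 1) ^ m := by gcongr
    _ = (90 * ((m : ℝ) / Real.exp 1)) ^ m := by rw [mul_pow]
    _ ≤ (15 / 16 * k / Real.exp 1) ^ m := by
        refine pow_le_pow_left₀ (by positivity) ?_ m
        rw [mul_div_assoc', div_le_div_iff_of_pos_right he]
        linarith

theorem good_d2 : ∃ C1 : ℝ, 0 < C1 ∧ ∃ K0 : ℕ, ∀ n k d m : ℕ, K0 ≤ k → C1 * √(n : ℝ) ≤ k →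
    1 ≤ m → m ≤ k → 2 ≤ d → d ^ 2 ≤ n →
    TT m (d ^ 2) * (d : ℝ) ^ (-(m : ℝ)) ≤ (15 / 16 * k / Real.exp 1) ^ m := by
  have he := Real.exp_pos 1
  have hBB := BB_pos
  set C1 : ℝ := BB * (16 * Real.exp 1 / 15) with hC1
  have hC10 : 0 < C1 := by positivity
  set D0 : ℕ := ⌈C1⌉₊ with hD0
  have hD0C : C1 ≤ D0 := Nat.le_ceil _
  -- polynomial times geometric
  have hlim : Tendsto (fun m : ℕ => 3 * (m : ℝ) * (3 * ((m : ℝ) + 1) ^ 2) ^ (D0 ^ 2) *
      (8 / 15 : ℝ) ^ m) atTop (𝓝 0) := by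
    have h1 : Tendsto (fun m : ℕ => (3 * 12 ^ (D0 ^ 2)) * ((m : ℝ) ^ (1 + 2 * D0 ^ 2) *
        (8 / 15 : ℝ) ^ m)) atTop (𝓝 0) := by
      have h2 := (summable_pow_mul_geometric_of_norm_lt_one (R := ℝ) (1 + 2 * D0 ^ 2)
        (r := 8 / 15) (by rw [Real.norm_of_nonneg (by norm_num)]; norm_num)).tendsto_atTop_zero
      have h3 := h2.const_mul (3 * 12 ^ (D0 ^ 2))
      rwa [mul_zero] at h3
    refine squeeze_zero' (Eventually.of_forall fun m => by positivity) ?_ h1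
    filter_upwards [eventually_ge_atTop 1] with m hm
    have hm1 : (1 : ℝ) ≤ m := by exact_mod_cast hm
    have h2 : (3 * ((m : ℝ) + 1) ^ 2) ^ (D0 ^ 2) ≤ (12 * (m : ℝ) ^ 2) ^ (D0 ^ 2) := by
      refine pow_le_pow_left₀ (by positivity) ?_ _
      nlinarith
    have h3 : (12 * (m : ℝ) ^ 2) ^ (D0 ^ 2) = 12 ^ (D0 ^ 2) * (m : ℝ) ^ (2 * D0 ^ 2) := by
      rw [mul_pow, ← pow_mul]
    rw [h3] at h2
    calc 3 * (m : ℝ) * (3 * ((m : ℝ) + 1) ^ 2) ^ (D0 ^ 2) * (8 / 15 : ℝ) ^ m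
        ≤ 3 * (m : ℝ) * (12 ^ (D0 ^ 2) * (m : ℝ) ^ (2 * D0 ^ 2)) * (8 / 15 : ℝ) ^ m := by
          gcongr
      _ = (3 * 12 ^ (D0 ^ 2)) * ((m : ℝ) ^ (1 + 2 * D0 ^ 2) * (8 / 15 : ℝ) ^ m) := by
          rw [pow_add, pow_one]
          ring
  obtain ⟨M0, hM0⟩ := Filter.eventually_atTop.1 (hlim.eventually (gt_mem_nhds zero_lt_one))
  set P : ℕ → ℝ := fun m => 3 * (m : ℝ) * (3 * ((m : ℝ) + 1) ^ 2) ^ (D0 ^ 2) with hP
  have hP0 : ∀ m, 0 ≤ P m := fun m => by simp only [hP]; positivity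
  set K0 : ℕ := ⌈∑ m ∈ Finset.range M0, P m * m⌉₊ + 1 with hK0
  refine ⟨C1, hC10, K0, ?_⟩
  intro n k d m hk hkn hm hmk hd hdn
  have hm0 : (0 : ℝ) < m := by exact_mod_cast hm
  have hk0 : (0 : ℝ) < k := by exact_mod_cast (by omega : 0 < k)
  have hmk' : (m : ℝ) ≤ k := by exact_mod_cast hmk
  have hd0 : (0 : ℝ) < d := by exact_mod_cast (by omega : 0 < d)
  have hrw : (d : ℝ) ^ (-(m : ℝ)) = ((d : ℝ)⁻¹) ^ m := by
    rw [Real.rpow_neg hd0.le, Real.rpow_natCast, inv_pow]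
  rw [hrw]
  have hff : ((m.factorial : ℝ)) ≤ (m : ℝ) ^ m := by exact_mod_cast Nat.factorial_le_pow m
  by_cases hD : D0 ≤ d
  · have hD' : C1 ≤ d := hD0C.trans (by exact_mod_cast hD)
    by_cases hc : d ^ 2 ≤ 2 * m
    · calc TT m (d ^ 2) * ((d : ℝ)⁻¹) ^ m ≤ ((m.factorial : ℝ) * BB ^ m) * ((d : ℝ)⁻¹) ^ m := by
            have := TT_A m (d ^ 2) hc
            gcongr
        _ ≤ ((m : ℝ) ^ m * BB ^ m) * ((d : ℝ)⁻¹) ^ m := by gcongr
        _ = (m * BB / d) ^ m := by rw [div_eq_mul_inv, mul_pow, mul_pow]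
        _ ≤ (15 / 16 * k / Real.exp 1) ^ m := by
            refine pow_le_pow_left₀ (by positivity) ?_ m
            rw [div_le_div_iff₀ hd0 he]
            calc (m : ℝ) * BB * Real.exp 1 ≤ k * BB * Real.exp 1 := by gcongr
              _ = 15 / 16 * k * C1 := by rw [hC1]; ring
              _ ≤ 15 / 16 * k * d := by gcongr
    · push Not at hc
      have hdk : C1 * (d : ℝ) ≤ k := by
        have h1 : (d : ℝ) ≤ √(n : ℝ) := by
          apply Real.le_sqrt_of_sq_le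
          exact_mod_cast hdn
        calc C1 * (d : ℝ) ≤ C1 * √(n : ℝ) := by gcongr
          _ ≤ k := hkn
      calc TT m (d ^ 2) * ((d : ℝ)⁻¹) ^ m
          ≤ ((m.factorial : ℝ) * (BB * ((d ^ 2 : ℕ) : ℝ) / m) ^ m) * ((d : ℝ)⁻¹) ^ m := by
            have := TT_B m (d ^ 2) hm hc.le
            gcongr
        _ ≤ ((m : ℝ) ^ m * (BB * ((d ^ 2 : ℕ) : ℝ) / m) ^ m) * ((d : ℝ)⁻¹) ^ m := by gcongr
        _ = (BB * d) ^ m := by
            rw [← mul_pow, ← mul_pow]
            congr 1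
            push_cast
            field_simp
        _ ≤ (15 / 16 * k / Real.exp 1) ^ m := by
            refine pow_le_pow_left₀ (by positivity) ?_ m
            rw [le_div_iff₀ he]
            calc BB * (d : ℝ) * Real.exp 1 = 15 / 16 * (C1 * d) := by rw [hC1]; ring
              _ ≤ 15 / 16 * k := by gcongr
  · push Not at hD
    have h1 : TT m (d ^ 2) ≤ P m * ((m : ℝ) / Real.exp 1) ^ m := by
      refine (TT_poly m (d ^ 2)).trans ?_
      have h2 : (1 : ℝ) ≤ 3 * ((m : ℝ) + 1) ^ 2 := by nlinarith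
      have h3 : d ^ 2 ≤ D0 ^ 2 := Nat.pow_le_pow_left hD.le 2
      have h4 := pow_le_pow_right₀ h2 h3
      have h5 := tau_le3 m hm
      rw [fact_eq_tau]
      calc tau m * ((m : ℝ) / Real.exp 1) ^ m * (3 * ((m : ℝ) + 1) ^ 2) ^ (d ^ 2)
          ≤ (3 * m) * ((m : ℝ) / Real.exp 1) ^ m * (3 * ((m : ℝ) + 1) ^ 2) ^ (D0 ^ 2) := by
            gcongr
        _ = _ := by simp only [hP]; ring
    have h2 : ((d : ℝ)⁻¹) ^ m ≤ ((1 / 2 : ℝ)) ^ m := by
      refine pow_le_pow_left₀ (by positivity) ?_ m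
      rw [one_div]
      apply inv_anti₀ (by norm_num)
      exact_mod_cast hd
    have h3 : P m * (8 * m / (15 * k)) ^ m ≤ 1 := by
      by_cases hmM : M0 ≤ m
      · have h4 := hM0 m hmM
        have h5 : (8 * (m : ℝ) / (15 * k)) ^ m ≤ (8 / 15) ^ m := by
          refine pow_le_pow_left₀ (by positivity) ?_ m
          rw [div_le_div_iff₀ (by positivity) (by norm_num)]
          nlinarith
        calc P m * (8 * m / (15 * k)) ^ m ≤ P m * (8 / 15) ^ m := by
              have := hP0 m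
              gcongr
          _ ≤ 1 := h4.le
      · push Not at hmM
        have h4 : (8 * (m : ℝ) / (15 * k)) ^ m ≤ m / k := by
          have h5 : 8 * (m : ℝ) / (15 * k) ≤ 1 := by
            rw [div_le_one (by positivity)]
            linarith
          have h6 : (8 * (m : ℝ) / (15 * k)) ^ m ≤ (8 * (m : ℝ) / (15 * k)) ^ 1 :=
            pow_le_pow_of_le_one (by positivity) h5 hm
          rw [pow_one] at h6
          refine h6.trans ?_
          rw [div_le_div_iff₀ (by positivity) hk0]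
          nlinarith [mul_pos hm0 hk0]
        have h7 : P m * m ≤ k := by
          have h8 : P m * m ≤ ∑ m ∈ Finset.range M0, P m * m :=
            Finset.single_le_sum (f := fun m : ℕ => P m * (m : ℝ))
              (fun i _ => mul_nonneg (hP0 i) (by positivity)) (Finset.mem_range.2 hmM)
          have h9 : ∑ m ∈ Finset.range M0, P m * m ≤ ⌈∑ m ∈ Finset.range M0, P m * m⌉₊ :=
            Nat.le_ceil _
          have h10 : ((K0 : ℕ) : ℝ) ≤ k := by exact_mod_cast hk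
          rw [hK0] at h10
          push_cast at h10
          linarith
        calc P m * (8 * m / (15 * k)) ^ m ≤ P m * (m / k) := by
              have := hP0 m
              gcongr
          _ = P m * m / k := by ring
          _ ≤ 1 := by rw [div_le_one hk0]; exact h7
    calc TT m (d ^ 2) * ((d : ℝ)⁻¹) ^ m
        ≤ (P m * ((m : ℝ) / Real.exp 1) ^ m) * (1 / 2) ^ m := by
          have := hP0 m
          gcongr
      _ = (P m * (8 * m / (15 * k)) ^ m) * (15 / 16 * k / Real.exp 1) ^ m := by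
          rw [mul_assoc (P m), mul_assoc (P m), ← mul_pow, ← mul_pow]
          congr 2
          field_simp
          ring
      _ ≤ 1 * (15 / 16 * k / Real.exp 1) ^ m := by gcongr
      _ = _ := one_mul _

end Pool.Agent.Lib.MP_281388_al
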