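import Mathlib
import Pool.Agent.Lib.MP_281388_al.YTT

set_option autoImplicit false

open scoped BigOperators
open Finset

namespace Pool.Agent.Lib.MP_281388_al

theorem ypow (y r t a : ℝ) (j : ℕ) (hy : 0 ≤ y) (hyr : y ≤ r) (hya : y ≤ t * a) (hj : 1 ≤ j) :
    y ^ j ≤ t * a * r ^ (j - 1) := by
  obtain ⟨i, rfl⟩ : ∃ i, j = i + 1 := ⟨j - 1, by omega⟩
  rw [Nat.add_sub_cancel, pow_succ, mul_comm]
  have h1 : y ^ i ≤ r ^ i := pow_le_pow_left₀ hy hyr i
  have h2 : 0 ≤ y ^ i := by positivity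
  calc y * y ^ i ≤ (t * a) * y ^ i := by gcongr
    _ ≤ (t * a) * r ^ i := by
      have : 0 ≤ t * a := hy.trans hya
      gcongr

/-- the constant `B^{3/2}` -/
noncomputable def B3 : ℝ := BB * √BB

theorem B3_pos : 0 < B3 := by
  unfold B3
  have := BB_pos
  positivity

theorem one_le_B3 : 1 ≤ B3 := by
  unfold B3
  have h1 := one_le_BB
  have h2 : 1 ≤ √BB := by rw [Real.one_le_sqrt]; exact h1
  nlinarith

/-- threshold for `d` -/
noncomputable def D1 : ℕ := ⌈(3.6 * B3) ^ 2⌉₊ + 1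

theorem sqrt_ge_D1 (d : ℕ) (h : D1 ≤ d) : 3.6 * B3 ≤ √(d : ℝ) := by
  apply Real.le_sqrt_of_sq_le
  have h1 : (3.6 * B3) ^ 2 ≤ ⌈(3.6 * B3) ^ 2⌉₊ := Nat.le_ceil _
  have h2 : ((D1 : ℕ) : ℝ) ≤ d := by exact_mod_cast h
  unfold D1 at h2
  push_cast at h2
  linarith

/-- the summable majorant -/
noncomputable def cc (j : ℕ) : ℝ :=
  ((9 + B3) * 12 ^ (2 * D1 ^ 2) / 0.95) * ((j : ℝ) ^ (3 + 4 * D1 ^ 2) * 0.95 ^ j)

theorem cc_nonneg (j : ℕ) : 0 ≤ cc j := by
  unfold cc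
  have := B3_pos
  positivity

theorem cc_summable : Summable cc := by
  unfold cc
  apply Summable.mul_left
  exact summable_pow_mul_geometric_of_norm_lt_one (R := ℝ) (3 + 4 * D1 ^ 2)
    (by rw [Real.norm_of_nonneg (by norm_num)]; norm_num)

theorem cc_ge (j : ℕ) (hj : 1 ≤ j) :
    (9 + B3) * (j : ℝ) ^ 3 * (3 * ((j : ℝ) + 1) ^ 2) ^ (2 * D1 ^ 2) * 0.95 ^ (j - 1) ≤ cc j := by
  have hj0 : (0 : ℝ) < j := by exact_mod_cast hj
  have hj1 : (1 : ℝ) ≤ j := by exact_mod_cast hj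
  have hB := B3_pos
  have h1 : (0.95 : ℝ) ^ (j - 1) = 0.95 ^ j / 0.95 := by
    obtain ⟨i, rfl⟩ : ∃ i, j = i + 1 := ⟨j - 1, by omega⟩
    rw [Nat.add_sub_cancel, pow_succ]
    field_simp
  have h2 : (3 * ((j : ℝ) + 1) ^ 2) ^ (2 * D1 ^ 2) ≤ (12 * (j : ℝ) ^ 2) ^ (2 * D1 ^ 2) := by
    refine pow_le_pow_left₀ (by positivity) ?_ _
    nlinarith
  have h3 : (12 * (j : ℝ) ^ 2) ^ (2 * D1 ^ 2) = 12 ^ (2 * D1 ^ 2) * (j : ℝ) ^ (4 * D1 ^ 2) := by
    rw [mul_pow, ← pow_mul]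
    congr 2
    ring
  rw [h1]
  calc (9 + B3) * (j : ℝ) ^ 3 * (3 * ((j : ℝ) + 1) ^ 2) ^ (2 * D1 ^ 2) * (0.95 ^ j / 0.95)
      ≤ (9 + B3) * (j : ℝ) ^ 3 * (12 ^ (2 * D1 ^ 2) * (j : ℝ) ^ (4 * D1 ^ 2)) *
        (0.95 ^ j / 0.95) := by
        rw [← h3]
        gcongr
    _ = cc j := by
        unfold cc
        rw [pow_add]
        ring

/-- `d^{5/2}` -/
theorem d52 (d : ℕ) (hd : 1 ≤ d) : (d : ℝ) ^ (5 / 2 : ℝ) = (d : ℝ) ^ 3 / √(d : ℝ) := by
  have hd0 : (0 : ℝ) < d := by exact_mod_cast hd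
  rw [Real.sqrt_eq_rpow, ← Real.rpow_natCast, ← Real.rpow_sub hd0]
  congr 1
  norm_num

theorem sqrt_fact_le (j : ℕ) : √(j.factorial : ℝ) ≤ (√(j : ℝ)) ^ j := by
  have h1 : (√(j : ℝ)) ^ j = √((j : ℝ) ^ j) := by
    rw [Real.sqrt_eq_rpow, Real.sqrt_eq_rpow, ← Real.rpow_natCast, ← Real.rpow_mul (by positivity),
      ← Real.rpow_natCast, ← Real.rpow_mul (by positivity)]
    congr 1
    ring
  rw [h1]
  apply Real.sqrt_le_sqrt
  exact_mod_cast Nat.factorial_le_pow j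

theorem pow_mul_sqrt_pow (X : ℝ) (hX : 0 ≤ X) (j : ℕ) : X ^ j * √(X ^ j) = (X * √X) ^ j := by
  have h1 : √(X ^ j) = (√X) ^ j := by
    rw [Real.sqrt_eq_rpow, Real.sqrt_eq_rpow, ← Real.rpow_natCast, ← Real.rpow_mul hX,
      ← Real.rpow_natCast, ← Real.rpow_mul hX]
    congr 1
    ring
  rw [h1, mul_pow]

/-- The term bound. -/
theorem PLterm (n d j : ℕ) (hd : 1 ≤ d) (hdn : d ^ 2 ≤ n) (t : ℝ) (ht : 0 < t)
    (htn : t ≤ 1.8 / √(n : ℝ)) (hj : 1 ≤ j) (hjn : j ≤ n) (hj1 : d = 1 → 4 * j ≤ 3 * n) :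
    GG j d * t ^ j ≤ t * cc j + (B3 * t * (d : ℝ) ^ (5 / 2 : ℝ)) ^ j / (j.factorial : ℝ) := by
  have hn0 : (0 : ℝ) < n := by exact_mod_cast (by omega : 0 < n)
  have hd0 : (0 : ℝ) < d := by exact_mod_cast hd
  have hd1 : (1 : ℝ) ≤ d := by exact_mod_cast hd
  have hj0 : (0 : ℝ) < j := by exact_mod_cast hj
  have hj1' : (1 : ℝ) ≤ j := by exact_mod_cast hj
  have hsn : 0 < √(n : ℝ) := Real.sqrt_pos.2 hn0
  have hsd1 : 1 ≤ √(d : ℝ) := by rw [Real.one_le_sqrt]; exact hd1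
  have hB := B3_pos
  have htsq : t ^ 2 * n ≤ 3.24 := by
    have h1 : t * √(n : ℝ) ≤ 1.8 := by
      rw [le_div_iff₀ hsn] at htn
      exact htn
    have h2 : (t * √(n : ℝ)) ^ 2 ≤ 1.8 ^ 2 := by gcongr
    rw [mul_pow, Real.sq_sqrt hn0.le] at h2
    norm_num at h2 ⊢
    linarith
  have hlast0 : 0 ≤ (B3 * t * (d : ℝ) ^ (5 / 2 : ℝ)) ^ j / (j.factorial : ℝ) := by positivity
  have hcc := cc_ge j hj
  have hP1 : (1 : ℝ) ≤ 3 * ((j : ℝ) + 1) ^ 2 := by nlinarith
  have hPK : (1 : ℝ) ≤ (3 * ((j : ℝ) + 1) ^ 2) ^ (2 * D1 ^ 2) := one_le_pow₀ hP1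
  have h95 : (0 : ℝ) < 0.95 ^ (j - 1) := by positivity
  have he := Real.exp_one_gt_d9
  have he0 := Real.exp_pos 1
  -- it suffices to bound by `t * cc j` in the first three cases
  have hτ := tau_pos j
  have hτ3 := tau_le3 j hj
  by_cases hd1' : d = 1
  · -- case d = 1
    subst hd1'
    have h4j : 4 * (j : ℝ) ≤ 3 * n := by exact_mod_cast hj1 rfl
    have h1 := GG_le j 1 (tau j) t hτ.le ht.le (by
      rw [one_pow, TT_one, wt])
    set y := √((j : ℝ) / Real.exp 1) * t with hy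
    have hy0 : 0 ≤ y := by positivity
    have hy2 : y ≤ 0.95 := by
      have h2 : y ^ 2 ≤ 0.95 ^ 2 := by
        rw [hy, mul_pow, Real.sq_sqrt (by positivity), div_mul_eq_mul_div, div_le_iff₀ he0]
        nlinarith
      exact (pow_le_pow_iff_left₀ hy0 (by norm_num) two_ne_zero).1 h2
    have hya : y ≤ t * j := by
      rw [hy, mul_comm]
      refine mul_le_mul_of_nonneg_left ?_ ht.le
      rw [Real.sqrt_le_iff]
      refine ⟨hj0.le, ?_⟩
      rw [div_le_iff₀ he0]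
      nlinarith
    have h3 := ypow y 0.95 t j j hy0 hy2 hya hj
    have h4 : √(j.factorial : ℝ) * (tau j * √(tau j)) * (t / √((1 : ℕ) : ℝ)) ^ j =
        tau j ^ 2 * y ^ j := by
      rw [sqrt_fact_eq, hy, mul_pow]
      have h5 : √(tau j) * √(tau j) = tau j := Real.mul_self_sqrt hτ.le
      simp only [Nat.cast_one, Real.sqrt_one, div_one]
      linear_combination ((√((j : ℝ) / Real.exp 1)) ^ j * t ^ j * tau j) * h5
    rw [h4] at h1
    calc GG j 1 * t ^ j ≤ tau j ^ 2 * y ^ j := h1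
      _ ≤ (3 * j) ^ 2 * (t * j * 0.95 ^ (j - 1)) := by gcongr
      _ = t * (9 * (j : ℝ) ^ 3 * 1 * 0.95 ^ (j - 1)) := by ring
      _ ≤ t * ((9 + B3) * (j : ℝ) ^ 3 * (3 * ((j : ℝ) + 1) ^ 2) ^ (2 * D1 ^ 2) *
          0.95 ^ (j - 1)) := by
          gcongr
          linarith
      _ ≤ t * cc j := by gcongr
      _ ≤ _ := by linarith
  · have hd2 : 2 ≤ d := by omega
    have hd2' : (2 : ℝ) ≤ d := by exact_mod_cast hd2
    by_cases hD : d < D1
    · -- case 2 ≤ d < D1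
      have hPd : TT j (d ^ 2) ≤ (j.factorial : ℝ) * (3 * ((j : ℝ) + 1) ^ 2) ^ (D1 ^ 2) := by
        refine (TT_poly j (d ^ 2)).trans ?_
        have : d ^ 2 ≤ D1 ^ 2 := Nat.pow_le_pow_left hD.le 2
        have := pow_le_pow_right₀ hP1 this
        gcongr
      set P := (3 * ((j : ℝ) + 1) ^ 2) ^ (D1 ^ 2) with hP
      have hP1' : 1 ≤ P := one_le_pow₀ hP1
      have hP2 : P ^ 2 = (3 * ((j : ℝ) + 1) ^ 2) ^ (2 * D1 ^ 2) := by
        rw [hP, ← pow_mul]
        congr 1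
        ring
      have h1 := GG_le j d P t (by linarith) ht.le hPd
      have hsP : √P ≤ P := by
        rw [Real.sqrt_le_iff]
        exact ⟨by linarith, by nlinarith⟩
      set y := √((j : ℝ) / Real.exp 1) * (t / √(d : ℝ)) with hy
      have hy0 : 0 ≤ y := by positivity
      have hy2 : y ≤ 0.95 := by
        have h2 : y ^ 2 ≤ 0.95 ^ 2 := by
          rw [hy, mul_pow, Real.sq_sqrt (by positivity), div_pow, Real.sq_sqrt hd0.le,
            div_mul_div_comm, div_le_iff₀ (by positivity)]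
          have hjn' : (j : ℝ) ≤ n := by exact_mod_cast hjn
          have e1 : (j : ℝ) * t ^ 2 ≤ 3.24 := by nlinarith
          nlinarith
        exact (pow_le_pow_iff_left₀ hy0 (by norm_num) two_ne_zero).1 h2
      have hya : y ≤ t * j := by
        have e1 : t / √(d : ℝ) ≤ t := by
          rw [div_le_iff₀ (by linarith)]
          nlinarith
        have e2 : √((j : ℝ) / Real.exp 1) ≤ j := by
          rw [Real.sqrt_le_iff]
          refine ⟨hj0.le, ?_⟩
          rw [div_le_iff₀ he0]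
          nlinarith
        calc y ≤ j * t := by rw [hy]; gcongr
          _ = t * j := mul_comm _ _
      have h3 := ypow y 0.95 t j j hy0 hy2 hya hj
      have hsτ : √(tau j) ≤ 3 * j := by
        rw [Real.sqrt_le_iff]
        exact ⟨by positivity, by nlinarith⟩
      calc GG j d * t ^ j ≤ √(j.factorial : ℝ) * (P * √P) * (t / √(d : ℝ)) ^ j := h1
        _ = √(tau j) * (P * √P) * y ^ j := by
            rw [sqrt_fact_eq, hy, mul_pow]; ring
        _ ≤ (3 * j) * (P * P) * (t * j * 0.95 ^ (j - 1)) := by gcongr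
        _ = t * ((3 * (j : ℝ) ^ 2) * P ^ 2 * 0.95 ^ (j - 1)) := by ring
        _ ≤ t * ((9 + B3) * (j : ℝ) ^ 3 * (3 * ((j : ℝ) + 1) ^ 2) ^ (2 * D1 ^ 2) *
            0.95 ^ (j - 1)) := by
            rw [hP2]
            have e3 : 3 * (j : ℝ) ^ 2 ≤ (9 + B3) * (j : ℝ) ^ 3 := by
              have : (j : ℝ) ^ 2 ≤ (j : ℝ) ^ 3 := pow_le_pow_right₀ hj1' (by norm_num)
              nlinarith [pow_pos hj0 2, pow_pos hj0 3]
            gcongr
        _ ≤ t * cc j := by gcongr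
        _ ≤ _ := by linarith
    · have hD' : D1 ≤ d := by omega
      have hsd := sqrt_ge_D1 d hD'
      by_cases hc : d ^ 2 ≤ 2 * j
      · -- case d ≥ D1, j large
        have h1 := GG_le j d (BB ^ j) t (by have := BB_pos; positivity) ht.le (TT_A j (d ^ 2) hc)
        rw [pow_mul_sqrt_pow BB BB_pos.le j] at h1
        set y := √(j : ℝ) * B3 * (t / √(d : ℝ)) with hy
        have hy0 : 0 ≤ y := by positivity
        have hsj : t * √(j : ℝ) ≤ 1.8 := by
          have e0 : √(j : ℝ) ≤ √(n : ℝ) := Real.sqrt_le_sqrt (by exact_mod_cast hjn)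
          rw [le_div_iff₀ hsn] at htn
          calc t * √(j : ℝ) ≤ t * √(n : ℝ) := by gcongr
            _ ≤ 1.8 := htn
        have hy2 : y ≤ 0.95 := by
          have e1 : y = (t * √(j : ℝ)) * B3 / √(d : ℝ) := by rw [hy]; ring
          rw [e1, div_le_iff₀ (by linarith)]
          nlinarith
        have hya : y ≤ t * (j * B3) := by
          have e1 : t / √(d : ℝ) ≤ t := by
            rw [div_le_iff₀ (by linarith)]
            nlinarith
          have e2 : √(j : ℝ) ≤ j := by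
            rw [Real.sqrt_le_iff]
            exact ⟨hj0.le, by nlinarith⟩
          calc y ≤ j * B3 * t := by rw [hy]; gcongr
            _ = t * (j * B3) := by ring
        have h3 := ypow y 0.95 t (j * B3) j hy0 hy2 hya hj
        calc GG j d * t ^ j
            ≤ √(j.factorial : ℝ) * (BB * √BB) ^ j * (t / √(d : ℝ)) ^ j := h1
          _ ≤ (√(j : ℝ)) ^ j * (BB * √BB) ^ j * (t / √(d : ℝ)) ^ j := by
              have := sqrt_fact_le j
              have := BB_pos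
              gcongr
          _ = y ^ j := by
              rw [hy, ← mul_pow, ← mul_pow, B3]
          _ ≤ t * (j * B3) * 0.95 ^ (j - 1) := h3
          _ = t * ((B3 * (j : ℝ)) * 1 * 0.95 ^ (j - 1)) := by ring
          _ ≤ t * ((9 + B3) * (j : ℝ) ^ 3 * (3 * ((j : ℝ) + 1) ^ 2) ^ (2 * D1 ^ 2) *
              0.95 ^ (j - 1)) := by
              have e3 : B3 * (j : ℝ) ≤ (9 + B3) * (j : ℝ) ^ 3 := by
                have e4 : (j : ℝ) ≤ (j : ℝ) ^ 3 := by
                  calc (j : ℝ) = (j : ℝ) ^ 1 := (pow_one _).symm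
                    _ ≤ (j : ℝ) ^ 3 := pow_le_pow_right₀ hj1' (by norm_num)
                nlinarith [pow_pos hj0 3]
              gcongr
          _ ≤ t * cc j := by gcongr
          _ ≤ _ := by linarith
      · -- case d ≥ D1, j small
        push Not at hc
        have h1 := GG_le j d ((BB * (d ^ 2 : ℕ) / j) ^ j) t
          (by have := BB_pos; positivity) ht.le (TT_B j (d ^ 2) hj hc.le)
        have hX0 : 0 ≤ BB * ((d ^ 2 : ℕ) : ℝ) / j := by have := BB_pos; positivity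
        rw [pow_mul_sqrt_pow _ hX0 j] at h1
        have hsX : √(BB * ((d ^ 2 : ℕ) : ℝ) / j) = √BB * d / √(j : ℝ) := by
          rw [Real.sqrt_div (by have := BB_pos; positivity), Real.sqrt_mul BB_pos.le]
          congr 2
          push_cast
          exact Real.sqrt_sq hd0.le
        have hcc0 : 0 ≤ t * cc j := mul_nonneg ht.le (cc_nonneg j)
        have hjj : ((j.factorial : ℝ)) ≤ (j : ℝ) ^ j := by exact_mod_cast Nat.factorial_le_pow j
        have hff : (0 : ℝ) < (j.factorial : ℝ) := by positivity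
        have hsj0 : 0 < √(j : ℝ) := Real.sqrt_pos.2 hj0
        have hBB := BB_pos
        calc GG j d * t ^ j
            ≤ √(j.factorial : ℝ) * ((BB * ((d ^ 2 : ℕ) : ℝ) / j) *
              √(BB * ((d ^ 2 : ℕ) : ℝ) / j)) ^ j * (t / √(d : ℝ)) ^ j := h1
          _ ≤ (√(j : ℝ)) ^ j * ((BB * ((d ^ 2 : ℕ) : ℝ) / j) *
              √(BB * ((d ^ 2 : ℕ) : ℝ) / j)) ^ j * (t / √(d : ℝ)) ^ j := by
              have := sqrt_fact_le j
              gcongr
          _ = (B3 * t * (d : ℝ) ^ (5 / 2 : ℝ)) ^ j / (j : ℝ) ^ j := by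
              rw [← mul_pow, ← mul_pow, ← div_pow, hsX, d52 d hd, B3]
              congr 1
              push_cast
              have : √(d : ℝ) ≠ 0 := by positivity
              field_simp
          _ ≤ (B3 * t * (d : ℝ) ^ (5 / 2 : ℝ)) ^ j / (j.factorial : ℝ) := by
              gcongr
          _ ≤ _ := by linarith

theorem PL : ∃ C : ℝ, 0 < C ∧ ∀ n d : ℕ, 1 ≤ d → d ^ 2 ≤ n → ∀ t : ℝ, 0 < t →
    t ≤ 1.8 / √(n : ℝ) →
    1 + ∑ j ∈ Icc 1 (if d = 1 then 3 * n / 4 else n), GG j d * t ^ j ≤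
      Real.exp (C * t * (d : ℝ) ^ (5 / 2 : ℝ)) := by
  set C0 : ℝ := ∑' j, cc j with hC0
  have hC00 : 0 ≤ C0 := tsum_nonneg cc_nonneg
  have hB := B3_pos
  refine ⟨B3 + C0, by linarith, ?_⟩
  intro n d hd hdn t ht htn
  have hd0 : (0 : ℝ) < d := by exact_mod_cast hd
  have hd1 : (1 : ℝ) ≤ d := by exact_mod_cast hd
  set J := if d = 1 then 3 * n / 4 else n with hJ
  have hterm : ∀ j ∈ Icc 1 J, GG j d * t ^ j ≤
      t * cc j + (B3 * t * (d : ℝ) ^ (5 / 2 : ℝ)) ^ j / (j.factorial : ℝ) := by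
    intro j hj
    rw [Finset.mem_Icc] at hj
    apply PLterm n d j hd hdn t ht htn hj.1
    · have := hj.2
      rw [hJ] at this
      split_ifs at this <;> omega
    · intro h1
      have := hj.2
      rw [hJ, if_pos h1] at this
      omega
  set a := B3 * t * (d : ℝ) ^ (5 / 2 : ℝ) with ha
  have ha0 : 0 ≤ a := by positivity
  have h1 : ∑ j ∈ Icc 1 J, GG j d * t ^ j ≤
      t * C0 + ∑ j ∈ Icc 1 J, a ^ j / (j.factorial : ℝ) := by
    refine (Finset.sum_le_sum hterm).trans ?_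
    rw [Finset.sum_add_distrib, ← Finset.mul_sum]
    have : ∑ j ∈ Icc 1 J, cc j ≤ C0 :=
      cc_summable.sum_le_tsum _ (fun j _ => cc_nonneg j)
    gcongr
  have h2 : 1 + ∑ j ∈ Icc 1 J, a ^ j / (j.factorial : ℝ) ≤ Real.exp a := by
    have h3 := Real.sum_le_exp_of_nonneg ha0 (J + 1)
    have h4 : ∑ i ∈ range (J + 1), a ^ i / (i.factorial : ℝ) =
        1 + ∑ j ∈ Icc 1 J, a ^ j / (j.factorial : ℝ) := by
      rw [Finset.range_eq_Ico, Finset.sum_eq_sum_Ico_succ_bot (by omega)]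
      simp only [pow_zero, Nat.factorial_zero, Nat.cast_one, div_one]
      rfl
    rw [h4] at h3
    exact h3
  have hea : 1 ≤ Real.exp a := Real.one_le_exp ha0
  have hd52 : (1 : ℝ) ≤ (d : ℝ) ^ (5 / 2 : ℝ) := Real.one_le_rpow hd1 (by norm_num)
  calc 1 + ∑ j ∈ Icc 1 J, GG j d * t ^ j ≤ Real.exp a + t * C0 := by linarith
    _ ≤ Real.exp a * (1 + t * C0) := by
        have : 0 ≤ t * C0 := by positivity
        nlinarith
    _ ≤ Real.exp a * Real.exp (t * C0) := by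
        have := Real.add_one_le_exp (t * C0)
        gcongr
        linarith
    _ = Real.exp (a + t * C0) := (Real.exp_add _ _).symm
    _ ≤ Real.exp ((B3 + C0) * t * (d : ℝ) ^ (5 / 2 : ℝ)) := by
        apply Real.exp_le_exp.2
        have : t * C0 ≤ C0 * t * (d : ℝ) ^ (5 / 2 : ℝ) := by
          have h0 : 0 ≤ C0 * t := by positivity
          nlinarith
        have e1 : (B3 + C0) * t * (d : ℝ) ^ (5 / 2 : ℝ) = a + C0 * t * (d : ℝ) ^ (5 / 2 : ℝ) := by
          rw [ha]; ring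
        rw [e1]
        linarith

end Pool.Agent.Lib.MP_281388_al
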