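import Mathlib
import Pool.Agent.Lib.MP_281388_al.YPL
import Pool.Agent.Lib.MP_281388_al.YGood

set_option autoImplicit false

open scoped BigOperators
open Finset

namespace Pool.Agent.Lib.MP_281388_al

section ysum

variable {ι S : Type} [Fintype ι] [DecidableEq ι] [Fintype S] [DecidableEq S]

/-- the a priori bound for the energies -/
noncomputable def bbE (d : S → ℕ) (s : ι → S) : ℝ :=
  (((Fintype.card ι).factorial : ℝ))⁻¹ * ∏ σ, TT (mult s σ) (d σ ^ 2)

/-- the a priori bound for the terms -/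
noncomputable def term (d : S → ℕ) (s : ι → S) : ℝ :=
  (∏ i, (d (s i) : ℝ)) ^ (-(1 / 2) : ℝ) * (bbE d s) ^ (3 / 2 : ℝ)

omit [DecidableEq ι] in
theorem bbE_nonneg (d : S → ℕ) (s : ι → S) : 0 ≤ bbE d s := by
  unfold bbE
  have : 0 ≤ ∏ σ, TT (mult s σ) (d σ ^ 2) := Finset.prod_nonneg fun σ _ => TT_nonneg _ _
  positivity

omit [DecidableEq ι] in
theorem term_eq (d : S → ℕ) (s : ι → S) :
    term d s = (((Fintype.card ι).factorial : ℝ)) ^ (-(3 / 2) : ℝ) *
      ∏ σ, (GG (mult s σ) (d σ) * ((mult s σ).factorial : ℝ)) := by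
  unfold term bbE
  have hf : (0 : ℝ) < ((Fintype.card ι).factorial : ℝ) := by positivity
  have hT : 0 ≤ ∏ σ, TT (mult s σ) (d σ ^ 2) := Finset.prod_nonneg fun σ _ => TT_nonneg _ _
  rw [Real.mul_rpow (by positivity) hT, Real.inv_rpow hf.le, ← Real.rpow_neg hf.le,
    ← Real.finsetProd_rpow _ _ (fun σ _ => TT_nonneg _ _),
    ← Real.finsetProd_rpow _ _ (fun i _ => by positivity),
    prod_fiber s (fun σ => (d σ : ℝ) ^ (-(1 / 2) : ℝ))]
  rw [mul_left_comm, ← Finset.prod_mul_distrib]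
  congr 1
  refine Finset.prod_congr rfl fun σ _ => ?_
  unfold GG
  have h1 : ((d σ : ℝ) ^ (-(1 / 2) : ℝ)) ^ mult s σ = (d σ : ℝ) ^ (-(mult s σ : ℝ) / 2) := by
    rw [← Real.rpow_natCast, ← Real.rpow_mul (by positivity)]
    congr 1
    ring
  rw [h1]
  have h2 : ((mult s σ).factorial : ℝ) ≠ 0 := by positivity
  field_simp

omit [DecidableEq ι] in
theorem term_nonneg (d : S → ℕ) (s : ι → S) : 0 ≤ term d s := by
  unfold term
  have := bbE_nonneg d s
  positivity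

/-- generating function bound for restricted sums -/
theorem GFL (d : S → ℕ) (a : S → ℕ → Prop) [∀ σ, DecidablePred (a σ)] (t : ℝ) (ht : 0 < t)
    (n : ℕ) (hn : Fintype.card ι = n) :
    ∑ s ∈ Finset.univ.filter (fun s : ι → S => ∀ σ, a σ (mult s σ)), term d s ≤
      (√(n.factorial : ℝ))⁻¹ * (t ^ n)⁻¹ *
        ∏ σ, ∑ j ∈ range (n + 1), (if a σ j then GG j (d σ) * t ^ j else 0) := by
  classical
  have hf : (0 : ℝ) < (n.factorial : ℝ) := by positivity
  have h1 : ∑ s ∈ Finset.univ.filter (fun s : ι → S => ∀ σ, a σ (mult s σ)), term d s =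
      (n.factorial : ℝ) ^ (-(3 / 2) : ℝ) * ∑ s : ι → S,
        ∏ σ, (if a σ (mult s σ) then GG (mult s σ) (d σ) * ((mult s σ).factorial : ℝ) else 0) := by
    rw [Finset.sum_filter, Finset.mul_sum]
    refine Finset.sum_congr rfl fun s _ => ?_
    by_cases h : ∀ σ, a σ (mult s σ)
    · rw [if_pos h, term_eq, hn]
      congr 1
      exact Finset.prod_congr rfl fun σ _ => (if_pos (h σ)).symm
    · rw [if_neg h]
      push Not at h
      obtain ⟨σ, hσ⟩ := h
      rw [Finset.prod_eq_zero (Finset.mem_univ σ) (if_neg hσ), mul_zero]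
  rw [h1]
  have h2 := gf_bound (ι := ι) (β := S)
    (fun σ j => if a σ j then GG j (d σ) * (j.factorial : ℝ) else 0)
    (fun σ j => by
      split_ifs
      · have := GG_nonneg j (d σ)
        positivity
      · exact le_rfl) t ht
  rw [hn] at h2
  have h3 : ∀ σ, ∑ j ∈ range (n + 1),
      (if a σ j then GG j (d σ) * (j.factorial : ℝ) else 0) * t ^ j / (j.factorial : ℝ) =
      ∑ j ∈ range (n + 1), (if a σ j then GG j (d σ) * t ^ j else 0) := by
    intro σ
    refine Finset.sum_congr rfl fun j _ => ?_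
    have : (j.factorial : ℝ) ≠ 0 := by positivity
    split_ifs
    · field_simp
    · simp
  rw [Finset.prod_congr rfl fun σ _ => h3 σ] at h2
  have h4 : (n.factorial : ℝ) ^ (-(3 / 2) : ℝ) * (n.factorial : ℝ) = (√(n.factorial : ℝ))⁻¹ := by
    rw [Real.sqrt_eq_rpow, ← Real.rpow_neg hf.le]
    nth_rewrite 2 [← Real.rpow_one (n.factorial : ℝ)]
    rw [← Real.rpow_add hf]
    norm_num
  calc (n.factorial : ℝ) ^ (-(3 / 2) : ℝ) * ∑ s : ι → S,
        ∏ σ, (if a σ (mult s σ) then GG (mult s σ) (d σ) * ((mult s σ).factorial : ℝ) else 0)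
      ≤ (n.factorial : ℝ) ^ (-(3 / 2) : ℝ) * ((n.factorial : ℝ) * (t ^ n)⁻¹ *
        ∏ σ, ∑ j ∈ range (n + 1), (if a σ j then GG j (d σ) * t ^ j else 0)) := by
        refine mul_le_mul_of_nonneg_left h2 (by positivity)
    _ = _ := by
        rw [← h4]; ring

/-- The bound with the labels outside of `X` treated by `PL`. -/
theorem GFL2 (C : ℝ) (hC : 0 < C)
    (hPL : ∀ n d : ℕ, 1 ≤ d → d ^ 2 ≤ n → ∀ t : ℝ, 0 < t →
    t ≤ 1.8 / √(n : ℝ) →
    1 + ∑ j ∈ Icc 1 (if d = 1 then 3 * n / 4 else n), GG j d * t ^ j ≤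
      Real.exp (C * t * (d : ℝ) ^ (5 / 2 : ℝ)))
    (d : S → ℕ) (a : S → ℕ → Prop) [∀ σ, DecidablePred (a σ)] (t : ℝ) (ht : 0 < t)
    (n : ℕ) (hn : Fintype.card ι = n) (htn : t ≤ 1.8 / √(n : ℝ))
    (hd : ∀ σ, 1 ≤ d σ) (hsum : ∑ σ, d σ ^ 2 = n) (X : Finset S)
    (ha : ∀ σ, σ ∉ X → ∀ j, a σ j → j ≤ if d σ = 1 then 3 * n / 4 else n) :
    ∑ s ∈ Finset.univ.filter (fun s : ι → S => ∀ σ, a σ (mult s σ)), term d s ≤
      (√(n.factorial : ℝ))⁻¹ * (t ^ n)⁻¹ *
        (∏ σ ∈ X, ∑ j ∈ range (n + 1), (if a σ j then GG j (d σ) * t ^ j else 0)) *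
        Real.exp (C * t * (n : ℝ) ^ (5 / 4 : ℝ)) := by
  classical
  refine (GFL d a t ht n hn).trans ?_
  rw [mul_assoc ((√(n.factorial : ℝ))⁻¹ * (t ^ n)⁻¹)]
  refine mul_le_mul_of_nonneg_left ?_ (by positivity)
  rw [← Finset.prod_mul_prod_compl X]
  have hG0 : ∀ σ j, 0 ≤ (if a σ j then GG j (d σ) * t ^ j else 0) := by
    intro σ j
    have := GG_nonneg j (d σ)
    split_ifs <;> positivity
  refine mul_le_mul_of_nonneg_left ?_
    (Finset.prod_nonneg fun σ _ => Finset.sum_nonneg fun j _ => hG0 σ j)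
  have hle : ∀ σ, d σ ^ 2 ≤ n := by
    intro σ
    rw [← hsum]
    exact Finset.single_le_sum (f := fun σ => d σ ^ 2) (fun _ _ => Nat.zero_le _)
      (Finset.mem_univ σ)
  have h1 : ∀ σ ∈ Xᶜ, ∑ j ∈ range (n + 1), (if a σ j then GG j (d σ) * t ^ j else 0) ≤
      Real.exp (C * t * (d σ : ℝ) ^ (5 / 2 : ℝ)) := by
    intro σ hσ
    rw [Finset.mem_compl] at hσ
    refine le_trans ?_ (hPL n (d σ) (hd σ) (hle σ) t ht htn)
    set J := if d σ = 1 then 3 * n / 4 else n with hJ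
    rw [← Finset.sum_filter]
    have hsub : (range (n + 1)).filter (fun j => a σ j) ⊆ insert 0 (Icc 1 J) := by
      intro j hj
      rw [Finset.mem_filter, Finset.mem_range] at hj
      rw [Finset.mem_insert, Finset.mem_Icc]
      rcases Nat.eq_zero_or_pos j with h | h
      · left; exact h
      · right; exact ⟨h, ha σ hσ j hj.2⟩
    calc ∑ j ∈ (range (n + 1)).filter (fun j => a σ j), GG j (d σ) * t ^ j
        ≤ ∑ j ∈ insert 0 (Icc 1 J), GG j (d σ) * t ^ j := by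
          refine Finset.sum_le_sum_of_subset_of_nonneg hsub fun j _ _ => ?_
          have := GG_nonneg j (d σ)
          positivity
      _ = 1 + ∑ j ∈ Icc 1 J, GG j (d σ) * t ^ j := by
          rw [Finset.sum_insert (by simp), GG_zero, pow_zero, mul_one]
  calc ∏ σ ∈ Xᶜ, ∑ j ∈ range (n + 1), (if a σ j then GG j (d σ) * t ^ j else 0)
      ≤ ∏ σ ∈ Xᶜ, Real.exp (C * t * (d σ : ℝ) ^ (5 / 2 : ℝ)) :=
        Finset.prod_le_prod (fun σ _ => Finset.sum_nonneg fun j _ => hG0 σ j) h1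
    _ = Real.exp (∑ σ ∈ Xᶜ, C * t * (d σ : ℝ) ^ (5 / 2 : ℝ)) := (Real.exp_sum _ _).symm
    _ ≤ Real.exp (C * t * (n : ℝ) ^ (5 / 4 : ℝ)) := by
        apply Real.exp_le_exp.2
        rw [← Finset.mul_sum]
        refine mul_le_mul_of_nonneg_left ?_ (by positivity)
        have h2 : ∀ σ, (d σ : ℝ) ^ (5 / 2 : ℝ) ≤ (n : ℝ) ^ (1 / 4 : ℝ) * ((d σ ^ 2 : ℕ) : ℝ) := by
          intro σ
          have hd0 : (0 : ℝ) < d σ := by exact_mod_cast hd σ
          have e1 : (d σ : ℝ) ^ (5 / 2 : ℝ) = (d σ : ℝ) ^ (1 / 2 : ℝ) * ((d σ ^ 2 : ℕ) : ℝ) := by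
            push_cast
            rw [← Real.rpow_natCast (d σ : ℝ) 2, ← Real.rpow_add hd0]
            norm_num
          rw [e1]
          have e2 : (d σ : ℝ) ^ (1 / 2 : ℝ) ≤ (n : ℝ) ^ (1 / 4 : ℝ) := by
            have e3 : ((d σ : ℝ) ^ 2) ^ (1 / 4 : ℝ) ≤ (n : ℝ) ^ (1 / 4 : ℝ) := by
              apply Real.rpow_le_rpow (by positivity) _ (by norm_num)
              exact_mod_cast hle σ
            rw [← Real.rpow_natCast, ← Real.rpow_mul hd0.le] at e3
            norm_num at e3 ⊢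
            exact e3
          gcongr
        calc ∑ σ ∈ Xᶜ, (d σ : ℝ) ^ (5 / 2 : ℝ)
            ≤ ∑ σ ∈ Xᶜ, (n : ℝ) ^ (1 / 4 : ℝ) * ((d σ ^ 2 : ℕ) : ℝ) :=
              Finset.sum_le_sum fun σ _ => h2 σ
          _ ≤ ∑ σ, (n : ℝ) ^ (1 / 4 : ℝ) * ((d σ ^ 2 : ℕ) : ℝ) :=
              Finset.sum_le_sum_of_subset_of_nonneg (Finset.subset_univ _)
                fun σ _ _ => by positivity
          _ = (n : ℝ) ^ (1 / 4 : ℝ) * n := by
              rw [← Finset.mul_sum, ← Nat.cast_sum, hsum]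
          _ = (n : ℝ) ^ (5 / 4 : ℝ) := by
              rcases Nat.eq_zero_or_pos n with h0 | h0
              · subst h0
                simp
              · have hn0 : (0 : ℝ) < n := by exact_mod_cast h0
                nth_rewrite 2 [← Real.rpow_one (n : ℝ)]
                rw [← Real.rpow_add hn0]
                norm_num

/-! ### elementary estimates -/

theorem fact_ratio (n k : ℕ) (hk : k < n) :
    √((n - k).factorial : ℝ) * (√(n.factorial : ℝ))⁻¹ ≤ ((√((n : ℝ) - k))⁻¹) ^ k := by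
  have h1 : ((n - k).factorial) * (n - k) ^ k ≤ n.factorial := by
    have h2 := Nat.factorial_mul_pow_le_factorial (m := n - k) (n := k)
    have h3 : n - k + k = n := by omega
    rw [h3] at h2
    refine le_trans ?_ h2
    gcongr
    omega
  have h4 : (((n - k).factorial : ℝ)) * ((n : ℝ) - k) ^ k ≤ (n.factorial : ℝ) := by
    have : ((n - k : ℕ) : ℝ) = (n : ℝ) - k := by rw [Nat.cast_sub hk.le]
    rw [← this]
    exact_mod_cast h1
  have hnk : 0 < (n : ℝ) - k := by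
    have : (k : ℝ) < n := by exact_mod_cast hk
    linarith
  have hf : (0 : ℝ) < √(n.factorial : ℝ) := by positivity
  have h5 : √((n - k).factorial : ℝ) * (√((n : ℝ) - k)) ^ k ≤ √(n.factorial : ℝ) := by
    apply Real.le_sqrt_of_sq_le
    rw [mul_pow, Real.sq_sqrt (by positivity), ← pow_mul, mul_comm k 2, pow_mul,
      Real.sq_sqrt hnk.le]
    exact h4
  have h6 : 0 < (√((n : ℝ) - k)) ^ k := by positivity
  rw [inv_pow, mul_inv_le_iff₀ hf, ← div_eq_inv_mul, le_div_iff₀ h6]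
  exact h5

end ysum

end Pool.Agent.Lib.MP_281388_al
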