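import Mathlib
import Pool.Agent.Lib.MP_281388_al.YSum

set_option autoImplicit false

open scoped BigOperators
open Finset

namespace Pool.Agent.Lib.MP_281388_al

theorem inv_sqrt_fact_le_e (n : ℕ) (hn : 1 ≤ n) :
    (√(n.factorial : ℝ))⁻¹ ≤ (√(Real.exp 1 / n)) ^ n := by
  have hn0 : (0 : ℝ) < n := by exact_mod_cast hn
  have he := Real.exp_pos 1
  have h1 : ((n : ℝ) / Real.exp 1) ^ n ≤ (n.factorial : ℝ) := by
    have h2 := Real.pow_div_factorial_le_exp (n : ℝ) hn0.le n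
    have h3 : Real.exp (n : ℝ) = (Real.exp 1) ^ n := by
      rw [← Real.exp_nat_mul, mul_one]
    rw [div_le_iff₀ (by positivity), h3] at h2
    rw [div_pow, div_le_iff₀ (by positivity)]
    linarith
  have h4 : (√((n : ℝ) / Real.exp 1)) ^ n ≤ √(n.factorial : ℝ) := by
    apply Real.le_sqrt_of_sq_le
    refine le_trans (le_of_eq ?_) h1
    rw [← pow_mul, mul_comm n 2, pow_mul, Real.sq_sqrt (by positivity)]
  have h5 : (√(Real.exp 1 / n)) ^ n = ((√((n : ℝ) / Real.exp 1)) ^ n)⁻¹ := by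
    rw [← inv_pow, ← Real.sqrt_inv, inv_div]
  rw [h5]
  exact inv_anti₀ (by positivity) h4

theorem GG_one_eq (m : ℕ) : GG m 1 = √(m.factorial : ℝ) * (tau m * √(tau m)) := by
  have hf : (0 : ℝ) < (m.factorial : ℝ) := by positivity
  have hτ := tau_pos m
  rw [GG_eq, one_pow, TT_one, wt, Real.sqrt_mul hf.le]
  simp only [Nat.cast_one, Real.sqrt_one, inv_one, one_pow, mul_one]
  field_simp

theorem GG_one_le (m n : ℕ) (hm : 1 ≤ m) (hmn : m ≤ n) :
    GG m 1 ≤ √(m.factorial : ℝ) * (9 * (n : ℝ) ^ 2) := by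
  have hm0 : (1 : ℝ) ≤ m := by exact_mod_cast hm
  have hmn' : (m : ℝ) ≤ n := by exact_mod_cast hmn
  have h1 := tau_le3 m hm
  have hτ := tau_pos m
  have h2 : √(tau m) ≤ 3 * m := by
    rw [Real.sqrt_le_iff]
    exact ⟨by positivity, by nlinarith⟩
  rw [GG_one_eq]
  refine mul_le_mul_of_nonneg_left ?_ (Real.sqrt_nonneg _)
  calc tau m * √(tau m) ≤ (3 * m) * (3 * m) := by gcongr
    _ ≤ 9 * (n : ℝ) ^ 2 := by nlinarith

section parts

variable {ι S : Type} [Fintype ι] [DecidableEq ι] [Fintype S] [DecidableEq S]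
  (C : ℝ) (hC : 0 < C)
  (hPL : ∀ n d : ℕ, 1 ≤ d → d ^ 2 ≤ n → ∀ t : ℝ, 0 < t →
    t ≤ 1.8 / √(n : ℝ) →
    1 + ∑ j ∈ Icc 1 (if d = 1 then 3 * n / 4 else n), GG j d * t ^ j ≤
      Real.exp (C * t * (d : ℝ) ^ (5 / 2 : ℝ)))
  (d : S → ℕ) (n : ℕ) (hn : Fintype.card ι = n) (hn1 : 1 ≤ n)
  (hd : ∀ σ, 1 ≤ d σ) (hsum : ∑ σ, d σ ^ 2 = n)

omit [DecidableEq ι] [Fintype S] in
theorem mult_le_card (s : ι → S) (σ : S) : mult s σ ≤ Fintype.card ι :=
  Finset.card_le_univ _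

omit [DecidableEq ι] in
theorem mult_le_of (s : ι → S) (χ σ : S) (hσ : σ ≠ χ) (k : ℕ)
    (h : mult s χ + k = Fintype.card ι) : mult s σ ≤ k := by
  have h1 := sum_mult s
  have h2 : mult s χ + mult s σ ≤ ∑ c, mult s c := by
    rw [← Finset.sum_pair hσ.symm]
    exact Finset.sum_le_sum_of_subset (Finset.subset_univ _)
  omega

theorem exp_t (C : ℝ) (n : ℕ) (hn1 : 1 ≤ n) :
    C * (1.8 / √(n : ℝ)) * (n : ℝ) ^ (5 / 4 : ℝ) = 1.8 * C * (n : ℝ) ^ (3 / 4 : ℝ) := by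
  have hn0 : (0 : ℝ) < n := by exact_mod_cast hn1
  have h1 : (n : ℝ) ^ (5 / 4 : ℝ) = √(n : ℝ) * (n : ℝ) ^ (3 / 4 : ℝ) := by
    rw [Real.sqrt_eq_rpow, ← Real.rpow_add hn0]
    norm_num
  rw [h1]
  have : √(n : ℝ) ≠ 0 := by positivity
  field_simp

include hC hPL hn hn1 hd hsum

theorem part_D1 :
    ∑ s ∈ Finset.univ.filter (fun s : ι → S => ∀ σ, d σ = 1 → 4 * mult s σ ≤ 3 * n), term d s ≤
      (11 / 12 : ℝ) ^ n * Real.exp (1.8 * C * (n : ℝ) ^ (3 / 4 : ℝ)) := by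
  classical
  have hn0 : (0 : ℝ) < n := by exact_mod_cast hn1
  have hs0 : 0 < √(n : ℝ) := Real.sqrt_pos.2 hn0
  have h1 := GFL2 C hC hPL d (fun σ j => (d σ = 1 → 4 * j ≤ 3 * n) ∧ j ≤ n) (1.8 / √(n : ℝ))
    (by positivity) n hn le_rfl hd hsum ∅ (by
      intro σ _ j hj
      split_ifs with h
      · have := hj.1 h
        omega
      · exact hj.2)
  rw [Finset.prod_empty, mul_one, exp_t C n hn1] at h1
  have hfil : Finset.univ.filter (fun s : ι → S => ∀ σ, d σ = 1 → 4 * mult s σ ≤ 3 * n) =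
      Finset.univ.filter (fun s : ι → S => ∀ σ, (d σ = 1 → 4 * mult s σ ≤ 3 * n) ∧
        mult s σ ≤ n) := by
    ext s
    simp only [Finset.mem_filter, Finset.mem_univ, true_and]
    constructor
    · intro h σ
      exact ⟨h σ, hn ▸ mult_le_card s σ⟩
    · intro h σ
      exact (h σ).1
  rw [hfil]
  refine h1.trans ?_
  refine mul_le_mul_of_nonneg_right ?_ (Real.exp_pos _).le
  have he := Real.exp_one_lt_d9
  have he0 := Real.exp_pos 1
  calc (√(n.factorial : ℝ))⁻¹ * ((1.8 / √(n : ℝ)) ^ n)⁻¹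
      ≤ (√(Real.exp 1 / n)) ^ n * ((1.8 / √(n : ℝ)) ^ n)⁻¹ := by
        have := inv_sqrt_fact_le_e n hn1
        gcongr
    _ = (√(Real.exp 1) / 1.8) ^ n := by
        rw [← inv_pow, ← mul_pow]
        congr 1
        rw [Real.sqrt_div he0.le]
        field_simp
    _ ≤ (11 / 12 : ℝ) ^ n := by
        refine pow_le_pow_left₀ (by positivity) ?_ n
        rw [div_le_iff₀ (by norm_num)]
        have : √(Real.exp 1) ≤ 1.65 := by
          rw [Real.sqrt_le_iff]
          exact ⟨by norm_num, by linarith⟩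
        linarith

theorem part_D2 (χ : S) (hχ : d χ = 1) (k : ℕ) (hk : 4 * k ≤ n) :
    ∑ s ∈ Finset.univ.filter (fun s : ι → S => mult s χ + k = n), term d s ≤
      9 * (n : ℝ) ^ 2 * 0.65 ^ k * Real.exp (1.8 * C * (n : ℝ) ^ (3 / 4 : ℝ)) := by
  classical
  have hn0 : (0 : ℝ) < n := by exact_mod_cast hn1
  have hs0 : 0 < √(n : ℝ) := Real.sqrt_pos.2 hn0
  set t : ℝ := 1.8 / √(n : ℝ) with ht
  have ht0 : 0 < t := by positivity
  have h1 := GFL2 C hC hPL d (fun σ j => (σ = χ → j + k = n) ∧ (σ ≠ χ → j ≤ k)) t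
    ht0 n hn le_rfl hd hsum {χ} (by
      intro σ hσ j hj
      rw [Finset.mem_singleton] at hσ
      have := hj.2 hσ
      split_ifs <;> omega)
  rw [Finset.prod_singleton, ht, exp_t C n hn1, ← ht] at h1
  have hin : ∑ j ∈ range (n + 1), (if ((χ = χ → j + k = n) ∧ (χ ≠ χ → j ≤ k)) then
      GG j (d χ) * t ^ j else 0) = GG (n - k) 1 * t ^ (n - k) := by
    rw [Finset.sum_eq_single (n - k)]
    · rw [if_pos ⟨fun _ => by omega, fun h => absurd rfl h⟩, hχ]
    · intro j _ hj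
      rw [if_neg]
      rintro ⟨h, -⟩
      have := h rfl
      omega
    · intro h
      exfalso
      apply h
      rw [Finset.mem_range]
      omega
  rw [hin] at h1
  have hsub : Finset.univ.filter (fun s : ι → S => mult s χ + k = n) ⊆
      Finset.univ.filter (fun s : ι → S => ∀ σ, (σ = χ → mult s σ + k = n) ∧
        (σ ≠ χ → mult s σ ≤ k)) := by
    intro s hs
    rw [Finset.mem_filter] at hs ⊢
    refine ⟨Finset.mem_univ _, fun σ => ⟨fun h => ?_, fun h => ?_⟩⟩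
    · rw [h]; exact hs.2
    · exact mult_le_of s χ σ h k (by rw [hn]; exact hs.2)
  refine (Finset.sum_le_sum_of_subset_of_nonneg hsub fun s _ _ => term_nonneg d s).trans ?_
  refine h1.trans ?_
  refine mul_le_mul_of_nonneg_right ?_ (Real.exp_pos _).le
  have hGG := GG_one_le (n - k) n (by omega) (by omega)
  have hrat := fact_ratio n k (by omega)
  have hnk : (0 : ℝ) < (n : ℝ) - k := by
    have : (k : ℝ) < n := by exact_mod_cast (by omega : k < n)
    linarith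
  have hsk : 0 < √((n : ℝ) - k) := Real.sqrt_pos.2 hnk
  have htt : (t ^ n)⁻¹ * t ^ (n - k) = (t⁻¹) ^ k := by
    have : t ^ n = t ^ (n - k) * t ^ k := by
      rw [← pow_add]; congr 1; omega
    rw [this, inv_pow]
    field_simp
  calc (√(n.factorial : ℝ))⁻¹ * (t ^ n)⁻¹ * (GG (n - k) 1 * t ^ (n - k))
      = (√(n.factorial : ℝ))⁻¹ * GG (n - k) 1 * ((t ^ n)⁻¹ * t ^ (n - k)) := by ring
    _ ≤ (√(n.factorial : ℝ))⁻¹ * (√((n - k).factorial : ℝ) * (9 * (n : ℝ) ^ 2)) *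
        (t⁻¹) ^ k := by
        rw [htt]
        gcongr
    _ = (√((n - k).factorial : ℝ) * (√(n.factorial : ℝ))⁻¹) * (9 * (n : ℝ) ^ 2) *
        (t⁻¹) ^ k := by ring
    _ ≤ ((√((n : ℝ) - k))⁻¹) ^ k * (9 * (n : ℝ) ^ 2) * (t⁻¹) ^ k := by gcongr
    _ = 9 * (n : ℝ) ^ 2 * ((√((n : ℝ) - k))⁻¹ * t⁻¹) ^ k := by
        rw [mul_pow]; ring
    _ ≤ 9 * (n : ℝ) ^ 2 * 0.65 ^ k := by
        have h2 : (√((n : ℝ) - k))⁻¹ * t⁻¹ ≤ 0.65 := by
          rw [ht, inv_div, ← div_eq_inv_mul, div_div, div_le_iff₀ (by positivity)]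
          have h3 : √(n : ℝ) ≤ 1.17 * √((n : ℝ) - k) := by
            rw [Real.sqrt_le_iff]
            refine ⟨by positivity, ?_⟩
            rw [mul_pow, Real.sq_sqrt hnk.le]
            have : 4 * (k : ℝ) ≤ n := by exact_mod_cast hk
            norm_num
            linarith
          linarith
        gcongr

theorem part_Bad (χ χ' : S) (hne : χ' ≠ χ) (hχ : d χ = 1) (hχ' : d χ' = 1) (k : ℕ)
    (hk1 : 1 ≤ k) (hk : 4 * k ≤ n) :
    ∑ s ∈ Finset.univ.filter (fun s : ι → S => mult s χ + k = n ∧ 15 * k < 16 * mult s χ'),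
      term d s ≤
      81 * (n : ℝ) ^ 4 * (n + 1) * Real.exp C *
        (√(k : ℝ) * (n : ℝ) ^ (5 / 64 : ℝ) / √((n : ℝ) - k)) ^ k := by
  classical
  have hn0 : (0 : ℝ) < n := by exact_mod_cast hn1
  have hn1' : (1 : ℝ) ≤ n := by exact_mod_cast hn1
  have hk0 : (0 : ℝ) < k := by exact_mod_cast hk1
  have hk1' : (1 : ℝ) ≤ k := by exact_mod_cast hk1
  have hs0 : 0 < √(n : ℝ) := Real.sqrt_pos.2 hn0
  set u : ℝ := (n : ℝ) ^ (5 / 64 : ℝ) with hu
  have hu0 : 0 < u := by positivity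
  have hu1 : 1 ≤ u := Real.one_le_rpow hn1' (by norm_num)
  have hu16 : u ^ 16 = (n : ℝ) ^ (5 / 4 : ℝ) := by
    rw [hu, ← Real.rpow_natCast, ← Real.rpow_mul hn0.le]
    norm_num
  set t : ℝ := (u ^ 16)⁻¹ with ht
  have ht0 : 0 < t := by positivity
  have htn : t ≤ 1.8 / √(n : ℝ) := by
    have h1 : √(n : ℝ) ≤ u ^ 16 := by
      rw [hu16, Real.sqrt_eq_rpow]
      exact Real.rpow_le_rpow_of_exponent_le hn1' (by norm_num)
    calc t ≤ (√(n : ℝ))⁻¹ := by rw [ht]; exact inv_anti₀ hs0 h1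
      _ ≤ 1.8 / √(n : ℝ) := by
        rw [inv_eq_one_div]
        gcongr
        norm_num
  have h1 := GFL2 C hC hPL d (fun σ j => (σ = χ → j + k = n) ∧ (σ ≠ χ → j ≤ k) ∧
      (σ = χ' → 15 * k < 16 * j)) t
    ht0 n hn htn hd hsum {χ, χ'} (by
      intro σ hσ j hj
      rw [Finset.mem_insert, Finset.mem_singleton] at hσ
      push Not at hσ
      have := hj.2.1 hσ.1
      split_ifs <;> omega)
  rw [Finset.prod_pair hne.symm] at h1
  have hexp : C * t * (n : ℝ) ^ (5 / 4 : ℝ) = C := by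
    rw [← hu16, ht]
    field_simp
  rw [hexp] at h1
  have hin : ∑ j ∈ range (n + 1), (if ((χ = χ → j + k = n) ∧ (χ ≠ χ → j ≤ k) ∧
      (χ = χ' → 15 * k < 16 * j)) then
      GG j (d χ) * t ^ j else 0) = GG (n - k) 1 * t ^ (n - k) := by
    rw [Finset.sum_eq_single (n - k)]
    · rw [if_pos ⟨fun _ => by omega, fun h => absurd rfl h, fun h => absurd h.symm hne⟩, hχ]
    · intro j _ hj
      rw [if_neg]
      rintro ⟨h, -⟩
      have := h rfl
      omega
    · intro h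
      exfalso
      apply h
      rw [Finset.mem_range]
      omega
  have hin2 : ∑ j ∈ range (n + 1), (if ((χ' = χ → j + k = n) ∧ (χ' ≠ χ → j ≤ k) ∧
      (χ' = χ' → 15 * k < 16 * j)) then
      GG j (d χ') * t ^ j else 0) ≤
      (n + 1) * ((√(k : ℝ)) ^ k * (9 * (n : ℝ) ^ 2) * (u ^ k * t ^ k)) := by
    have h2 : ∀ j ∈ range (n + 1), (if ((χ' = χ → j + k = n) ∧ (χ' ≠ χ → j ≤ k) ∧
      (χ' = χ' → 15 * k < 16 * j)) then
      GG j (d χ') * t ^ j else 0) ≤ (√(k : ℝ)) ^ k * (9 * (n : ℝ) ^ 2) * (u ^ k * t ^ k) := by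
      intro j _
      rw [hχ']
      split_ifs with h
      · have hjk := h.2.1 hne
        have hjk2 := h.2.2 rfl
        have hj1 : 1 ≤ j := by omega
        have h3 := GG_one_le j n hj1 (by omega)
        have h4 : √(j.factorial : ℝ) ≤ (√(k : ℝ)) ^ k := by
          calc √(j.factorial : ℝ) ≤ √(k.factorial : ℝ) := by
                apply Real.sqrt_le_sqrt
                exact_mod_cast Nat.factorial_le hjk
            _ ≤ (√(k : ℝ)) ^ k := sqrt_fact_le k
        have h5 : t ^ j ≤ u ^ k * t ^ k := by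
          have e1 : t ^ k = t ^ j * t ^ (k - j) := by
            rw [← pow_add]; congr 1; omega
          have e2 : u ^ (16 * (k - j)) ≤ u ^ k := pow_le_pow_right₀ hu1 (by omega)
          have e3 : t ^ (k - j) = (u ^ (16 * (k - j)))⁻¹ := by
            rw [ht, inv_pow, ← pow_mul]
          rw [e1, e3]
          have e4 : 0 < u ^ (16 * (k - j)) := by positivity
          have e5 : 0 ≤ t ^ j * (u ^ (16 * (k - j)))⁻¹ := by positivity
          calc t ^ j = (t ^ j * (u ^ (16 * (k - j)))⁻¹) * u ^ (16 * (k - j)) := by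
                field_simp
            _ ≤ (t ^ j * (u ^ (16 * (k - j)))⁻¹) * u ^ k := mul_le_mul_of_nonneg_left e2 e5
            _ = _ := by ring
        have h6 := GG_nonneg j 1
        have h7 : 0 ≤ t ^ j := by positivity
        have h8 : (0 : ℝ) ≤ 9 * (n : ℝ) ^ 2 := by positivity
        have h9 : 0 ≤ (√(k : ℝ)) ^ k * (9 * (n : ℝ) ^ 2) := by positivity
        calc GG j 1 * t ^ j ≤ ((√(k : ℝ)) ^ k * (9 * (n : ℝ) ^ 2)) * (u ^ k * t ^ k) :=
              mul_le_mul (h3.trans (mul_le_mul_of_nonneg_right h4 h8)) h5 h7 h9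
          _ = _ := rfl
      · positivity
    refine (Finset.sum_le_sum h2).trans ?_
    rw [Finset.sum_const, Finset.card_range, nsmul_eq_mul]
    push_cast
    exact le_rfl
  rw [hin] at h1
  have hsub : Finset.univ.filter (fun s : ι → S => mult s χ + k = n ∧ 15 * k < 16 * mult s χ') ⊆
      Finset.univ.filter (fun s : ι → S => ∀ σ, (σ = χ → mult s σ + k = n) ∧
      (σ ≠ χ → mult s σ ≤ k) ∧ (σ = χ' → 15 * k < 16 * mult s σ)) := by
    intro s hs
    rw [Finset.mem_filter] at hs ⊢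
    refine ⟨Finset.mem_univ _, fun σ => ⟨fun h => ?_, fun h => ?_, fun h => ?_⟩⟩
    · rw [h]; exact hs.2.1
    · exact mult_le_of s χ σ h k (by rw [hn]; exact hs.2.1)
    · rw [h]; exact hs.2.2
  refine (Finset.sum_le_sum_of_subset_of_nonneg hsub fun s _ _ => term_nonneg d s).trans ?_
  refine h1.trans ?_
  clear h1 hsub hin
  generalize hQ : ∑ j ∈ range (n + 1), (if ((χ' = χ → j + k = n) ∧ (χ' ≠ χ → j ≤ k) ∧
      (χ' = χ' → 15 * k < 16 * j)) then GG j (d χ') * t ^ j else 0) = Q at hin2 ⊢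
  clear hQ
  have hGG := GG_one_le (n - k) n (by omega) (by omega)
  have hGG0 := GG_nonneg (n - k) 1
  have hrat := fact_ratio n k (by omega)
  have hnk : (0 : ℝ) < (n : ℝ) - k := by
    have : (k : ℝ) < n := by exact_mod_cast (by omega : k < n)
    linarith
  have hsk : 0 < √((n : ℝ) - k) := Real.sqrt_pos.2 hnk
  have htt : (t ^ n)⁻¹ * t ^ (n - k) * t ^ k = 1 := by
    have : t ^ n = t ^ (n - k) * t ^ k := by
      rw [← pow_add]; congr 1; omega
    rw [this]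
    field_simp
  have hR : 0 ≤ (√(k : ℝ)) ^ k * (9 * (n : ℝ) ^ 2) * (u ^ k * t ^ k) := by positivity
  have hf : 0 ≤ (√(n.factorial : ℝ))⁻¹ := by positivity
  have htn0 : 0 ≤ (t ^ n)⁻¹ := by positivity
  have htnk : 0 ≤ t ^ (n - k) := by positivity
  have hsf : 0 ≤ √((n - k).factorial : ℝ) * (9 * (n : ℝ) ^ 2) := by positivity
  have hstep : GG (n - k) 1 * t ^ (n - k) * Q ≤
      (√((n - k).factorial : ℝ) * (9 * (n : ℝ) ^ 2)) * t ^ (n - k) *
        (((n : ℝ) + 1) * ((√(k : ℝ)) ^ k * (9 * (n : ℝ) ^ 2) * (u ^ k * t ^ k))) := by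
    calc GG (n - k) 1 * t ^ (n - k) * Q
        ≤ GG (n - k) 1 * t ^ (n - k) *
          (((n : ℝ) + 1) * ((√(k : ℝ)) ^ k * (9 * (n : ℝ) ^ 2) * (u ^ k * t ^ k))) :=
          mul_le_mul_of_nonneg_left hin2 (mul_nonneg hGG0 htnk)
      _ ≤ _ := by
          refine mul_le_mul_of_nonneg_right ?_ (by positivity)
          exact mul_le_mul_of_nonneg_right hGG htnk
  calc (√(n.factorial : ℝ))⁻¹ * (t ^ n)⁻¹ * (GG (n - k) 1 * t ^ (n - k) * Q) * Real.exp C
      ≤ (√(n.factorial : ℝ))⁻¹ * (t ^ n)⁻¹ *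
        ((√((n - k).factorial : ℝ) * (9 * (n : ℝ) ^ 2)) * t ^ (n - k) *
        (((n : ℝ) + 1) * ((√(k : ℝ)) ^ k * (9 * (n : ℝ) ^ 2) * (u ^ k * t ^ k)))) *
          Real.exp C := by
        refine mul_le_mul_of_nonneg_right ?_ (Real.exp_pos _).le
        exact mul_le_mul_of_nonneg_left hstep (mul_nonneg hf htn0)
    _ = (√((n - k).factorial : ℝ) * (√(n.factorial : ℝ))⁻¹) *
        (81 * (n : ℝ) ^ 4 * (n + 1) * Real.exp C * (√(k : ℝ) ^ k * u ^ k)) *
        ((t ^ n)⁻¹ * t ^ (n - k) * t ^ k) := by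
        generalize (√(n.factorial : ℝ))⁻¹ = x1
        generalize (t ^ n)⁻¹ = x2
        generalize √((n - k).factorial : ℝ) = x3
        generalize t ^ (n - k) = x4
        generalize √(k : ℝ) ^ k = x5
        generalize u ^ k = x6
        generalize t ^ k = x7
        generalize Real.exp C = x8
        ring
    _ ≤ ((√((n : ℝ) - k))⁻¹) ^ k *
        (81 * (n : ℝ) ^ 4 * (n + 1) * Real.exp C * (√(k : ℝ) ^ k * u ^ k)) * 1 := by
        rw [htt, mul_one, mul_one]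
        exact mul_le_mul_of_nonneg_right hrat (by positivity)
    _ = _ := by
        rw [div_eq_mul_inv, mul_pow, mul_pow]
        ring

end parts

end Pool.Agent.Lib.MP_281388_al
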