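import Mathlib
import Pool.Agent.Lib.MP_281388_al.YParts

set_option autoImplicit false

open scoped BigOperators
open Finset

namespace Pool.Agent.Lib.MP_281388_al

section good

variable {ι S : Type} [Fintype ι] [DecidableEq ι] [Fintype S] [DecidableEq S]

omit [DecidableEq ι] in
/-- the exceptional labels are few -/
theorem card_big (s : ι → S) (χ : S) (k n : ℕ) (hn : Fintype.card ι = n)
    (hs : mult s χ + k = n) (hk : 1 ≤ k) :
    (((Finset.univ : Finset S).erase χ).filter (fun σ => k < 100 * mult s σ)).card ≤ 100 := by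
  have h1 := sum_mult s
  have h2 : ∑ σ ∈ (Finset.univ : Finset S).erase χ, mult s σ = k := by
    have := Finset.add_sum_erase Finset.univ (fun σ => mult s σ) (Finset.mem_univ χ)
    omega
  set B := ((Finset.univ : Finset S).erase χ).filter (fun σ => k < 100 * mult s σ) with hB
  have h3 : B.card * k ≤ 100 * k := by
    calc B.card * k = ∑ σ ∈ B, k := by rw [Finset.sum_const, smul_eq_mul]
      _ ≤ ∑ σ ∈ B, 100 * mult s σ :=
        Finset.sum_le_sum fun σ hσ => (Finset.mem_filter.1 hσ).2.le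
      _ ≤ ∑ σ ∈ (Finset.univ : Finset S).erase χ, 100 * mult s σ :=
        Finset.sum_le_sum_of_subset (Finset.filter_subset _ _)
      _ = 100 * k := by rw [← Finset.mul_sum, h2]
  exact Nat.le_of_mul_le_mul_right h3 hk

omit [DecidableEq ι] in
theorem good_bbE (d : S → ℕ) (s : ι → S) (χ : S) (hχ : d χ = 1) (k n : ℕ)
    (hn : Fintype.card ι = n) (hd : ∀ σ, 1 ≤ d σ)
    (hs : mult s χ + k = n) (hk : 1 ≤ k) (hkn : k < n)
    (h16 : ∀ χ', χ' ≠ χ → d χ' = 1 → 16 * mult s χ' ≤ 15 * k)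
    (hg2 : ∀ σ m : ℕ, 1 ≤ m → m ≤ k → 2 ≤ σ → σ ^ 2 ≤ n →
      TT m (σ ^ 2) * (σ : ℝ) ^ (-(m : ℝ)) ≤ (15 / 16 * k / Real.exp 1) ^ m)
    (hg1 : ∀ m : ℕ, 1 ≤ m → 100 * m ≤ k → TT m 1 ≤ (15 / 16 * k / Real.exp 1) ^ m)
    (hdn : ∀ σ, d σ ^ 2 ≤ n) :
    bbE d s * (∏ i, (d (s i) : ℝ))⁻¹ ≤
      3 * n * (Real.exp 1 * (k + 1)) ^ 200 * ((15 / 16 * k / Real.exp 1) / ((n : ℝ) - k)) ^ k := by
  classical
  set θ : ℝ := 15 / 16 * k / Real.exp 1 with hθ
  have he := Real.exp_pos 1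
  have he1 := Real.exp_one_gt_d9
  have hk0 : (0 : ℝ) < k := by exact_mod_cast hk
  have hθ0 : 0 < θ := by positivity
  have hn0 : (0 : ℝ) < n := by exact_mod_cast (by omega : 0 < n)
  have hnk : 0 < (n : ℝ) - k := by
    have : (k : ℝ) < n := by exact_mod_cast hkn
    linarith
  set R : ℝ := (Real.exp 1 * (k + 1)) ^ 2 with hR
  have hR1 : 1 ≤ R := by
    have : 1 ≤ Real.exp 1 * ((k : ℝ) + 1) := by nlinarith
    rw [hR]
    exact one_le_pow₀ this
  have hsumE : ∑ σ ∈ (Finset.univ : Finset S).erase χ, mult s σ = k := by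
    have h1 := sum_mult s
    have := Finset.add_sum_erase Finset.univ (fun σ => mult s σ) (Finset.mem_univ χ)
    omega
  -- rewrite
  have hrw : bbE d s * (∏ i, (d (s i) : ℝ))⁻¹ =
      ((n.factorial : ℝ))⁻¹ * ∏ σ, (TT (mult s σ) (d σ ^ 2) * (d σ : ℝ) ^ (-(mult s σ : ℝ))) := by
    unfold bbE
    rw [hn, ← Finset.prod_inv_distrib, prod_fiber s (fun σ => ((d σ : ℝ))⁻¹), mul_assoc,
      ← Finset.prod_mul_distrib]
    congr 1
    refine Finset.prod_congr rfl fun σ _ => ?_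
    rw [Real.rpow_neg (by positivity), Real.rpow_natCast, inv_pow]
  rw [hrw, ← Finset.mul_prod_erase Finset.univ _ (Finset.mem_univ χ)]
  have hmχ : mult s χ = n - k := by omega
  have hX : TT (mult s χ) (d χ ^ 2) * (d χ : ℝ) ^ (-(mult s χ : ℝ)) =
      ((n - k).factorial : ℝ) * tau (n - k) := by
    rw [hχ, hmχ, one_pow, TT_one, Nat.cast_one, Real.one_rpow, mul_one, wt]
  rw [hX]
  have hfac : ∀ σ ∈ (Finset.univ : Finset S).erase χ,
      TT (mult s σ) (d σ ^ 2) * (d σ : ℝ) ^ (-(mult s σ : ℝ)) ≤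
        (if k < 100 * mult s σ then R else 1) * θ ^ (mult s σ) := by
    intro σ hσ
    have hne : σ ≠ χ := Finset.ne_of_mem_erase hσ
    have hmk : mult s σ ≤ k := mult_le_of s χ σ hne k (by rw [hn]; exact hs)
    have hone : ∀ x : ℝ, 0 ≤ x → x ≤ (if k < 100 * mult s σ then R else 1) * x := by
      intro x hx
      split_ifs
      · nlinarith
      · rw [one_mul]
    rcases Nat.eq_zero_or_pos (mult s σ) with h0 | h0
    · rw [h0, TT_zero, pow_zero, Nat.cast_zero, neg_zero, Real.rpow_zero]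
      have := hone 1 zero_le_one
      rw [h0] at this
      rw [mul_one]
      exact this
    · rcases Nat.lt_or_ge (d σ) 2 with h1 | h1
      · have hd1 : d σ = 1 := by have := hd σ; omega
        rw [hd1, one_pow, Nat.cast_one, Real.one_rpow, mul_one]
        by_cases h2 : k < 100 * mult s σ
        · rw [if_pos h2]
          exact good_d1 k (mult s σ) (h16 σ hne hd1)
        · rw [if_neg h2, one_mul]
          exact hg1 _ h0 (by omega)
      · refine (hg2 (d σ) (mult s σ) h0 hmk h1 (hdn σ)).trans ?_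
        exact hone _ (by positivity)
  have hprod : ∏ σ ∈ (Finset.univ : Finset S).erase χ,
      (TT (mult s σ) (d σ ^ 2) * (d σ : ℝ) ^ (-(mult s σ : ℝ))) ≤ R ^ 100 * θ ^ k := by
    calc ∏ σ ∈ (Finset.univ : Finset S).erase χ,
          (TT (mult s σ) (d σ ^ 2) * (d σ : ℝ) ^ (-(mult s σ : ℝ)))
        ≤ ∏ σ ∈ (Finset.univ : Finset S).erase χ,
          ((if k < 100 * mult s σ then R else 1) * θ ^ (mult s σ)) := by
          refine Finset.prod_le_prod (fun σ _ => ?_) hfac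
          exact mul_nonneg (TT_nonneg _ _) (by positivity)
      _ = R ^ (((Finset.univ : Finset S).erase χ).filter (fun σ => k < 100 * mult s σ)).card *
          θ ^ k := by
          rw [Finset.prod_mul_distrib, Finset.prod_ite, Finset.prod_const, Finset.prod_const_one,
            mul_one, Finset.prod_pow_eq_pow_sum, hsumE]
      _ ≤ R ^ 100 * θ ^ k := by
          refine mul_le_mul_of_nonneg_right ?_ (by positivity)
          exact pow_le_pow_right₀ hR1 (card_big s χ k n hn hs hk)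
  have hfr : ((n.factorial : ℝ))⁻¹ * ((n - k).factorial : ℝ) ≤ (((n : ℝ) - k)⁻¹) ^ k := by
    have h1 : ((n - k).factorial) * (n - k) ^ k ≤ n.factorial := by
      have h2 := Nat.factorial_mul_pow_le_factorial (m := n - k) (n := k)
      have h3 : n - k + k = n := by omega
      rw [h3] at h2
      refine le_trans ?_ h2
      gcongr
      omega
    have h4 : (((n - k).factorial : ℝ)) * ((n : ℝ) - k) ^ k ≤ (n.factorial : ℝ) := by
      have : ((n - k : ℕ) : ℝ) = (n : ℝ) - k := by rw [Nat.cast_sub hkn.le]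
      rw [← this]
      exact_mod_cast h1
    have hp : 0 < ((n : ℝ) - k) ^ k := by positivity
    rw [inv_pow, ← div_eq_inv_mul, div_le_iff₀ (by positivity), ← div_eq_inv_mul,
      le_div_iff₀ hp]
    exact h4
  have hτ : tau (n - k) ≤ 3 * n := by
    refine (tau_le3 (n - k) (by omega)).trans ?_
    have : ((n - k : ℕ) : ℝ) ≤ n := by exact_mod_cast Nat.sub_le n k
    linarith
  have hτ0 := tau_pos (n - k)
  have hR100 : R ^ 100 = (Real.exp 1 * (k + 1)) ^ 200 := by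
    rw [hR, ← pow_mul]
  have hP0 : 0 ≤ ∏ σ ∈ (Finset.univ : Finset S).erase χ,
      (TT (mult s σ) (d σ ^ 2) * (d σ : ℝ) ^ (-(mult s σ : ℝ))) :=
    Finset.prod_nonneg fun σ _ => mul_nonneg (TT_nonneg _ _) (by positivity)
  generalize ∏ σ ∈ (Finset.univ : Finset S).erase χ,
      (TT (mult s σ) (d σ ^ 2) * (d σ : ℝ) ^ (-(mult s σ : ℝ))) = Q at hprod hP0 ⊢
  calc ((n.factorial : ℝ))⁻¹ * (((n - k).factorial : ℝ) * tau (n - k) * Q)
      = (((n.factorial : ℝ))⁻¹ * ((n - k).factorial : ℝ)) * (tau (n - k) * Q) := by ring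
    _ ≤ ((((n : ℝ) - k)⁻¹) ^ k) * ((3 * n) * (R ^ 100 * θ ^ k)) := by
        refine mul_le_mul hfr ?_ (mul_nonneg hτ0.le hP0) (by positivity)
        exact mul_le_mul hτ hprod hP0 (by positivity)
    _ = _ := by
        rw [hR100, div_eq_mul_inv θ, mul_pow]
        ring

/-- the total over the good functions with given `χ`, `k`. -/
theorem part_Good (d : S → ℕ) (E : (ι → S) → ℝ) (w : ℝ) (χ : S) (hχ : d χ = 1) (k n : ℕ)
    (hn : Fintype.card ι = n) (hd : ∀ σ, 1 ≤ d σ) (hk : 1 ≤ k) (hkn : 100 * k ≤ n)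
    (hE0 : ∀ s, 0 ≤ E s) (hE : ∀ s, E s ≤ bbE d s)
    (hw : w ≤ √(k.factorial : ℝ) * (1.01 / n) ^ ((k : ℝ) / 2))
    (hsumE : ∑ s ∈ univ.filter (fun s : ι → S => mult s χ + k = n), E s ≤ (n.choose k : ℝ) * w)
    (hg2 : ∀ σ m : ℕ, 1 ≤ m → m ≤ k → 2 ≤ σ → σ ^ 2 ≤ n →
      TT m (σ ^ 2) * (σ : ℝ) ^ (-(m : ℝ)) ≤ (15 / 16 * k / Real.exp 1) ^ m)
    (hg1 : ∀ m : ℕ, 1 ≤ m → 100 * m ≤ k → TT m 1 ≤ (15 / 16 * k / Real.exp 1) ^ m)
    (hdn : ∀ σ, d σ ^ 2 ≤ n) :
    ∑ s ∈ univ.filter (fun s : ι → S => mult s χ + k = n ∧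
        ∀ χ', χ' ≠ χ → d χ' = 1 → 16 * mult s χ' ≤ 15 * k),
      (∏ i, (d (s i) : ℝ)) ^ (-(1 / 2) : ℝ) * (E s) ^ (3 / 2 : ℝ) ≤
      √(3 * n) * (Real.exp 1 * (k + 1)) ^ 100 * 0.98 ^ k := by
  classical
  set θ : ℝ := 15 / 16 * k / Real.exp 1 with hθ
  have he := Real.exp_pos 1
  have hk0 : (0 : ℝ) < k := by exact_mod_cast hk
  have hθ0 : 0 < θ := by positivity
  have hn0 : (0 : ℝ) < n := by exact_mod_cast (by omega : 0 < n)
  have hkn' : 100 * (k : ℝ) ≤ n := by exact_mod_cast hkn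
  have hnk : 0 < (n : ℝ) - k := by linarith
  set B : ℝ := 3 * n * (Real.exp 1 * (k + 1)) ^ 200 * (θ / ((n : ℝ) - k)) ^ k with hB
  have hB0 : 0 ≤ B := by positivity
  have hpt : ∀ s ∈ univ.filter (fun s : ι → S => mult s χ + k = n ∧
        ∀ χ', χ' ≠ χ → d χ' = 1 → 16 * mult s χ' ≤ 15 * k),
      (∏ i, (d (s i) : ℝ)) ^ (-(1 / 2) : ℝ) * (E s) ^ (3 / 2 : ℝ) ≤ √B * E s := by
    intro s hs
    rw [Finset.mem_filter] at hs
    have h1 := good_bbE d s χ hχ k n hn hd hs.2.1 hk (by omega) hs.2.2 hg2 hg1 hdn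
    rw [← hθ, ← hB] at h1
    have hP : 0 < ∏ i, (d (s i) : ℝ) :=
      Finset.prod_pos fun i _ => by exact_mod_cast hd (s i)
    have h2 : E s * (∏ i, (d (s i) : ℝ))⁻¹ ≤ B :=
      (mul_le_mul_of_nonneg_right (hE s) (by positivity)).trans h1
    have h3 : (∏ i, (d (s i) : ℝ)) ^ (-(1 / 2) : ℝ) * (E s) ^ (3 / 2 : ℝ) =
        √(E s * (∏ i, (d (s i) : ℝ))⁻¹) * E s := by
      have e1 : (E s) ^ (3 / 2 : ℝ) = √(E s) * E s := by
        rcases (hE0 s).lt_or_eq with h | h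
        · rw [Real.sqrt_eq_rpow]
          nth_rewrite 3 [← Real.rpow_one (E s)]
          rw [← Real.rpow_add h]
          norm_num
        · rw [← h]
          rw [Real.zero_rpow (by norm_num), mul_zero]
      rw [e1, Real.sqrt_mul (hE0 s), Real.sqrt_inv, Real.rpow_neg hP.le,
        ← Real.sqrt_eq_rpow]
      ring
    rw [h3]
    exact mul_le_mul_of_nonneg_right (Real.sqrt_le_sqrt h2) (hE0 s)
  refine (Finset.sum_le_sum hpt).trans ?_
  rw [← Finset.mul_sum]
  have hsub : univ.filter (fun s : ι → S => mult s χ + k = n ∧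
        ∀ χ', χ' ≠ χ → d χ' = 1 → 16 * mult s χ' ≤ 15 * k) ⊆
      univ.filter (fun s : ι → S => mult s χ + k = n) := by
    intro s hs
    rw [Finset.mem_filter] at hs ⊢
    exact ⟨hs.1, hs.2.1⟩
  have hsum1 : ∑ s ∈ univ.filter (fun s : ι → S => mult s χ + k = n ∧
        ∀ χ', χ' ≠ χ → d χ' = 1 → 16 * mult s χ' ≤ 15 * k), E s ≤
      (√(1.01 * n)) ^ k * (√(Real.exp 1 / k)) ^ k := by
    refine (Finset.sum_le_sum_of_subset_of_nonneg hsub fun s _ _ => hE0 s).trans ?_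
    refine hsumE.trans ?_
    have hch : (n.choose k : ℝ) ≤ (n : ℝ) ^ k / (k.factorial : ℝ) := Nat.choose_le_pow_div k n
    have hkf : (0 : ℝ) < (k.factorial : ℝ) := by positivity
    have h2 : (1.01 / (n : ℝ)) ^ ((k : ℝ) / 2) = (√(1.01 / n)) ^ k := by
      rw [Real.sqrt_eq_rpow, ← Real.rpow_natCast, ← Real.rpow_mul (by positivity)]
      congr 1
      ring
    rw [h2] at hw
    calc (n.choose k : ℝ) * w ≤ (n.choose k : ℝ) * (√(k.factorial : ℝ) * (√(1.01 / n)) ^ k) := by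
          exact mul_le_mul_of_nonneg_left hw (by positivity)
      _ ≤ ((n : ℝ) ^ k / (k.factorial : ℝ)) * (√(k.factorial : ℝ) * (√(1.01 / n)) ^ k) := by
          exact mul_le_mul_of_nonneg_right hch (by positivity)
      _ = ((n : ℝ) * √(1.01 / n)) ^ k * (√(k.factorial : ℝ))⁻¹ := by
          have e1 : (√(k.factorial : ℝ)) ^ 2 = (k.factorial : ℝ) := Real.sq_sqrt hkf.le
          have e2 : √(k.factorial : ℝ) ≠ 0 := by positivity
          rw [mul_pow]
          nth_rewrite 1 [← e1]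
          field_simp
      _ = (√(1.01 * n)) ^ k * (√(k.factorial : ℝ))⁻¹ := by
          congr 2
          rw [← Real.sqrt_sq hn0.le, ← Real.sqrt_mul (by positivity)]
          congr 1
          rw [Real.sqrt_sq hn0.le]
          field_simp
      _ ≤ (√(1.01 * n)) ^ k * (√(Real.exp 1 / k)) ^ k :=
          mul_le_mul_of_nonneg_left (inv_sqrt_fact_le_e k hk) (by positivity)
  have hsB : √B = √(3 * n) * (Real.exp 1 * (k + 1)) ^ 100 * (√(θ / ((n : ℝ) - k))) ^ k := by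
    rw [hB, Real.sqrt_mul (by positivity), Real.sqrt_mul (by positivity)]
    congr 1
    · congr 1
      have : (Real.exp 1 * ((k : ℝ) + 1)) ^ 200 = ((Real.exp 1 * (k + 1)) ^ 100) ^ 2 := by
        rw [← pow_mul]
      rw [this, Real.sqrt_sq (by positivity)]
    · have h1 : (θ / ((n : ℝ) - k)) ^ k = ((√(θ / ((n : ℝ) - k))) ^ k) ^ 2 := by
        rw [← pow_mul, mul_comm k 2, pow_mul, Real.sq_sqrt (by positivity)]
      rw [h1, Real.sqrt_sq (by positivity)]
  have hfin : √(θ / ((n : ℝ) - k)) * (√(1.01 * n) * √(Real.exp 1 / k)) ≤ 0.98 := by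
    rw [← Real.sqrt_mul (by positivity), ← Real.sqrt_mul (by positivity), Real.sqrt_le_iff]
    refine ⟨by norm_num, ?_⟩
    have e1 : θ / ((n : ℝ) - k) * (1.01 * n * (Real.exp 1 / k)) =
        (15 / 16 * 1.01 * n) / ((n : ℝ) - k) := by
      rw [hθ]
      field_simp
    rw [e1, div_le_iff₀ hnk]
    nlinarith
  calc √B * ∑ s ∈ univ.filter (fun s : ι → S => mult s χ + k = n ∧
        ∀ χ', χ' ≠ χ → d χ' = 1 → 16 * mult s χ' ≤ 15 * k), E s
      ≤ √B * ((√(1.01 * n)) ^ k * (√(Real.exp 1 / k)) ^ k) :=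
        mul_le_mul_of_nonneg_left hsum1 (Real.sqrt_nonneg _)
    _ = √(3 * n) * (Real.exp 1 * (k + 1)) ^ 100 *
        (√(θ / ((n : ℝ) - k)) * (√(1.01 * n) * √(Real.exp 1 / k))) ^ k := by
        rw [hsB, mul_pow, mul_pow]
        ring
    _ ≤ √(3 * n) * (Real.exp 1 * (k + 1)) ^ 100 * 0.98 ^ k := by
        refine mul_le_mul_of_nonneg_left ?_ (by positivity)
        exact pow_le_pow_left₀ (by positivity) hfin k

end good

end Pool.Agent.Lib.MP_281388_al
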