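import Mathlib

set_option autoImplicit false

open scoped BigOperators
open Finset Filter Topology

namespace Pool.Agent.Lib.MP_281388_al

/-- polynomial times stretched exponential -/
theorem lim_poly_exp (A B a β γ : ℝ) (p : ℕ) (ha : 0 < a) (hβγ : β < γ)
    (hγ : 0 < γ) :
    Tendsto (fun n : ℕ => A * ((n : ℝ) + 1) ^ p *
      Real.exp (B * (n : ℝ) ^ β - a * (n : ℝ) ^ γ)) atTop (𝓝 0) := by
  have hcast : Tendsto (fun n : ℕ => (n : ℝ)) atTop atTop := tendsto_natCast_atTop_atTop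
  have h1 : Tendsto (fun n : ℕ => (|A| * 2 ^ p) * (((n : ℝ) ^ γ) ^ ((p : ℝ) / γ) *
      Real.exp (-(a / 2) * (n : ℝ) ^ γ))) atTop (𝓝 0) := by
    have h2 := tendsto_rpow_mul_exp_neg_mul_atTop_nhds_zero ((p : ℝ) / γ) (a / 2) (by positivity)
    have h3 := (h2.comp ((tendsto_rpow_atTop hγ).comp hcast)).const_mul (|A| * 2 ^ p)
    rw [mul_zero] at h3
    exact h3
  have h4 : ∀ᶠ n : ℕ in atTop, B * (n : ℝ) ^ β ≤ (a / 2) * (n : ℝ) ^ γ := by
    have h5 : Tendsto (fun n : ℕ => (n : ℝ) ^ (γ - β)) atTop atTop :=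
      (tendsto_rpow_atTop (by linarith)).comp hcast
    filter_upwards [h5.eventually_ge_atTop (B / (a / 2)), eventually_gt_atTop 0] with n hn hn0
    have hn0' : (0 : ℝ) < n := by exact_mod_cast hn0
    have e1 : (n : ℝ) ^ γ = (n : ℝ) ^ (γ - β) * (n : ℝ) ^ β := by
      rw [← Real.rpow_add hn0']
      congr 1
      ring
    rw [e1]
    have e2 : B ≤ (a / 2) * (n : ℝ) ^ (γ - β) := by
      rw [div_le_iff₀ (by positivity)] at hn
      linarith
    have e3 : 0 ≤ (n : ℝ) ^ β := by positivity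
    nlinarith
  refine squeeze_zero_norm' ?_ h1
  filter_upwards [h4, eventually_ge_atTop 1] with n hn hn1
  have hn1' : (1 : ℝ) ≤ n := by exact_mod_cast hn1
  have hn0' : (0 : ℝ) < n := by linarith
  have e1 : ((n : ℝ) ^ γ) ^ ((p : ℝ) / γ) = (n : ℝ) ^ p := by
    rw [← Real.rpow_mul hn0'.le, mul_div_cancel₀ _ hγ.ne', Real.rpow_natCast]
  have e0 : ‖A * ((n : ℝ) + 1) ^ p * Real.exp (B * (n : ℝ) ^ β - a * (n : ℝ) ^ γ)‖ =
      |A| * ((n : ℝ) + 1) ^ p * Real.exp (B * (n : ℝ) ^ β - a * (n : ℝ) ^ γ) := by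
    have h5 : (0 : ℝ) ≤ ((n : ℝ) + 1) ^ p := by positivity
    rw [norm_mul, norm_mul, Real.norm_eq_abs, Real.norm_of_nonneg h5,
      Real.norm_of_nonneg (Real.exp_pos _).le]
  rw [e0, e1]
  have e2 : ((n : ℝ) + 1) ^ p ≤ 2 ^ p * (n : ℝ) ^ p := by
    rw [← mul_pow]
    exact pow_le_pow_left₀ (by positivity) (by linarith) p
  have e3 : Real.exp (B * (n : ℝ) ^ β - a * (n : ℝ) ^ γ) ≤
      Real.exp (-(a / 2) * (n : ℝ) ^ γ) := by
    apply Real.exp_le_exp.2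
    linarith
  calc |A| * ((n : ℝ) + 1) ^ p * Real.exp (B * (n : ℝ) ^ β - a * (n : ℝ) ^ γ)
      ≤ |A| * (2 ^ p * (n : ℝ) ^ p) * Real.exp (-(a / 2) * (n : ℝ) ^ γ) := by gcongr
    _ = _ := by ring

end Pool.Agent.Lib.MP_281388_al
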