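import Mathlib
import Pool.Agent.Lib.MP_281388_al.YGoodPart
import Pool.Agent.Lib.MP_281388_al.YLim

set_option autoImplicit false

open scoped BigOperators
open Finset Filter Topology

namespace Pool.Agent.Lib.MP_281388_al

theorem pow_le_exp_log (r x : ℝ) (hr0 : 0 < r) (hr1 : r < 1) (k : ℕ) (h : x ≤ k) :
    r ^ k ≤ Real.exp (-(-Real.log r * x)) := by
  have hl : Real.log r < 0 := Real.log_neg hr0 hr1
  rw [← Real.rpow_natCast, Real.rpow_def_of_pos hr0]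
  apply Real.exp_le_exp.2
  nlinarith

section yfin

variable {ι S : Type} [Fintype ι] [DecidableEq ι] [Fintype S] [DecidableEq S]

/-- the terms -/
noncomputable def tm (d : S → ℕ) (E : (ι → S) → ℝ) (s : ι → S) : ℝ :=
  (∏ i, (d (s i) : ℝ)) ^ (-(1 / 2) : ℝ) * (E s) ^ (3 / 2 : ℝ)

omit [DecidableEq ι] [Fintype S] [DecidableEq S] in
theorem tm_nonneg (d : S → ℕ) (E : (ι → S) → ℝ) (hE : ∀ s, 0 ≤ E s) (s : ι → S) :
    0 ≤ tm d E s := by
  unfold tm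
  have := hE s
  positivity

omit [DecidableEq ι] in
theorem tm_le_term (d : S → ℕ) (E : (ι → S) → ℝ) (hE : ∀ s, 0 ≤ E s)
    (hE' : ∀ s, E s ≤ bbE d s) (s : ι → S) : tm d E s ≤ term d s := by
  unfold tm term
  refine mul_le_mul_of_nonneg_left ?_ (by positivity)
  exact Real.rpow_le_rpow (hE s) (hE' s) (by norm_num)

/-- splitting into good and bad functions -/
theorem split_bad (d : S → ℕ) (E : (ι → S) → ℝ) (hE : ∀ s, 0 ≤ E s) (χ : S) (k n : ℕ) :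
    ∑ s ∈ univ.filter (fun s : ι → S => mult s χ + k = n), tm d E s ≤
      ∑ s ∈ univ.filter (fun s : ι → S => mult s χ + k = n ∧
        ∀ χ', χ' ≠ χ → d χ' = 1 → 16 * mult s χ' ≤ 15 * k), tm d E s +
      ∑ χ' ∈ univ.filter (fun χ' : S => χ' ≠ χ ∧ d χ' = 1),
        ∑ s ∈ univ.filter (fun s : ι → S => mult s χ + k = n ∧ 15 * k < 16 * mult s χ'),
          tm d E s := by
  classical
  simp only [Finset.sum_filter]
  have hcomm : ∑ χ' : S, (if χ' ≠ χ ∧ d χ' = 1 then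
      ∑ s : ι → S, (if mult s χ + k = n ∧ 15 * k < 16 * mult s χ' then tm d E s else 0) else 0) =
      ∑ s : ι → S, ∑ χ' : S, (if χ' ≠ χ ∧ d χ' = 1 then
      (if mult s χ + k = n ∧ 15 * k < 16 * mult s χ' then tm d E s else 0) else 0) := by
    rw [Finset.sum_comm]
    refine Finset.sum_congr rfl fun χ' _ => ?_
    split_ifs
    · rfl
    · simp
  rw [hcomm, ← Finset.sum_add_distrib]
  refine Finset.sum_le_sum fun s _ => ?_
  have h0 := tm_nonneg d E hE s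
  have hnn : ∀ χ' : S, 0 ≤ (if χ' ≠ χ ∧ d χ' = 1 then
      (if mult s χ + k = n ∧ 15 * k < 16 * mult s χ' then tm d E s else 0) else 0) := by
    intro χ'
    split_ifs <;> first | exact h0 | exact le_rfl
  by_cases h1 : mult s χ + k = n
  · rw [if_pos h1]
    by_cases h2 : ∀ χ', χ' ≠ χ → d χ' = 1 → 16 * mult s χ' ≤ 15 * k
    · rw [if_pos ⟨h1, h2⟩]
      have := Finset.sum_nonneg (fun χ' (_ : χ' ∈ (Finset.univ : Finset S)) => hnn χ')
      linarith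
    · rw [if_neg (fun h => h2 h.2), zero_add]
      push Not at h2
      obtain ⟨χ', h3, h4, h5⟩ := h2
      refine le_trans ?_ (Finset.single_le_sum (fun χ' _ => hnn χ') (Finset.mem_univ χ'))
      rw [if_pos ⟨h3, h4⟩, if_pos ⟨h1, h5⟩]
  · rw [if_neg h1]
    have := Finset.sum_nonneg (fun χ' (_ : χ' ∈ (Finset.univ : Finset S)) => hnn χ')
    have h6 : 0 ≤ (if (mult s χ + k = n ∧
        ∀ χ', χ' ≠ χ → d χ' = 1 → 16 * mult s χ' ≤ 15 * k) then tm d E s else 0) := by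
      split_ifs <;> first | exact h0 | exact le_rfl
    linarith

/-- covering of the minor functions -/
theorem split_minor (d : S → ℕ) (E : (ι → S) → ℝ) (hE : ∀ s, 0 ≤ E s) (n : ℕ) (y : ℝ)
    (hn : Fintype.card ι = n) :
    ∑ s ∈ univ.filter (fun s : ι → S => ∀ χ, d χ = 1 → y < (n : ℝ) - mult s χ), tm d E s ≤
      ∑ s ∈ univ.filter (fun s : ι → S => ∀ σ, d σ = 1 → 4 * mult s σ ≤ 3 * n), tm d E s +
      ∑ χ ∈ univ.filter (fun χ : S => d χ = 1),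
        ∑ k ∈ (range (n + 1)).filter (fun k : ℕ => y < k ∧ 4 * k ≤ n),
          ∑ s ∈ univ.filter (fun s : ι → S => mult s χ + k = n), tm d E s := by
  classical
  simp only [Finset.sum_filter]
  have hcomm : ∑ χ : S, (if d χ = 1 then
      ∑ k ∈ range (n + 1), (if (y < (k : ℝ) ∧ 4 * k ≤ n) then
        ∑ s : ι → S, (if mult s χ + k = n then tm d E s else 0) else 0) else 0) =
      ∑ s : ι → S, ∑ χ : S, (if d χ = 1 then
        ∑ k ∈ range (n + 1), (if (y < (k : ℝ) ∧ 4 * k ≤ n) then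
          (if mult s χ + k = n then tm d E s else 0) else 0) else 0) := by
    rw [Finset.sum_comm]
    refine Finset.sum_congr rfl fun χ _ => ?_
    split_ifs
    · rw [Finset.sum_comm]
      refine Finset.sum_congr rfl fun k _ => ?_
      split_ifs
      · rfl
      · simp
    · simp
  rw [hcomm, ← Finset.sum_add_distrib]
  refine Finset.sum_le_sum fun s _ => ?_
  have h0 := tm_nonneg d E hE s
  have hnn1 : ∀ (χ : S) (k : ℕ), 0 ≤ (if (y < (k : ℝ) ∧ 4 * k ≤ n) then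
          (if mult s χ + k = n then tm d E s else 0) else 0) := by
    intro χ k
    split_ifs <;> first | exact h0 | exact le_rfl
  have hnn : ∀ χ : S, 0 ≤ (if d χ = 1 then
        ∑ k ∈ range (n + 1), (if (y < (k : ℝ) ∧ 4 * k ≤ n) then
          (if mult s χ + k = n then tm d E s else 0) else 0) else 0) := by
    intro χ
    split_ifs
    · exact Finset.sum_nonneg fun k _ => hnn1 χ k
    · exact le_rfl
  have hs0 := Finset.sum_nonneg (fun χ (_ : χ ∈ (Finset.univ : Finset S)) => hnn χ)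
  by_cases h1 : ∀ χ, d χ = 1 → y < (n : ℝ) - mult s χ
  · rw [if_pos h1]
    by_cases h2 : ∀ σ, d σ = 1 → 4 * mult s σ ≤ 3 * n
    · rw [if_pos h2]
      linarith
    · rw [if_neg h2, zero_add]
      push Not at h2
      obtain ⟨χ, h3, h4⟩ := h2
      refine le_trans ?_ (Finset.single_le_sum (fun χ _ => hnn χ) (Finset.mem_univ χ))
      rw [if_pos h3]
      have hle : mult s χ ≤ n := by rw [← hn]; exact mult_le_card s χ
      have hmem : n - mult s χ ∈ range (n + 1) := by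
        rw [Finset.mem_range]; omega
      refine le_trans ?_ (Finset.single_le_sum (fun k _ => hnn1 χ k) hmem)
      have h5 := h1 χ h3
      rw [if_pos, if_pos]
      · omega
      · refine ⟨?_, by omega⟩
        rw [Nat.cast_sub hle]
        exact h5
  · rw [if_neg h1]
    have h6 : 0 ≤ (if (∀ σ, d σ = 1 → 4 * mult s σ ≤ 3 * n) then tm d E s else 0) := by
      split_ifs <;> first | exact h0 | exact le_rfl
    linarith

theorem inner_large (C : ℝ) (hC : 0 < C)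
    (hPL : ∀ n d : ℕ, 1 ≤ d → d ^ 2 ≤ n → ∀ t : ℝ, 0 < t →
    t ≤ 1.8 / √(n : ℝ) →
    1 + ∑ j ∈ Icc 1 (if d = 1 then 3 * n / 4 else n), GG j d * t ^ j ≤
      Real.exp (C * t * (d : ℝ) ^ (5 / 2 : ℝ)))
    (d : S → ℕ) (n : ℕ) (hn : Fintype.card ι = n) (hn1 : 1 ≤ n)
    (hd : ∀ σ, 1 ≤ d σ) (hsum : ∑ σ, d σ ^ 2 = n)
    (E : (ι → S) → ℝ) (hE : ∀ s, 0 ≤ E s)
    (hE' : ∀ s, E s ≤ bbE d s)
    (χ : S) (hχ : d χ = 1) (k : ℕ) (hk : 4 * k ≤ n) (hkn : (n : ℝ) ^ (4 / 5 : ℝ) ≤ k) :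
    ∑ s ∈ univ.filter (fun s : ι → S => mult s χ + k = n), tm d E s ≤
      9 * ((n : ℝ) + 1) ^ 2 *
        Real.exp (1.8 * C * (n : ℝ) ^ (3 / 4 : ℝ) - (-Real.log 0.65) * (n : ℝ) ^ (4 / 5 : ℝ)) := by
  have h1 := part_D2 (ι := ι) C hC hPL d n hn hn1 hd hsum χ hχ k hk
  have h2 : ∑ s ∈ univ.filter (fun s : ι → S => mult s χ + k = n), tm d E s ≤
      ∑ s ∈ univ.filter (fun s : ι → S => mult s χ + k = n), term d s :=
    Finset.sum_le_sum fun s _ => tm_le_term d E hE hE' s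
  refine h2.trans (h1.trans ?_)
  have h3 := pow_le_exp_log 0.65 ((n : ℝ) ^ (4 / 5 : ℝ)) (by norm_num) (by norm_num) k hkn
  have h4 : Real.exp (1.8 * C * (n : ℝ) ^ (3 / 4 : ℝ) - (-Real.log 0.65) * (n : ℝ) ^ (4 / 5 : ℝ)) =
      Real.exp (-(-Real.log 0.65 * (n : ℝ) ^ (4 / 5 : ℝ))) *
        Real.exp (1.8 * C * (n : ℝ) ^ (3 / 4 : ℝ)) := by
    rw [← Real.exp_add]
    congr 1
    ring
  rw [h4]
  have hn0 : (0 : ℝ) ≤ n := by positivity
  have h5 : 9 * (n : ℝ) ^ 2 ≤ 9 * ((n : ℝ) + 1) ^ 2 := by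
    gcongr
    linarith
  calc 9 * (n : ℝ) ^ 2 * 0.65 ^ k * Real.exp (1.8 * C * (n : ℝ) ^ (3 / 4 : ℝ))
      ≤ 9 * ((n : ℝ) + 1) ^ 2 * Real.exp (-(-Real.log 0.65 * (n : ℝ) ^ (4 / 5 : ℝ))) *
        Real.exp (1.8 * C * (n : ℝ) ^ (3 / 4 : ℝ)) := by gcongr
    _ = _ := by ring

theorem inner_small (C : ℝ) (hC : 0 < C)
    (hPL : ∀ n d : ℕ, 1 ≤ d → d ^ 2 ≤ n → ∀ t : ℝ, 0 < t →
    t ≤ 1.8 / √(n : ℝ) →
    1 + ∑ j ∈ Icc 1 (if d = 1 then 3 * n / 4 else n), GG j d * t ^ j ≤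
      Real.exp (C * t * (d : ℝ) ^ (5 / 2 : ℝ)))
    (C1 : ℝ) (hC1 : 0 < C1) (K0 : ℕ)
    (hg2 : ∀ n k d m : ℕ, K0 ≤ k → C1 * √(n : ℝ) ≤ k →
    1 ≤ m → m ≤ k → 2 ≤ d → d ^ 2 ≤ n →
    TT m (d ^ 2) * (d : ℝ) ^ (-(m : ℝ)) ≤ (15 / 16 * k / Real.exp 1) ^ m)
    (K1 : ℕ) (hg1 : ∀ k m : ℕ, K1 ≤ k → 1 ≤ m → 100 * m ≤ k →
    TT m 1 ≤ (15 / 16 * k / Real.exp 1) ^ m)
    (d : S → ℕ) (n : ℕ) (hn : Fintype.card ι = n) (hn1 : 1 ≤ n)
    (hd : ∀ σ, 1 ≤ d σ) (hsum : ∑ σ, d σ ^ 2 = n)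
    (E : (ι → S) → ℝ) (hE : ∀ s, 0 ≤ E s)
    (hE' : ∀ s, E s ≤ bbE d s)
    (χ : S) (hχ : d χ = 1) (k : ℕ) (hk1 : 1 ≤ k) (hkK : K0 ≤ k) (hkK1 : K1 ≤ k)
    (hk : 100 * k ≤ n) (hkC : C1 * √(n : ℝ) ≤ k)
    (hkn : (k : ℝ) ≤ (n : ℝ) ^ (4 / 5 : ℝ)) (w : ℝ)
    (hw : w ≤ √(k.factorial : ℝ) * (1.01 / n) ^ ((k : ℝ) / 2))
    (hsumE : ∑ s ∈ univ.filter (fun s : ι → S => mult s χ + k = n), E s ≤ (n.choose k : ℝ) * w)
    (hbad : 2 * ((n : ℝ) ^ (2 / 5 : ℝ) * (n : ℝ) ^ (5 / 64 : ℝ)) ≤ 0.99 * √(n : ℝ)) :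
    ∑ s ∈ univ.filter (fun s : ι → S => mult s χ + k = n), tm d E s ≤
      3 * Real.exp 1 ^ 100 * ((n : ℝ) + 1) ^ 101 *
        Real.exp (-((-Real.log 0.98) * (C1 * √(n : ℝ)))) +
      81 * Real.exp C * ((n : ℝ) + 1) ^ 6 *
        Real.exp (-((-Real.log 0.5) * (C1 * √(n : ℝ)))) := by
  classical
  have hn0 : (0 : ℝ) < n := by exact_mod_cast hn1
  have hk' : 100 * (k : ℝ) ≤ n := by exact_mod_cast hk
  have hle : ∀ σ, d σ ^ 2 ≤ n := by
    intro σ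
    rw [← hsum]
    exact Finset.single_le_sum (f := fun σ => d σ ^ 2) (fun _ _ => Nat.zero_le _)
      (Finset.mem_univ σ)
  refine (split_bad d E hE χ k n).trans (add_le_add ?_ ?_)
  · have h1 := part_Good d E w χ hχ k n hn hd hk1 hk hE hE' hw hsumE
      (fun σ m h1 h2 h3 h4 => hg2 n k σ m hkK hkC h1 h2 h3 h4)
      (fun m h1 h2 => hg1 k m hkK1 h1 h2) hle
    refine h1.trans ?_
    have h3 := pow_le_exp_log 0.98 (C1 * √(n : ℝ)) (by norm_num) (by norm_num) k hkC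
    have h4 : √(3 * (n : ℝ)) ≤ 3 * ((n : ℝ) + 1) := by
      rw [Real.sqrt_le_iff]
      exact ⟨by positivity, by nlinarith⟩
    have h5 : (Real.exp 1 * ((k : ℝ) + 1)) ^ 100 ≤ Real.exp 1 ^ 100 * ((n : ℝ) + 1) ^ 100 := by
      rw [← mul_pow]
      gcongr
      linarith
    calc √(3 * (n : ℝ)) * (Real.exp 1 * (k + 1)) ^ 100 * 0.98 ^ k
        ≤ (3 * ((n : ℝ) + 1)) * (Real.exp 1 ^ 100 * ((n : ℝ) + 1) ^ 100) *
          Real.exp (-(-Real.log 0.98 * (C1 * √(n : ℝ)))) := by gcongr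
      _ = _ := by ring
  · have hcard : ((univ.filter (fun χ' : S => χ' ≠ χ ∧ d χ' = 1)).card : ℝ) ≤ n := by
      have h1 : (univ.filter (fun χ' : S => χ' ≠ χ ∧ d χ' = 1)).card ≤ n := by
        calc (univ.filter (fun χ' : S => χ' ≠ χ ∧ d χ' = 1)).card ≤ (univ : Finset S).card :=
              Finset.card_filter_le _ _
          _ = ∑ σ : S, 1 := by rw [Finset.sum_const, smul_eq_mul, mul_one]
          _ ≤ ∑ σ, d σ ^ 2 := Finset.sum_le_sum fun σ _ => Nat.one_le_pow _ _ (hd σ)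
          _ = n := hsum
      exact_mod_cast h1
    have hpt : ∀ χ' ∈ univ.filter (fun χ' : S => χ' ≠ χ ∧ d χ' = 1),
        ∑ s ∈ univ.filter (fun s : ι → S => mult s χ + k = n ∧ 15 * k < 16 * mult s χ'),
          tm d E s ≤ 81 * (n : ℝ) ^ 4 * (n + 1) * Real.exp C *
            Real.exp (-((-Real.log 0.5) * (C1 * √(n : ℝ)))) := by
      intro χ' hχ'
      rw [Finset.mem_filter] at hχ'
      have h1 := part_Bad (ι := ι) C hC hPL d n hn hn1 hd hsum χ χ' hχ'.2.1 hχ hχ'.2.2 k hk1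
        (by omega)
      have h2 : ∑ s ∈ univ.filter (fun s : ι → S => mult s χ + k = n ∧ 15 * k < 16 * mult s χ'),
          tm d E s ≤ ∑ s ∈ univ.filter (fun s : ι → S => mult s χ + k = n ∧
            15 * k < 16 * mult s χ'), term d s :=
        Finset.sum_le_sum fun s _ => tm_le_term d E hE hE' s
      refine h2.trans (h1.trans ?_)
      have h3 := pow_le_exp_log 0.5 (C1 * √(n : ℝ)) (by norm_num) (by norm_num) k hkC
      have hnk : 0 < (n : ℝ) - k := by linarith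
      have h4 : √(k : ℝ) * (n : ℝ) ^ (5 / 64 : ℝ) / √((n : ℝ) - k) ≤ 0.5 := by
        have h5 : √(k : ℝ) ≤ (n : ℝ) ^ (2 / 5 : ℝ) := by
          calc √(k : ℝ) ≤ √((n : ℝ) ^ (4 / 5 : ℝ)) := Real.sqrt_le_sqrt hkn
            _ = (n : ℝ) ^ (2 / 5 : ℝ) := by
              rw [Real.sqrt_eq_rpow, ← Real.rpow_mul hn0.le]
              norm_num
        have h6 : 0.99 * √(n : ℝ) ≤ √((n : ℝ) - k) := by
          apply Real.le_sqrt_of_sq_le
          rw [mul_pow, Real.sq_sqrt hn0.le]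
          norm_num
          linarith
        rw [div_le_iff₀ (Real.sqrt_pos.2 hnk)]
        have h7 : √(k : ℝ) * (n : ℝ) ^ (5 / 64 : ℝ) ≤
            (n : ℝ) ^ (2 / 5 : ℝ) * (n : ℝ) ^ (5 / 64 : ℝ) := by gcongr
        linarith
      have h8 : (√(k : ℝ) * (n : ℝ) ^ (5 / 64 : ℝ) / √((n : ℝ) - k)) ^ k ≤ 0.5 ^ k :=
        pow_le_pow_left₀ (by positivity) h4 k
      exact mul_le_mul_of_nonneg_left (h8.trans h3) (by positivity)
    refine (Finset.sum_le_sum hpt).trans ?_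
    rw [Finset.sum_const, nsmul_eq_mul]
    have h9 : (n : ℝ) * (81 * (n : ℝ) ^ 4 * (n + 1)) ≤ 81 * ((n : ℝ) + 1) ^ 6 := by
      have h10 : (n : ℝ) ≤ n + 1 := by linarith
      calc (n : ℝ) * (81 * (n : ℝ) ^ 4 * (n + 1))
          ≤ ((n : ℝ) + 1) * (81 * ((n : ℝ) + 1) ^ 4 * (n + 1)) := by gcongr
        _ = _ := by ring
    calc ((univ.filter (fun χ' : S => χ' ≠ χ ∧ d χ' = 1)).card : ℝ) *
          (81 * (n : ℝ) ^ 4 * (n + 1) * Real.exp C *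
            Real.exp (-((-Real.log 0.5) * (C1 * √(n : ℝ)))))
        ≤ n * (81 * (n : ℝ) ^ 4 * (n + 1) * Real.exp C *
            Real.exp (-((-Real.log 0.5) * (C1 * √(n : ℝ))))) := by gcongr
      _ = (n * (81 * (n : ℝ) ^ 4 * (n + 1))) * (Real.exp C *
            Real.exp (-((-Real.log 0.5) * (C1 * √(n : ℝ))))) := by ring
      _ ≤ (81 * ((n : ℝ) + 1) ^ 6) * (Real.exp C *
            Real.exp (-((-Real.log 0.5) * (C1 * √(n : ℝ))))) := by gcongr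
      _ = _ := by ring

end yfin

theorem Y_final : ∃ C1 : ℝ, 0 < C1 ∧ ∀ ε : ℝ, 0 < ε → ∃ N0 : ℕ, ∀ n : ℕ, N0 ≤ n →
    ∀ (ι : Type) [Fintype ι] [DecidableEq ι] (S : Type) [Fintype S] [DecidableEq S] (d : S → ℕ)
      (E : (ι → S) → ℝ) (w : ℕ → ℝ),
    Fintype.card ι = n →
    (∀ σ, 1 ≤ d σ) → (∑ σ, d σ ^ 2 = n) →
    (∀ s, 0 ≤ E s) →
    (∀ s, E s ≤ ((n.factorial : ℝ))⁻¹ * ∏ σ, TT (mult s σ) (d σ ^ 2)) →
    (∀ k : ℕ, (k : ℝ) ≤ (n : ℝ) ^ (4 / 5 : ℝ) →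
      w k ≤ √(k.factorial : ℝ) * (1.01 / n) ^ ((k : ℝ) / 2)) →
    (∀ χ, d χ = 1 → ∀ k : ℕ, (k : ℝ) ≤ (n : ℝ) ^ (4 / 5 : ℝ) →
      ∑ s ∈ univ.filter (fun s : ι → S => mult s χ + k = n), E s ≤ (n.choose k : ℝ) * w k) →
    ∑ s ∈ univ.filter (fun s : ι → S => ∀ χ, d χ = 1 → C1 * √(n : ℝ) < (n : ℝ) - mult s χ),
      (∏ i, (d (s i) : ℝ)) ^ (-(1 / 2) : ℝ) * (E s) ^ (3 / 2 : ℝ)
      ≤ ε * (1 + (univ.filter (fun χ : S => d χ = 1)).card) := by
  obtain ⟨C, hC, hPL⟩ := PL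
  obtain ⟨C1, hC1, K0, hg2⟩ := good_d2
  obtain ⟨K1, hg1⟩ := good_d1_small
  refine ⟨C1, hC1, ?_⟩
  intro ε hε
  have hcast : Tendsto (fun n : ℕ => (n : ℝ)) atTop atTop := tendsto_natCast_atTop_atTop
  have hl1 : 0 < -Real.log (11 / 12 : ℝ) := neg_pos.2 (Real.log_neg (by norm_num) (by norm_num))
  have hl2 : 0 < -Real.log (0.65 : ℝ) := neg_pos.2 (Real.log_neg (by norm_num) (by norm_num))
  have hl3 : 0 < -Real.log (0.98 : ℝ) := neg_pos.2 (Real.log_neg (by norm_num) (by norm_num))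
  have hl4 : 0 < -Real.log (0.5 : ℝ) := neg_pos.2 (Real.log_neg (by norm_num) (by norm_num))
  have L1 := lim_poly_exp 1 (1.8 * C) (-Real.log (11 / 12 : ℝ)) (3 / 4) 1 0 hl1 (by norm_num)
    (by norm_num)
  have L2 := lim_poly_exp 9 (1.8 * C) (-Real.log 0.65) (3 / 4) (4 / 5) 3 hl2 (by norm_num)
    (by norm_num)
  have L3 := lim_poly_exp (3 * Real.exp 1 ^ 100) 0 (-Real.log 0.98 * C1) 0 (1 / 2) 102
    (by positivity) (by norm_num) (by norm_num)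
  have L4 := lim_poly_exp (81 * Real.exp C) 0 (-Real.log 0.5 * C1) 0 (1 / 2) 7
    (by positivity) (by norm_num) (by norm_num)
  have hε3 : 0 < ε / 3 := by positivity
  have e1 := L1.eventually (gt_mem_nhds hε)
  have e2 := L2.eventually (gt_mem_nhds hε3)
  have e3 := L3.eventually (gt_mem_nhds hε3)
  have e4 := L4.eventually (gt_mem_nhds hε3)
  have e5 : ∀ᶠ n : ℕ in atTop, (100 : ℝ) ≤ (n : ℝ) ^ (1 / 5 : ℝ) :=
    ((tendsto_rpow_atTop (by norm_num)).comp hcast).eventually_ge_atTop _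
  have e6 : ∀ᶠ n : ℕ in atTop, (3 : ℝ) ≤ (n : ℝ) ^ (7 / 320 : ℝ) :=
    ((tendsto_rpow_atTop (by norm_num)).comp hcast).eventually_ge_atTop _
  have e7 : ∀ᶠ n : ℕ in atTop, ((max K0 K1 + 1 : ℕ) : ℝ) / C1 ≤ (n : ℝ) ^ (1 / 2 : ℝ) :=
    ((tendsto_rpow_atTop (by norm_num)).comp hcast).eventually_ge_atTop _
  obtain ⟨N0, hN0⟩ := Filter.eventually_atTop.1
    ((((((e1.and e2).and e3).and e4).and e5).and e6).and e7)
  refine ⟨max N0 1, ?_⟩
  intro n hn ι _ _ S _ _ d E w hι hd hsum hE hE'' hw hsumE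
  obtain ⟨⟨⟨⟨⟨⟨e1, e2⟩, e3⟩, e4⟩, e5⟩, e6⟩, e7⟩ := hN0 n (le_trans (le_max_left _ _) hn)
  clear hN0
  have hn1 : 1 ≤ n := le_trans (le_max_right _ _) hn
  have hn0 : (0 : ℝ) < n := by exact_mod_cast hn1
  have hsq : (n : ℝ) ^ (1 / 2 : ℝ) = √(n : ℝ) := (Real.sqrt_eq_rpow _).symm
  rw [hsq] at e7 e3 e4
  rw [zero_mul, zero_sub] at e3 e4
  have hE' : ∀ s, E s ≤ bbE d s := by
    intro s
    unfold bbE
    rw [hι]
    exact hE'' s
  have hK : ((max K0 K1 + 1 : ℕ) : ℝ) ≤ C1 * √(n : ℝ) := by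
    rw [div_le_iff₀ hC1] at e7
    linarith
  have hbad : 2 * ((n : ℝ) ^ (2 / 5 : ℝ) * (n : ℝ) ^ (5 / 64 : ℝ)) ≤ 0.99 * √(n : ℝ) := by
    have h1 : √(n : ℝ) = (n : ℝ) ^ (7 / 320 : ℝ) *
        ((n : ℝ) ^ (2 / 5 : ℝ) * (n : ℝ) ^ (5 / 64 : ℝ)) := by
      rw [← hsq, ← Real.rpow_add hn0, ← Real.rpow_add hn0]
      norm_num
    have h2 : 0 < (n : ℝ) ^ (2 / 5 : ℝ) * (n : ℝ) ^ (5 / 64 : ℝ) := by positivity
    rw [h1]
    nlinarith
  have h100 : 100 * (n : ℝ) ^ (4 / 5 : ℝ) ≤ n := by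
    have h1 : (n : ℝ) = (n : ℝ) ^ (1 / 5 : ℝ) * (n : ℝ) ^ (4 / 5 : ℝ) := by
      rw [← Real.rpow_add hn0]
      norm_num
    have h2 : 0 < (n : ℝ) ^ (4 / 5 : ℝ) := by positivity
    nlinarith
  have hmain := split_minor d E hE n (C1 * √(n : ℝ)) hι
  unfold tm at hmain
  refine hmain.trans ?_
  rw [mul_add, mul_one]
  refine add_le_add ?_ ?_
  · -- D1
    have h1 := part_D1 (ι := ι) C hC hPL d n hι hn1 hd hsum
    have h2 : ∑ s ∈ Finset.univ.filter (fun s : ι → S => ∀ σ, d σ = 1 → 4 * mult s σ ≤ 3 * n),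
        (∏ i, (d (s i) : ℝ)) ^ (-(1 / 2) : ℝ) * (E s) ^ (3 / 2 : ℝ) ≤
        ∑ s ∈ Finset.univ.filter (fun s : ι → S => ∀ σ, d σ = 1 → 4 * mult s σ ≤ 3 * n),
          term d s :=
      Finset.sum_le_sum fun s _ => tm_le_term d E hE hE' s
    refine h2.trans (h1.trans ?_)
    have h3 := pow_le_exp_log (11 / 12) (n : ℝ) (by norm_num) (by norm_num) n le_rfl
    have h4 : (11 / 12 : ℝ) ^ n * Real.exp (1.8 * C * (n : ℝ) ^ (3 / 4 : ℝ)) ≤
        1 * ((n : ℝ) + 1) ^ 0 * Real.exp (1.8 * C * (n : ℝ) ^ (3 / 4 : ℝ) -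
          -Real.log (11 / 12) * (n : ℝ) ^ (1 : ℝ)) := by
      rw [pow_zero, mul_one, one_mul, Real.rpow_one]
      have h5 : Real.exp (1.8 * C * (n : ℝ) ^ (3 / 4 : ℝ) - -Real.log (11 / 12) * n) =
          Real.exp (-(-Real.log (11 / 12) * n)) * Real.exp (1.8 * C * (n : ℝ) ^ (3 / 4 : ℝ)) := by
        rw [← Real.exp_add]
        congr 1
        ring
      rw [h5]
      exact mul_le_mul_of_nonneg_right h3 (Real.exp_pos _).le
    exact h4.trans e1.le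
  · -- the rest
    set q2 : ℝ := 9 * ((n : ℝ) + 1) ^ 2 *
        Real.exp (1.8 * C * (n : ℝ) ^ (3 / 4 : ℝ) - (-Real.log 0.65) * (n : ℝ) ^ (4 / 5 : ℝ))
      with hq2
    set q3 : ℝ := 3 * Real.exp 1 ^ 100 * ((n : ℝ) + 1) ^ 101 *
        Real.exp (-((-Real.log 0.98) * (C1 * √(n : ℝ)))) with hq3
    set q4 : ℝ := 81 * Real.exp C * ((n : ℝ) + 1) ^ 6 *
        Real.exp (-((-Real.log 0.5) * (C1 * √(n : ℝ)))) with hq4
    have hq2' : 0 ≤ q2 := by positivity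
    have hq3' : 0 ≤ q3 := by positivity
    have hq4' : 0 ≤ q4 := by positivity
    have hinner : ∀ χ ∈ univ.filter (fun χ : S => d χ = 1),
        ∀ k ∈ (range (n + 1)).filter (fun k : ℕ => C1 * √(n : ℝ) < k ∧ 4 * k ≤ n),
          ∑ s ∈ univ.filter (fun s : ι → S => mult s χ + k = n),
            (∏ i, (d (s i) : ℝ)) ^ (-(1 / 2) : ℝ) * (E s) ^ (3 / 2 : ℝ) ≤ q2 + q3 + q4 := by
      intro χ hχ k hk
      rw [Finset.mem_filter] at hχ hk
      have hKk : max K0 K1 + 1 ≤ k := by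
        have : ((max K0 K1 + 1 : ℕ) : ℝ) ≤ k := hK.trans hk.2.1.le
        exact_mod_cast this
      rcases le_total ((n : ℝ) ^ (4 / 5 : ℝ)) (k : ℝ) with h | h
      · have h1 := inner_large C hC hPL d n hι hn1 hd hsum E hE hE' χ hχ.2 k hk.2.2 h
        unfold tm at h1
        linarith
      · have hk100 : 100 * k ≤ n := by
          have : 100 * (k : ℝ) ≤ n := by linarith
          exact_mod_cast this
        have h1 := inner_small C hC hPL C1 hC1 K0 hg2 K1 hg1 d n hι hn1 hd hsum E hE hE' χ hχ.2 k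
          (by omega) (le_trans (le_max_left _ _) (by omega : max K0 K1 ≤ k))
          (le_trans (le_max_right _ _) (by omega : max K0 K1 ≤ k)) hk100 hk.2.1.le h (w k)
          (hw k h) (hsumE χ hχ.2 k h) hbad
        unfold tm at h1
        linarith
    have hnN : 0 ≤ (((univ.filter (fun χ : S => d χ = 1)).card : ℕ) : ℝ) := by positivity
    have hcardk : ((((range (n + 1)).filter
        (fun k : ℕ => C1 * √(n : ℝ) < k ∧ 4 * k ≤ n)).card : ℕ) : ℝ) ≤ (n : ℝ) + 1 := by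
      have : ((range (n + 1)).filter
        (fun k : ℕ => C1 * √(n : ℝ) < k ∧ 4 * k ≤ n)).card ≤ n + 1 := by
        refine (Finset.card_filter_le _ _).trans ?_
        rw [Finset.card_range]
      exact_mod_cast this
    calc ∑ χ ∈ univ.filter (fun χ : S => d χ = 1),
        ∑ k ∈ (range (n + 1)).filter (fun k : ℕ => C1 * √(n : ℝ) < k ∧ 4 * k ≤ n),
          ∑ s ∈ univ.filter (fun s : ι → S => mult s χ + k = n),
            (∏ i, (d (s i) : ℝ)) ^ (-(1 / 2) : ℝ) * (E s) ^ (3 / 2 : ℝ)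
        ≤ ∑ χ ∈ univ.filter (fun χ : S => d χ = 1),
          ∑ k ∈ (range (n + 1)).filter (fun k : ℕ => C1 * √(n : ℝ) < k ∧ 4 * k ≤ n),
            (q2 + q3 + q4) :=
          Finset.sum_le_sum fun χ hχ => Finset.sum_le_sum fun k hk => hinner χ hχ k hk
      _ = ((univ.filter (fun χ : S => d χ = 1)).card : ℝ) *
          ((((range (n + 1)).filter
            (fun k : ℕ => C1 * √(n : ℝ) < k ∧ 4 * k ≤ n)).card : ℝ) * (q2 + q3 + q4)) := by
          rw [Finset.sum_const, Finset.sum_const, nsmul_eq_mul, nsmul_eq_mul]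
      _ ≤ ((univ.filter (fun χ : S => d χ = 1)).card : ℝ) *
          (((n : ℝ) + 1) * (q2 + q3 + q4)) := by gcongr
      _ ≤ ((univ.filter (fun χ : S => d χ = 1)).card : ℝ) * ε := by
          refine mul_le_mul_of_nonneg_left ?_ hnN
          have f2 : ((n : ℝ) + 1) * q2 = 9 * ((n : ℝ) + 1) ^ 3 *
              Real.exp (1.8 * C * (n : ℝ) ^ (3 / 4 : ℝ) -
                (-Real.log 0.65) * (n : ℝ) ^ (4 / 5 : ℝ)) := by
            rw [hq2]; ring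
          have f3 : ((n : ℝ) + 1) * q3 = 3 * Real.exp 1 ^ 100 * ((n : ℝ) + 1) ^ 102 *
              Real.exp (-(-Real.log 0.98 * C1 * √(n : ℝ))) := by
            rw [hq3, mul_assoc (-Real.log 0.98) C1]; ring
          have f4 : ((n : ℝ) + 1) * q4 = 81 * Real.exp C * ((n : ℝ) + 1) ^ 7 *
              Real.exp (-(-Real.log 0.5 * C1 * √(n : ℝ))) := by
            rw [hq4, mul_assoc (-Real.log 0.5) C1]; ring
          rw [mul_add, mul_add, f2, f3, f4]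
          linarith
      _ = _ := mul_comm _ _

end Pool.Agent.Lib.MP_281388_al
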