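import Mathlib
import Pool.Agent.Lib.MP_281388_al.GF
import Pool.Agent.Lib.MP_281388_al.JEnergy
import Pool.Agent.Lib.MP_281388_al.ZOrb

set_option autoImplicit false

open scoped BigOperators
open Finset

namespace Pool.Agent.Lib.MP_281388_al

/-- weights: factorial, but zero at one -/
noncomputable def w0 (j : ℕ) : ℝ := if j = 1 then 0 else (j.factorial : ℝ)

theorem w0_nonneg (j : ℕ) : 0 ≤ w0 j := by
  unfold w0
  split_ifs <;> positivity

section Rbound

variable {α β : Type} [Fintype α] [DecidableEq α] [Fintype β] [DecidableEq β]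

theorem sum_w0_le (t : ℝ) (ht : 0 < t) (ht2 : t ≤ 1 / 2) (m : ℕ) :
    ∑ j ∈ range (m + 1), w0 j * t ^ j / (j.factorial : ℝ) ≤ Real.exp (2 * t ^ 2) := by
  have h0 : ∀ j, w0 j * t ^ j / (j.factorial : ℝ) = if j = 1 then 0 else t ^ j := by
    intro j
    unfold w0
    split_ifs with h
    · simp
    · have : (j.factorial : ℝ) ≠ 0 := by positivity
      field_simp
  simp only [h0]
  have key : ∀ m : ℕ, (∑ j ∈ range (m + 1 + 1), (if j = 1 then 0 else t ^ j)) + 2 * t ^ (m + 2) ≤
      1 + 2 * t ^ 2 := by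
    intro m
    induction m with
    | zero => simp [Finset.sum_range_succ]
    | succ m ih =>
      rw [Finset.sum_range_succ, if_neg (by omega)]
      have h1 : 0 < t ^ (m + 2) := by positivity
      have h2 : t ^ (m + 1 + 2) = t ^ (m + 2) * t := by ring
      have h3 : t ^ (m + 1 + 1) = t ^ (m + 2) := by ring
      rw [h2, h3]
      nlinarith
  have h1 : ∑ j ∈ range (m + 1), (if j = 1 then 0 else t ^ j) ≤ 1 + 2 * t ^ 2 := by
    rcases m with _ | m
    · simp
      positivity
    · have h2 := key m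
      have h3 : 0 < t ^ (m + 2) := by positivity
      linarith
  have h2 := Real.add_one_le_exp (2 * t ^ 2)
  linarith

theorem sum_geo_le (t : ℝ) (ht : 0 < t) (ht2 : t ≤ 1 / 2) (m : ℕ) :
    ∑ j ∈ range (m + 1), (j.factorial : ℝ) * t ^ j / (j.factorial : ℝ) ≤ Real.exp (2 * t) := by
  have h0 : ∀ j : ℕ, (j.factorial : ℝ) * t ^ j / (j.factorial : ℝ) = t ^ j := by
    intro j
    have : (j.factorial : ℝ) ≠ 0 := by positivity
    field_simp
  simp only [h0]
  have key : ∀ m : ℕ, (∑ j ∈ range (m + 1), t ^ j) + 2 * t ^ (m + 1) ≤ 1 + 2 * t := by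
    intro m
    induction m with
    | zero => simp
    | succ m ih =>
      rw [Finset.sum_range_succ]
      have h1 : 0 < t ^ (m + 1) := by positivity
      have h2 : t ^ (m + 1 + 1) = t ^ (m + 1) * t := by ring
      rw [h2]
      nlinarith
  have h1 := key m
  have h2 := Real.add_one_le_exp (2 * t)
  have h3 : 0 < t ^ (m + 1) := by positivity
  linarith

theorem R_bound (t : ℝ) (ht : 0 < t) (ht2 : t ≤ 1 / 2) :
    ∑ κ : α → β, ∏ c, w0 (mult κ c) ≤
      ((Fintype.card α).factorial : ℝ) * (t ^ Fintype.card α)⁻¹ *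
        Real.exp (2 * t ^ 2 * Fintype.card β) := by
  refine (gf_bound (fun _ => w0) (fun _ j => w0_nonneg j) t ht).trans ?_
  refine mul_le_mul_of_nonneg_left ?_ (by positivity)
  calc ∏ _c : β, ∑ j ∈ range (Fintype.card α + 1), w0 j * t ^ j / (j.factorial : ℝ)
      ≤ ∏ _c : β, Real.exp (2 * t ^ 2) := by
        refine Finset.prod_le_prod (fun c _ => ?_) fun c _ => sum_w0_le t ht ht2 _
        exact Finset.sum_nonneg fun j _ => div_nonneg (mul_nonneg (w0_nonneg j) (by positivity))
          (by positivity)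
    _ = Real.exp (2 * t ^ 2 * Fintype.card β) := by
        rw [Finset.prod_const, Finset.card_univ, ← Real.exp_nat_mul]
        congr 1
        ring

theorem fact_le_sqrt_pow (m : ℕ) : √(m.factorial : ℝ) ≤ (√(m : ℝ)) ^ m := by
  have h1 : (√(m : ℝ)) ^ m = √((m : ℝ) ^ m) := by
    rw [Real.sqrt_eq_rpow, Real.sqrt_eq_rpow, ← Real.rpow_natCast, ← Real.rpow_mul (by positivity),
      ← Real.rpow_natCast, ← Real.rpow_mul (by positivity)]
    congr 1
    ring
  rw [h1]
  apply Real.sqrt_le_sqrt
  exact_mod_cast Nat.factorial_le_pow m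

theorem R_bound2 (M : ℝ) (hM : 1 ≤ M) (hm : (Fintype.card α : ℝ) ≤ M * Fintype.card β) :
    ∑ κ : α → β, ∏ c, w0 (mult κ c) ≤
      √((Fintype.card α).factorial : ℝ) * (4 * √(M * Fintype.card β)) ^ Fintype.card α := by
  set m := Fintype.card α with hmd
  set B := Fintype.card β with hBd
  rcases Nat.eq_zero_or_pos m with h0 | hpos
  · -- no elements: one function
    have : IsEmpty α := Fintype.card_eq_zero_iff.1 h0
    rw [h0]
    have h1 : ∀ κ : α → β, ∏ c, w0 (mult κ c) = 1 := by
      intro κ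
      refine Finset.prod_eq_one fun c _ => ?_
      have : mult κ c = 0 := by
        unfold mult
        rw [Finset.univ_eq_empty]
        rfl
      rw [this]
      simp [w0]
    rw [Finset.sum_congr rfl fun κ _ => h1 κ]
    simp
  · have hmR : (0 : ℝ) < m := by exact_mod_cast hpos
    have hMB : 0 < M * B := lt_of_lt_of_le hmR hm
    set t : ℝ := √((m : ℝ) / (4 * (M * B))) with htd
    have ht : 0 < t := Real.sqrt_pos.2 (by positivity)
    have htsq : t ^ 2 = (m : ℝ) / (4 * (M * B)) := Real.sq_sqrt (by positivity)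
    have ht2 : t ≤ 1 / 2 := by
      rw [htd]
      apply Real.sqrt_le_iff.2
      refine ⟨by norm_num, ?_⟩
      rw [div_le_iff₀ (by positivity)]
      nlinarith
    refine (R_bound t ht ht2).trans ?_
    rw [← hmd, ← hBd]
    have hB0 : (0 : ℝ) < B := by
      by_contra hcon
      push Not at hcon
      have : (0 : ℝ) ≤ B := by positivity
      have hB : (B : ℝ) = 0 := le_antisymm hcon this
      rw [hB, mul_zero] at hMB
      exact lt_irrefl _ hMB
    have e1 : Real.exp (2 * t ^ 2 * B) ≤ (2 : ℝ) ^ m := by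
      rw [htsq]
      have e2 : 2 * ((m : ℝ) / (4 * (M * B))) * B = (m : ℝ) * (1 / (2 * M)) := by
        field_simp
        ring
      rw [e2, Real.exp_nat_mul]
      refine pow_le_pow_left₀ (Real.exp_pos _).le ?_ m
      have e3 : 1 / (2 * M) ≤ 1 / 2 := by
        apply one_div_le_one_div_of_le (by norm_num)
        linarith
      calc Real.exp (1 / (2 * M)) ≤ Real.exp (1 / 2) := Real.exp_le_exp.2 e3
        _ ≤ 2 := by
          have h1 : Real.exp (1 / 2) ^ 2 ≤ 2 ^ 2 := by
            rw [← Real.exp_nat_mul]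
            have h2 : ((2 : ℕ) : ℝ) * (1 / 2) = 1 := by norm_num
            rw [h2]
            have := Real.exp_one_lt_d9
            linarith
          exact (pow_le_pow_iff_left₀ (Real.exp_pos _).le (by norm_num) two_ne_zero).1 h1
    have e4 : (t ^ m)⁻¹ = (2 * √(M * B)) ^ m / (√(m : ℝ)) ^ m := by
      rw [htd, Real.sqrt_div hmR.le, Real.sqrt_mul (by norm_num)]
      have e5 : √(4 : ℝ) = 2 := by
        rw [show (4 : ℝ) = 2 ^ 2 by norm_num]
        exact Real.sqrt_sq (by norm_num)
      rw [e5, div_pow, inv_div]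
    have hsm : 0 < (√(m : ℝ)) ^ m := by positivity
    calc (m.factorial : ℝ) * (t ^ m)⁻¹ * Real.exp (2 * t ^ 2 * B)
        ≤ (m.factorial : ℝ) * (t ^ m)⁻¹ * (2 : ℝ) ^ m := by
          refine mul_le_mul_of_nonneg_left e1 (by positivity)
      _ = √(m.factorial : ℝ) * (√(m.factorial : ℝ) / (√(m : ℝ)) ^ m) * (4 * √(M * B)) ^ m := by
          have e6 : (m.factorial : ℝ) = √(m.factorial : ℝ) * √(m.factorial : ℝ) :=
            (Real.mul_self_sqrt (by positivity)).symm
          rw [e4]
          nth_rewrite 1 [e6]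
          have e7 : (4 * √(M * B)) ^ m = (2 * √(M * B)) ^ m * 2 ^ m := by
            rw [← mul_pow]; congr 1; ring
          rw [e7]
          ring
      _ ≤ √(m.factorial : ℝ) * 1 * (4 * √(M * B)) ^ m := by
          have e8 : √(m.factorial : ℝ) / (√(m : ℝ)) ^ m ≤ 1 := by
            rw [div_le_one hsm]
            exact fact_le_sqrt_pow m
          gcongr
      _ = _ := by ring

/-- rising factorial bound -/
theorem P_bound (M : ℝ) (hM : 1 ≤ M) (hm : (Fintype.card α : ℝ) ≤ M * Fintype.card β) :
    ∑ κ : α → β, ∏ c, ((mult κ c).factorial : ℝ) ≤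
      (6 * (M * Fintype.card β)) ^ Fintype.card α := by
  set m := Fintype.card α with hmd
  set B := Fintype.card β with hBd
  rcases Nat.eq_zero_or_pos m with h0 | hpos
  · have : IsEmpty α := Fintype.card_eq_zero_iff.1 h0
    rw [h0]
    have h1 : ∀ κ : α → β, ∏ c, ((mult κ c).factorial : ℝ) = 1 := by
      intro κ
      refine Finset.prod_eq_one fun c _ => ?_
      have : mult κ c = 0 := by
        unfold mult
        rw [Finset.univ_eq_empty]
        rfl
      rw [this]
      simp
    rw [Finset.sum_congr rfl fun κ _ => h1 κ]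
    simp
  · have hmR : (0 : ℝ) < m := by exact_mod_cast hpos
    have hMB : 0 < M * B := lt_of_lt_of_le hmR hm
    have hB0 : (0 : ℝ) < B := by
      by_contra hcon
      push Not at hcon
      have : (0 : ℝ) ≤ B := by positivity
      have hB : (B : ℝ) = 0 := le_antisymm hcon this
      rw [hB, mul_zero] at hMB
      exact lt_irrefl _ hMB
    set t : ℝ := (m : ℝ) / (2 * (M * B)) with htd
    have ht : 0 < t := by positivity
    have ht2 : t ≤ 1 / 2 := by
      rw [htd, div_le_iff₀ (by positivity)]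
      linarith
    refine (gf_bound (ι := α) (β := β) (fun _ j => (j.factorial : ℝ)) (fun _ j => by positivity)
      t ht).trans ?_
    rw [← hmd]
    calc (m.factorial : ℝ) * (t ^ m)⁻¹ *
          ∏ _c : β, ∑ j ∈ range (m + 1), (j.factorial : ℝ) * t ^ j / (j.factorial : ℝ)
        ≤ (m.factorial : ℝ) * (t ^ m)⁻¹ * ∏ _c : β, Real.exp (2 * t) := by
          refine mul_le_mul_of_nonneg_left ?_ (by positivity)
          refine Finset.prod_le_prod (fun c _ => ?_) fun c _ => sum_geo_le t ht ht2 _
          exact Finset.sum_nonneg fun j _ => by positivity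
      _ = (m.factorial : ℝ) * (t ^ m)⁻¹ * Real.exp (2 * t * B) := by
          rw [Finset.prod_const, Finset.card_univ, ← hBd, ← Real.exp_nat_mul]
          congr 2
          ring
      _ ≤ (m : ℝ) ^ m * (t ^ m)⁻¹ * (3 : ℝ) ^ m := by
          have e1 : Real.exp (2 * t * B) ≤ (3 : ℝ) ^ m := by
            have e2 : 2 * t * B = (m : ℝ) * (1 / M) := by
              rw [htd]; field_simp
            rw [e2, Real.exp_nat_mul]
            refine pow_le_pow_left₀ (Real.exp_pos _).le ?_ m
            have e3 : 1 / M ≤ 1 := by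
              rw [div_le_one (by linarith)]
              exact hM
            calc Real.exp (1 / M) ≤ Real.exp 1 := Real.exp_le_exp.2 e3
              _ ≤ 3 := by
                have := Real.exp_one_lt_d9
                linarith
          have e4 : (m.factorial : ℝ) ≤ (m : ℝ) ^ m := by exact_mod_cast Nat.factorial_le_pow m
          gcongr
      _ = (6 * (M * B)) ^ m := by
          rw [htd, div_pow, inv_div]
          have e5 : (6 * (M * B)) ^ m = (2 * (M * B)) ^ m * 3 ^ m := by
            rw [← mul_pow]; congr 1; ring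
          rw [e5]
          have : (m : ℝ) ^ m ≠ 0 := by positivity
          field_simp

end Rbound

section counting

variable {k : ℕ} {β : Type} [Fintype β] [DecidableEq β]

/-- colour preserving derangements -/
theorem dcount (κ : Fin k → β) :
    (((Der k).filter (fun σ : Equiv.Perm (Fin k) => κ ∘ σ = κ)).card : ℝ) ≤ ∏ c, w0 (mult κ c) := by
  classical
  by_cases h1 : ∃ c, mult κ c = 1
  · obtain ⟨c, hc⟩ := h1
    have he : (Der k).filter (fun σ : Equiv.Perm (Fin k) => κ ∘ σ = κ) = ∅ := by
      rw [Finset.filter_eq_empty_iff]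
      intro σ hσ hκ
      unfold mult at hc
      rw [Finset.card_eq_one] at hc
      obtain ⟨i, hi⟩ := hc
      have hi1 : κ i = c := by
        have : i ∈ ({i} : Finset (Fin k)) := Finset.mem_singleton_self i
        rw [← hi, Finset.mem_filter] at this
        exact this.2
      have hi2 : κ (σ i) = c := by
        rw [← hi1]
        exact congrFun hκ i
      have hi3 : σ i ∈ ({i} : Finset (Fin k)) := by
        rw [← hi, Finset.mem_filter]
        exact ⟨Finset.mem_univ _, hi2⟩
      exact (Finset.mem_filter.1 hσ).2 i (Finset.mem_singleton.1 hi3)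
    rw [he]
    simp only [Finset.card_empty, Nat.cast_zero]
    exact Finset.prod_nonneg fun c _ => w0_nonneg _
  · push Not at h1
    have h2 : ∏ c, w0 (mult κ c) = ((∏ c, (mult κ c).factorial : ℕ) : ℝ) := by
      push_cast
      refine Finset.prod_congr rfl fun c _ => ?_
      rw [w0, if_neg (h1 c)]
    rw [h2]
    have h3 : Fintype.card {g : Equiv.Perm (Fin k) // κ ∘ g = κ} = ∏ c, (mult κ c).factorial := by
      rw [DomMulAct.stabilizer_card]
      refine Finset.prod_congr rfl fun p _ => ?_
      rw [Fintype.card_subtype]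
      rfl
    rw [← h3, Fintype.card_subtype]
    have h4 : (Der k).filter (fun σ : Equiv.Perm (Fin k) => κ ∘ σ = κ) ⊆
        Finset.univ.filter (fun σ : Equiv.Perm (Fin k) => κ ∘ σ = κ) :=
      Finset.filter_subset_filter _ (Finset.subset_univ _)
    exact_mod_cast Finset.card_le_card h4

/-- the first moment of the number of cycles -/
theorem sum_orb_le (hM : k ≤ Fintype.card β) :
    ∑ σ ∈ Der k, (Fintype.card β : ℝ) ^ orb σ ≤
      √(k.factorial : ℝ) * (4 * √(Fintype.card β : ℝ)) ^ k := by
  classical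
  have h1 : ∀ σ : Equiv.Perm (Fin k), (Fintype.card β : ℝ) ^ orb σ =
      ∑ κ : Fin k → β, if κ ∘ σ = κ then (1 : ℝ) else 0 := by
    intro σ
    have := card_inv (β := β) σ
    rw [Fintype.card_subtype] at this
    rw [← Finset.sum_filter, Finset.sum_const, nsmul_eq_mul, mul_one, this]
    push_cast
    rfl
  rw [Finset.sum_congr rfl fun σ _ => h1 σ, Finset.sum_comm]
  have h2 : ∀ κ : Fin k → β, ∑ σ ∈ Der k, (if κ ∘ σ = κ then (1 : ℝ) else 0) ≤
      ∏ c, w0 (mult κ c) := by
    intro κ
    rw [← Finset.sum_filter, Finset.sum_const, nsmul_eq_mul, mul_one]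
    exact dcount κ
  refine (Finset.sum_le_sum fun κ _ => h2 κ).trans ?_
  have h3 := R_bound2 (α := Fin k) (β := β) 1 le_rfl (by
    rw [Fintype.card_fin, one_mul]; exact_mod_cast hM)
  rw [Fintype.card_fin, one_mul] at h3
  exact h3

/-- factorial inequality -/
theorem fact_ineq (k r : ℕ) (hk : 1 ≤ k) : ∀ m, 2 * r ≤ m → m ≤ k →
    (m.factorial : ℝ) ≤ 4 ^ r * (r.factorial : ℝ) ^ 2 * (k : ℝ) ^ (m - 2 * r) := by
  intro m hm
  induction m, hm using Nat.le_induction with
  | base =>
    intro _
    rw [Nat.sub_self, pow_zero, mul_one]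
    have h1 : ((2 * r).choose r) ≤ 2 ^ (2 * r) := Nat.choose_le_two_pow _ _
    have h2 := Nat.choose_mul_factorial_mul_factorial (show r ≤ 2 * r by omega)
    have h3 : 2 * r - r = r := by omega
    rw [h3] at h2
    have h4 : (2 * r).factorial ≤ 2 ^ (2 * r) * r.factorial * r.factorial := by
      rw [← h2]
      gcongr
    have h5 : ((2 * r).factorial : ℝ) ≤ 2 ^ (2 * r) * r.factorial * r.factorial := by
      exact_mod_cast h4
    calc ((2 * r).factorial : ℝ) ≤ 2 ^ (2 * r) * r.factorial * r.factorial := h5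
      _ = 4 ^ r * (r.factorial : ℝ) ^ 2 := by
        rw [pow_mul]
        norm_num
        ring
  | succ m hm ih =>
    intro hmk
    have h1 := ih (by omega)
    have h2 : m + 1 - 2 * r = (m - 2 * r) + 1 := by omega
    rw [h2, pow_succ, Nat.factorial_succ]
    push_cast
    have h3 : ((m : ℝ) + 1) ≤ k := by exact_mod_cast hmk
    calc ((m : ℝ) + 1) * (m.factorial : ℝ)
        ≤ (k : ℝ) * (4 ^ r * (r.factorial : ℝ) ^ 2 * (k : ℝ) ^ (m - 2 * r)) := by gcongr
      _ = _ := by ring

theorem sqrt_fact_ineq (k r m : ℕ) (hk : 1 ≤ k) (hm : 2 * r ≤ m) (hmk : m ≤ k) :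
    √(m.factorial : ℝ) ≤ 2 ^ r * (r.factorial : ℝ) * (√(k : ℝ)) ^ (m - 2 * r) := by
  apply Real.sqrt_le_iff.2
  refine ⟨by positivity, ?_⟩
  refine (fact_ineq k r hk m hm hmk).trans_eq ?_
  have h1 : (√(k : ℝ)) ^ (m - 2 * r) * (√(k : ℝ)) ^ (m - 2 * r) = (k : ℝ) ^ (m - 2 * r) := by
    rw [← mul_pow, Real.mul_self_sqrt (by positivity)]
  have h2 : (4 : ℝ) ^ r = 2 ^ r * 2 ^ r := by
    rw [← mul_pow]; norm_num
  rw [← h1, h2]
  ring

/-- fibres of compositions -/
theorem mult_comp_ge {α Q β : Type} [Fintype α] [Fintype Q] [DecidableEq Q] [DecidableEq β]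
    (q : α → Q) (hq : ∀ x, 2 ≤ mult q x) (g : Q → β) (c : β) :
    2 * mult g c ≤ mult (g ∘ q) c := by
  classical
  have h1 : mult (g ∘ q) c = ∑ x ∈ Finset.univ.filter (fun x => g x = c), mult q x := by
    unfold mult
    rw [Finset.card_eq_sum_card_fiberwise (f := q)
      (t := Finset.univ.filter (fun x => g x = c))]
    · refine Finset.sum_congr rfl fun x hx => ?_
      congr 1
      ext a
      simp only [Finset.mem_filter, Finset.mem_univ, true_and, Function.comp_apply]
      constructor
      · rintro ⟨_, h⟩; exact h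
      · intro h
        refine ⟨?_, h⟩
        rw [h]
        exact (Finset.mem_filter.1 hx).2
    · intro a ha
      simpa using ha
  rw [h1]
  have h2 : ∑ x ∈ Finset.univ.filter (fun x => g x = c), 2 ≤
      ∑ x ∈ Finset.univ.filter (fun x => g x = c), mult q x :=
    Finset.sum_le_sum fun x _ => hq x
  rw [Finset.sum_const, smul_eq_mul] at h2
  unfold mult at h2 ⊢
  linarith

/-- classes of a setoid moved by a derangement have at least two elements -/
theorem two_le_mult (π : Equiv.Perm (Fin k)) (hπ : π ∈ Der k) (S : Setoid (Fin k))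
    (hS : Equiv.Perm.SameCycle.setoid π ≤ S) [DecidableEq (Quotient S)] (x : Quotient S) :
    2 ≤ mult (Quotient.mk S) x := by
  induction x using Quotient.inductionOn with
  | h a =>
    have h1 : π a ≠ a := (Finset.mem_filter.1 hπ).2 a
    have h2 : ({a, π a} : Finset (Fin k)) ⊆
        Finset.univ.filter (fun i => Quotient.mk S i = Quotient.mk S a) := by
      intro i hi
      rw [Finset.mem_insert, Finset.mem_singleton] at hi
      rw [Finset.mem_filter]
      refine ⟨Finset.mem_univ _, ?_⟩
      rcases hi with rfl | rfl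
      · rfl
      · apply Quotient.sound
        exact S.symm (hS ⟨1, by simp⟩)
    have h3 := Finset.card_le_card h2
    rw [Finset.card_pair h1.symm] at h3
    exact h3

/-- a derangement has at most `k/2` cycles -/
theorem two_orb_le (π : Equiv.Perm (Fin k)) (hπ : π ∈ Der k) : 2 * orb π ≤ k := by
  classical
  have : Fintype (Quotient (Equiv.Perm.SameCycle.setoid π)) := Fintype.ofFinite _
  have h1 := sum_mult (Quotient.mk (Equiv.Perm.SameCycle.setoid π))
  rw [Fintype.card_fin] at h1
  have h2 : ∑ _x : Quotient (Equiv.Perm.SameCycle.setoid π), 2 ≤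
      ∑ x, mult (Quotient.mk (Equiv.Perm.SameCycle.setoid π)) x :=
    Finset.sum_le_sum fun x _ => two_le_mult π hπ _ le_rfl x
  rw [h1, Finset.sum_const, smul_eq_mul, Finset.card_univ] at h2
  rw [orb, Nat.card_eq_fintype_card]
  linarith

/-- The main counting bound. -/
theorem N_bound (π : Equiv.Perm (Fin k)) (hπ : π ∈ Der k) (hk : 1 ≤ k) (M : ℝ) (hM : 1 ≤ M)
    (b : ℕ) (hb : (k : ℝ) ≤ M * b) :
    ∑ σ ∈ Der k, (b : ℝ) ^ (orb σ + orb2 π σ) ≤
      (4 * √(M * b)) ^ k * (12 * (M * b)) ^ orb π * (√(k : ℝ)) ^ (k - 2 * orb π) := by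
  classical
  -- expansion in colourings
  have h1 : ∀ σ : Equiv.Perm (Fin k), (b : ℝ) ^ (orb σ + orb2 π σ) =
      ∑ κ : Fin k → Fin b, ∑ κ' : Fin k → Fin b,
        if (κ ∘ π = κ) ∧ (κ ∘ σ = κ) ∧ (κ' ∘ σ = κ') then (1 : ℝ) else 0 := by
    intro σ
    have e1 := card_inv (β := Fin b) σ
    have e2 := card_inv2 (β := Fin b) π σ
    rw [Fintype.card_subtype, Fintype.card_fin] at e1 e2
    have e3 : ∀ κ κ' : Fin k → Fin b,
        (if (κ ∘ π = κ) ∧ (κ ∘ σ = κ) ∧ (κ' ∘ σ = κ') then (1 : ℝ) else 0) =
        (if (κ ∘ π = κ) ∧ (κ ∘ σ = κ) then (1 : ℝ) else 0) *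
          (if κ' ∘ σ = κ' then (1 : ℝ) else 0) := by
      intro κ κ'
      by_cases ha : κ ∘ π = κ <;> by_cases hb : κ ∘ σ = κ <;> by_cases hc : κ' ∘ σ = κ' <;>
        simp [ha, hb, hc]
    simp only [e3]
    rw [← Finset.sum_mul_sum, ← Finset.sum_filter, ← Finset.sum_filter, Finset.sum_const,
      Finset.sum_const, nsmul_eq_mul, nsmul_eq_mul, mul_one, mul_one, e1, e2]
    push_cast
    ring
  rw [Finset.sum_congr rfl fun σ _ => h1 σ, Finset.sum_comm]
  have h2 : ∀ κ : Fin k → Fin b, ∑ σ ∈ Der k, ∑ κ' : Fin k → Fin b,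
        (if (κ ∘ π = κ) ∧ (κ ∘ σ = κ) ∧ (κ' ∘ σ = κ') then (1 : ℝ) else 0) ≤
      if κ ∘ π = κ then (4 * √(M * b)) ^ k * ∏ c, √((mult κ c).factorial : ℝ) else 0 := by
    intro κ
    by_cases hκ : κ ∘ π = κ
    · rw [if_pos hκ, Finset.sum_comm]
      have e1 : ∀ κ' : Fin k → Fin b, ∑ σ ∈ Der k,
          (if (κ ∘ π = κ) ∧ (κ ∘ σ = κ) ∧ (κ' ∘ σ = κ') then (1 : ℝ) else 0) ≤
          ∏ p : (_ : Fin b) × Fin b, w0 (mult (fun i => (⟨κ i, κ' i⟩ : (_ : Fin b) × Fin b)) p) := by
        intro κ'
        rw [← Finset.sum_filter, Finset.sum_const, nsmul_eq_mul, mul_one]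
        refine le_trans ?_ (dcount (fun i => (⟨κ i, κ' i⟩ : (_ : Fin b) × Fin b)))
        apply le_of_eq
        congr 2
        ext σ
        simp only [Finset.mem_filter]
        refine and_congr_right fun _ => ?_
        constructor
        · rintro ⟨_, h, h'⟩
          funext i
          have a1 := congrFun h i
          have a2 := congrFun h' i
          simp only [Function.comp_apply] at a1 a2 ⊢
          rw [a1, a2]
        · intro h
          refine ⟨hκ, ?_, ?_⟩
          · funext i
            exact congrArg Sigma.fst (congrFun h i)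
          · funext i
            have a1 := congrFun h i
            simp only [Function.comp_apply] at a1
            exact eq_of_heq (Sigma.mk.inj a1).2
      refine (Finset.sum_le_sum fun κ' _ => e1 κ').trans ?_
      have e2 := sum_fiber_prod κ (fun _ : Fin b => Fin b) w0
      rw [e2]
      have e3 : ∀ c : Fin b, ∑ g : {i // κ i = c} → Fin b, ∏ q, w0 (mult g q) ≤
          √((mult κ c).factorial : ℝ) * (4 * √(M * b)) ^ mult κ c := by
        intro c
        have hc : Fintype.card {i // κ i = c} = mult κ c := by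
          rw [Fintype.card_subtype]; rfl
        have hle : (Fintype.card {i // κ i = c} : ℝ) ≤ M * Fintype.card (Fin b) := by
          rw [hc, Fintype.card_fin]
          have : mult κ c ≤ k := by
            have := Finset.card_le_univ (Finset.univ.filter (fun i => κ i = c))
            rwa [Fintype.card_fin] at this
          have h' : (mult κ c : ℝ) ≤ k := by exact_mod_cast this
          linarith
        have := R_bound2 (α := {i // κ i = c}) (β := Fin b) M hM hle
        rw [hc, Fintype.card_fin] at this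
        exact this
      calc ∏ c : Fin b, ∑ g : {i // κ i = c} → Fin b, ∏ q, w0 (mult g q)
          ≤ ∏ c : Fin b, (√((mult κ c).factorial : ℝ) * (4 * √(M * b)) ^ mult κ c) := by
            refine Finset.prod_le_prod (fun c _ => ?_) fun c _ => e3 c
            exact Finset.sum_nonneg fun g _ => Finset.prod_nonneg fun q _ => w0_nonneg _
        _ = (4 * √(M * b)) ^ k * ∏ c, √((mult κ c).factorial : ℝ) := by
            rw [Finset.prod_mul_distrib, Finset.prod_pow_eq_pow_sum, sum_mult, Fintype.card_fin]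
            ring
    · rw [if_neg hκ]
      apply le_of_eq
      refine Finset.sum_eq_zero fun σ _ => Finset.sum_eq_zero fun κ' _ => ?_
      rw [if_neg (fun h => hκ h.1)]
  refine (Finset.sum_le_sum fun κ _ => h2 κ).trans ?_
  -- pass to the quotient
  have : Fintype (Quotient (Equiv.Perm.SameCycle.setoid π)) := Fintype.ofFinite _
  set Q := Quotient (Equiv.Perm.SameCycle.setoid π) with hQ
  have hQcard : Fintype.card Q = orb π := by
    rw [orb, Nat.card_eq_fintype_card]
  let E : {x : Fin k → Fin b // x ∘ π = x} ≃ (Q → Fin b) :=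
    (Equiv.subtypeEquivRight fun x => comp_eq_iff π x).trans (kerEquiv _)
  have hE : ∀ g : Q → Fin b, ((E.symm g : {x : Fin k → Fin b // x ∘ π = x}) : Fin k → Fin b) =
      g ∘ Quotient.mk (Equiv.Perm.SameCycle.setoid π) := by
    intro g
    rfl
  rw [← Finset.sum_filter]
  have h3 : ∑ κ ∈ Finset.univ.filter (fun κ : Fin k → Fin b => κ ∘ π = κ),
      (4 * √(M * b)) ^ k * ∏ c, √((mult κ c).factorial : ℝ) =
      ∑ g : Q → Fin b, (4 * √(M * b)) ^ k *
        ∏ c, √((mult (g ∘ Quotient.mk (Equiv.Perm.SameCycle.setoid π)) c).factorial : ℝ) := by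
    rw [Finset.sum_subtype (Finset.univ.filter (fun κ : Fin k → Fin b => κ ∘ π = κ))
      (p := fun x => x ∘ π = x) (fun x => by simp)]
    rw [← Equiv.sum_comp E.symm]
    exact Finset.sum_congr rfl fun g _ => by rw [hE]
  rw [h3, ← Finset.mul_sum]
  have h4 : ∀ g : Q → Fin b,
      ∏ c, √((mult (g ∘ Quotient.mk (Equiv.Perm.SameCycle.setoid π)) c).factorial : ℝ) ≤
      2 ^ orb π * (√(k : ℝ)) ^ (k - 2 * orb π) * ∏ c, ((mult g c).factorial : ℝ) := by
    intro g
    have hge : ∀ c, 2 * mult g c ≤ mult (g ∘ Quotient.mk (Equiv.Perm.SameCycle.setoid π)) c :=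
      fun c => mult_comp_ge _ (two_le_mult π hπ _ le_rfl) g c
    have hle : ∀ c, mult (g ∘ Quotient.mk (Equiv.Perm.SameCycle.setoid π)) c ≤ k := by
      intro c
      have := Finset.card_le_univ (Finset.univ.filter
        (fun i => (g ∘ Quotient.mk (Equiv.Perm.SameCycle.setoid π)) i = c))
      rwa [Fintype.card_fin] at this
    calc ∏ c, √((mult (g ∘ Quotient.mk (Equiv.Perm.SameCycle.setoid π)) c).factorial : ℝ)
        ≤ ∏ c, (2 ^ mult g c * ((mult g c).factorial : ℝ) * (√(k : ℝ)) ^
          (mult (g ∘ Quotient.mk (Equiv.Perm.SameCycle.setoid π)) c - 2 * mult g c)) :=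
          Finset.prod_le_prod (fun c _ => Real.sqrt_nonneg _)
            fun c _ => sqrt_fact_ineq k _ _ hk (hge c) (hle c)
      _ = 2 ^ orb π * (√(k : ℝ)) ^ (k - 2 * orb π) * ∏ c, ((mult g c).factorial : ℝ) := by
          rw [Finset.prod_mul_distrib, Finset.prod_mul_distrib, Finset.prod_pow_eq_pow_sum,
            Finset.prod_pow_eq_pow_sum, sum_mult, hQcard]
          have e5 : ∑ c, (mult (g ∘ Quotient.mk (Equiv.Perm.SameCycle.setoid π)) c -
              2 * mult g c) = k - 2 * orb π := by
            have e6 := sum_mult (g ∘ Quotient.mk (Equiv.Perm.SameCycle.setoid π))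
            have e7 := sum_mult g
            rw [Fintype.card_fin] at e6
            rw [hQcard] at e7
            have e8 := Finset.sum_tsub_distrib (Finset.univ : Finset (Fin b))
              (f := fun c => mult (g ∘ Quotient.mk (Equiv.Perm.SameCycle.setoid π)) c)
              (g := fun c => 2 * mult g c) (fun c _ => hge c)
            rw [e8, e6, ← Finset.mul_sum, e7]
          rw [e5]
          ring
  have h5 := P_bound (α := Q) (β := Fin b) M hM (by
    rw [hQcard, Fintype.card_fin]
    have := two_orb_le π hπ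
    have h' : (orb π : ℝ) ≤ k := by
      exact_mod_cast (by omega : orb π ≤ k)
    linarith)
  rw [hQcard, Fintype.card_fin] at h5
  calc (4 * √(M * b)) ^ k * ∑ g : Q → Fin b,
        ∏ c, √((mult (g ∘ Quotient.mk (Equiv.Perm.SameCycle.setoid π)) c).factorial : ℝ)
      ≤ (4 * √(M * b)) ^ k * ∑ g : Q → Fin b,
        (2 ^ orb π * (√(k : ℝ)) ^ (k - 2 * orb π) * ∏ c, ((mult g c).factorial : ℝ)) := by
        refine mul_le_mul_of_nonneg_left (Finset.sum_le_sum fun g _ => h4 g) (by positivity)
    _ = (4 * √(M * b)) ^ k * (2 ^ orb π * (√(k : ℝ)) ^ (k - 2 * orb π)) *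
        ∑ g : Q → Fin b, ∏ c, ((mult g c).factorial : ℝ) := by
        rw [← Finset.mul_sum]; ring
    _ ≤ (4 * √(M * b)) ^ k * (2 ^ orb π * (√(k : ℝ)) ^ (k - 2 * orb π)) *
        (6 * (M * b)) ^ orb π := by
        refine mul_le_mul_of_nonneg_left h5 (by positivity)
    _ = _ := by
        have e9 : (12 * (M * (b : ℝ))) ^ orb π = 2 ^ orb π * (6 * (M * b)) ^ orb π := by
          rw [← mul_pow]; congr 1; ring
        rw [e9]
        ring

end counting

end Pool.Agent.Lib.MP_281388_al
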