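import Mathlib
import Pool.Agent.Lib.MP_281388_al.ZCount
import Pool.Agent.Lib.MP_281388_al.Levels

set_option autoImplicit false

open scoped BigOperators
open Finset

namespace Pool.Agent.Lib.MP_281388_al

variable {k : ℕ}

/-- `Spi` in terms of `√n` -/
theorem Spi_eq (n : ℕ) (hn : 1 ≤ n) (π : Equiv.Perm (Fin k)) :
    Spi n π = ((√(n : ℝ)) ^ (k + orb π))⁻¹ * ∑ σ ∈ Der k, (√(n : ℝ)) ^ (orb σ + orb2 π σ) := by
  have hn0 : (0 : ℝ) < n := by exact_mod_cast hn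
  unfold Spi
  rw [Finset.mul_sum]
  refine Finset.sum_congr rfl fun σ _ => ?_
  have h1 : ∀ j : ℕ, (√(n : ℝ)) ^ j = (n : ℝ) ^ ((j : ℝ) / 2) := by
    intro j
    rw [Real.sqrt_eq_rpow, ← Real.rpow_natCast, ← Real.rpow_mul hn0.le]
    congr 1
    ring
  rw [h1, h1, ← Real.rpow_neg hn0.le, ← Real.rpow_add hn0]
  congr 1
  push_cast
  ring

theorem Spi_nonneg (n : ℕ) (π : Equiv.Perm (Fin k)) : 0 ≤ Spi n π := by
  unfold Spi
  exact Finset.sum_nonneg fun σ _ => by positivity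

theorem Spi_sq_le (n : ℕ) (hn : 1 ≤ n) (π : Equiv.Perm (Fin k)) (hπ : π ∈ Der k) (hk : 1 ≤ k)
    (M : ℝ) (hM : 1 ≤ M) (hkn : (k : ℝ) ≤ M * √(n : ℝ)) :
    (Spi n π) ^ 2 ≤ (768 * M ^ 2 / √(n : ℝ)) ^ k * (k : ℝ) ^ (k - 2 * orb π) := by
  have hn0 : (0 : ℝ) < n := by exact_mod_cast hn
  have hn1 : (1 : ℝ) ≤ n := by exact_mod_cast hn
  set s := √(n : ℝ) with hs
  have hs0 : 0 < s := Real.sqrt_pos.2 hn0
  have hs1 : 1 ≤ s := by
    rw [hs, Real.one_le_sqrt]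
    exact hn1
  set b := ⌈s⌉₊ with hb
  have hb1 : s ≤ b := Nat.le_ceil s
  have hb2 : (b : ℝ) ≤ 2 * s := by
    have := Nat.ceil_lt_add_one hs0.le
    linarith
  have hM0 : 0 < M := by linarith
  have hkb : (k : ℝ) ≤ M * b := hkn.trans (by gcongr)
  have h2p := two_orb_le π hπ
  have h1 : Spi n π ≤ (s ^ (k + orb π))⁻¹ *
      ((4 * √(M * b)) ^ k * (12 * (M * b)) ^ orb π * (√(k : ℝ)) ^ (k - 2 * orb π)) := by
    rw [Spi_eq n hn π]
    refine mul_le_mul_of_nonneg_left ?_ (by positivity)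
    refine le_trans ?_ (N_bound π hπ hk M hM b hkb)
    refine Finset.sum_le_sum fun σ _ => ?_
    exact pow_le_pow_left₀ hs0.le hb1 _
  have h2 : (4 * √(M * b)) ^ k * (12 * (M * b)) ^ orb π * (√(k : ℝ)) ^ (k - 2 * orb π) ≤
      (4 * √(M * (2 * s))) ^ k * (12 * (M * (2 * s))) ^ orb π * (√(k : ℝ)) ^ (k - 2 * orb π) := by
    gcongr
  have h3 : Spi n π ≤ (s ^ (k + orb π))⁻¹ *
      ((4 * √(M * (2 * s))) ^ k * (12 * (M * (2 * s))) ^ orb π *
        (√(k : ℝ)) ^ (k - 2 * orb π)) :=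
    h1.trans (mul_le_mul_of_nonneg_left h2 (by positivity))
  have h4 : (Spi n π) ^ 2 ≤ ((s ^ (k + orb π))⁻¹ *
      ((4 * √(M * (2 * s))) ^ k * (12 * (M * (2 * s))) ^ orb π *
        (√(k : ℝ)) ^ (k - 2 * orb π))) ^ 2 :=
    pow_le_pow_left₀ (Spi_nonneg n π) h3 2
  refine h4.trans ?_
  have e1 : (√(M * (2 * s))) ^ 2 = M * (2 * s) := Real.sq_sqrt (by positivity)
  have e2 : (√(k : ℝ)) ^ 2 = k := Real.sq_sqrt (by positivity)
  have e3 : ((s ^ (k + orb π))⁻¹ *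
      ((4 * √(M * (2 * s))) ^ k * (12 * (M * (2 * s))) ^ orb π *
        (√(k : ℝ)) ^ (k - 2 * orb π))) ^ 2 =
      (32 * M / s) ^ k * (24 * M) ^ (2 * orb π) * (k : ℝ) ^ (k - 2 * orb π) := by
    have e4 : ∀ (x : ℝ) (j : ℕ), (x ^ j) ^ 2 = (x ^ 2) ^ j := fun x j => by
      rw [← pow_mul, ← pow_mul, mul_comm]
    rw [mul_pow, mul_pow, mul_pow, inv_pow, e4, e4 (4 * √(M * (2 * s))) k,
      e4 (12 * (M * (2 * s))) (orb π), e4 (√(k : ℝ)), e2, mul_pow 4, e1, pow_add]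
    rw [div_pow, mul_pow 32, pow_mul (24 * M) 2 (orb π)]
    have e5 : (12 * (M * (2 * s))) ^ 2 = (24 * M) ^ 2 * s ^ 2 := by ring
    have e6 : (4 : ℝ) ^ 2 * (M * (2 * s)) = 32 * M * s := by ring
    rw [e5, e6, mul_pow ((24 * M) ^ 2), mul_pow (32 * M), mul_pow 32]
    have hs' : s ^ k ≠ 0 := by positivity
    have hs'' : (s ^ 2) ^ orb π ≠ 0 := by positivity
    have e7 : (s ^ 2) ^ k = s ^ k * s ^ k := by
      rw [← mul_pow]; congr 1; ring
    rw [e7]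
    field_simp
  rw [e3]
  have e8 : (24 * M) ^ (2 * orb π) ≤ (24 * M) ^ k :=
    pow_le_pow_right₀ (by linarith) h2p
  calc (32 * M / s) ^ k * (24 * M) ^ (2 * orb π) * (k : ℝ) ^ (k - 2 * orb π)
      ≤ (32 * M / s) ^ k * (24 * M) ^ k * (k : ℝ) ^ (k - 2 * orb π) := by gcongr
    _ = _ := by
      rw [← mul_pow]
      congr 2
      field_simp
      ring

/-- prefactor -/
theorem prefactor (n : ℕ) (hk : k ≤ n) (hn : 1 ≤ n) (π : Equiv.Perm (Fin k)) :
    (n.choose k : ℝ) * ck n k * (n : ℝ) ^ ((orb π : ℝ) - k) =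
      (n : ℝ) ^ orb π / (k.factorial : ℝ) := by
  have hn0 : (0 : ℝ) < n := by exact_mod_cast hn
  have h1 : ((n.choose k : ℝ)) * (k.factorial : ℝ) = (n.descFactorial k : ℝ) := by
    rw [Nat.descFactorial_eq_factorial_mul_choose]
    push_cast
    ring
  have h2 : (n.descFactorial k : ℝ) ≠ 0 := by
    exact_mod_cast (Nat.descFactorial_pos.2 hk).ne'
  have h3 : (k.factorial : ℝ) ≠ 0 := by positivity
  unfold ck
  rw [Real.rpow_sub hn0, Real.rpow_natCast, Real.rpow_natCast, ← h1]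
  rw [← h1] at h2
  have h4 : (n.choose k : ℝ) ≠ 0 := left_ne_zero_of_mul h2
  have h5 : (n : ℝ) ^ k ≠ 0 := by positivity
  field_simp

/-- The `k`-th term. -/
noncomputable def tk (n k : ℕ) (w : ℝ) : ℝ :=
  (n.choose k : ℝ) * ck n k * ∑ π ∈ Der k,
        (n : ℝ) ^ ((orb π : ℝ) - k) * min w ((ck n k * Spi n π) ^ 2)

theorem tk_eq (n : ℕ) (hk : k ≤ n) (hn : 1 ≤ n) (w : ℝ) :
    tk n k w = ∑ π ∈ Der k, (n : ℝ) ^ orb π / (k.factorial : ℝ) *
      min w ((ck n k * Spi n π) ^ 2) := by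
  unfold tk
  rw [Finset.mul_sum]
  refine Finset.sum_congr rfl fun π _ => ?_
  rw [← mul_assoc, prefactor n hk hn]

theorem ck_le_exp (n k : ℕ) (h : 2 * k ≤ n) (hn : 1 ≤ n) :
    ck n k ≤ Real.exp (2 * (k : ℝ) ^ 2 / n) := by
  have hn0 : (0 : ℝ) < n := by exact_mod_cast hn
  induction k with
  | zero => simp [ck]
  | succ k ih =>
    have h1 := ih (by omega)
    have h2 := ck_succ (show k < n by omega)
    have h3 : (0 : ℝ) < (n : ℝ) - k := by
      have : ((k + 1 : ℕ) : ℝ) ≤ n := by exact_mod_cast (by omega : k + 1 ≤ n)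
      push_cast at this
      linarith
    have h4 : ck n (k + 1) = ck n k * (n / ((n : ℝ) - k)) := by
      field_simp
      linarith
    rw [h4]
    have hck : 0 ≤ ck n k := (ck_pos (by omega) (by omega)).le
    have h5 : (n : ℝ) / ((n : ℝ) - k) ≤ Real.exp (2 * k / n) := by
      have h6 : (n : ℝ) / ((n : ℝ) - k) ≤ 1 + 2 * k / n := by
        rw [div_le_iff₀ h3]
        have h7 : 2 * (k : ℝ) ≤ n := by
          have : ((2 * (k + 1) : ℕ) : ℝ) ≤ n := by exact_mod_cast h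
          push_cast at this
          linarith
        have h8 : (1 + 2 * (k : ℝ) / n) * (n - k) = n + k - 2 * k * (k / n) := by
          field_simp
          ring
        rw [h8]
        have h9 : (k : ℝ) / n ≤ 1 / 2 := by
          rw [div_le_div_iff₀ hn0 (by norm_num)]
          linarith
        have h10 : (0 : ℝ) ≤ k := by positivity
        nlinarith
      have h11 := Real.add_one_le_exp (2 * (k : ℝ) / n)
      linarith
    calc ck n k * (n / ((n : ℝ) - k))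
        ≤ Real.exp (2 * (k : ℝ) ^ 2 / n) * Real.exp (2 * k / n) := by
          gcongr
      _ = Real.exp (2 * (k : ℝ) ^ 2 / n + 2 * k / n) := (Real.exp_add _ _).symm
      _ ≤ Real.exp (2 * ((k + 1 : ℕ) : ℝ) ^ 2 / n) := by
          apply Real.exp_le_exp.2
          rw [← add_div]
          gcongr
          push_cast
          have : (0 : ℝ) ≤ k := by positivity
          nlinarith

theorem inv_sqrt_fact_le (k : ℕ) (hk : 1 ≤ k) :
    (√(k.factorial : ℝ))⁻¹ ≤ (2 / √(k : ℝ)) ^ k := by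
  have hk0 : (0 : ℝ) < k := by exact_mod_cast hk
  have h1 : ((k : ℝ) / 3) ^ k ≤ (k.factorial : ℝ) := by
    have h2 := Real.pow_div_factorial_le_exp (k : ℝ) hk0.le k
    have h3 : Real.exp (k : ℝ) ≤ 3 ^ k := by
      have : Real.exp (k : ℝ) = (Real.exp 1) ^ k := by
        rw [← Real.exp_nat_mul, mul_one]
      rw [this]
      refine pow_le_pow_left₀ (Real.exp_pos _).le ?_ k
      have := Real.exp_one_lt_d9
      linarith
    rw [div_le_iff₀ (by positivity)] at h2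
    rw [div_pow, div_le_iff₀ (by positivity)]
    calc (k : ℝ) ^ k ≤ Real.exp k * (k.factorial : ℝ) := h2
      _ ≤ 3 ^ k * (k.factorial : ℝ) := by gcongr
      _ = _ := by ring
  have h4 : (√(k : ℝ) / 2) ^ k ≤ √(k.factorial : ℝ) := by
    apply Real.le_sqrt_of_sq_le
    refine le_trans ?_ h1
    rw [← pow_mul, mul_comm k 2, pow_mul]
    refine pow_le_pow_left₀ (by positivity) ?_ k
    rw [div_pow, Real.sq_sqrt hk0.le]
    linarith
  rw [show (2 / √(k : ℝ)) ^ k = ((√(k : ℝ) / 2) ^ k)⁻¹ by rw [← inv_pow, inv_div]]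
  apply inv_anti₀ (by positivity) h4

/-- tail bound -/
theorem tail_bound (A C1 : ℝ) (hA : 0 < A) (hC1 : 0 < C1) :
    ∃ D : ℝ, 1 ≤ D ∧ ∃ N1 : ℕ, ∀ n : ℕ, N1 ≤ n → ∀ k : ℕ, 1 ≤ k → (k : ℝ) ≤ C1 * √(n : ℝ) →
      ∀ w : ℝ, 0 ≤ w → w ≤ √(k.factorial : ℝ) * (A / n) ^ ((k : ℝ) / 2) →
      tk n k w ≤ D * (D / (k : ℝ) ^ (1 / 8 : ℝ)) ^ k := by
  set M : ℝ := max C1 1 with hMd
  have hM1 : 1 ≤ M := le_max_right _ _
  have hMC : C1 ≤ M := le_max_left _ _
  set E : ℝ := Real.exp (2 * C1 ^ 2) with hEd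
  have hE1 : 1 ≤ E := Real.one_le_exp (by positivity)
  set D : ℝ := 6144 * M ^ 2 + 4 * √A * (C1 ^ 2) ^ (1 / 8 : ℝ) + (E ^ 2 + 1) with hDd
  have hC8 : 0 ≤ (C1 ^ 2) ^ (1 / 8 : ℝ) := by positivity
  have hD1 : 1 ≤ D := by
    rw [hDd]
    have : 0 ≤ 6144 * M ^ 2 := by positivity
    have : 0 ≤ 4 * √A * (C1 ^ 2) ^ (1 / 8 : ℝ) := by positivity
    have : 0 ≤ E ^ 2 := by positivity
    linarith
  refine ⟨D, hD1, ⌈4 * C1 ^ 2⌉₊ + 1, ?_⟩
  intro n hn k hk hkn w hw0 hw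
  have hn4 : 4 * C1 ^ 2 ≤ (n : ℝ) := by
    have h1 : 4 * C1 ^ 2 ≤ ⌈4 * C1 ^ 2⌉₊ := Nat.le_ceil _
    have h2 : ((⌈4 * C1 ^ 2⌉₊ + 1 : ℕ) : ℝ) ≤ n := by exact_mod_cast hn
    push_cast at h2
    linarith
  have hn1 : 1 ≤ n := by omega
  have hn0 : (0 : ℝ) < n := by exact_mod_cast hn1
  have hk0 : (0 : ℝ) < k := by exact_mod_cast hk
  have hk1 : (1 : ℝ) ≤ k := by exact_mod_cast hk
  set s := √(n : ℝ) with hs
  have hs0 : 0 < s := Real.sqrt_pos.2 hn0
  have hss : s * s = n := Real.mul_self_sqrt hn0.le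
  have hsC : 2 * C1 ≤ s := by
    rw [hs]
    apply Real.le_sqrt_of_sq_le
    nlinarith
  have h2k : 2 * k ≤ n := by
    have : 2 * (k : ℝ) ≤ n := by nlinarith
    exact_mod_cast this
  have hkn' : k ≤ n := by omega
  have hck0 : 0 < ck n k := ck_pos hkn' hn1
  have hckE : ck n k ≤ E := by
    refine (ck_le_exp n k h2k hn1).trans ?_
    rw [hEd]
    apply Real.exp_le_exp.2
    rw [div_le_iff₀ hn0]
    have : (k : ℝ) ^ 2 ≤ C1 ^ 2 * n := by
      calc (k : ℝ) ^ 2 ≤ (C1 * s) ^ 2 := by gcongr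
        _ = C1 ^ 2 * n := by rw [mul_pow, ← hss]; ring
    nlinarith
  -- the quantities
  set f : ℝ := (k.factorial : ℝ) with hf
  have hf0 : 0 < f := by positivity
  set g : ℝ := √f with hg
  have hg0 : 0 < g := Real.sqrt_pos.2 hf0
  have hgg : g * g = f := Real.mul_self_sqrt hf0.le
  set q4 : ℝ := (k : ℝ) ^ (1 / 4 : ℝ) with hq4
  have hq40 : 0 < q4 := by positivity
  have hq41 : 1 ≤ q4 := Real.one_le_rpow hk1 (by norm_num)
  have hq4k : q4 ^ 4 = k := by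
    rw [hq4, ← Real.rpow_natCast, ← Real.rpow_mul hk0.le]
    norm_num
  set ρ : ℝ := ((n : ℝ) / k) ^ (1 / 8 : ℝ) with hρ
  have hnk1 : 1 ≤ (n : ℝ) / k := by
    rw [le_div_iff₀ hk0, one_mul]
    exact_mod_cast hkn'
  have hρ1 : 1 ≤ ρ := Real.one_le_rpow hnk1 (by norm_num)
  have hρ0 : 0 < ρ := by linarith
  have hρ8 : ρ ^ 8 = (n : ℝ) / k := by
    rw [hρ, ← Real.rpow_natCast, ← Real.rpow_mul (by positivity)]
    norm_num
  -- termwise bound
  have hterm : ∀ π ∈ Der k, (n : ℝ) ^ orb π / f * min w ((ck n k * Spi n π) ^ 2) ≤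
      (n : ℝ) ^ orb π * (f⁻¹ * (E ^ 2 * ((768 * M ^ 2 / s) ^ k * q4 ^ k))) +
      (k : ℝ) ^ orb π * (f⁻¹ * (ρ ^ (3 * k) * (g * (√(A / n)) ^ k))) := by
    intro π hπ
    have h2p := two_orb_le π hπ
    have hA0 : 0 ≤ (n : ℝ) ^ orb π * (f⁻¹ * (E ^ 2 * ((768 * M ^ 2 / s) ^ k * q4 ^ k))) := by
      positivity
    have hB0 : 0 ≤ (k : ℝ) ^ orb π * (f⁻¹ * (ρ ^ (3 * k) * (g * (√(A / n)) ^ k))) := by
      positivity
    by_cases hc : 4 * (k - 2 * orb π) ≤ k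
    · -- few excess
      have h1 : min w ((ck n k * Spi n π) ^ 2) ≤ E ^ 2 * ((768 * M ^ 2 / s) ^ k * q4 ^ k) := by
        refine (min_le_right _ _).trans ?_
        rw [mul_pow]
        have h2 := Spi_sq_le n hn1 π hπ hk M hM1 (hkn.trans (by gcongr))
        have h3 : (k : ℝ) ^ (k - 2 * orb π) ≤ q4 ^ k := by
          rw [← hq4k, ← pow_mul]
          exact pow_le_pow_right₀ hq41 hc
        calc ck n k ^ 2 * Spi n π ^ 2
            ≤ E ^ 2 * ((768 * M ^ 2 / s) ^ k * (k : ℝ) ^ (k - 2 * orb π)) := by gcongr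
          _ ≤ _ := by gcongr
      calc (n : ℝ) ^ orb π / f * min w ((ck n k * Spi n π) ^ 2)
          ≤ (n : ℝ) ^ orb π / f * (E ^ 2 * ((768 * M ^ 2 / s) ^ k * q4 ^ k)) := by gcongr
        _ = (n : ℝ) ^ orb π * (f⁻¹ * (E ^ 2 * ((768 * M ^ 2 / s) ^ k * q4 ^ k))) := by
            rw [div_eq_mul_inv]; ring
        _ ≤ _ := by linarith
    · -- large excess
      push Not at hc
      have h8 : 8 * orb π ≤ 3 * k := by omega
      have h1 : (n : ℝ) ^ orb π ≤ (k : ℝ) ^ orb π * ρ ^ (3 * k) := by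
        have e1 : (n : ℝ) ^ orb π = (k : ℝ) ^ orb π * ((n : ℝ) / k) ^ orb π := by
          rw [← mul_pow]
          congr 1
          field_simp
        rw [e1, ← hρ8, ← pow_mul]
        have : ρ ^ (8 * orb π) ≤ ρ ^ (3 * k) := pow_le_pow_right₀ hρ1 h8
        gcongr
      have h2 : min w ((ck n k * Spi n π) ^ 2) ≤ g * (√(A / n)) ^ k := by
        refine (min_le_left _ _).trans (hw.trans_eq ?_)
        rw [hg]
        congr 1
        rw [Real.sqrt_eq_rpow, ← Real.rpow_natCast, ← Real.rpow_mul (by positivity)]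
        congr 1
        ring
      have hmin0 : 0 ≤ min w ((ck n k * Spi n π) ^ 2) := le_min hw0 (by positivity)
      calc (n : ℝ) ^ orb π / f * min w ((ck n k * Spi n π) ^ 2)
          ≤ ((k : ℝ) ^ orb π * ρ ^ (3 * k)) / f * (g * (√(A / n)) ^ k) := by gcongr
        _ = (k : ℝ) ^ orb π * (f⁻¹ * (ρ ^ (3 * k) * (g * (√(A / n)) ^ k))) := by
            rw [div_eq_mul_inv]; ring
        _ ≤ _ := by linarith
  rw [tk_eq n hkn' hn1]
  refine (Finset.sum_le_sum hterm).trans ?_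
  rw [Finset.sum_add_distrib, ← Finset.sum_mul, ← Finset.sum_mul]
  have hS1 := sum_orb_le (k := k) (β := Fin n) (by rw [Fintype.card_fin]; exact hkn')
  have hS2 := sum_orb_le (k := k) (β := Fin k) (by rw [Fintype.card_fin])
  rw [Fintype.card_fin] at hS1 hS2
  have hp1 : (∑ π ∈ Der k, (n : ℝ) ^ orb π) *
      (f⁻¹ * (E ^ 2 * ((768 * M ^ 2 / s) ^ k * q4 ^ k))) ≤
      E ^ 2 * (6144 * M ^ 2 / q4) ^ k := by
    calc (∑ π ∈ Der k, (n : ℝ) ^ orb π) *
          (f⁻¹ * (E ^ 2 * ((768 * M ^ 2 / s) ^ k * q4 ^ k)))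
        ≤ (g * (4 * s) ^ k) * (f⁻¹ * (E ^ 2 * ((768 * M ^ 2 / s) ^ k * q4 ^ k))) := by
          gcongr
      _ = E ^ 2 * (g⁻¹ * (3072 * M ^ 2 * q4) ^ k) := by
          rw [← hgg, mul_inv]
          have e1 : (3072 * M ^ 2 * q4) ^ k = (4 * s) ^ k * ((768 * M ^ 2 / s) ^ k * q4 ^ k) := by
            rw [← mul_pow, ← mul_pow]
            congr 1
            field_simp
            ring
          rw [e1]
          field_simp
      _ ≤ E ^ 2 * ((2 / √(k : ℝ)) ^ k * (3072 * M ^ 2 * q4) ^ k) := by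
          have := inv_sqrt_fact_le k hk
          gcongr
      _ = E ^ 2 * (6144 * M ^ 2 / q4) ^ k := by
          rw [← mul_pow]
          congr 2
          have e2 : √(k : ℝ) = q4 ^ 2 := by
            rw [← hq4k]
            have : q4 ^ 4 = (q4 ^ 2) ^ 2 := by ring
            rw [this]
            exact Real.sqrt_sq (by positivity)
          rw [e2]
          field_simp
          ring
  have hp2 : (∑ π ∈ Der k, (k : ℝ) ^ orb π) *
      (f⁻¹ * (ρ ^ (3 * k) * (g * (√(A / n)) ^ k))) ≤ (4 * √A / ρ) ^ k := by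
    calc (∑ π ∈ Der k, (k : ℝ) ^ orb π) *
          (f⁻¹ * (ρ ^ (3 * k) * (g * (√(A / n)) ^ k)))
        ≤ (g * (4 * √(k : ℝ)) ^ k) * (f⁻¹ * (ρ ^ (3 * k) * (g * (√(A / n)) ^ k))) := by
          gcongr
      _ = ((4 * √(k : ℝ)) * ρ ^ 3 * √(A / n)) ^ k := by
          rw [← hgg, mul_inv, mul_pow (4 * √(k : ℝ) * ρ ^ 3), mul_pow (4 * √(k : ℝ)) (ρ ^ 3),
            ← pow_mul ρ 3 k]
          field_simp
      _ = (4 * √A / ρ) ^ k := by
          congr 1
          have e1 : √(k : ℝ) * √(A / n) = √A / ρ ^ 4 := by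
            have e2 : ρ ^ 4 = √((n : ℝ) / k) := by
              rw [← hρ8]
              have : ρ ^ 8 = (ρ ^ 4) ^ 2 := by ring
              rw [this]
              exact (Real.sqrt_sq (by positivity)).symm
            rw [e2, ← Real.sqrt_mul hk0.le, ← Real.sqrt_div hA.le]
            congr 1
            field_simp
          have e3 : 4 * √(k : ℝ) * ρ ^ 3 * √(A / n) = 4 * ρ ^ 3 * (√(k : ℝ) * √(A / n)) := by
            ring
          rw [e3, e1]
          field_simp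
  -- compare with `k^{1/8}`
  set q8 : ℝ := (k : ℝ) ^ (1 / 8 : ℝ) with hq8
  have hq80 : 0 < q8 := by positivity
  have hq81 : 1 ≤ q8 := Real.one_le_rpow hk1 (by norm_num)
  have hq84 : q8 ≤ q4 := Real.rpow_le_rpow_of_exponent_le hk1 (by norm_num)
  have hρq : ρ⁻¹ ≤ (C1 ^ 2) ^ (1 / 8 : ℝ) / q8 := by
    rw [hρ, hq8, ← Real.inv_rpow (by positivity), ← Real.div_rpow (by positivity) hk0.le]
    apply Real.rpow_le_rpow (by positivity) _ (by norm_num)
    rw [inv_div, div_le_div_iff₀ hn0 hk0]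
    calc (k : ℝ) * k ≤ (C1 * s) * (C1 * s) := by gcongr
      _ = C1 ^ 2 * n := by rw [← hss]; ring
  have hDA : 6144 * M ^ 2 / q4 ≤ D / q8 := by
    have : 6144 * M ^ 2 ≤ D := by
      rw [hDd]
      have : 0 ≤ 4 * √A * (C1 ^ 2) ^ (1 / 8 : ℝ) := by positivity
      have : 0 ≤ E ^ 2 := by positivity
      linarith
    gcongr
  have hDB : 4 * √A / ρ ≤ D / q8 := by
    calc 4 * √A / ρ = 4 * √A * ρ⁻¹ := by rw [div_eq_mul_inv]
      _ ≤ 4 * √A * ((C1 ^ 2) ^ (1 / 8 : ℝ) / q8) := by gcongr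
      _ = (4 * √A * (C1 ^ 2) ^ (1 / 8 : ℝ)) / q8 := by ring
      _ ≤ D / q8 := by
        have : 4 * √A * (C1 ^ 2) ^ (1 / 8 : ℝ) ≤ D := by
          rw [hDd]
          have : 0 ≤ 6144 * M ^ 2 := by positivity
          have : 0 ≤ E ^ 2 := by positivity
          linarith
        gcongr
  calc (∑ π ∈ Der k, (n : ℝ) ^ orb π) *
        (f⁻¹ * (E ^ 2 * ((768 * M ^ 2 / s) ^ k * q4 ^ k))) +
      (∑ π ∈ Der k, (k : ℝ) ^ orb π) *
        (f⁻¹ * (ρ ^ (3 * k) * (g * (√(A / n)) ^ k)))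
      ≤ E ^ 2 * (6144 * M ^ 2 / q4) ^ k + (4 * √A / ρ) ^ k := add_le_add hp1 hp2
    _ ≤ E ^ 2 * (D / q8) ^ k + (D / q8) ^ k := by
        have : 0 ≤ 6144 * M ^ 2 / q4 := by positivity
        have : 0 ≤ 4 * √A / ρ := by positivity
        gcongr
    _ = (E ^ 2 + 1) * (D / q8) ^ k := by ring
    _ ≤ D * (D / q8) ^ k := by
        have : E ^ 2 + 1 ≤ D := by
          rw [hDd]
          have : 0 ≤ 6144 * M ^ 2 := by positivity
          have : 0 ≤ 4 * √A * (C1 ^ 2) ^ (1 / 8 : ℝ) := by positivity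
          linarith
        gcongr

end Pool.Agent.Lib.MP_281388_al
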