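import Mathlib
import Pool.Agent.Lib.MP_281388_al.ZTail

set_option autoImplicit false

open scoped BigOperators
open Finset Filter Topology

namespace Pool.Agent.Lib.MP_281388_al

variable {k : ℕ}

theorem orb2_le_left (π σ : Equiv.Perm (Fin k)) : orb2 π σ ≤ orb π := by
  unfold orb orb2
  have h : Equiv.Perm.SameCycle.setoid π ≤
      Equiv.Perm.SameCycle.setoid π ⊔ Equiv.Perm.SameCycle.setoid σ := le_sup_left
  refine Nat.card_le_card_of_surjective (Quotient.map' id (fun _ _ hab => h hab)) ?_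
  intro x
  induction x using Quotient.inductionOn with
  | h a => exact ⟨Quotient.mk'' a, rfl⟩

theorem orb2_le_right (π σ : Equiv.Perm (Fin k)) : orb2 π σ ≤ orb σ := by
  unfold orb orb2
  have h : Equiv.Perm.SameCycle.setoid σ ≤
      Equiv.Perm.SameCycle.setoid π ⊔ Equiv.Perm.SameCycle.setoid σ := le_sup_right
  refine Nat.card_le_card_of_surjective (Quotient.map' id (fun _ _ hab => h hab)) ?_
  intro x
  induction x using Quotient.inductionOn with
  | h a => exact ⟨Quotient.mk'' a, rfl⟩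

/-- classes of size exactly two -/
theorem mult_eq_two (S : Setoid (Fin k)) [Fintype (Quotient S)] [DecidableEq (Quotient S)]
    (h2 : ∀ x : Quotient S, 2 ≤ mult (Quotient.mk S) x)
    (hc : 2 * Fintype.card (Quotient S) = k) (x : Quotient S) :
    mult (Quotient.mk S) x = 2 := by
  have h1 := sum_mult (Quotient.mk S)
  rw [Fintype.card_fin] at h1
  have h3 : ∑ x : Quotient S, (mult (Quotient.mk S) x - 2) = 0 := by
    rw [Finset.sum_tsub_distrib _ (fun x _ => h2 x), h1, Finset.sum_const, smul_eq_mul,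
      Finset.card_univ]
    omega
  have h4 := (Finset.sum_eq_zero_iff.1 h3) x (Finset.mem_univ x)
  have := h2 x
  omega

theorem class_two (S : Setoid (Fin k)) [Fintype (Quotient S)] [DecidableEq (Quotient S)]
    (a b c : Fin k) (hx : mult (Quotient.mk S) (Quotient.mk S a) = 2)
    (hb : S a b) (hc : S a c) (hba : b ≠ a) (hca : c ≠ a) : b = c := by
  by_contra hbc
  have h1 : ({a, b, c} : Finset (Fin k)) ⊆
      Finset.univ.filter (fun i => Quotient.mk S i = Quotient.mk S a) := by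
    intro i hi
    rw [Finset.mem_insert, Finset.mem_insert, Finset.mem_singleton] at hi
    rw [Finset.mem_filter]
    refine ⟨Finset.mem_univ _, ?_⟩
    rcases hi with rfl | rfl | rfl
    · rfl
    · exact Quotient.sound (S.symm hb)
    · exact Quotient.sound (S.symm hc)
  have h2 := Finset.card_le_card h1
  have h3 : ({a, b, c} : Finset (Fin k)).card = 3 := by
    rw [Finset.card_insert_of_notMem, Finset.card_pair hbc]
    rw [Finset.mem_insert, Finset.mem_singleton]
    push Not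
    exact ⟨hba.symm, hca.symm⟩
  rw [h3] at h2
  unfold mult at hx
  omega

theorem two_orb2_le (π σ : Equiv.Perm (Fin k)) (hπ : π ∈ Der k) : 2 * orb2 π σ ≤ k := by
  have := orb2_le_left π σ
  have := two_orb_le π hπ
  omega

theorem eq_of_orb2 (π σ : Equiv.Perm (Fin k)) (hπ : π ∈ Der k) (hσ : σ ∈ Der k)
    (h : 2 * orb2 π σ = k) : σ = π := by
  classical
  set S := Equiv.Perm.SameCycle.setoid π ⊔ Equiv.Perm.SameCycle.setoid σ with hS
  have : Fintype (Quotient S) := Fintype.ofFinite _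
  have hc : 2 * Fintype.card (Quotient S) = k := by
    have h' : 2 * Nat.card (Quotient S) = k := h
    rwa [Nat.card_eq_fintype_card] at h'
  have h2 := mult_eq_two S (fun x => two_le_mult π hπ S le_sup_left x) hc
  ext a
  have hπS : Equiv.Perm.SameCycle.setoid π ≤ S := le_sup_left
  have hσS : Equiv.Perm.SameCycle.setoid σ ≤ S := le_sup_right
  have e1 : S a (π a) := hπS ⟨1, by simp⟩
  have e2 : S a (σ a) := hσS ⟨1, by simp⟩
  have := class_two S a (σ a) (π a) (h2 _) e2 e1 ((Finset.mem_filter.1 hσ).2 a)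
    ((Finset.mem_filter.1 hπ).2 a)
  rw [this]

theorem involution_of_orb (π : Equiv.Perm (Fin k)) (hπ : π ∈ Der k) (h : 2 * orb π = k) :
    π * π = 1 := by
  classical
  set S := Equiv.Perm.SameCycle.setoid π with hS
  have : Fintype (Quotient S) := Fintype.ofFinite _
  have hc : 2 * Fintype.card (Quotient S) = k := by
    have h' : 2 * Nat.card (Quotient S) = k := h
    rwa [Nat.card_eq_fintype_card] at h'
  have h2 := mult_eq_two S (fun x => two_le_mult π hπ S le_rfl x) hc
  ext a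
  have e1 : S (π a) a := S.symm ⟨1, by simp⟩
  have e2 : S (π a) (π (π a)) := ⟨1, by simp⟩
  have := class_two S (π a) (π (π a)) a (h2 _) e2 e1 ((Finset.mem_filter.1 hπ).2 (π a))
    (fun hh => (Finset.mem_filter.1 hπ).2 a hh.symm)
  rw [Equiv.Perm.mul_apply, this, Equiv.Perm.one_apply]

/-- fixed point free involutions -/
noncomputable def FPI (k : ℕ) : Finset (Equiv.Perm (Fin k)) := (Der k).filter (fun π => 2 * orb π = k)

theorem card_FPI_even (r : ℕ) (hr : 1 ≤ r) :
    ((FPI (2 * r)).card : ℝ) / ((2 * r).factorial : ℝ) ≤ (1 / 2) ^ r / (r.factorial : ℝ) := by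
  classical
  have hsub : FPI (2 * r) ⊆
      Finset.univ.filter (fun g : Equiv.Perm (Fin (2 * r)) =>
        g.cycleType = Multiset.replicate r 2) := by
    intro π hπ
    unfold FPI at hπ
    rw [Finset.mem_filter] at hπ
    rw [Finset.mem_filter]
    refine ⟨Finset.mem_univ _, ?_⟩
    have h1 := involution_of_orb π hπ.1 hπ.2
    have hord : orderOf π ∣ 2 := orderOf_dvd_of_pow_eq_one (by rw [pow_two]; exact h1)
    have hall : ∀ m ∈ π.cycleType, m = 2 := by
      intro m hm
      have e1 := Equiv.Perm.dvd_of_mem_cycleType hm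
      have e2 := Equiv.Perm.two_le_of_mem_cycleType hm
      have e3 := Nat.le_of_dvd (by norm_num) (e1.trans hord)
      omega
    have h2 := Multiset.eq_replicate_card.2 hall
    have hsum := Equiv.Perm.sum_cycleType π
    have hsupp : π.support = Finset.univ := by
      ext a
      simp only [Equiv.Perm.mem_support, Finset.mem_univ, iff_true]
      exact (Finset.mem_filter.1 hπ.1).2 a
    rw [hsupp, Finset.card_univ, Fintype.card_fin, h2, Multiset.sum_replicate, smul_eq_mul] at hsum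
    have h3 : π.cycleType.card = r := by omega
    rw [h2, h3]
  have hcard := Equiv.Perm.card_of_cycleType_mul_eq (Fin (2 * r)) (Multiset.replicate r 2)
  rw [if_pos, Multiset.sum_replicate, Multiset.prod_replicate,
    Multiset.toFinset_replicate, if_neg (by omega), Finset.prod_singleton,
    Multiset.count_replicate_self, Fintype.card_fin, smul_eq_mul, mul_comm r 2, Nat.sub_self,
    Nat.factorial_zero, one_mul] at hcard
  · have h4 := Finset.card_le_card hsub
    have h5 : (FPI (2 * r)).card * (2 ^ r * r.factorial) ≤ (2 * r).factorial := by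
      rw [← hcard]
      exact Nat.mul_le_mul_right _ h4
    have h6 : ((FPI (2 * r)).card : ℝ) * (2 ^ r * (r.factorial : ℝ)) ≤ ((2 * r).factorial : ℝ) := by
      exact_mod_cast h5
    rw [div_le_div_iff₀ (by positivity) (by positivity)]
    have h7 : (1 / 2 : ℝ) ^ r * 2 ^ r = 1 := by
      rw [← mul_pow]; norm_num
    calc ((FPI (2 * r)).card : ℝ) * (r.factorial : ℝ)
        = (1 / 2 : ℝ) ^ r * (((FPI (2 * r)).card : ℝ) * (2 ^ r * (r.factorial : ℝ))) := by
          linear_combination (-((FPI (2 * r)).card : ℝ) * (r.factorial : ℝ)) * h7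
      _ ≤ (1 / 2 : ℝ) ^ r * ((2 * r).factorial : ℝ) := by gcongr
  · constructor
    · rw [Multiset.sum_replicate, smul_eq_mul, Fintype.card_fin]
      omega
    · intro a ha
      rw [Multiset.eq_of_mem_replicate ha]

theorem FPI_odd (r : ℕ) : FPI (2 * r + 1) = ∅ := by
  unfold FPI
  rw [Finset.filter_eq_empty_iff]
  intro π _ h
  omega

/-- limit of the `k`-th term -/
noncomputable def aa (k : ℕ) : ℝ := ((FPI k).card : ℝ) / (k.factorial : ℝ)

theorem aa_nonneg (k : ℕ) : 0 ≤ aa k := by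
  unfold aa
  positivity

theorem sum_aa_le (K : ℕ) : ∑ k ∈ Finset.Icc 1 (2 * K), aa k ≤ Real.exp (1 / 2) - 1 := by
  have h1 : ∀ K : ℕ, 1 + ∑ k ∈ Finset.Icc 1 (2 * K), aa k ≤
      ∑ r ∈ Finset.range (K + 1), (1 / 2 : ℝ) ^ r / (r.factorial : ℝ) := by
    intro K
    induction K with
    | zero => simp
    | succ K ih =>
      have e1 : 2 * (K + 1) = 2 * K + 1 + 1 := by ring
      rw [e1, Finset.sum_Icc_succ_top (by omega), Finset.sum_Icc_succ_top (by omega),
        Finset.sum_range_succ]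
      have e2 : aa (2 * K + 1) = 0 := by
        unfold aa
        rw [FPI_odd]
        simp
      have e3 : aa (2 * K + 1 + 1) ≤ (1 / 2 : ℝ) ^ (K + 1) / ((K + 1).factorial : ℝ) := by
        have := card_FPI_even (K + 1) (by omega)
        rw [← e1]
        exact this
      rw [e2]
      linarith
  have h2 := Real.sum_le_exp_of_nonneg (x := 1 / 2) (by norm_num) (K + 1)
  have h3 := h1 K
  linarith

/-- explicit upper bound for fixed `k` -/
theorem tk_le_fixed (n k : ℕ) (hk : 2 * k ≤ n) (hn : 1 ≤ n) (w : ℝ) :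
    tk n k w ≤ (k.factorial : ℝ)⁻¹ * ((Real.exp (2 * (k : ℝ) ^ 2 / n)) ^ 2 *
      ∑ π ∈ Der k, ((if 2 * orb π = k then (1 : ℝ) else 0) +
        (k.factorial : ℝ) * (√(n : ℝ))⁻¹) ^ 2) := by
  classical
  have hn0 : (0 : ℝ) < n := by exact_mod_cast hn
  have hn1 : (1 : ℝ) ≤ n := by exact_mod_cast hn
  set s := √(n : ℝ) with hs
  have hs0 : 0 < s := Real.sqrt_pos.2 hn0
  have hs1 : 1 ≤ s := by
    rw [hs, Real.one_le_sqrt]
    exact hn1
  have hss : s * s = n := Real.mul_self_sqrt hn0.le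
  have hck0 : 0 < ck n k := ck_pos (by omega) hn
  have hckE := ck_le_exp n k hk hn
  rw [tk_eq n (by omega) hn, Finset.mul_sum, Finset.mul_sum]
  refine Finset.sum_le_sum fun π hπ => ?_
  have h1 : s ^ orb π * Spi n π ≤ (if 2 * orb π = k then (1 : ℝ) else 0) +
      (k.factorial : ℝ) * s⁻¹ := by
    rw [Spi_eq n hn π, ← hs]
    have e1 : s ^ orb π * ((s ^ (k + orb π))⁻¹ * ∑ σ ∈ Der k, s ^ (orb σ + orb2 π σ)) =
        ∑ σ ∈ Der k, (s⁻¹) ^ (k - (orb σ + orb2 π σ)) := by
      rw [Finset.mul_sum, Finset.mul_sum]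
      refine Finset.sum_congr rfl fun σ hσ => ?_
      have e2 : orb σ + orb2 π σ ≤ k := by
        have := two_orb_le σ hσ
        have := two_orb2_le π σ hπ
        omega
      rw [inv_pow, pow_add]
      have e3 : s ^ k = s ^ (k - (orb σ + orb2 π σ)) * s ^ (orb σ + orb2 π σ) := by
        rw [← pow_add]
        congr 1
        omega
      rw [e3]
      field_simp
    rw [e1]
    have e4 : ∀ σ ∈ Der k, (s⁻¹) ^ (k - (orb σ + orb2 π σ)) ≤
        (if σ = π ∧ 2 * orb π = k then (1 : ℝ) else 0) + s⁻¹ := by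
      intro σ hσ
      have hsi : 0 < s⁻¹ := by positivity
      have hsi1 : s⁻¹ ≤ 1 := inv_le_one_of_one_le₀ hs1
      by_cases hj : k - (orb σ + orb2 π σ) = 0
      · have f1 := two_orb_le σ hσ
        have f2 := two_orb2_le π σ hπ
        have f3 : 2 * orb2 π σ = k := by omega
        have f4 := eq_of_orb2 π σ hπ hσ f3
        have f5 : 2 * orb π = k := by
          have := orb2_le_left π σ
          have := two_orb_le π hπ
          omega
        rw [hj, pow_zero, if_pos ⟨f4, f5⟩]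
        linarith
      · obtain ⟨j, hj'⟩ := Nat.exists_eq_succ_of_ne_zero hj
        rw [hj', Nat.succ_eq_add_one, pow_succ]
        have f6 : (s⁻¹) ^ j * s⁻¹ ≤ 1 * s⁻¹ := by
          refine mul_le_mul_of_nonneg_right ?_ hsi.le
          exact pow_le_one₀ hsi.le hsi1
        have f7 : (0 : ℝ) ≤ (if σ = π ∧ 2 * orb π = k then (1 : ℝ) else 0) := by
          split_ifs <;> norm_num
        linarith
    refine (Finset.sum_le_sum e4).trans ?_
    rw [Finset.sum_add_distrib, Finset.sum_const, nsmul_eq_mul]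
    have e5 : ∑ σ ∈ Der k, (if σ = π ∧ 2 * orb π = k then (1 : ℝ) else 0) ≤
        (if 2 * orb π = k then (1 : ℝ) else 0) := by
      by_cases h : 2 * orb π = k
      · simp only [h, and_true, if_true]
        rw [Finset.sum_ite_eq' (Der k) π (fun _ => (1 : ℝ)), if_pos hπ]
      · simp [h]
    have e6 : ((Der k).card : ℝ) ≤ (k.factorial : ℝ) := by
      have : (Der k).card ≤ k.factorial := by
        have h2 := Finset.card_le_univ (Der k)
        rwa [Fintype.card_perm, Fintype.card_fin] at h2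
      exact_mod_cast this
    have hsi : 0 < s⁻¹ := by positivity
    have e7 : ((Der k).card : ℝ) * s⁻¹ ≤ (k.factorial : ℝ) * s⁻¹ := by gcongr
    linarith
  have h2 : (n : ℝ) ^ orb π = (s ^ orb π) ^ 2 := by
    rw [← pow_mul, mul_comm, pow_mul, pow_two, hss]
  have h3 : 0 ≤ s ^ orb π * Spi n π := mul_nonneg (by positivity) (Spi_nonneg n π)
  calc (n : ℝ) ^ orb π / (k.factorial : ℝ) * min w ((ck n k * Spi n π) ^ 2)
      ≤ (n : ℝ) ^ orb π / (k.factorial : ℝ) * ((ck n k * Spi n π) ^ 2) := by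
        refine mul_le_mul_of_nonneg_left (min_le_right _ _) (by positivity)
    _ = (k.factorial : ℝ)⁻¹ * ((ck n k) ^ 2 * (s ^ orb π * Spi n π) ^ 2) := by
        rw [h2, div_eq_mul_inv]; ring
    _ ≤ (k.factorial : ℝ)⁻¹ * ((Real.exp (2 * (k : ℝ) ^ 2 / n)) ^ 2 *
        ((if 2 * orb π = k then (1 : ℝ) else 0) + (k.factorial : ℝ) * s⁻¹) ^ 2) := by
        gcongr

theorem tk_eventually (k : ℕ) (δ : ℝ) (hδ : 0 < δ) :
    ∀ᶠ n : ℕ in atTop, ∀ w : ℝ, tk n k w ≤ aa k + δ := by
  classical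
  have hs : Tendsto (fun n : ℕ => (√(n : ℝ))⁻¹) atTop (𝓝 0) := by
    apply tendsto_inv_atTop_zero.comp
    exact Real.tendsto_sqrt_atTop.comp tendsto_natCast_atTop_atTop
  have hE : Tendsto (fun n : ℕ => Real.exp (2 * (k : ℝ) ^ 2 / n)) atTop (𝓝 1) := by
    have h1 : Tendsto (fun n : ℕ => 2 * (k : ℝ) ^ 2 / n) atTop (𝓝 0) :=
      tendsto_const_div_atTop_nhds_zero_nat _
    have h2 := (Real.continuous_exp.tendsto 0).comp h1
    rw [Real.exp_zero] at h2
    exact h2
  have hlim : Tendsto (fun n : ℕ => (k.factorial : ℝ)⁻¹ *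
      ((Real.exp (2 * (k : ℝ) ^ 2 / n)) ^ 2 *
      ∑ π ∈ Der k, ((if 2 * orb π = k then (1 : ℝ) else 0) +
        (k.factorial : ℝ) * (√(n : ℝ))⁻¹) ^ 2)) atTop
      (𝓝 ((k.factorial : ℝ)⁻¹ * (1 ^ 2 *
      ∑ π ∈ Der k, ((if 2 * orb π = k then (1 : ℝ) else 0) + (k.factorial : ℝ) * 0) ^ 2))) := by
    refine Tendsto.const_mul _ (Tendsto.mul (hE.pow 2) ?_)
    refine tendsto_finsetSum _ fun π _ => ?_
    exact (Tendsto.const_add _ (Tendsto.const_mul _ hs)).pow 2
  have haa : (k.factorial : ℝ)⁻¹ * (1 ^ 2 *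
      ∑ π ∈ Der k, ((if 2 * orb π = k then (1 : ℝ) else 0) + (k.factorial : ℝ) * 0) ^ 2) =
      aa k := by
    have h1 : ∀ π : Equiv.Perm (Fin k), ((if 2 * orb π = k then (1 : ℝ) else 0) +
        (k.factorial : ℝ) * 0) ^ 2 = if 2 * orb π = k then (1 : ℝ) else 0 := by
      intro π
      split_ifs <;> ring
    rw [Finset.sum_congr rfl fun π _ => h1 π, ← Finset.sum_filter, Finset.sum_const, nsmul_eq_mul,
      aa, FPI, div_eq_mul_inv]
    ring
  rw [haa] at hlim
  have h2 := hlim.eventually (gt_mem_nhds (show aa k < aa k + δ by linarith))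
  filter_upwards [h2, eventually_ge_atTop (2 * k + 1)] with n hn1 hn2
  intro w
  exact (tk_le_fixed n k (by omega) (by omega) w).trans hn1.le

/-- final deliverable of Z -/
theorem Z_final (A C1 : ℝ) (hA : 0 < A) (hC1 : 0 < C1) (ε : ℝ) (hε : 0 < ε) :
    ∃ N0 : ℕ, ∀ n : ℕ, N0 ≤ n → ∀ w : ℕ → ℝ,
    (∀ k : ℕ, (k : ℝ) ≤ C1 * √(n : ℝ) → 0 ≤ w k ∧
      w k ≤ √(k.factorial : ℝ) * (A / n) ^ ((k : ℝ) / 2)) →
    ∑ k ∈ (Icc 1 n).filter (fun k : ℕ => (k : ℝ) ≤ C1 * √(n : ℝ)),
      (n.choose k : ℝ) * ck n k * ∑ π ∈ Der k,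
        (n : ℝ) ^ ((orb π : ℝ) - k) * min (w k) ((ck n k * Spi n π) ^ 2)
      ≤ Real.exp (1 / 2) - 1 + ε := by
  obtain ⟨D, hD1, N1, htail⟩ := tail_bound A C1 hA hC1
  -- choose the cut
  obtain ⟨K1, hK1⟩ := exists_nat_gt ((2 * D) ^ 8)
  have hgeo : Tendsto (fun m : ℕ => 2 * D * (1 / 2 : ℝ) ^ m) atTop (𝓝 0) := by
    have h1 : Tendsto (fun m : ℕ => (1 / 2 : ℝ) ^ m) atTop (𝓝 0) :=
      tendsto_pow_atTop_nhds_zero_of_lt_one (by norm_num) (by norm_num)
    have h2 := h1.const_mul (2 * D)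
    rwa [mul_zero] at h2
  obtain ⟨K2, hK2⟩ := (hgeo.eventually (gt_mem_nhds (show (0 : ℝ) < ε / 2 by linarith))).exists
  set K : ℕ := max K1 K2 + 1 with hK
  have hKpos : (0 : ℝ) < K := by
    rw [hK]; positivity
  have hsmall : ∀ᶠ n : ℕ in atTop, ∀ k ∈ Finset.Icc 1 (2 * K), ∀ w : ℝ,
      tk n k w ≤ aa k + ε / (4 * K) := by
    rw [Filter.eventually_all_finset]
    intro k _
    exact tk_eventually k _ (by positivity)
  obtain ⟨N2, hN2⟩ := Filter.eventually_atTop.1 hsmall
  refine ⟨max N1 N2, ?_⟩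
  intro n hn w hw
  have hnN1 : N1 ≤ n := le_trans (le_max_left _ _) hn
  have hnN2 : N2 ≤ n := le_trans (le_max_right _ _) hn
  have hterm : ∀ k ∈ (Icc 1 n).filter (fun k : ℕ => (k : ℝ) ≤ C1 * √(n : ℝ)),
      (n.choose k : ℝ) * ck n k * ∑ π ∈ Der k,
        (n : ℝ) ^ ((orb π : ℝ) - k) * min (w k) ((ck n k * Spi n π) ^ 2) ≤
      (if k ≤ 2 * K then aa k + ε / (4 * K) else 0) +
        (if 2 * K < k then D * (1 / 2 : ℝ) ^ k else 0) := by
    intro k hk
    rw [Finset.mem_filter, Finset.mem_Icc] at hk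
    change tk n k (w k) ≤ _
    by_cases hkK : k ≤ 2 * K
    · rw [if_pos hkK, if_neg (by omega), add_zero]
      exact hN2 n hnN2 k (Finset.mem_Icc.2 ⟨hk.1.1, hkK⟩) (w k)
    · rw [if_neg hkK, if_pos (by omega), zero_add]
      have h1 := hw k hk.2
      refine (htail n hnN1 k hk.1.1 hk.2 (w k) h1.1 h1.2).trans ?_
      have hk0 : (0 : ℝ) < k := by exact_mod_cast hk.1.1
      have h2 : D / (k : ℝ) ^ (1 / 8 : ℝ) ≤ 1 / 2 := by
        have h3 : 2 * D ≤ (k : ℝ) ^ (1 / 8 : ℝ) := by
          have h4 : (2 * D) ^ 8 ≤ (k : ℝ) := by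
            have h5 : (K1 : ℝ) ≤ k := by
              have : K1 ≤ K := le_trans (le_max_left _ _) (Nat.le_succ _)
              exact_mod_cast (by omega : K1 ≤ k)
            linarith
          have h6 : ((2 * D) ^ 8) ^ (1 / 8 : ℝ) ≤ (k : ℝ) ^ (1 / 8 : ℝ) :=
            Real.rpow_le_rpow (by positivity) h4 (by norm_num)
          have e8 : ((2 * D) ^ 8) ^ (1 / 8 : ℝ) = 2 * D := by
            rw [← Real.rpow_natCast, ← Real.rpow_mul (by positivity)]
            norm_num
          rwa [e8] at h6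
        have h7 : (0 : ℝ) < (k : ℝ) ^ (1 / 8 : ℝ) := by positivity
        rw [div_le_iff₀ h7]
        linarith
      have h3 : 0 ≤ D / (k : ℝ) ^ (1 / 8 : ℝ) := by positivity
      have : 0 ≤ D := by linarith
      gcongr
  refine (Finset.sum_le_sum hterm).trans ?_
  rw [Finset.sum_add_distrib]
  have hA1 : ∑ k ∈ (Icc 1 n).filter (fun k : ℕ => (k : ℝ) ≤ C1 * √(n : ℝ)),
      (if k ≤ 2 * K then aa k + ε / (4 * K) else 0) ≤ Real.exp (1 / 2) - 1 + ε / 2 := by
    rw [← Finset.sum_filter]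
    calc ∑ k ∈ ((Icc 1 n).filter (fun k : ℕ => (k : ℝ) ≤ C1 * √(n : ℝ))).filter
          (fun k => k ≤ 2 * K), (aa k + ε / (4 * K))
        ≤ ∑ k ∈ Finset.Icc 1 (2 * K), (aa k + ε / (4 * K)) := by
          refine Finset.sum_le_sum_of_subset_of_nonneg ?_ ?_
          · intro k hk
            rw [Finset.mem_filter, Finset.mem_filter, Finset.mem_Icc] at hk
            exact Finset.mem_Icc.2 ⟨hk.1.1.1, hk.2⟩
          · intro k _ _
            have := aa_nonneg k
            positivity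
      _ = ∑ k ∈ Finset.Icc 1 (2 * K), aa k + (2 * K : ℕ) * (ε / (4 * K)) := by
          rw [Finset.sum_add_distrib, Finset.sum_const, Nat.card_Icc, nsmul_eq_mul]
          simp
      _ ≤ (Real.exp (1 / 2) - 1) + ε / 2 := by
          have h1 := sum_aa_le K
          have h2 : ((2 * K : ℕ) : ℝ) * (ε / (4 * K)) = ε / 2 := by
            push_cast
            field_simp
            ring
          rw [h2]
          linarith
  have hB1 : ∑ k ∈ (Icc 1 n).filter (fun k : ℕ => (k : ℝ) ≤ C1 * √(n : ℝ)),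
      (if 2 * K < k then D * (1 / 2 : ℝ) ^ k else 0) ≤ ε / 2 := by
    rw [← Finset.sum_filter]
    have hD0 : 0 ≤ D := by linarith
    calc ∑ k ∈ ((Icc 1 n).filter (fun k : ℕ => (k : ℝ) ≤ C1 * √(n : ℝ))).filter
          (fun k => 2 * K < k), D * (1 / 2 : ℝ) ^ k
        ≤ ∑ k ∈ Finset.Ico (2 * K) (n + 1 + 2 * K), D * (1 / 2 : ℝ) ^ k := by
          refine Finset.sum_le_sum_of_subset_of_nonneg ?_ ?_
          · intro k hk
            rw [Finset.mem_filter, Finset.mem_filter, Finset.mem_Icc] at hk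
            rw [Finset.mem_Ico]
            omega
          · intro k _ _
            positivity
      _ = D * (1 / 2 : ℝ) ^ (2 * K) * ∑ j ∈ Finset.range (n + 1), (1 / 2 : ℝ) ^ j := by
          rw [Finset.sum_Ico_eq_sum_range, Finset.mul_sum]
          have : n + 1 + 2 * K - 2 * K = n + 1 := by omega
          rw [this]
          refine Finset.sum_congr rfl fun j _ => ?_
          rw [pow_add]
          ring
      _ ≤ D * (1 / 2 : ℝ) ^ (2 * K) * 2 := by
          have : ∑ j ∈ Finset.range (n + 1), (1 / 2 : ℝ) ^ j ≤ 2 := by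
            have h1 := geom_sum_eq (show (1 / 2 : ℝ) ≠ 1 by norm_num) (n + 1)
            rw [h1]
            have h2 : (0 : ℝ) < (1 / 2) ^ (n + 1) := by positivity
            rw [div_le_iff_of_neg (by norm_num)]
            linarith
          gcongr
      _ ≤ 2 * D * (1 / 2 : ℝ) ^ K2 := by
          have h1 : (1 / 2 : ℝ) ^ (2 * K) ≤ (1 / 2 : ℝ) ^ K2 := by
            apply pow_le_pow_of_le_one (by norm_num) (by norm_num)
            have : K2 ≤ K := le_trans (le_max_right _ _) (Nat.le_succ _)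
            omega
          nlinarith
      _ ≤ ε / 2 := hK2.le
  linarith

end Pool.Agent.Lib.MP_281388_al
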