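import Mathlib
import Pool.Agent.Lib.MP_281388_al.Count
import Pool.Agent.Lib.MP_281388_al.Star
import Pool.Agent.Lib.MP_281388_al.XHP
import Pool.Agent.Lib.MP_281388_al.ZLimit
import Pool.Agent.Lib.MP_281388_al.YFinal

set_option autoImplicit false

open scoped BigOperators ComplexConjugate
open Finset Matrix Filter Topology

namespace Pool.Agent.Lib.MP_281388_al

section assemble

variable {G : Type} [Group G] [Fintype G] [DecidableEq G]

omit [DecidableEq G] in
/-- the product of the values of a one dimensional character -/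
theorem hprod_of_sylow (F : FS G)
    (h : ∀ P : Sylow 2 G, (P : Subgroup G) = ⊥ ∨ ¬ IsCyclic (P : Subgroup G))
    {χ : F.S} (hχ : F.d χ = 1) : ∏ g, F.ch χ g = 1 := by
  have hu := prod_hom_eq_one (A := ℂˣ) (MonoidHom.toHomUnits (F.chHom hχ)) h
  have h1 := congrArg (Units.coeHom ℂ) hu
  rw [map_prod, map_one] at h1
  rw [← h1]
  rfl

/-- the terms of the expansion -/
noncomputable def LL (F : FS G) (s : G → F.S) : ℂ :=
  Lam F.UU s (Finj (G := G) (Finset.univ : Finset G)) (Finj Finset.univ) (Finj Finset.univ)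

theorem sum_LL (F : FS G) : ∑ s, LL F s =
    (Fintype.card G : ℂ) ^ (Fintype.card G) * ((CM G).card : ℂ) /
      ((Fintype.card G).factorial : ℂ) ^ 2 := by
  rw [← Tri_FF]
  unfold LL Tri
  exact trilinear F.UU F.colOrth F.UU_mul _ _ _

theorem major_sum (F : FS G) {χ : F.S} (hχ : F.d χ = 1) (hprod : ∏ g, F.ch χ g = 1) (y : ℝ) :
    ∑ s ∈ univ.filter (fun s : G → F.S => ((Fintype.card G : ℝ) - mult s χ) ≤ y), LL F s =
    ∑ k ∈ (range (Fintype.card G + 1)).filter (fun k : ℕ => (k : ℝ) ≤ y),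
      ((Fintype.card G).choose k : ℂ) * lamk G k := by
  classical
  have hle : ∀ s : G → F.S, mult s χ ≤ Fintype.card G := fun s => mult_le_card s χ
  rw [← Finset.sum_fiberwise_of_maps_to
    (s := univ.filter (fun s : G → F.S => ((Fintype.card G : ℝ) - mult s χ) ≤ y))
    (t := (range (Fintype.card G + 1)).filter (fun k : ℕ => (k : ℝ) ≤ y))
    (g := fun s => Fintype.card G - mult s χ)]
  · refine Finset.sum_congr rfl fun k hk => ?_
    rw [Finset.mem_filter, Finset.mem_range] at hk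
    rw [← F.level_sum_Lam_ch hχ hprod rfl k]
    refine Finset.sum_congr ?_ fun _ _ => rfl
    ext s
    simp only [Finset.mem_filter, Finset.mem_univ, true_and]
    have h1 := hle s
    constructor
    · rintro ⟨_, h2⟩
      omega
    · intro h2
      have h3 : Fintype.card G - mult s χ = k := by omega
      refine ⟨?_, h3⟩
      rw [← Nat.cast_sub h1, h3]
      exact hk.2
  · intro s hs
    rw [Finset.mem_filter] at hs
    rw [Finset.mem_filter, Finset.mem_range, Nat.cast_sub (hle s)]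
    exact ⟨by omega, hs.2⟩

theorem split_sum (F : FS G) (y : ℝ) (hy : 2 * y < Fintype.card G) :
    ∑ s, LL F s =
      ∑ s ∈ univ.filter (fun s : G → F.S => ∀ χ, F.d χ = 1 →
        y < (Fintype.card G : ℝ) - mult s χ), LL F s +
      ∑ χ ∈ univ.filter (fun χ : F.S => F.d χ = 1),
        ∑ s ∈ univ.filter (fun s : G → F.S => ((Fintype.card G : ℝ) - mult s χ) ≤ y), LL F s := by
  classical
  rw [← Finset.sum_filter_add_sum_filter_not Finset.univ
    (fun s : G → F.S => ∀ χ, F.d χ = 1 → y < (Fintype.card G : ℝ) - mult s χ)]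
  congr 1
  rw [← Finset.sum_biUnion]
  · refine Finset.sum_congr ?_ fun _ _ => rfl
    ext s
    simp only [Finset.mem_filter, Finset.mem_univ, true_and, Finset.mem_biUnion]
    push Not
    rfl
  · intro χ _ χ' _ hne
    change Disjoint _ _
    rw [Finset.disjoint_left]
    intro s hs hs'
    rw [Finset.mem_filter] at hs hs'
    have h1 : mult s χ + mult s χ' ≤ Fintype.card G := by
      rw [← sum_mult s, ← Finset.sum_pair hne]
      exact Finset.sum_le_sum_of_subset (Finset.subset_univ _)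
    have h2 : (mult s χ : ℝ) + mult s χ' ≤ Fintype.card G := by exact_mod_cast h1
    linarith [hs.2, hs'.2]

/-- the main analytic estimate -/
theorem analytic : ∃ N : ℕ, ∀ (G : Type) [Group G] [Fintype G] [DecidableEq G],
    N ≤ Fintype.card G →
    (∀ P : Sylow 2 G, (P : Subgroup G) = ⊥ ∨ ¬ IsCyclic (P : Subgroup G)) →
    (0.3 : ℝ) ≤ (Fintype.card G : ℝ) ^ (Fintype.card G) * ((CM G).card : ℝ) /
      ((Fintype.card G).factorial : ℝ) ^ 2 := by
  obtain ⟨C1, hC1, hY⟩ := Y_final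
  obtain ⟨NY, hNY⟩ := hY 0.01 (by norm_num)
  obtain ⟨NZ, hNZ⟩ := Z_final 1.01 C1 (by norm_num) hC1 0.01 (by norm_num)
  have hcast : Tendsto (fun n : ℕ => (n : ℝ)) atTop atTop := tendsto_natCast_atTop_atTop
  have e1 : ∀ᶠ n : ℕ in atTop, (50000 : ℝ) ≤ (n : ℝ) ^ (1 / 5 : ℝ) :=
    ((tendsto_rpow_atTop (by norm_num)).comp hcast).eventually_ge_atTop _
  have e2 : ∀ᶠ n : ℕ in atTop, 50000 * C1 ≤ (n : ℝ) ^ (1 / 2 : ℝ) :=
    ((tendsto_rpow_atTop (by norm_num)).comp hcast).eventually_ge_atTop _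
  obtain ⟨N1, hN1⟩ := Filter.eventually_atTop.1 (e1.and e2)
  refine ⟨max (max NY NZ) (max N1 1), ?_⟩
  intro G _ _ _ hG hsyl
  classical
  set n := Fintype.card G with hn
  have hnY : NY ≤ n := le_trans (le_trans (le_max_left _ _) (le_max_left _ _)) hG
  have hnZ : NZ ≤ n := le_trans (le_trans (le_max_right _ _) (le_max_left _ _)) hG
  have hnN : N1 ≤ n := le_trans (le_trans (le_max_left _ _) (le_max_right _ _)) hG
  have hn1 : 1 ≤ n := le_trans (le_trans (le_max_right _ _) (le_max_right _ _)) hG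
  obtain ⟨e1, e2⟩ := hN1 n hnN
  have hn0 : (0 : ℝ) < n := by exact_mod_cast hn1
  have hsq : (n : ℝ) ^ (1 / 2 : ℝ) = √(n : ℝ) := (Real.sqrt_eq_rpow _).symm
  rw [hsq] at e2
  have hs0 : 0 < √(n : ℝ) := Real.sqrt_pos.2 hn0
  have hss : √(n : ℝ) * √(n : ℝ) = n := Real.mul_self_sqrt hn0.le
  have h45 : (n : ℝ) ^ (4 / 5 : ℝ) ≤ n / 50000 := by
    have h1 : (n : ℝ) = (n : ℝ) ^ (1 / 5 : ℝ) * (n : ℝ) ^ (4 / 5 : ℝ) := by
      rw [← Real.rpow_add hn0]
      norm_num
    have h2 : 0 < (n : ℝ) ^ (4 / 5 : ℝ) := by positivity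
    rw [le_div_iff₀ (by norm_num)]
    nlinarith
  have hC1n : C1 * √(n : ℝ) ≤ n / 50000 := by
    rw [le_div_iff₀ (by norm_num)]
    nlinarith
  obtain ⟨F⟩ := exists_FS G
  obtain ⟨σ₀, h0⟩ := F.exists_triv
  have hch : ∀ χ : F.S, F.d χ = 1 → ∏ g, F.ch χ g = 1 := fun χ hχ => hprod_of_sylow F hsyl hχ
  set X1 : Finset F.S := univ.filter (fun χ : F.S => F.d χ = 1) with hX1
  have hX1pos : (1 : ℝ) ≤ X1.card := by
    have : 0 < X1.card := Finset.card_pos.2 ⟨σ₀, by
      rw [hX1, Finset.mem_filter]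
      exact ⟨Finset.mem_univ _, h0.1⟩⟩
    exact_mod_cast this
  -- the minor part
  have hminor := hNY n hnY G F.S F.d
    (fun s => Een F.UU s (Finj (G := G) (Finset.univ : Finset G))) (wk n) rfl F.dpos F.dim
    (fun s => Een_nonneg _ _ _) (fun s => F.Een_le rfl s)
    (fun k hk => wk_bound n hn1 k (hk.trans h45))
    (fun χ hχ k _ => le_of_eq (F.level_sum_Een_ch hχ (hch χ hχ) rfl k))
  have hminor' : ‖∑ s ∈ univ.filter (fun s : G → F.S => ∀ χ, F.d χ = 1 →
      C1 * √(n : ℝ) < (n : ℝ) - mult s χ), LL F s‖ ≤ 0.01 * (1 + X1.card) := by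
    refine le_trans ?_ hminor
    refine (norm_sum_le _ _).trans (Finset.sum_le_sum fun s _ => ?_)
    have h1 := Lam_norm_le F.UU s (F.card_KK_pos s) (Finj (G := G) (Finset.univ : Finset G))
    rw [F.card_KK] at h1
    push_cast at h1
    exact h1
  -- the major part
  set V : ℂ := ∑ k ∈ (range (n + 1)).filter (fun k : ℕ => (k : ℝ) ≤ C1 * √(n : ℝ)),
      (n.choose k : ℂ) * lamk G k with hV
  have hVsplit : V = 1 + ∑ k ∈ (Icc 1 n).filter (fun k : ℕ => (k : ℝ) ≤ C1 * √(n : ℝ)),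
      (n.choose k : ℂ) * lamk G k := by
    have hset : (range (n + 1)).filter (fun k : ℕ => (k : ℝ) ≤ C1 * √(n : ℝ)) =
        insert 0 ((Icc 1 n).filter (fun k : ℕ => (k : ℝ) ≤ C1 * √(n : ℝ))) := by
      ext k
      simp only [Finset.mem_filter, Finset.mem_range, Finset.mem_insert, Finset.mem_Icc]
      constructor
      · rintro ⟨h1, h2⟩
        rcases Nat.eq_zero_or_pos k with h | h
        · left; exact h
        · right; exact ⟨⟨h, by omega⟩, h2⟩
      · rintro (h | ⟨⟨h1, h2⟩, h3⟩)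
        · subst h
          exact ⟨by omega, by rw [Nat.cast_zero]; positivity⟩
        · exact ⟨by omega, h3⟩
    rw [hV, hset, Finset.sum_insert, Nat.choose_zero_right, lamk_zero]
    · simp
    · simp
  have hVle : ‖V - 1‖ ≤ 0.66 := by
    rw [hVsplit, add_sub_cancel_left]
    have hz := hNZ n hnZ (wk n) (fun k hk =>
      ⟨wk_nonneg n hn1 k (by
        have h1 : (k : ℝ) ≤ n := by
          have := hk.trans hC1n
          have h2 : (n : ℝ) / 50000 ≤ n := by
            rw [div_le_iff₀ (by norm_num)]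
            linarith
          linarith
        exact_mod_cast h1), wk_bound n hn1 k (hk.trans hC1n)⟩)
    have hexp : Real.exp (1 / 2) - 1 + 0.01 ≤ 0.66 := by
      have h1 : Real.exp (1 / 2) ≤ 1.65 := by
        have h2 : Real.exp (1 / 2) ^ 2 = Real.exp 1 := by
          rw [← Real.exp_nat_mul]
          norm_num
        have h3 := Real.exp_one_lt_d9
        have h4 := Real.exp_pos (1 / 2)
        nlinarith
      linarith
    refine le_trans ?_ (hz.trans hexp)
    refine (norm_sum_le _ _).trans (Finset.sum_le_sum fun k hk => ?_)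
    rw [Finset.mem_filter, Finset.mem_Icc] at hk
    rw [norm_mul, Complex.norm_natCast, mul_assoc]
    exact mul_le_mul_of_nonneg_left (F.lamk_le h0 hk.1.2) (by positivity)
  have hsplit := split_sum F (C1 * √(n : ℝ)) (by
    rw [← hn]
    have h2 : (n : ℝ) / 50000 < n / 2 := by
      rw [div_lt_div_iff₀ (by norm_num) (by norm_num)]
      linarith
    linarith)
  have hmaj : ∑ χ ∈ X1,
        ∑ s ∈ univ.filter (fun s : G → F.S => ((n : ℝ) - mult s χ) ≤ C1 * √(n : ℝ)), LL F s =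
      (X1.card : ℂ) * V := by
    rw [← nsmul_eq_mul, ← Finset.sum_const]
    refine Finset.sum_congr rfl fun χ hχ => ?_
    rw [hX1, Finset.mem_filter] at hχ
    exact major_sum F hχ.2 (hch χ hχ.2) _
  rw [sum_LL, ← hn, ← hX1, hmaj] at hsplit
  set R : ℝ := (n : ℝ) ^ n * ((CM G).card : ℝ) / (n.factorial : ℝ) ^ 2 with hR
  have hRc : (n : ℂ) ^ n * ((CM G).card : ℂ) / (n.factorial : ℂ) ^ 2 = (R : ℂ) := by
    rw [hR]
    push_cast
    rfl
  rw [hRc] at hsplit
  set m : ℂ := ∑ s ∈ univ.filter (fun s : G → F.S => ∀ χ, F.d χ = 1 →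
      C1 * √(n : ℝ) < (n : ℝ) - mult s χ), LL F s with hm
  have hre := congrArg Complex.re hsplit
  rw [Complex.ofReal_re, Complex.add_re, Complex.mul_re, Complex.natCast_re, Complex.natCast_im,
    zero_mul, sub_zero] at hre
  have hmre : -(0.01 * (1 + (X1.card : ℝ))) ≤ m.re := by
    have h1 := Complex.abs_re_le_norm m
    have h2 := (abs_le.1 (h1.trans hminor')).1
    exact h2
  have hVre : 0.34 ≤ V.re := by
    have h1 := (abs_le.1 ((Complex.abs_re_le_norm (V - 1)).trans hVle)).1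
    rw [Complex.sub_re, Complex.one_re] at h1
    linarith
  rw [hre]
  nlinarith

end assemble

/-- the count of complete mappings -/
theorem count_bound : ∃ N : ℕ, ∀ (G : Type) [Group G] [Fintype G] [DecidableEq G],
    N ≤ Fintype.card G →
    (∀ P : Sylow 2 G, (P : Subgroup G) = ⊥ ∨ ¬ IsCyclic (P : Subgroup G)) →
    3 * √((Fintype.card G : ℝ) ^ Fintype.card G) < ((CM G).card : ℝ) := by
  obtain ⟨N, hN⟩ := analytic
  refine ⟨max N 240, ?_⟩
  intro G _ _ _ hG hsyl
  have h1 := hN G (le_trans (le_max_left _ _) hG) hsyl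
  set n := Fintype.card G with hn
  have hn240 : 240 ≤ n := le_trans (le_max_right _ _) hG
  have hnR : (240 : ℝ) ≤ n := by exact_mod_cast hn240
  have hn0 : (0 : ℝ) < n := by linarith
  have hf0 : (0 : ℝ) < (n.factorial : ℝ) := by positivity
  have he := Real.exp_pos 1
  have he9 := Real.exp_one_lt_d9
  rw [le_div_iff₀ (by positivity)] at h1
  set A : ℝ := (n : ℝ) ^ n with hA
  have hA0 : 0 < A := by positivity
  set s : ℝ := √A with hs
  have hs0 : 0 < s := Real.sqrt_pos.2 hA0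
  have hss : s * s = A := Real.mul_self_sqrt hA0.le
  -- lower bound for the factorial
  have hfac : (n : ℝ) ^ n / Real.exp 1 ^ n ≤ (n.factorial : ℝ) := by
    have h2 := Real.pow_div_factorial_le_exp (n : ℝ) hn0.le n
    have h3 : Real.exp (n : ℝ) = (Real.exp 1) ^ n := by
      rw [← Real.exp_nat_mul, mul_one]
    rw [div_le_iff₀ (by positivity), h3] at h2
    rw [div_le_iff₀ (by positivity)]
    linarith
  -- `√n ≥ 2 e²`
  have hsn : 2 * Real.exp 1 ^ 2 ≤ √(n : ℝ) := by
    apply Real.le_sqrt_of_sq_le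
    have h2 : Real.exp 1 ^ 2 ≤ 7.39 := by nlinarith
    have h3 : 0 < Real.exp 1 ^ 2 := by positivity
    nlinarith
  have hpow : 16 * (Real.exp 1 ^ n) ^ 2 ≤ s := by
    have h2 : s = (√(n : ℝ)) ^ n := by
      rw [hs, hA]
      have : (n : ℝ) ^ n = ((√(n : ℝ)) ^ n) ^ 2 := by
        rw [← pow_mul, mul_comm n 2, pow_mul, Real.sq_sqrt hn0.le]
      rw [this, Real.sqrt_sq (by positivity)]
    rw [h2]
    calc 16 * (Real.exp 1 ^ n) ^ 2 ≤ 2 ^ n * (Real.exp 1 ^ n) ^ 2 := by
          have h3 : (16 : ℝ) ≤ 2 ^ n := by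
            calc (16 : ℝ) = 2 ^ 4 := by norm_num
              _ ≤ 2 ^ n := pow_le_pow_right₀ (by norm_num) (by omega)
          gcongr
      _ = (2 * Real.exp 1 ^ 2) ^ n := by
          rw [mul_pow, ← pow_mul, ← pow_mul, mul_comm n 2]
      _ ≤ (√(n : ℝ)) ^ n := pow_le_pow_left₀ (by positivity) hsn n
  set E : ℝ := Real.exp 1 ^ n with hE
  have hE0 : 0 < E := by positivity
  have hfac2 : A ^ 2 ≤ (n.factorial : ℝ) ^ 2 * E ^ 2 := by
    rw [div_le_iff₀ hE0] at hfac
    calc A ^ 2 ≤ ((n.factorial : ℝ) * E) ^ 2 := by gcongr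
      _ = _ := by ring
  -- conclude
  by_contra hcon
  push Not at hcon
  have h4 : 0.3 * (n.factorial : ℝ) ^ 2 ≤ A * (3 * s) :=
    h1.trans (mul_le_mul_of_nonneg_left hcon hA0.le)
  have h5 : 0.3 * A ^ 2 ≤ A * (3 * s) * E ^ 2 := by
    calc 0.3 * A ^ 2 ≤ 0.3 * ((n.factorial : ℝ) ^ 2 * E ^ 2) := by gcongr
      _ = (0.3 * (n.factorial : ℝ) ^ 2) * E ^ 2 := by ring
      _ ≤ A * (3 * s) * E ^ 2 := by gcongr
  have h6 : A * (3 * s) * E ^ 2 ≤ A * (3 * s) * (s / 16) := by
    have : E ^ 2 ≤ s / 16 := by linarith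
    gcongr
  have h7 : A * (3 * s) * (s / 16) = 3 / 16 * A ^ 2 := by
    calc A * (3 * s) * (s / 16) = 3 / 16 * A * (s * s) := by ring
      _ = _ := by rw [hss]; ring
  have h8 : 0 < A ^ 2 := by positivity
  rw [h7] at h6
  linarith

end Pool.Agent.Lib.MP_281388_al
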