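import Mathlib

set_option autoImplicit false

open Equiv Equiv.Perm

namespace Pool.Agent.Lib.MP_281388_al.Odd

open scoped Classical in
/-- Parity pair `(a,b)` is realised by a complete mapping of the finite group `G`. -/
noncomputable def PP (G : Type*) [Group G] [Finite G] (a b : ℤˣ) : Prop :=
  let _ := Fintype.ofFinite G
  ∃ f θ : Perm G, (∀ x, x * f x = θ x) ∧ sign f = a ∧ sign θ = b

/-- All four parity pairs are realised. -/
def Full (G : Type*) [Group G] [Finite G] : Prop := ∀ a b, PP G a b

theorem sign_inst {G : Type*} (i1 i2 : DecidableEq G) (j1 j2 : Fintype G) (f : Perm G) :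
    @sign G i1 j1 f = @sign G i2 j2 f := by
  rw [Subsingleton.elim i1 i2, Subsingleton.elim j1 j2]

theorem PP_iff {G : Type*} [Group G] [Fintype G] [DecidableEq G] (a b : ℤˣ) :
    PP G a b ↔ ∃ f θ : Perm G, (∀ x, x * f x = θ x) ∧ sign f = a ∧ sign θ = b := by
  unfold PP
  constructor
  · rintro ⟨f, θ, h, h1, h2⟩
    refine ⟨f, θ, h, ?_, ?_⟩
    · rw [← h1]; exact sign_inst _ _ _ _ _
    · rw [← h2]; exact sign_inst _ _ _ _ _
  · rintro ⟨f, θ, h, h1, h2⟩
    refine ⟨f, θ, h, ?_, ?_⟩
    · rw [← h1]; exact sign_inst _ _ _ _ _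
    · rw [← h2]; exact sign_inst _ _ _ _ _

theorem PP_iff' {G : Type*} [Group G] [Fintype G] [DecidableEq G] (a b : ℤˣ) :
    PP G a b ↔ ∃ f : Perm G, ∃ hf : Function.Bijective (fun x : G => x * f x),
      sign f = a ∧ sign (Equiv.ofBijective (fun x : G => x * f x) hf) = b := by
  rw [PP_iff]
  constructor
  · rintro ⟨f, θ, h, h1, h2⟩
    have hb : Function.Bijective (fun x : G => x * f x) := by
      have : (fun x : G => x * f x) = θ := funext h
      rw [this]; exact θ.bijective
    refine ⟨f, hb, h1, ?_⟩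
    rw [← h2]
    congr 1
    ext x
    simp [h]
  · rintro ⟨f, hf, h1, h2⟩
    exact ⟨f, Equiv.ofBijective _ hf, fun x => rfl, h1, h2⟩

/-- Subgroup replacement: if `K` embeds in the odd order group `G` and `K` realises all four
parity pairs then so does `G`. -/
theorem Full.of_injective {K G : Type*} [Group K] [Finite K] [Group G] [Finite G]
    (hG : Odd (Nat.card G)) (φ : K →* G) (hφ : Function.Injective φ) (hK : Full K) : Full G := by
  classical
  let _ := Fintype.ofFinite G
  let _ := Fintype.ofFinite K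
  have hKodd : Odd (Nat.card K) := by
    have h1 : Nat.card φ.range ∣ Nat.card G := Subgroup.card_subgroup_dvd_card _
    have h2 : Nat.card K = Nat.card φ.range :=
      Nat.card_congr (MonoidHom.ofInjective hφ).toEquiv
    rw [← h2] at h1
    exact Odd.of_dvd_nat hG h1
  have cG : (Nat.card G).Coprime 2 := Nat.Coprime.symm (Nat.coprime_two_left.mpr hG)
  have cK : (Nat.card K).Coprime 2 := Nat.Coprime.symm (Nat.coprime_two_left.mpr hKodd)
  intro a b
  set sG : Perm G := powCoprime cG with hsG
  set sK : Perm K := powCoprime cK with hsK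
  have hsG' : ∀ x, sG x = x ^ 2 := fun x => by simp [hsG]
  have hsK' : ∀ x, sK x = x ^ 2 := fun x => by simp [hsK]
  obtain ⟨g, τ, h, h1, h2⟩ := (PP_iff (G := K) a (b * sign sG * sign sK)).1 (hK _ _)
  rw [PP_iff]
  let e : K ≃ {x : G // x ∈ φ.range} := (MonoidHom.ofInjective hφ).toEquiv
  have he : ∀ k, ((e k : {x : G // x ∈ φ.range}) : G) = φ k := fun k => rfl
  refine ⟨g.extendDomain e, sG * (sK⁻¹ * τ).extendDomain e, ?_, ?_, ?_⟩
  · intro x
    by_cases hx : x ∈ φ.range
    · obtain ⟨k, rfl⟩ := hx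
      have e1 : g.extendDomain e (φ k) = φ (g k) := by
        rw [← he k, extendDomain_apply_image, he]
      have e2 : (sK⁻¹ * τ).extendDomain e (φ k) = φ (sK⁻¹ (τ k)) := by
        rw [← he k, extendDomain_apply_image, he]; rfl
      rw [e1, Perm.mul_apply, e2, hsG', ← map_pow, ← map_mul, h]
      congr 1
      rw [← hsK', ← Perm.mul_apply, mul_inv_cancel, Perm.one_apply]
    · rw [extendDomain_apply_not_subtype _ _ hx, Perm.mul_apply,
        extendDomain_apply_not_subtype _ _ hx, hsG', pow_two]
  · rw [sign_extendDomain, h1]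
  · rw [Perm.sign_mul, sign_extendDomain, Perm.sign_mul, sign_inv, h2]
    have h3 : ∀ u v w : ℤˣ, u * (v * (w * u * v)) = w := by decide
    exact h3 _ _ _

theorem Full.of_mulEquiv {K G : Type*} [Group K] [Finite K] [Group G] [Finite G]
    (hG : Odd (Nat.card G)) (φ : K ≃* G) (hK : Full K) : Full G :=
  Full.of_injective hG φ.toMonoidHom φ.injective hK

/-- Criterion for the additive groups used below. -/
theorem full_of_add {A : Type*} [AddGroup A] [Fintype A] [DecidableEq A]
    (h : ∀ a b : ℤˣ, ∃ f θ : Perm A, (∀ x, x + f x = θ x) ∧ sign f = a ∧ sign θ = b) :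
    Full (Multiplicative A) := by
  intro a b
  rw [PP_iff]
  obtain ⟨f, θ, h1, h2, h3⟩ := h a b
  refine ⟨(Multiplicative.ofAdd.symm.trans f).trans Multiplicative.ofAdd,
    (Multiplicative.ofAdd.symm.trans θ).trans Multiplicative.ofAdd, ?_, ?_, ?_⟩
  · intro x
    simp only [Equiv.trans_apply]
    rw [← h1]
    rfl
  · rw [← h2]
    exact sign_symm_trans_trans f Multiplicative.ofAdd
  · rw [← h3]
    exact sign_symm_trans_trans θ Multiplicative.ofAdd

end Pool.Agent.Lib.MP_281388_al.Odd
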