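import Mathlib
import Pool.Agent.Lib.MP_281388_al.OddBasic

set_option autoImplicit false

open Equiv Equiv.Perm

namespace Pool.Agent.Lib.MP_281388_al.Odd

section Prime

variable {p : ℕ} [Fact p.Prime]

/-- The sign of multiplication by a unit on `ZMod p`. -/
noncomputable def sg : (ZMod p)ˣ →* ℤˣ := sign.comp (MulAction.toPermHom (ZMod p)ˣ (ZMod p))

theorem sg_apply (u : (ZMod p)ˣ) : sg u = sign (MulAction.toPerm u : Perm (ZMod p)) := rfl

theorem exists_sg_neg (hp : 2 < p) : ∃ u : (ZMod p)ˣ, sg u = -1 := by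
  classical
  obtain ⟨g, hg⟩ := IsCyclic.exists_generator (α := (ZMod p)ˣ)
  refine ⟨g, ?_⟩
  rw [sg_apply]
  have hp1 : p.Prime := Fact.out
  have hg1 : g ≠ 1 := by
    rintro rfl
    have : ∀ x : (ZMod p)ˣ, x = 1 := by
      intro x
      have := hg x
      simpa using this
    have hcard : Fintype.card (ZMod p)ˣ = p - 1 := ZMod.card_units p
    have : Fintype.card (ZMod p)ˣ ≤ 1 :=
      Fintype.card_le_one_iff.2 (fun a b => by rw [this a, this b])
    omega
  have hmove : ∀ y : ZMod p, (MulAction.toPerm g : Perm (ZMod p)) y ≠ y ↔ y ≠ 0 := by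
    intro y
    constructor
    · rintro h rfl
      exact h (by simp)
    · intro hy h
      have : (g : ZMod p) * y = y := h
      have h2 : (g : ZMod p) = 1 := by
        have := mul_right_cancel₀ hy (this.trans (one_mul y).symm)
        exact this
      exact hg1 (Units.ext h2)
  have hcyc : (MulAction.toPerm g : Perm (ZMod p)).IsCycle := by
    refine ⟨1, (hmove 1).2 one_ne_zero, ?_⟩
    intro y hy
    have hy0 : y ≠ 0 := (hmove y).1 hy
    obtain ⟨k, hk⟩ := hg (Units.mk0 y hy0)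
    refine ⟨k, ?_⟩
    have h1 : ((MulAction.toPerm g : Perm (ZMod p)) ^ k) = MulAction.toPerm (g ^ k) := by
      have := map_zpow (MulAction.toPermHom (ZMod p)ˣ (ZMod p)) g k
      exact this.symm
    rw [h1]
    simp only at hk
    rw [hk]
    simp [Units.smul_def]
  have hsupp : (MulAction.toPerm g : Perm (ZMod p)).support = Finset.univ.erase 0 := by
    ext y
    rw [mem_support, hmove]
    simp
  rw [hcyc.sign, hsupp, Finset.card_erase_of_mem (Finset.mem_univ _), Finset.card_univ, ZMod.card]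
  have : Even (p - 1) := hp1.even_sub_one (by omega)
  rw [this.neg_one_pow]

/-- Consecutive sign pattern. -/
def Q (p : ℕ) [Fact p.Prime] (α β : ℤˣ) : Prop :=
  ∃ a b : (ZMod p)ˣ, (b : ZMod p) = a + 1 ∧ sg a = α ∧ sg b = β

theorem Q.inv {α β : ℤˣ} (h : Q p α β) : Q p α (α * β) := by
  obtain ⟨a, b, hab, ha, hb⟩ := h
  refine ⟨a⁻¹, b * a⁻¹, ?_, ?_, ?_⟩
  · rw [Units.val_mul, hab, add_mul, Units.mul_inv, one_mul, add_comm]
  · rw [map_inv, ha, Int.units_inv_eq_self]
  · rw [map_mul, map_inv, ha, hb, Int.units_inv_eq_self, mul_comm]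

theorem Q.neg {α β : ℤˣ} (h : Q p α β) :
    Q p (sg (-1 : (ZMod p)ˣ) * β) (sg (-1 : (ZMod p)ˣ) * α) := by
  obtain ⟨a, b, hab, ha, hb⟩ := h
  refine ⟨-b, -a, ?_, ?_, ?_⟩
  · rw [Units.val_neg, Units.val_neg, hab]; ring
  · rw [← hb, ← map_mul, neg_one_mul]
  · rw [← ha, ← map_mul, neg_one_mul]

theorem natCast_ne_zero_of_lt {m : ℕ} (h0 : 0 < m) (h : m < p) : (m : ZMod p) ≠ 0 := by
  intro h1
  rw [ZMod.natCast_eq_zero_iff] at h1
  exact absurd (Nat.le_of_dvd h0 h1) (by omega)

theorem Q_one_one (hp : 7 ≤ p) : Q p 1 1 := by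
  have h2 : (2 : ZMod p) ≠ 0 := by
    have := natCast_ne_zero_of_lt (p := p) (m := 2) (by norm_num) (by omega)
    simpa using this
  have h3 : (3 : ZMod p) ≠ 0 := by
    have := natCast_ne_zero_of_lt (p := p) (m := 3) (by norm_num) (by omega)
    simpa using this
  have h5 : (5 : ZMod p) ≠ 0 := by
    have := natCast_ne_zero_of_lt (p := p) (m := 5) (by norm_num) (by omega)
    simpa using this
  set u2 : (ZMod p)ˣ := Units.mk0 2 h2
  set u3 : (ZMod p)ˣ := Units.mk0 3 h3
  set u5 : (ZMod p)ˣ := Units.mk0 5 h5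
  rcases Int.units_eq_one_or (sg u2) with e2 | e2
  · exact ⟨1, u2, by simp [u2]; norm_num, map_one _, e2⟩
  rcases Int.units_eq_one_or (sg u5) with e5 | e5
  · refine ⟨u2 * u2, u5, ?_, ?_, e5⟩
    · simp [u2, u5]; norm_num
    · rw [map_mul, Int.units_mul_self]
  · refine ⟨u3 * u3, u2 * u5, ?_, ?_, ?_⟩
    · simp [u2, u5, u3]; norm_num
    · rw [map_mul, Int.units_mul_self]
    · rw [map_mul, e2, e5]; rfl

theorem Q_one_neg (hp : 7 ≤ p) : Q p 1 (-1) := by
  classical
  obtain ⟨u, hu⟩ := exists_sg_neg (p := p) (by omega)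
  have hex : ∃ m : ℕ, ∃ v : (ZMod p)ˣ, (v : ZMod p) = m ∧ sg v = -1 :=
    ⟨(u : ZMod p).val, u, by simp, hu⟩
  have hlt : Nat.find hex < p := by
    have := Nat.find_min' hex (m := (u : ZMod p).val) ⟨u, by simp, hu⟩
    exact lt_of_le_of_lt this (ZMod.val_lt _)
  obtain ⟨v, hv1, hv2⟩ := Nat.find_spec hex
  have hmin : ∀ k, k < Nat.find hex → ∀ w : (ZMod p)ˣ, (w : ZMod p) = k → sg w = 1 := by
    intro k hk w hw
    have := Nat.find_min hex hk
    rcases Int.units_eq_one_or (sg w) with h | h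
    · exact h
    · exact absurd ⟨w, hw, h⟩ this
  set m := Nat.find hex with hm
  have hm0 : m ≠ 0 := by
    intro h0
    rw [h0] at hv1
    simp at hv1
  have hm1 : m ≠ 1 := by
    intro h0
    rw [h0] at hv1
    have : v = 1 := Units.ext (by simpa using hv1)
    rw [this, map_one] at hv2
    exact absurd hv2 (by decide)
  have hne : ((m - 1 : ℕ) : ZMod p) ≠ 0 := natCast_ne_zero_of_lt (by omega) (by omega)
  refine ⟨Units.mk0 _ hne, v, ?_, ?_, hv2⟩
  · rw [hv1]
    simp only [Units.val_mk0]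
    rw [Nat.cast_sub (by omega)]
    simp
  · exact hmin (m - 1) (by omega) _ rfl

theorem Q_all (hp : 7 ≤ p) (α β : ℤˣ) : Q p α β := by
  have h11 := Q_one_one hp
  have h1n := Q_one_neg hp
  have key : Q p (-1) 1 ∧ Q p (-1) (-1) := by
    rcases Int.units_eq_one_or (sg (-1 : (ZMod p)ˣ)) with e | e
    · have a1 := h1n.neg
      rw [e] at a1
      simp only [one_mul] at a1
      have a2 := a1.inv
      exact ⟨a1, by simpa using a2⟩
    · have a1 := h11.neg
      rw [e] at a1
      simp only [mul_one] at a1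
      have a2 := a1.inv
      exact ⟨by simpa using a2, a1⟩
  rcases Int.units_eq_one_or α with rfl | rfl <;> rcases Int.units_eq_one_or β with rfl | rfl
  · exact h11
  · exact h1n
  · exact key.1
  · exact key.2

theorem full_zmod_prime (hp : 7 ≤ p) : Full (Multiplicative (ZMod p)) := by
  apply full_of_add
  intro α β
  obtain ⟨a, b, hab, ha, hb⟩ := Q_all hp α β
  refine ⟨MulAction.toPerm a, MulAction.toPerm b, ?_, ha, hb⟩
  intro x
  simp only [MulAction.toPerm_apply, Units.smul_def, smul_eq_mul, hab]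
  ring

end Prime

end Pool.Agent.Lib.MP_281388_al.Odd
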