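import Mathlib
import Pool.Agent.Lib.MP_281388_al.OddBasic

set_option autoImplicit false
set_option maxRecDepth 100000

open Equiv Equiv.Perm

namespace Pool.Agent.Lib.MP_281388_al.Odd

/-- Product of a list of transpositions. -/
def ofSwaps {α : Type*} [DecidableEq α] (l : List (α × α)) : Perm α :=
  (l.map fun q => swap q.1 q.2).prod

theorem sign_ofSwaps {α : Type*} [DecidableEq α] [Fintype α] (l : List (α × α))
    (h : ∀ q ∈ l, q.1 ≠ q.2) : sign (ofSwaps l) = (-1) ^ l.length := by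
  induction l with
  | nil => simp [ofSwaps]
  | cons q l ih =>
    have h1 : ofSwaps (q :: l) = swap q.1 q.2 * ofSwaps l := by simp [ofSwaps]
    rw [h1, Perm.sign_mul, sign_swap (h q (by simp)), ih (fun r hr => h r (by simp [hr])),
      List.length_cons, pow_succ, mul_comm]

theorem full_Z9 : Full (Multiplicative (ZMod 9)) := by
  apply full_of_add
  intro α β
  rcases Int.units_eq_one_or α with rfl | rfl <;> rcases Int.units_eq_one_or β with rfl | rfl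
  · refine ⟨ofSwaps ([(0, 5), (5, 3), (3, 8), (8, 1), (1, 2), (2, 4), (4, 6), (6, 7)] : List ((ZMod 9) × (ZMod 9))),
      ofSwaps ([(0, 5), (5, 8), (1, 3), (3, 2), (2, 6), (6, 4)] : List ((ZMod 9) × (ZMod 9))), ?_, ?_, ?_⟩
    · decide +kernel
    · rw [sign_ofSwaps _ (by decide)]; decide
    · rw [sign_ofSwaps _ (by decide)]; decide
  · refine ⟨ofSwaps ([(0, 5), (5, 3), (3, 6), (6, 1), (1, 2), (2, 8), (8, 7), (7, 4)] : List ((ZMod 9) × (ZMod 9))),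
      ofSwaps ([(0, 5), (5, 8), (8, 6), (6, 7), (7, 2), (2, 1), (1, 3)] : List ((ZMod 9) × (ZMod 9))), ?_, ?_, ?_⟩
    · decide +kernel
    · rw [sign_ofSwaps _ (by decide)]; decide
    · rw [sign_ofSwaps _ (by decide)]; decide
  · refine ⟨ofSwaps ([(0, 5), (5, 4), (4, 7), (7, 6), (6, 1), (1, 2), (2, 8)] : List ((ZMod 9) × (ZMod 9))),
      ofSwaps ([(0, 5), (1, 3), (3, 6), (6, 7), (7, 4), (4, 2)] : List ((ZMod 9) × (ZMod 9))), ?_, ?_, ?_⟩
    · decide +kernel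
    · rw [sign_ofSwaps _ (by decide)]; decide
    · rw [sign_ofSwaps _ (by decide)]; decide
  · refine ⟨ofSwaps ([(0, 5), (5, 6), (6, 7), (1, 2), (2, 8)] : List ((ZMod 9) × (ZMod 9))),
      ofSwaps ([(0, 5), (5, 2), (2, 1), (1, 3), (3, 6), (6, 4), (4, 8)] : List ((ZMod 9) × (ZMod 9))), ?_, ?_, ?_⟩
    · decide +kernel
    · rw [sign_ofSwaps _ (by decide)]; decide
    · rw [sign_ofSwaps _ (by decide)]; decide

theorem full_Z25 : Full (Multiplicative (ZMod 25)) := by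
  apply full_of_add
  intro α β
  rcases Int.units_eq_one_or α with rfl | rfl <;> rcases Int.units_eq_one_or β with rfl | rfl
  · refine ⟨ofSwaps ([(0, 10), (10, 2), (1, 18), (18, 14), (14, 19), (19, 4), (4, 7), (7, 6), (6, 23), (23, 20), (20, 5), (5, 11), (11, 17), (17, 3), (3, 12), (12, 22), (22, 24), (24, 15), (15, 16), (16, 8), (8, 9), (9, 21)] : List ((ZMod 25) × (ZMod 25))),
      ofSwaps ([(0, 10), (10, 12), (12, 9), (9, 5), (5, 16), (16, 24), (24, 14), (14, 8), (8, 17), (17, 20), (1, 19), (19, 23), (23, 18), (18, 7), (7, 13), (3, 15), (15, 6), (6, 4), (4, 11), (21, 22)] : List ((ZMod 25) × (ZMod 25))), ?_, ?_, ?_⟩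
    · decide +kernel
    · rw [sign_ofSwaps _ (by decide)]; decide
    · rw [sign_ofSwaps _ (by decide)]; decide
  · refine ⟨ofSwaps ([(0, 10), (10, 2), (1, 18), (18, 14), (14, 19), (19, 3), (3, 12), (12, 22), (4, 7), (7, 6), (6, 23), (23, 20), (5, 11), (11, 17), (17, 8), (8, 9), (9, 21), (21, 24), (24, 15), (15, 16)] : List ((ZMod 25) × (ZMod 25))),
      ofSwaps ([(0, 10), (10, 12), (12, 9), (9, 5), (5, 16), (16, 21), (21, 20), (20, 24), (24, 14), (14, 8), (8, 17), (1, 19), (19, 22), (22, 23), (23, 18), (18, 7), (7, 13), (3, 15), (15, 6), (6, 4), (4, 11)] : List ((ZMod 25) × (ZMod 25))), ?_, ?_, ?_⟩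
    · decide +kernel
    · rw [sign_ofSwaps _ (by decide)]; decide
    · rw [sign_ofSwaps _ (by decide)]; decide
  · refine ⟨ofSwaps ([(0, 10), (10, 2), (1, 18), (18, 14), (14, 19), (19, 4), (4, 7), (7, 6), (6, 23), (23, 20), (3, 12), (12, 22), (5, 11), (11, 17), (8, 9), (9, 21), (21, 24), (24, 15), (15, 16)] : List ((ZMod 25) × (ZMod 25))),
      ofSwaps ([(0, 10), (10, 12), (12, 9), (9, 5), (5, 16), (16, 24), (24, 14), (14, 8), (8, 17), (17, 22), (1, 19), (19, 23), (23, 18), (18, 7), (7, 13), (3, 15), (15, 6), (6, 4), (4, 11), (20, 21)] : List ((ZMod 25) × (ZMod 25))), ?_, ?_, ?_⟩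
    · decide +kernel
    · rw [sign_ofSwaps _ (by decide)]; decide
    · rw [sign_ofSwaps _ (by decide)]; decide
  · refine ⟨ofSwaps ([(0, 10), (10, 2), (1, 18), (18, 14), (14, 19), (19, 5), (5, 11), (11, 17), (17, 8), (8, 9), (9, 21), (3, 12), (12, 22), (22, 24), (24, 15), (15, 16), (16, 4), (4, 7), (7, 6), (6, 23), (23, 20)] : List ((ZMod 25) × (ZMod 25))),
      ofSwaps ([(0, 10), (10, 12), (12, 9), (9, 5), (5, 16), (16, 20), (20, 23), (23, 18), (18, 7), (7, 13), (13, 1), (1, 19), (19, 24), (24, 14), (14, 8), (8, 17), (3, 15), (15, 6), (6, 4), (4, 11), (21, 22)] : List ((ZMod 25) × (ZMod 25))), ?_, ?_, ?_⟩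
    · decide +kernel
    · rw [sign_ofSwaps _ (by decide)]; decide
    · rw [sign_ofSwaps _ (by decide)]; decide

theorem full_Z15 : Full (Multiplicative (ZMod 15)) := by
  apply full_of_add
  intro α β
  rcases Int.units_eq_one_or α with rfl | rfl <;> rcases Int.units_eq_one_or β with rfl | rfl
  · refine ⟨ofSwaps ([(0, 14), (14, 9), (9, 3), (3, 2), (2, 4), (4, 11), (11, 13), (13, 6), (6, 12), (12, 1), (1, 10), (10, 7)] : List ((ZMod 15) × (ZMod 15))),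
      ofSwaps ([(0, 14), (14, 8), (8, 1), (1, 11), (11, 9), (9, 12), (12, 13), (13, 4), (2, 6), (6, 3), (3, 5), (5, 10)] : List ((ZMod 15) × (ZMod 15))), ?_, ?_, ?_⟩
    · decide +kernel
    · rw [sign_ofSwaps _ (by decide)]; decide
    · rw [sign_ofSwaps _ (by decide)]; decide
  · refine ⟨ofSwaps ([(0, 14), (14, 13), (13, 6), (6, 1), (1, 10), (10, 3), (3, 2), (2, 4), (4, 11), (11, 7), (7, 9), (9, 8)] : List ((ZMod 15) × (ZMod 15))),
      ofSwaps ([(0, 14), (14, 12), (12, 9), (9, 2), (2, 6), (6, 7), (7, 1), (1, 11), (11, 3), (3, 5), (5, 10), (10, 13), (13, 4)] : List ((ZMod 15) × (ZMod 15))), ?_, ?_, ?_⟩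
    · decide +kernel
    · rw [sign_ofSwaps _ (by decide)]; decide
    · rw [sign_ofSwaps _ (by decide)]; decide
  · refine ⟨ofSwaps ([(0, 14), (14, 13), (1, 10), (10, 12), (12, 7), (2, 4), (4, 11), (11, 6), (6, 3)] : List ((ZMod 15) × (ZMod 15))),
      ofSwaps ([(0, 14), (14, 12), (12, 4), (1, 11), (11, 2), (2, 6), (6, 9), (9, 3), (3, 5), (5, 10), (10, 7), (7, 8)] : List ((ZMod 15) × (ZMod 15))), ?_, ?_, ?_⟩
    · decide +kernel
    · rw [sign_ofSwaps _ (by decide)]; decide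
    · rw [sign_ofSwaps _ (by decide)]; decide
  · refine ⟨ofSwaps ([(0, 14), (14, 13), (13, 3), (3, 2), (2, 4), (4, 11), (11, 12), (12, 7), (7, 6), (6, 1), (1, 10), (10, 8), (8, 9)] : List ((ZMod 15) × (ZMod 15))),
      ofSwaps ([(0, 14), (14, 12), (12, 4), (1, 11), (11, 8), (8, 2), (2, 6), (6, 7), (7, 13), (3, 5), (5, 10)] : List ((ZMod 15) × (ZMod 15))), ?_, ?_, ?_⟩
    · decide +kernel
    · rw [sign_ofSwaps _ (by decide)]; decide
    · rw [sign_ofSwaps _ (by decide)]; decide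

theorem full_Z3Z3 : Full (Multiplicative (ZMod 3 × ZMod 3)) := by
  apply full_of_add
  intro α β
  rcases Int.units_eq_one_or α with rfl | rfl <;> rcases Int.units_eq_one_or β with rfl | rfl
  · refine ⟨ofSwaps ([((0,0), (1,2)), ((1,2), (1,0)), ((1,0), (0,1)), ((0,1), (0,2)), ((0,2), (2,2)), ((2,2), (2,1)), ((2,1), (1,1)), ((1,1), (2,0))] : List ((ZMod 3 × ZMod 3) × (ZMod 3 × ZMod 3))),
      ofSwaps ([((0,0), (1,2)), ((1,2), (2,2)), ((2,2), (1,0)), ((1,0), (1,1)), ((1,1), (0,1)), ((0,2), (2,1))] : List ((ZMod 3 × ZMod 3) × (ZMod 3 × ZMod 3))), ?_, ?_, ?_⟩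
    · decide +kernel
    · rw [sign_ofSwaps _ (by decide)]; decide
    · rw [sign_ofSwaps _ (by decide)]; decide
  · refine ⟨ofSwaps ([((0,0), (1,2)), ((1,2), (2,0)), ((2,0), (1,1)), ((0,1), (0,2)), ((0,2), (2,2)), ((2,2), (2,1))] : List ((ZMod 3 × ZMod 3) × (ZMod 3 × ZMod 3))),
      ofSwaps ([((0,0), (1,2)), ((1,2), (0,2)), ((0,2), (2,1)), ((2,1), (2,2)), ((2,2), (1,0)), ((1,0), (2,0)), ((2,0), (0,1))] : List ((ZMod 3 × ZMod 3) × (ZMod 3 × ZMod 3))), ?_, ?_, ?_⟩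
    · decide +kernel
    · rw [sign_ofSwaps _ (by decide)]; decide
    · rw [sign_ofSwaps _ (by decide)]; decide
  · refine ⟨ofSwaps ([((0,0), (1,2)), ((1,2), (0,1)), ((0,1), (0,2)), ((0,2), (2,2)), ((2,2), (1,0)), ((1,0), (2,1)), ((2,1), (2,0))] : List ((ZMod 3 × ZMod 3) × (ZMod 3 × ZMod 3))),
      ofSwaps ([((0,0), (1,2)), ((1,2), (1,0)), ((1,0), (0,1)), ((0,2), (2,1)), ((2,1), (1,1)), ((1,1), (2,2))] : List ((ZMod 3 × ZMod 3) × (ZMod 3 × ZMod 3))), ?_, ?_, ?_⟩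
    · decide +kernel
    · rw [sign_ofSwaps _ (by decide)]; decide
    · rw [sign_ofSwaps _ (by decide)]; decide
  · refine ⟨ofSwaps ([((0,0), (1,2)), ((1,2), (1,1)), ((1,1), (2,1)), ((2,1), (1,0)), ((1,0), (0,1)), ((0,1), (0,2)), ((0,2), (2,2))] : List ((ZMod 3 × ZMod 3) × (ZMod 3 × ZMod 3))),
      ofSwaps ([((0,0), (1,2)), ((1,2), (2,0)), ((2,0), (1,0)), ((1,0), (1,1)), ((1,1), (0,2)), ((0,2), (2,1)), ((2,1), (0,1))] : List ((ZMod 3 × ZMod 3) × (ZMod 3 × ZMod 3))), ?_, ?_, ?_⟩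
    · decide +kernel
    · rw [sign_ofSwaps _ (by decide)]; decide
    · rw [sign_ofSwaps _ (by decide)]; decide

theorem full_Z5Z5 : Full (Multiplicative (ZMod 5 × ZMod 5)) := by
  apply full_of_add
  intro α β
  rcases Int.units_eq_one_or α with rfl | rfl <;> rcases Int.units_eq_one_or β with rfl | rfl
  · refine ⟨ofSwaps ([((0,0), (2,0)), ((2,0), (0,4)), ((0,4), (1,2)), ((1,2), (0,3)), ((0,3), (2,3)), ((2,3), (1,3)), ((1,3), (2,4)), ((2,4), (3,4)), ((3,4), (1,0)), ((1,0), (4,4)), ((4,4), (0,1)), ((0,1), (3,3)), ((3,3), (3,1)), ((3,1), (4,2)), ((4,2), (4,3)), ((4,3), (4,0)), ((4,0), (0,2)), ((1,4), (3,2)), ((3,2), (3,0)), ((3,0), (2,1)), ((2,1), (2,2)), ((2,2), (4,1))] : List ((ZMod 5 × ZMod 5) × (ZMod 5 × ZMod 5))),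
      ofSwaps ([((0,0), (2,0)), ((2,0), (2,4)), ((2,4), (0,3)), ((0,3), (2,1)), ((2,1), (4,3)), ((4,3), (3,3)), ((3,3), (1,4)), ((1,4), (4,1)), ((0,1), (3,4)), ((3,4), (4,4)), ((4,4), (4,0)), ((4,0), (4,2)), ((4,2), (3,0)), ((0,4), (1,1)), ((1,1), (2,2)), ((2,2), (1,3)), ((1,3), (3,2)), ((3,2), (1,2)), ((1,2), (1,0)), ((2,3), (3,1))] : List ((ZMod 5 × ZMod 5) × (ZMod 5 × ZMod 5))), ?_, ?_, ?_⟩
    · decide +kernel
    · rw [sign_ofSwaps _ (by decide)]; decide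
    · rw [sign_ofSwaps _ (by decide)]; decide
  · refine ⟨ofSwaps ([((0,0), (2,0)), ((2,0), (0,4)), ((0,4), (1,2)), ((1,2), (0,3)), ((0,3), (2,3)), ((2,3), (1,3)), ((1,3), (2,4)), ((2,4), (3,1)), ((3,1), (4,2)), ((4,2), (4,3)), ((4,3), (4,0)), ((4,0), (0,2)), ((0,1), (3,3)), ((3,3), (3,4)), ((3,4), (3,0)), ((3,0), (1,4)), ((1,4), (3,2)), ((3,2), (2,1)), ((2,1), (2,2)), ((2,2), (4,1)), ((4,1), (1,0)), ((1,0), (4,4))] : List ((ZMod 5 × ZMod 5) × (ZMod 5 × ZMod 5))),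
      ofSwaps ([((0,0), (2,0)), ((2,0), (2,4)), ((0,1), (3,4)), ((3,4), (1,4)), ((1,4), (4,1)), ((0,3), (2,1)), ((2,1), (4,3)), ((4,3), (3,3)), ((3,3), (1,2)), ((1,2), (1,0)), ((1,0), (0,4)), ((0,4), (1,1)), ((1,1), (2,2)), ((2,2), (1,3)), ((1,3), (3,2)), ((2,3), (3,1)), ((3,0), (4,4)), ((4,4), (4,0)), ((4,0), (4,2))] : List ((ZMod 5 × ZMod 5) × (ZMod 5 × ZMod 5))), ?_, ?_, ?_⟩
    · decide +kernel
    · rw [sign_ofSwaps _ (by decide)]; decide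
    · rw [sign_ofSwaps _ (by decide)]; decide
  · refine ⟨ofSwaps ([((0,0), (2,0)), ((2,0), (0,4)), ((0,4), (1,2)), ((1,2), (0,3)), ((0,3), (2,3)), ((2,3), (2,1)), ((2,1), (2,2)), ((2,2), (4,1)), ((4,1), (4,0)), ((4,0), (0,2)), ((0,1), (3,3)), ((3,3), (3,4)), ((3,4), (3,0)), ((3,0), (1,0)), ((1,0), (4,4)), ((4,4), (1,4)), ((1,4), (3,2)), ((1,3), (2,4)), ((2,4), (3,1)), ((3,1), (4,2)), ((4,2), (4,3))] : List ((ZMod 5 × ZMod 5) × (ZMod 5 × ZMod 5))),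
      ofSwaps ([((0,0), (2,0)), ((2,0), (2,4)), ((0,1), (3,4)), ((3,4), (1,4)), ((1,4), (4,1)), ((4,1), (3,1)), ((3,1), (2,3)), ((2,3), (4,4)), ((4,4), (0,3)), ((0,3), (2,1)), ((2,1), (4,3)), ((0,4), (1,1)), ((1,1), (2,2)), ((2,2), (1,3)), ((1,3), (3,2)), ((3,2), (3,3)), ((3,3), (1,2)), ((1,2), (1,0)), ((3,0), (4,0)), ((4,0), (4,2))] : List ((ZMod 5 × ZMod 5) × (ZMod 5 × ZMod 5))), ?_, ?_, ?_⟩
    · decide +kernel
    · rw [sign_ofSwaps _ (by decide)]; decide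
    · rw [sign_ofSwaps _ (by decide)]; decide
  · refine ⟨ofSwaps ([((0,0), (2,0)), ((2,0), (0,4)), ((0,4), (1,2)), ((1,2), (0,3)), ((0,3), (2,3)), ((2,3), (2,1)), ((2,1), (2,2)), ((2,2), (4,1)), ((4,1), (1,4)), ((1,4), (3,2)), ((3,2), (0,1)), ((0,1), (3,3)), ((3,3), (4,0)), ((4,0), (0,2)), ((1,0), (4,4)), ((4,4), (4,2)), ((4,2), (4,3)), ((4,3), (1,3)), ((1,3), (2,4)), ((2,4), (3,4)), ((3,4), (3,0))] : List ((ZMod 5 × ZMod 5) × (ZMod 5 × ZMod 5))),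
      ofSwaps ([((0,0), (2,0)), ((2,0), (2,4)), ((2,4), (0,3)), ((0,3), (2,1)), ((2,1), (4,3)), ((4,3), (0,1)), ((0,1), (3,4)), ((3,4), (1,4)), ((1,4), (4,1)), ((0,4), (1,1)), ((1,1), (2,2)), ((2,2), (1,3)), ((1,3), (3,2)), ((3,2), (3,3)), ((3,3), (2,3)), ((2,3), (4,4)), ((4,4), (3,1)), ((3,1), (1,2)), ((1,2), (1,0)), ((3,0), (4,0)), ((4,0), (4,2))] : List ((ZMod 5 × ZMod 5) × (ZMod 5 × ZMod 5))), ?_, ?_, ?_⟩
    · decide +kernel
    · rw [sign_ofSwaps _ (by decide)]; decide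
    · rw [sign_ofSwaps _ (by decide)]; decide

end Pool.Agent.Lib.MP_281388_al.Odd
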